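import Pool.Agent.CLF.Cnv

/-!
# Module Bcm: sub- and quotient bundles are bundles

PROOFS.
`bdl_cm`: `N := map a (cm a E i)` is an `R i`-stable subspace of `E i` (it is `E i ⊓ range a`), so by
`sub_gen` `N = Oo R i • span s` with `s` a finset of `V`; all elements of `s` lie in `N`, hence in the
range of `a`; pull the finset back to `U` (a is injective), and compare (`a` is F-linear).
Spanning: for `u ∈ U`, `clear_den` for `{a u}` gives `r ≠ 0` with `r • a u ∈ E i`, so `r • u ∈ cm a E i`
and `u = r⁻¹ • (r • u)`.
`bdl_mp`: image of a generating finset; images of spanning sets span.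
`bdl_ln`: apply bdl_cm to `LinearMap.toSpanSingleton F V w` (injective for `w ≠ 0`).
-/

open Module

namespace CLF

universe u

variable {F : Type u} [Field F] [Algebra ℂ F] {R : Fin 2 → Subalgebra ℂ F} {K : Lat F}
variable {V : Type u} [AddCommGroup V] [Module ℂ V] [Module F V] [IsScalarTower ℂ F V]
  [FiniteDimensional F V]
variable {U : Type u} [AddCommGroup U] [Module ℂ U] [Module F U] [IsScalarTower ℂ F U]
  [FiniteDimensional F U]
variable {W : Type u} [AddCommGroup W] [Module ℂ W] [Module F W] [IsScalarTower ℂ F W]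
  [FiniteDimensional F W]

theorem bdl_cm (G : Good R K) {E : Lat V} (hE : IsBdl R E) (a : U →ₗ[F] V)
    (ha : Function.Injective a) : IsBdl R (cm a E) := by
  classical
  refine ⟨fun i => ?_, fun i => ?_⟩
  · have hle : (cm a E i).map (a.restrictScalars ℂ) ≤ E i := by
      rintro _ ⟨u, hu, rfl⟩
      exact hu
    have hst : ∀ r ∈ R i, ∀ x ∈ (cm a E i).map (a.restrictScalars ℂ),
        r • x ∈ (cm a E i).map (a.restrictScalars ℂ) := by
      rintro r hr _ ⟨u, hu, rfl⟩
      refine ⟨r • u, ?_, ?_⟩
      · show a (r • u) ∈ E i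
        rw [map_smul]
        exact smul_stable hE i hr hu
      · show a (r • u) = r • a u
        rw [map_smul]
    obtain ⟨s, hs⟩ := sub_gen G hE i _ hle hst
    have hsr : ∀ x ∈ s, ∃ u, a u = x := by
      intro x hx
      have h1 : x ∈ (cm a E i).map (a.restrictScalars ℂ) := by
        rw [hs, mem_O_span_iff]
        exact Submodule.subset_span hx
      obtain ⟨u, _, hu⟩ := h1
      exact ⟨u, hu⟩
    obtain ⟨t, himg⟩ : ∃ t : Finset U, a '' (t : Set U) = (s : Set V) := by
      refine ⟨s.preimage a ha.injOn, ?_⟩
      ext x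
      constructor
      · rintro ⟨u, hu, rfl⟩
        simpa using hu
      · intro hx
        obtain ⟨u, hu⟩ := hsr x hx
        refine ⟨u, ?_, hu⟩
        simpa [hu] using hx
    refine ⟨t, ?_⟩
    ext u
    rw [mem_O_span_iff]
    have h2 : u ∈ cm a E i ↔ a u ∈ (cm a E i).map (a.restrictScalars ℂ) := by
      constructor
      · intro hu
        exact ⟨u, hu, rfl⟩
      · rintro ⟨u', hu', h⟩
        have : u' = u := ha h
        rwa [← this]
    rw [h2, hs, mem_O_span_iff, ← himg]
    have h3 : Submodule.span (R i) (a '' (t : Set U)) =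
        (Submodule.span (R i) (t : Set U)).map
          (a.restrictScalars (R i)) := by
      rw [Submodule.map_span]
      rfl
    rw [h3]
    constructor
    · rintro ⟨u', hu', h⟩
      have : u' = u := ha h
      rwa [← this]
    · intro hu
      exact ⟨u, hu, rfl⟩
  · rw [eq_top_iff]
    intro u _
    obtain ⟨r, hr, hr0, h⟩ := clear_den G hE i {a u}
    have h1 : r • u ∈ cm a E i := by
      show a (r • u) ∈ E i
      rw [map_smul]
      exact h _ (Finset.mem_singleton_self _)
    have h2 : u = r⁻¹ • (r • u) := by
      rw [smul_smul, inv_mul_cancel₀ hr0, one_smul]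
    rw [h2]
    exact Submodule.smul_mem _ _ (Submodule.subset_span h1)

theorem bdl_mp {E : Lat V} (hE : IsBdl R E) (b : V →ₗ[F] W)
    (hb : Function.Surjective b) : IsBdl R (mp b E) := by
  classical
  refine ⟨fun i => ?_, fun i => ?_⟩
  · obtain ⟨s, hs⟩ := hE.gen i
    refine ⟨s.image b, ?_⟩
    ext x
    rw [mem_O_span_iff]
    have h3 : Submodule.span (R i) ((s.image b : Finset W) : Set W) =
        (Submodule.span (R i) (s : Set V)).map (b.restrictScalars (R i)) := by
      rw [Submodule.map_span, Finset.coe_image]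
      rfl
    rw [h3]
    constructor
    · rintro ⟨v, hv, h⟩
      refine ⟨v, ?_, h⟩
      have hv' : v ∈ E i := hv
      rw [hs, mem_O_span_iff] at hv'
      exact hv'
    · rintro ⟨v, hv, h⟩
      refine ⟨v, ?_, h⟩
      have hv' : v ∈ E i := by
        rw [hs, mem_O_span_iff]
        exact hv
      exact hv'
  · have h1 : (Submodule.span F ((E i : Submodule ℂ V) : Set V)).map b =
        Submodule.span F ((mp b E i : Submodule ℂ W) : Set W) := by
      rw [Submodule.map_span]
      rfl
    rw [← h1, hE.spans i, Submodule.map_top]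
    exact LinearMap.range_eq_top.2 hb

theorem bdl_ln (G : Good R K) {E : Lat V} (hE : IsBdl R E) {w : V} (hw : w ≠ 0) :
    IsBdl R (ln F E w) := by
  refine bdl_cm G hE (LinearMap.toSpanSingleton F V w) ?_
  intro x y h
  simp only [LinearMap.toSpanSingleton_apply] at h
  exact smul_left_injective F hw h

end CLF
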