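import Pool.Agent.CLF.Bcm

/-!
# Module Bdl: the Serre dual bundle is a bundle

PROOF. Fix `i`. Since `E i` spans `V`, there is an `F`-basis `b : Basis (Fin n) F V` (or indexed by
`Module.Free.ChooseBasisIndex`) with all `b j ∈ E i` (extract a basis from the spanning set `E i`,
`Basis.ofSpan`/`exists_linearIndependent`). Let `N' := {φ | ∀ j, φ (b j) ∈ K i}`; it contains
`dl K E i`.  `N'` is the `i`-th part of a bundle on `Dual F V`: namely of
`E'' := fun i' => {φ | ∀ j, φ (b j) ∈ K i'}`; if `K i' = Oo • span s` then `E'' i'` is generated by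
`x • (b.dualBasis j)`, `x ∈ s`, and it spans since `K i'` spans `F`.  `dl K E i` is stable under `R i`
(`K i` is), so `sub_gen` applied to `E''` gives the generators.  Spanning: given `φ`, `E i` is
generated over `R i` by a finite set `t`; `clear_den` for the bundle `K` and the finset `φ '' t` gives
`r ≠ 0` with `r • φ x ∈ K i` for all `x ∈ t`, so `r • φ ∈ dl K E i` and `φ = r⁻¹ • (r • φ)`.
-/

open Module

namespace CLF

universe u

variable {F : Type u} [Field F] [Algebra ℂ F] {R : Fin 2 → Subalgebra ℂ F} {K : Lat F}
variable {V : Type u} [AddCommGroup V] [Module ℂ V] [Module F V] [IsScalarTower ℂ F V]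
  [FiniteDimensional F V]

/-- functions with all values in `K` -/
private def pil (ι : Type u) (K : Lat F) : Lat (ι → F) := fun j =>
  { carrier := {f | ∀ x, f x ∈ K j}
    add_mem' := fun {a b} ha hb x => (K j).add_mem (ha x) (hb x)
    zero_mem' := fun _ => (K j).zero_mem
    smul_mem' := fun c a ha x => (K j).smul_mem c (ha x) }

private theorem sgl_smul {ι : Type u} [DecidableEq ι] (x : ι) (c a : F) :
    (Pi.single x (c * a) : ι → F) = c • (Pi.single x a : ι → F) := by
  funext y
  by_cases hxy : y = x
  · subst hxy
    rw [Pi.smul_apply, Pi.single_eq_same, Pi.single_eq_same, smul_eq_mul]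
  · rw [Pi.smul_apply, Pi.single_eq_of_ne hxy, Pi.single_eq_of_ne hxy, smul_zero]

private theorem bdl_pil {ι : Type u} [Fintype ι] [DecidableEq ι] {K : Lat F} (hK : IsBdl R K) :
    IsBdl R (pil ι K) := by
  classical
  refine ⟨fun j => ?_, fun j => ?_⟩
  · obtain ⟨s, hs⟩ := hK.gen j
    obtain ⟨T, hT⟩ : ∃ T : Finset (ι → F), ∀ f : ι → F,
        f ∈ T ↔ ∃ x : ι, ∃ a ∈ s, (Pi.single x a : ι → F) = f := by
      refine ⟨(Finset.univ : Finset ι).biUnion
        (fun x => s.image (fun a => (Pi.single x a : ι → F))), ?_⟩
      intro f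
      simp only [Finset.mem_biUnion, Finset.mem_univ, true_and, Finset.mem_image]
    refine ⟨T, ?_⟩
    ext f
    rw [mem_O_span_iff]
    constructor
    · intro hf
      rw [← Finset.univ_sum_single f]
      refine Submodule.sum_mem _ (fun x _ => ?_)
      have hx : f x ∈ K j := hf x
      rw [hs, mem_O_span_iff] at hx
      refine Submodule.span_induction
        (p := fun a _ => (Pi.single x a : ι → F) ∈ Submodule.span (R j) (T : Set (ι → F)))
        (fun a ha => ?_) ?_ (fun a b _ _ ha hb => ?_) (fun c a _ ha => ?_) hx
      · have h0 : (Pi.single x a : ι → F) ∈ (T : Set (ι → F)) := (hT _).2 ⟨x, a, ha, rfl⟩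
        exact Submodule.subset_span h0
      · rw [Pi.single_zero]; exact zero_mem _
      · rw [Pi.single_add]; exact add_mem ha hb
      · have h1 : (Pi.single x (c • a) : ι → F) = c • (Pi.single x a : ι → F) :=
          sgl_smul x (c : F) a
        rw [h1]
        exact Submodule.smul_mem _ _ ha
    · intro hf
      refine Submodule.span_induction (p := fun f _ => f ∈ pil ι K j) (fun a ha => ?_)
        (zero_mem _) (fun a b _ _ ha hb => add_mem ha hb) (fun c a _ ha => ?_) hf
      · obtain ⟨x, b, hb0, rfl⟩ := (hT a).1 ha
        have hb : b ∈ K j := by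
          rw [hs, mem_O_span_iff]
          exact Submodule.subset_span hb0
        intro y
        by_cases hxy : y = x
        · subst hxy
          rw [Pi.single_eq_same]
          exact hb
        · rw [Pi.single_eq_of_ne hxy]
          exact zero_mem _
      · intro y
        exact smul_stable hK j c.2 (ha y)
  · rw [eq_top_iff]
    intro f _
    rw [← Finset.univ_sum_single f]
    refine Submodule.sum_mem _ (fun x _ => ?_)
    have hx : f x ∈ Submodule.span F ((K j : Submodule ℂ F) : Set F) := by
      rw [hK.spans j]; trivial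
    refine Submodule.span_induction
      (p := fun a _ => (Pi.single x a : ι → F) ∈ Submodule.span F
        ((pil ι K j : Submodule ℂ (ι → F)) : Set (ι → F)))
      (fun a ha => ?_) ?_ (fun a b _ _ ha hb => ?_) (fun c a _ ha => ?_) hx
    · refine Submodule.subset_span ?_
      intro y
      by_cases hxy : y = x
      · subst hxy
        rw [Pi.single_eq_same]
        exact ha
      · rw [Pi.single_eq_of_ne hxy]
        exact zero_mem _
    · rw [Pi.single_zero]; exact zero_mem _
    · rw [Pi.single_add]; exact add_mem ha hb
    · have h1 : (Pi.single x (c • a) : ι → F) = c • (Pi.single x a : ι → F) :=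
        sgl_smul x c a
      rw [h1]
      exact Submodule.smul_mem _ _ ha

theorem bdl_dl (G : Good R K) {E : Lat V} (hE : IsBdl R E) : IsBdl R (dl K E) := by
  classical
  have key : ∀ i, ∃ B : Lat (Dual F V), IsBdl R B ∧ B i = dl K E i := by
    intro i
    obtain ⟨t, ht⟩ := hE.gen i
    let ev : Dual F V →ₗ[F] (t → F) :=
      LinearMap.pi (fun x => Dual.eval F V (x : V))
    have hev : ∀ (φ : Dual F V) (x : t), ev φ x = φ x := fun _ _ => rfl
    have hspan : Submodule.span F (t : Set V) = ⊤ := by
      rw [eq_top_iff, ← hE.spans i, Submodule.span_le]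
      intro x hx
      have hx' : x ∈ E i := hx
      rw [ht, mem_O_span_iff] at hx'
      refine Submodule.span_induction (p := fun x _ => x ∈ Submodule.span F (t : Set V))
        (fun a ha => Submodule.subset_span ha) (zero_mem _)
        (fun a b _ _ ha hb => add_mem ha hb) (fun c a _ ha => ?_) hx'
      exact Submodule.smul_mem _ (c : F) ha
    have hinj : Function.Injective ev := by
      intro φ ψ h
      have h1 : Set.EqOn φ ψ (t : Set V) := by
        intro x hx
        have h2 := congrFun h ⟨x, hx⟩
        rwa [hev, hev] at h2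
      exact LinearMap.ext_on hspan h1
    refine ⟨cm ev (pil t K), bdl_cm G (bdl_pil G.Kb) ev hinj, ?_⟩
    ext φ
    constructor
    · intro h e he
      rw [ht, mem_O_span_iff] at he
      refine Submodule.span_induction (p := fun e _ => φ e ∈ K i)
        (fun a ha => h ⟨a, ha⟩) (by rw [map_zero]; exact zero_mem _)
        (fun a b _ _ ha hb => by rw [map_add]; exact add_mem ha hb) (fun c a _ ha => ?_) he
      have h1 : φ (c • a) = (c : F) • φ a := map_smul φ (c : F) a
      rw [h1]
      exact smul_stable G.Kb i c.2 ha
    · intro h x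
      refine h x ?_
      rw [ht, mem_O_span_iff]
      exact Submodule.subset_span x.2
  refine ⟨fun i => ?_, fun i => ?_⟩
  · obtain ⟨B, hB, h⟩ := key i
    rw [← h]
    exact hB.gen i
  · obtain ⟨B, hB, h⟩ := key i
    rw [← h]
    exact hB.spans i

end CLF
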