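import Pool.Agent.CLF.Defs

/-!
# Module Bin: binary forms over ℂ evaluated in a field

`w, w'` ℂ-independent elements of the field `F ⊇ ℂ`, `S = span ℂ {w, w'}`.
PROOF. `w' ≠ 0`, `t = w / w'` is not in ℂ, hence transcendental over ℂ (`IsAlgClosed`: an element
algebraic over ℂ in a field extension lies in the image of ℂ).  `S^j` is spanned by
`w^k * w'^(j-k)`, `0 ≤ k ≤ j` (induction on `j`), i.e. `S^j = {w'^j * aeval t p | natDegree p ≤ j}`; the map
`p ↦ w'^j * aeval t p` is injective on polynomials of degree `≤ j` so `finrank (S^j) = j+1`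
(`Polynomial.degreeLE`/`degreeLT` has dimension `j+1`).  Factorization: `p = C c * ∏ (X - r_k)` with
`d = natDegree p ≤ j` roots (`IsAlgClosed.splits`), so
`w'^j p(t) = c * w'^(j-d) * ∏ (w - r_k w')`, a product of `j` elements of `S` (for `j ≥ 1` absorb `c` in one of
the factors; for `j = 0` the statement `x = ∏ over Fin 0 = 1` fails for scalars, so the statement has
an extra constant `c`).
-/

open Module

namespace CLF

private theorem bin_tr {F : Type*} [Field F] [Algebra ℂ F] (w w' : F)
    (h : LinearIndependent ℂ ![w, w']) : w' ≠ 0 ∧ Transcendental ℂ (w / w') := by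
  have h' := LinearIndependent.pair_iff.1 h
  have hw' : w' ≠ 0 := by
    intro h0
    have := h' 0 1 (by simp [h0])
    exact one_ne_zero this.2
  refine ⟨hw', ?_⟩
  intro halg
  have hint : IsIntegral ℂ (w / w') := halg.isIntegral
  have hdeg := IsAlgClosed.degree_eq_one_of_irreducible ℂ (minpoly.irreducible hint)
  obtain ⟨c, hc'⟩ := minpoly.mem_range_of_degree_eq_one ℂ (w / w') hdeg
  have h1 : w = c • w' := by
    rw [Algebra.smul_def, hc']; field_simp
  have := h' 1 (-c) (by rw [h1]; simp)
  exact one_ne_zero this.1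

private theorem bin_pow {F : Type*} [Field F] [Algebra ℂ F] (w w' : F) (hw' : w' ≠ 0) (j : ℕ) :
    (Submodule.span ℂ {w, w'}) ^ j = (Polynomial.degreeLT ℂ (j + 1)).map
      ((LinearMap.mulLeft ℂ (w' ^ j)) ∘ₗ (Polynomial.aeval (w / w')).toLinearMap) := by
  apply le_antisymm
  · induction j with
    | zero =>
      rw [pow_zero, Submodule.one_eq_span, Submodule.span_le]
      rintro x rfl
      refine ⟨1, ?_, by simp⟩
      rw [SetLike.mem_coe, Polynomial.mem_degreeLT]
      simp
    | succ j ih =>
      rw [pow_succ]
      refine Submodule.mul_le.2 fun x hx y hy => ?_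
      obtain ⟨p, hp, rfl⟩ := ih hx
      obtain ⟨a, b, rfl⟩ := Submodule.mem_span_pair.1 hy
      refine ⟨p * (Polynomial.C a * Polynomial.X + Polynomial.C b), ?_, ?_⟩
      · rw [SetLike.mem_coe, Polynomial.mem_degreeLT] at hp ⊢
        by_cases hp0 : p = 0
        · simp only [hp0, zero_mul, Polynomial.degree_zero]
          exact WithBot.bot_lt_coe _
        have h1 : p.natDegree < j + 1 := by
          have := hp
          rw [Polynomial.degree_eq_natDegree hp0] at this
          exact_mod_cast this
        have h2 : (p * (Polynomial.C a * Polynomial.X + Polynomial.C b)).natDegree < j + 1 + 1 := by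
          refine lt_of_le_of_lt Polynomial.natDegree_mul_le ?_
          have := Polynomial.natDegree_linear_le (a := a) (b := b)
          omega
        refine lt_of_le_of_lt Polynomial.degree_le_natDegree ?_
        exact_mod_cast h2
      · simp only [LinearMap.coe_comp, Function.comp_apply, AlgHom.toLinearMap_apply, map_mul,
          map_add, Polynomial.aeval_C, Polynomial.aeval_X, LinearMap.mulLeft_apply,
          Algebra.smul_def]
        field_simp
        ring
  · rw [Submodule.map_le_iff_le_comap, Polynomial.degreeLT_eq_span_X_pow, Submodule.span_le]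
    intro x hx
    simp only [Finset.coe_image, Finset.coe_range, Set.mem_image, Set.mem_Iio] at hx
    obtain ⟨k, hk, rfl⟩ := hx
    have h1 : w' ^ j * (w / w') ^ k = w ^ k * w' ^ (j - k) := by
      have : w' ^ j = w' ^ k * w' ^ (j - k) := by rw [← pow_add]; congr 1; omega
      rw [this, div_pow]; field_simp
    have h2 : w ^ k * w' ^ (j - k) ∈ (Submodule.span ℂ {w, w'}) ^ (k + (j - k)) := by
      rw [pow_add]
      exact Submodule.mul_mem_mul
        (Submodule.pow_mem_pow _ (Submodule.subset_span (by simp)) _)
        (Submodule.pow_mem_pow _ (Submodule.subset_span (by simp)) _)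
    have h3 : k + (j - k) = j := by omega
    rw [h3] at h2
    simp only [Submodule.comap_coe, Set.mem_preimage, LinearMap.coe_comp, Function.comp_apply,
      AlgHom.toLinearMap_apply, map_pow, Polynomial.aeval_X, LinearMap.mulLeft_apply,
      SetLike.mem_coe]
    rw [h1]; exact h2

theorem bin_finrank {F : Type*} [Field F] [Algebra ℂ F] (w w' : F)
    (h : LinearIndependent ℂ ![w, w']) (j : ℕ) :
    finrank ℂ ((Submodule.span ℂ {w, w'}) ^ j : Submodule ℂ F) = j + 1 := by
  obtain ⟨hw', ht⟩ := bin_tr w w' h
  have hinj : Function.Injective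
      ((LinearMap.mulLeft ℂ (w' ^ j)) ∘ₗ (Polynomial.aeval (w / w')).toLinearMap) := by
    rw [LinearMap.coe_comp]
    refine Function.Injective.comp ?_ ?_
    · intro a b hab
      exact mul_left_cancel₀ (pow_ne_zero _ hw') hab
    · exact transcendental_iff_injective.1 ht
  rw [bin_pow w w' hw' j,
    ← (Submodule.equivMapOfInjective _ hinj (Polynomial.degreeLT ℂ (j + 1))).finrank_eq,
    (Polynomial.degreeLTEquiv ℂ (j + 1)).finrank_eq]
  simp

private theorem bin_fac {F : Type*} [Field F] [Algebra ℂ F] (w w' : F) (hw' : w' ≠ 0) (j : ℕ) :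
    ∀ p : Polynomial ℂ, p.natDegree ≤ j →
    ∃ (c : ℂ) (l : Fin j → F), (∀ k, l k ∈ Submodule.span ℂ {w, w'}) ∧
      w' ^ j * Polynomial.aeval (w / w') p = algebraMap ℂ F c * ∏ k, l k := by
  induction j with
  | zero =>
    intro p hp
    rw [Polynomial.eq_C_of_natDegree_le_zero hp]
    exact ⟨p.coeff 0, Fin.elim0, fun k => k.elim0, by simp⟩
  | succ j ih =>
    intro p hp
    by_cases hpj : p.natDegree ≤ j
    · obtain ⟨c, l, hl, he⟩ := ih p hpj
      refine ⟨c, Fin.cons w' l, ?_, ?_⟩
      · intro k
        refine Fin.cases ?_ ?_ k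
        · simpa using Submodule.subset_span (by simp)
        · intro k; simpa using hl k
      · rw [Fin.prod_univ_succ]
        simp only [Fin.cons_zero, Fin.cons_succ]
        rw [pow_succ, mul_comm (w' ^ j) w', mul_assoc, he]; ring
    · have hd : p.degree ≠ 0 := by
        intro h0
        have := Polynomial.natDegree_eq_zero_iff_degree_le_zero.2 h0.le
        omega
      obtain ⟨r, hr⟩ := IsAlgClosed.exists_root p hd
      obtain ⟨q, hq⟩ := Polynomial.dvd_iff_isRoot.2 hr
      have hq0 : q ≠ 0 := by
        rintro rfl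
        rw [mul_zero] at hq
        rw [hq] at hpj
        simp at hpj
      have hqd : q.natDegree ≤ j := by
        rw [hq, Polynomial.natDegree_mul (Polynomial.X_sub_C_ne_zero r) hq0,
          Polynomial.natDegree_X_sub_C] at hp
        omega
      obtain ⟨c, l, hl, he⟩ := ih q hqd
      refine ⟨c, Fin.cons (w - r • w') l, ?_, ?_⟩
      · intro k
        refine Fin.cases ?_ ?_ k
        · simp only [Fin.cons_zero]
          exact Submodule.sub_mem _ (Submodule.subset_span (by simp))
            (Submodule.smul_mem _ _ (Submodule.subset_span (by simp)))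
        · intro k; simpa using hl k
      · rw [Fin.prod_univ_succ]
        simp only [Fin.cons_zero, Fin.cons_succ]
        have e1 : w' ^ (j + 1) * (Polynomial.aeval (w / w')) p
            = (w - r • w') * (w' ^ j * Polynomial.aeval (w / w') q) := by
          rw [hq, map_mul, map_sub, Polynomial.aeval_X, Polynomial.aeval_C, Algebra.smul_def]
          field_simp
          ring
        rw [e1, he]; ring

theorem bin_factor {F : Type*} [Field F] [Algebra ℂ F] (w w' : F)
    (h : LinearIndependent ℂ ![w, w']) (j : ℕ) (x : F)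
    (hx : x ∈ (Submodule.span ℂ {w, w'}) ^ j) :
    ∃ (c : ℂ) (l : Fin j → F), (∀ k, l k ∈ Submodule.span ℂ {w, w'}) ∧
      x = algebraMap ℂ F c * ∏ k, l k := by
  obtain ⟨hw', -⟩ := bin_tr w w' h
  rw [bin_pow w w' hw' j] at hx
  obtain ⟨p, hp, rfl⟩ := hx
  have hp' : p.natDegree ≤ j := by
    rw [SetLike.mem_coe, Polynomial.mem_degreeLT] at hp
    by_cases hp0 : p = 0
    · simp [hp0]
    rw [Polynomial.degree_eq_natDegree hp0] at hp
    have : p.natDegree < j + 1 := by exact_mod_cast hp
    omega
  exact bin_fac w w' hw' j p hp'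

end CLF
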