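import Pool.Agent.CLF.Bcm

/-!
# Module Btw: more closure properties of bundles

PROOFS.
`bdl_O`: generated by `{1}`.
`bdl_tw`: if `L i = Oo • span s`, `E i = Oo • span t` then `L i • E i = Oo • span (s • t)` (products
of generators; use commutativity in `F`, `O_mul_O`). Spanning: `L i` contains some `x ≠ 0` (it spans
`F`), so `L i • E i ⊇ x • E i` spans `V`.
`bdl_div`: `(M i / L i)` = all `x` with `x * y ∈ M i` for all `y ∈ L i`.  Choose `y0 ∈ L i`, `y0 ≠ 0`;
then `M i / L i ≤ y0⁻¹ • M i`, and `y0⁻¹ • M i` is part of the bundle `fun j => (M j).map (y0⁻¹ * ·)`;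
use `sub_gen`. It is nonzero (hence spans `F`): by `comm_mul` there is `r ≠ 0` with `r • L i ≤ M i`,
so `r ∈ M i / L i`.
`bdl_inv`, `bdl_kd`: special cases (`M = Oo R`, `M = K`).
`bdl_gn`: `S` finite dimensional has a finite basis; `Oo R i • S`.
`bdl_sup`: union of generating sets.  `bdl_inf`: `E i ⊓ E' i` is `R i`-stable inside `E i`: `sub_gen`;
spanning by `comm_mul`: `r • E' i ≤ E i` and so `r • E' i ≤ E i ⊓ E' i`.
-/

open Module

namespace CLF

universe u

variable {F : Type u} [Field F] [Algebra ℂ F] {R : Fin 2 → Subalgebra ℂ F} {K : Lat F}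
variable {V : Type u} [AddCommGroup V] [Module ℂ V] [Module F V] [IsScalarTower ℂ F V]
  [FiniteDimensional F V]

private theorem span_top_of {N : Submodule ℂ F} {x : F} (hx : x ∈ N) (h0 : x ≠ 0) :
    Submodule.span F (N : Set F) = ⊤ := by
  rw [eq_top_iff]
  intro y _
  have h : y = (y * x⁻¹) • x := by
    rw [smul_eq_mul, mul_assoc, inv_mul_cancel₀ h0, mul_one]
  rw [h]
  exact Submodule.smul_mem _ _ (Submodule.subset_span hx)

private theorem ex_ne {L : Lat F} (hL : IsBdl R L) (i : Fin 2) : ∃ x ∈ L i, x ≠ 0 := by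
  by_contra h
  push Not at h
  have h1 := hL.spans i
  have h2 : Submodule.span F ((L i : Submodule ℂ F) : Set F) ≤ ⊥ := by
    rw [Submodule.span_le]
    intro x hx
    rw [h x hx]
    exact zero_mem _
  rw [h1] at h2
  have h3 : (1 : F) ∈ (⊥ : Submodule F F) := h2 trivial
  exact one_ne_zero ((Submodule.mem_bot F).1 h3)

theorem bdl_O : IsBdl R (Oo R) := by
  refine ⟨fun i => ⟨{1}, ?_⟩, fun i => span_top_of
    (show (1 : F) ∈ Oo R i from (R i).one_mem) one_ne_zero⟩
  ext x
  rw [mem_O_span_iff, Finset.coe_singleton, Submodule.mem_span_singleton]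
  constructor
  · intro hx
    exact ⟨⟨x, hx⟩, mul_one x⟩
  · rintro ⟨r, rfl⟩
    have h : r • (1 : F) = (r : F) := mul_one (r : F)
    rw [h]
    exact r.2

theorem bdl_tw {L : Lat F} {E : Lat V} (hL : IsBdl R L) (hE : IsBdl R E) :
    IsBdl R (tw L E) := by
  classical
  refine ⟨fun i => ?_, fun i => ?_⟩
  · obtain ⟨s, hs⟩ := hL.gen i
    obtain ⟨t, ht⟩ := hE.gen i
    refine ⟨Finset.image₂ (fun (a : F) (b : V) => a • b) s t, ?_⟩
    apply le_antisymm
    · show L i • E i ≤ _
      rw [Submodule.smul_le]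
      intro l hl e he
      rw [mem_O_span_iff]
      rw [hs, mem_O_span_iff] at hl
      rw [ht, mem_O_span_iff] at he
      refine Submodule.span_induction
        (p := fun l _ => l • e ∈ Submodule.span (R i)
          ((Finset.image₂ (fun (a : F) (b : V) => a • b) s t : Finset V) : Set V))
        (fun a ha => ?_) ?_ (fun a b _ _ ha hb => ?_) (fun c a _ ha => ?_) hl
      · refine Submodule.span_induction
          (p := fun e _ => a • e ∈ Submodule.span (R i)
            ((Finset.image₂ (fun (a : F) (b : V) => a • b) s t : Finset V) : Set V))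
          (fun b hb => ?_) ?_ (fun b b' _ _ hb hb' => ?_) (fun c b _ hb => ?_) he
        · exact Submodule.subset_span (Finset.mem_coe.2
            (Finset.mem_image₂.2 ⟨a, ha, b, hb, rfl⟩))
        · rw [smul_zero]; exact zero_mem _
        · rw [smul_add]; exact add_mem hb hb'
        · have h1 : a • c • b = c • a • b := smul_comm a (c : F) b
          rw [h1]
          exact Submodule.smul_mem _ _ hb
      · rw [zero_smul]; exact zero_mem _
      · rw [add_smul]; exact add_mem ha hb
      · have h1 : (c • a) • e = c • a • e := mul_smul (c : F) a e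
        rw [h1]
        exact Submodule.smul_mem _ _ ha
    · rw [Submodule.smul_le]
      intro r hr x hx
      have hx' : x ∈ L i • E i := by
        refine Submodule.span_induction (p := fun x _ => x ∈ L i • E i) (fun a ha => ?_)
          (zero_mem _) (fun a b _ _ ha hb => add_mem ha hb)
          (fun c a _ ha => Submodule.smul_mem _ _ ha) hx
        obtain ⟨l, hl, e, he, rfl⟩ := Finset.mem_image₂.1 (Finset.mem_coe.1 ha)
        refine Submodule.smul_mem_smul ?_ ?_
        · rw [hs, mem_O_span_iff]
          exact Submodule.subset_span hl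
        · rw [ht, mem_O_span_iff]
          exact Submodule.subset_span he
      show r • x ∈ L i • E i
      refine Submodule.smul_induction_on hx' (fun a ha y hy => ?_) (fun y z hy hz => ?_)
      · rw [smul_smul]
        exact Submodule.smul_mem_smul (smul_stable hL i hr ha) hy
      · rw [smul_add]
        exact add_mem hy hz
  · obtain ⟨x, hx, h0⟩ := ex_ne hL i
    rw [eq_top_iff]
    intro v _
    have hv : x⁻¹ • v ∈ Submodule.span F ((E i : Submodule ℂ V) : Set V) := by
      rw [hE.spans i]; trivial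
    have hv2 : v = x • (x⁻¹ • v) := by rw [smul_smul, mul_inv_cancel₀ h0, one_smul]
    rw [hv2]
    refine Submodule.span_induction
      (p := fun z _ => x • z ∈ Submodule.span F ((tw L E i : Submodule ℂ V) : Set V))
      (fun z hz => Submodule.subset_span (Submodule.smul_mem_smul hx hz))
      (by rw [smul_zero]; exact zero_mem _)
      (fun a b _ _ ha hb => by rw [smul_add]; exact add_mem ha hb)
      (fun c z _ hz => by rw [smul_comm]; exact Submodule.smul_mem _ _ hz) hv

theorem bdl_div (G : Good R K) {M L : Lat F} (hM : IsBdl R M) (hL : IsBdl R L) :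
    IsBdl R (fun i => M i / L i : Lat F) := by
  refine ⟨fun i => ?_, fun i => ?_⟩
  · obtain ⟨y, hy, h0⟩ := ex_ne hL i
    have hB : IsBdl R (cm (y • (LinearMap.id : F →ₗ[F] F)) M) := by
      refine bdl_cm G hM _ ?_
      intro a b h
      have h' : y * a = y * b := h
      exact mul_left_cancel₀ h0 h'
    refine sub_gen G hB i _ ?_ ?_
    · intro x hx
      have h1 : x * y ∈ M i := Submodule.mem_div_iff_forall_mul_mem.1 hx y hy
      show y * x ∈ M i
      rwa [mul_comm]
    · intro r hr x hx
      rw [Submodule.mem_div_iff_forall_mul_mem] at hx ⊢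
      intro z hz
      have h1 : r • x * z = r • (x * z) := smul_mul_assoc r x z
      rw [h1]
      exact smul_stable hM i hr (hx z hz)
  · obtain ⟨r, hr, hr0, h⟩ := comm_mul G hM hL i
    refine span_top_of (x := r) ?_ hr0
    rw [Submodule.mem_div_iff_forall_mul_mem]
    intro y hy
    exact h y hy

theorem bdl_inv (G : Good R K) {L : Lat F} (hL : IsBdl R L) : IsBdl R (inv R L) := by
  exact bdl_div G bdl_O hL

theorem bdl_kd (G : Good R K) {L : Lat F} (hL : IsBdl R L) : IsBdl R (kd K L) := by
  exact bdl_div G G.Kb hL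

theorem bdl_gn (S : Submodule ℂ V) (hS : FiniteDimensional ℂ S)
    (hsp : Submodule.span F (S : Set V) = ⊤) : IsBdl R (gn R S) := by
  refine ⟨fun i => ?_, fun i => ?_⟩
  · obtain ⟨s, hs⟩ := (Submodule.fg_iff_finiteDimensional S).2 hS
    refine ⟨s, ?_⟩
    rw [hs]
    rfl
  · rw [eq_top_iff, ← hsp]
    refine Submodule.span_mono ?_
    intro x hx
    have h := Submodule.smul_mem_smul (show (1 : F) ∈ Oo R i from (R i).one_mem) hx
    rwa [one_smul] at h

theorem bdl_sup {E E' : Lat V} (hE : IsBdl R E) (hE' : IsBdl R E') :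
    IsBdl R (fun i => E i ⊔ E' i : Lat V) := by
  classical
  refine ⟨fun i => ?_, fun i => ?_⟩
  · obtain ⟨s, hs⟩ := hE.gen i
    obtain ⟨t, ht⟩ := hE'.gen i
    refine ⟨s ∪ t, ?_⟩
    rw [Finset.coe_union, Submodule.span_union, Submodule.smul_sup, ← hs, ← ht]
  · rw [eq_top_iff, ← hE.spans i]
    exact Submodule.span_mono (fun x hx => (le_sup_left : E i ≤ E i ⊔ E' i) hx)

theorem bdl_inf (G : Good R K) {E E' : Lat V} (hE : IsBdl R E) (hE' : IsBdl R E') :
    IsBdl R (fun i => E i ⊓ E' i : Lat V) := by
  refine ⟨fun i => ?_, fun i => ?_⟩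
  · refine sub_gen G hE i _ inf_le_left ?_
    intro r hr x hx
    exact ⟨smul_stable hE i hr hx.1, smul_stable hE' i hr hx.2⟩
  · obtain ⟨r, hr, hr0, h⟩ := comm_mul G hE hE' i
    rw [eq_top_iff, ← hE'.spans i, Submodule.span_le]
    intro x hx
    have h1 : r • x ∈ E i ⊓ E' i := ⟨h x hx, smul_stable hE' i hr hx⟩
    have h2 : x = r⁻¹ • (r • x) := by
      rw [smul_smul, inv_mul_cancel₀ hr0, one_smul]
    rw [h2]
    exact Submodule.smul_mem _ _ (Submodule.subset_span h1)

end CLF
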