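import Pool.Agent.CLF.Defs

/-!
# Module Chi: additivity of the Euler characteristic (pure linear algebra over ℂ)

Let `0 → U → V → W → 0` be exact (maps `a`, `b`), `E = (E 0, E 1)` subspaces of `V`, `A i = a⁻¹(E i)`,
`B i = b(E i)`.  There is a six term exact sequence
`0 → H0 A → H0 E → H0 B → U/(A 0 + A 1) → V/(E 0 + E 1) → W/(B 0 + B 1) → 0`.
PROOF. `a` maps `H0 A` isomorphically onto `H0 E ⊓ ker b`, so
`h0 E = h0 A + dim b(H0 E)` (`h0_split`, rank-nullity for `b` restricted to `H0 E`).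
Connecting map `δ : H0 B → U/(A 0 + A 1)`: for `y = b e0 = b e1` with `e_i ∈ E i`, `e0 - e1 = a u` for a
unique `u`, and `δ y := class of u`; well defined as changing `e_i` changes `u` by `A i`.  To avoid
choosing: work with the subspace `T = {(e0,e1) ∈ E 0 × E 1 | b e0 = b e1}` and the two maps
`T → H0 B` (surjective, `(e0,e1) ↦ b e0`) and `T → U/(A 0 + A 1)`, (e0,e1) ↦ class of a⁻¹(e0 - e1).
The kernel of `δ` is `b(H0 E)`; the range of `δ` is the kernel of the map
`U/(A 0 + A 1) → V/(E 0 + E 1)` induced by `a` (if `a u = e0 - e1` then `(e0, e1) ∈ T`).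
The cokernel of `U/(A 0+A 1) → V/(E 0+E 1)` is `V/(E 0 + E 1 + range a) = W/(B 0 + B 1)`.
Count dimensions (all spaces are finite dimensional by hypothesis).
(Alternative: Mathlib snake lemma `Mathlib/Algebra/Module/SnakeLemma.lean`.)
-/

open Module

namespace CLF

universe u

variable {U V W : Type u} [AddCommGroup U] [Module ℂ U] [AddCommGroup V] [Module ℂ V]
  [AddCommGroup W] [Module ℂ W]

private theorem fr_dom (b : V →ₗ[ℂ] W) (S : Submodule ℂ V) [FiniteDimensional ℂ S] :
    finrank ℂ S = finrank ℂ (S.map b) + finrank ℂ (S ⊓ LinearMap.ker b : Submodule ℂ V) := by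
  have h := LinearMap.finrank_range_add_finrank_ker (b.domRestrict S)
  rw [← h, LinearMap.range_domRestrict]
  congr 1
  have h2 : LinearMap.ker (b.domRestrict S) = (LinearMap.ker b).comap S.subtype := by
    ext x; simp
  rw [h2, ← Submodule.finrank_map_subtype_eq S, Submodule.map_comap_subtype]

theorem h0_split (a : U →ₗ[ℂ] V) (b : V →ₗ[ℂ] W) (ha : Function.Injective a)
    (hab : LinearMap.range a = LinearMap.ker b) (E : Lat V)
    (f1 : FiniteDimensional ℂ (H0 E)) :
    h0 E = h0 (fun i => (E i).comap a : Lat U) + finrank ℂ ((H0 E).map b) := by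
  have h1 : H0 (fun i => (E i).comap a : Lat U) = (H0 E).comap a := by
    simp [H0, Submodule.comap_inf]
  have h2 : h0 (fun i => (E i).comap a : Lat U)
      = finrank ℂ (H0 E ⊓ LinearMap.ker b : Submodule ℂ V) := by
    unfold h0
    rw [h1, ← hab, (Submodule.equivMapOfInjective a ha ((H0 E).comap a)).finrank_eq,
      Submodule.map_comap_eq, inf_comm]
  rw [h2, add_comm]
  exact fr_dom b (H0 E)

private theorem fr_quot (f : V →ₗ[ℂ] W) (S : Submodule ℂ W) :
    finrank ℂ (V ⧸ S.comap f) = finrank ℂ ((LinearMap.range f).map S.mkQ) := by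
  have h1 : S.comap f = LinearMap.ker (S.mkQ.comp f) := by
    rw [LinearMap.ker_comp, Submodule.ker_mkQ]
  rw [h1, (LinearMap.quotKerEquivRange (S.mkQ.comp f)).finrank_eq, LinearMap.range_comp]

theorem chi_add (a : U →ₗ[ℂ] V) (b : V →ₗ[ℂ] W) (ha : Function.Injective a)
    (hb : Function.Surjective b) (hab : LinearMap.range a = LinearMap.ker b) (E : Lat V)
    (f1 : FiniteDimensional ℂ (H0 E)) (f2 : FiniteDimensional ℂ (V ⧸ (E 0 ⊔ E 1)))
    (f3 : FiniteDimensional ℂ (H0 (fun i => (E i).comap a : Lat U)))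
    (f4 : FiniteDimensional ℂ (U ⧸ ((E 0).comap a ⊔ (E 1).comap a)))
    (f5 : FiniteDimensional ℂ (H0 (fun i => (E i).map b : Lat W)))
    (f6 : FiniteDimensional ℂ (W ⧸ ((E 0).map b ⊔ (E 1).map b))) :
    chi (fun i => (E i).comap a : Lat U) + chi (fun i => (E i).map b : Lat W) = chi E := by
  set A : Submodule ℂ U := (E 0).comap a ⊔ (E 1).comap a with hA
  set M : Submodule ℂ U := (E 0 ⊔ E 1).comap a with hM
  have hAM : A ≤ M := by
    rw [hA, hM]
    exact sup_le (Submodule.comap_mono le_sup_left) (Submodule.comap_mono le_sup_right)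
  set HB : Submodule ℂ W := (E 0).map b ⊓ (E 1).map b with hHB
  set S : Submodule ℂ W := (H0 E).map b with hS
  have hSB : S ≤ HB := by
    rw [hS, hHB]
    exact le_inf (Submodule.map_mono inf_le_left) (Submodule.map_mono inf_le_right)
  have habv : ∀ x, b (a x) = 0 := fun x => by
    have : a x ∈ LinearMap.ker b := hab ▸ LinearMap.mem_range_self a x
    simpa using this
  have hker : ∀ v, b v = 0 → ∃ u, a u = v := fun v hv => by
    have : v ∈ LinearMap.range a := by rw [hab]; simpa using hv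
    simpa using this
  -- the space T
  let T : Submodule ℂ (V × V) :=
    { carrier := {p | p.1 ∈ E 0 ∧ p.2 ∈ E 1 ∧ b p.1 = b p.2}
      add_mem' := by
        rintro p q ⟨h1, h2, h3⟩ ⟨k1, k2, k3⟩
        exact ⟨(E 0).add_mem h1 k1, (E 1).add_mem h2 k2, by simp [h3, k3]⟩
      zero_mem' := ⟨(E 0).zero_mem, (E 1).zero_mem, by simp⟩
      smul_mem' := by
        rintro c p ⟨h1, h2, h3⟩
        exact ⟨(E 0).smul_mem c h1, (E 1).smul_mem c h2, by simp [h3]⟩ }
  let f : T →ₗ[ℂ] W := (b.comp (LinearMap.fst ℂ V V)).domRestrict T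
  let g0 : T →ₗ[ℂ] V := (LinearMap.fst ℂ V V - LinearMap.snd ℂ V V).domRestrict T
  have hg0 : ∀ t : T, g0 t ∈ LinearMap.range a := by
    rintro ⟨p, h1, h2, h3⟩
    rw [hab]
    simp [g0, h3]
  let g : T →ₗ[ℂ] U := (LinearEquiv.ofInjective a ha).symm.toLinearMap.comp
    (g0.codRestrict (LinearMap.range a) hg0)
  have hg : ∀ t : T, a (g t) = t.1.1 - t.1.2 := by
    intro t
    have h1 : ((LinearEquiv.ofInjective a ha) (g t) : V) = g0 t := by
      simp [g]
    rw [LinearEquiv.ofInjective_apply] at h1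
    rw [h1]
    simp [g0]
  have hf : ∀ t : T, f t = b t.1.1 := fun t => rfl
  have hrf : LinearMap.range f = HB := by
    ext w
    simp only [LinearMap.mem_range, hHB, Submodule.mem_inf, Submodule.mem_map]
    constructor
    · rintro ⟨⟨p, h1, h2, h3⟩, rfl⟩
      exact ⟨⟨p.1, h1, rfl⟩, ⟨p.2, h2, h3.symm⟩⟩
    · rintro ⟨⟨e0, h0, h0'⟩, ⟨e1, h1, h1'⟩⟩
      exact ⟨⟨(e0, e1), h0, h1, by rw [h0', h1']⟩, h0'⟩
  have hrg : LinearMap.range g = M := by
    ext x
    simp only [LinearMap.mem_range, hM, Submodule.mem_comap]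
    constructor
    · rintro ⟨⟨p, h1, h2, h3⟩, rfl⟩
      rw [hg]
      exact (E 0 ⊔ E 1).sub_mem (Submodule.mem_sup_left h1) (Submodule.mem_sup_right h2)
    · intro h
      obtain ⟨e0, h0, e1, h1, h2⟩ := Submodule.mem_sup.1 h
      refine ⟨⟨(e0, -e1), h0, (E 1).neg_mem h1, ?_⟩, ?_⟩
      · have := habv x
        rw [← h2, map_add] at this
        rw [map_neg]
        exact eq_neg_of_add_eq_zero_left this
      · apply ha
        rw [hg]
        simp [h2]
  have hTT : S.comap f = A.comap g := by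
    ext ⟨p, h1, h2, h3⟩
    simp only [Submodule.mem_comap]
    rw [hf]
    simp only
    constructor
    · rintro ⟨h, hh, hb'⟩
      obtain ⟨hh0, hh1⟩ := (Submodule.mem_inf.1 hh : h ∈ E 0 ∧ h ∈ E 1)
      obtain ⟨u0, hu0⟩ := hker (p.1 - h) (by rw [map_sub, hb', sub_self])
      obtain ⟨u1, hu1⟩ := hker (p.2 - h) (by rw [map_sub, hb', h3, sub_self])
      have : g ⟨p, h1, h2, h3⟩ = u0 - u1 := by
        apply ha
        rw [hg, map_sub, hu0, hu1]
        simp
      rw [this, hA]
      refine Submodule.sub_mem _ (Submodule.mem_sup_left ?_) (Submodule.mem_sup_right ?_)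
      · rw [Submodule.mem_comap, hu0]
        exact (E 0).sub_mem h1 hh0
      · rw [Submodule.mem_comap, hu1]
        exact (E 1).sub_mem h2 hh1
    · intro h
      rw [hA] at h
      obtain ⟨u0, hu0, u1, hu1, hu⟩ := Submodule.mem_sup.1 h
      rw [Submodule.mem_comap] at hu0 hu1
      have e : a u0 + a u1 = p.1 - p.2 := by
        rw [← map_add, hu, hg]
      refine ⟨p.1 - a u0, Submodule.mem_inf.2 ⟨(E 0).sub_mem h1 hu0, ?_⟩, ?_⟩
      · have : p.1 - a u0 = p.2 + a u1 := by
          have : p.1 = p.2 + (a u0 + a u1) := by rw [e]; abel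
          rw [this]; abel
        rw [this]
        exact (E 1).add_mem h2 hu1
      · rw [map_sub, habv, sub_zero]
  -- k
  have k1 : finrank ℂ (HB.map S.mkQ) = finrank ℂ (M.map A.mkQ) := by
    rw [← hrf, ← hrg, ← fr_quot, ← fr_quot, hTT]
  have f5' : FiniteDimensional ℂ HB := f5
  -- (2)
  have e2 : finrank ℂ HB = finrank ℂ (HB.map S.mkQ) + finrank ℂ S := by
    have := fr_dom S.mkQ HB
    rwa [Submodule.ker_mkQ, inf_eq_right.2 hSB] at this
  -- (4)
  have e4 : finrank ℂ (U ⧸ A) = finrank ℂ (M.map A.mkQ) + finrank ℂ (U ⧸ M) := by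
    have := Submodule.finrank_quotient_add_finrank (M.map A.mkQ)
    rw [(Submodule.quotientQuotientEquivQuotient A M hAM).finrank_eq] at this
    omega
  -- (3)
  have e3 : finrank ℂ (V ⧸ (E 0 ⊔ E 1)) = finrank ℂ (W ⧸ ((E 0).map b ⊔ (E 1).map b))
      + finrank ℂ (U ⧸ M) := by
    have hle : E 0 ⊔ E 1 ≤ ((E 0).map b ⊔ (E 1).map b).comap b := by
      rw [← Submodule.map_sup]
      exact Submodule.le_comap_map b _
    let φ := Submodule.mapQ (E 0 ⊔ E 1) ((E 0).map b ⊔ (E 1).map b) b hle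
    have h := LinearMap.finrank_range_add_finrank_ker φ
    have hr : LinearMap.range φ = ⊤ := by
      rw [LinearMap.range_eq_top]
      intro w
      obtain ⟨w', rfl⟩ := Submodule.Quotient.mk_surjective _ w
      obtain ⟨v, rfl⟩ := hb w'
      exact ⟨Submodule.Quotient.mk v, rfl⟩
    have hk : LinearMap.ker φ = LinearMap.range ((E 0 ⊔ E 1).mkQ.comp a) := by
      ext x
      obtain ⟨v, rfl⟩ := Submodule.Quotient.mk_surjective _ x
      rw [LinearMap.mem_ker, LinearMap.mem_range]
      have : φ (Submodule.Quotient.mk v) = Submodule.Quotient.mk (b v) := rfl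
      rw [this, Submodule.Quotient.mk_eq_zero, ← Submodule.map_sup]
      constructor
      · rintro ⟨e, he, hbe⟩
        obtain ⟨u, hu⟩ := hker (v - e) (by rw [map_sub, hbe, sub_self])
        refine ⟨u, ?_⟩
        rw [LinearMap.comp_apply, hu, Submodule.mkQ_apply, Submodule.Quotient.eq]
        have : v - e - v = -e := by abel
        rw [this]
        exact Submodule.neg_mem _ he
      · rintro ⟨u, hu⟩
        rw [LinearMap.comp_apply, Submodule.mkQ_apply, Submodule.Quotient.eq] at hu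
        refine ⟨v - a u, ?_, ?_⟩
        · have : v - a u = -(a u - v) := by abel
          rw [this]
          exact Submodule.neg_mem _ hu
        · rw [map_sub, habv, sub_zero]
    have hq : finrank ℂ (U ⧸ M) = finrank ℂ (LinearMap.ker φ) := by
      rw [hk, ← (LinearMap.quotKerEquivRange ((E 0 ⊔ E 1).mkQ.comp a)).finrank_eq]
      rw [LinearMap.ker_comp, Submodule.ker_mkQ]
    rw [hr, finrank_top] at h
    rw [hq, h]
  have e1 : h0 E = h0 (fun i => (E i).comap a : Lat U) + finrank ℂ S :=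
    h0_split a b ha hab E f1
  have d1 : h0 (fun i => (E i).map b : Lat W) = finrank ℂ HB := rfl
  have d2 : h1 (fun i => (E i).map b : Lat W)
      = finrank ℂ (W ⧸ ((E 0).map b ⊔ (E 1).map b)) := rfl
  have d3 : h1 (fun i => (E i).comap a : Lat U) = finrank ℂ (U ⧸ A) := rfl
  have d4 : h1 E = finrank ℂ (V ⧸ (E 0 ⊔ E 1)) := rfl
  unfold chi
  rw [d1, d2, d3, d4, e1, e3, e4, e2, k1]
  push_cast
  ring

end CLF
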