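import Pool.Agent.CLF.Defs

/-!
# Module Chm: the Euler characteristic under inclusion of pairs (pure linear algebra over ℂ)

`qd A B` is the dimension of `B / (A ∩ B)`.
`chi_le_formula`: if `E i ≤ E' i`, `H0 E'` and `V/(E 0 + E 1)` finite dimensional, then
`chi E' = chi E + qd (E 0) (E' 0) + qd (E 1) (E' 1)` and the two quotients are finite dimensional.
PROOF. Change one entry at a time: for `A ≤ A'` and `B`: the exact sequence
`0 → A ∩ B → A' ∩ B → A'/A → V/(A + B) → V/(A' + B) → 0`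
(`A'/A → V/(A+B)`: kernel is `(A' ∩ (A + B))/A = (A + (A' ∩ B))/A ≅ (A' ∩ B)/(A ∩ B)`).
So `A'/A` is finite dimensional and the dimensions add up.  Apply with `(E 0, E 1) → (E' 0, E 1)` and
then `(E' 0, E 1) → (E' 0, E' 1)`; note `E' 0 ∩ E 1 ≤ H0 E'` and `V/(E' 0 + E 1)` is a quotient of
`V/(E 0 + E 1)`, so all spaces are finite dimensional.
`chi_mono`, `eq_of_chi_eq` follow (`qd A B = 0` with finite dimension and `A ≤ B` gives `A = B`).
-/

open Module

namespace CLF

universe u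

variable {U V W : Type u} [AddCommGroup U] [Module ℂ U] [AddCommGroup V] [Module ℂ V]
  [AddCommGroup W] [Module ℂ W]

/-- dimension of `B / A ∩ B` -/
noncomputable def qd (A B : Submodule ℂ V) : ℕ := finrank ℂ (B ⧸ A.submoduleOf B)

private theorem chm_step (A A' B : Submodule ℂ V) (h : A ≤ A')
    (f1 : FiniteDimensional ℂ (A' ⊓ B : Submodule ℂ V)) (f2 : FiniteDimensional ℂ (V ⧸ (A ⊔ B))) :
    FiniteDimensional ℂ (A' ⧸ A.submoduleOf A') ∧ FiniteDimensional ℂ (V ⧸ (A' ⊔ B)) ∧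
    (finrank ℂ (A' ⊓ B : Submodule ℂ V) : ℤ) - finrank ℂ (V ⧸ (A' ⊔ B)) =
      (finrank ℂ (A ⊓ B : Submodule ℂ V) : ℤ) - finrank ℂ (V ⧸ (A ⊔ B)) + qd A A' := by
  let ψ : (A' ⊓ B : Submodule ℂ V) →ₗ[ℂ] (A' ⧸ A.submoduleOf A') :=
    (A.submoduleOf A').mkQ ∘ₗ (Submodule.inclusion (inf_le_left : A' ⊓ B ≤ A'))
  let φ : (A' ⧸ A.submoduleOf A') →ₗ[ℂ] (V ⧸ (A ⊔ B)) :=
    Submodule.liftQ (A.submoduleOf A') ((A ⊔ B).mkQ ∘ₗ A'.subtype) (by
      intro x hx
      rw [LinearMap.mem_ker]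
      change (A ⊔ B).mkQ (x : V) = 0
      rw [Submodule.mkQ_apply, Submodule.Quotient.mk_eq_zero]
      exact Submodule.mem_sup_left hx)
  have hle : A ⊔ B ≤ A' ⊔ B := sup_le_sup_right h B
  let π : (V ⧸ (A ⊔ B)) →ₗ[ℂ] (V ⧸ (A' ⊔ B)) := Submodule.factor hle
  have hπs : Function.Surjective π := Submodule.factor_surjective hle
  have hψk : LinearMap.ker ψ = (A ⊓ B).submoduleOf (A' ⊓ B) := by
    ext x
    rw [LinearMap.mem_ker]
    change (A.submoduleOf A').mkQ (Submodule.inclusion (inf_le_left : A' ⊓ B ≤ A') x) = 0 ↔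
      (x : V) ∈ A ⊓ B
    rw [Submodule.mkQ_apply, Submodule.Quotient.mk_eq_zero]
    constructor
    · intro hx
      exact ⟨hx, x.2.2⟩
    · intro hx
      exact hx.1
  have hφk : LinearMap.ker φ = LinearMap.range ψ := by
    ext z
    obtain ⟨x, rfl⟩ := Submodule.mkQ_surjective _ z
    rw [LinearMap.mem_ker]
    have e1 : φ ((A.submoduleOf A').mkQ x) = (A ⊔ B).mkQ (x : V) := rfl
    rw [e1, Submodule.mkQ_apply, Submodule.Quotient.mk_eq_zero]
    constructor
    · intro hx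
      obtain ⟨a, ha, b, hb, hab⟩ := Submodule.mem_sup.1 hx
      have hbA : b ∈ A' := by
        have : b = (x : V) - a := by rw [← hab]; abel
        rw [this]
        exact A'.sub_mem x.2 (h ha)
      refine ⟨⟨b, hbA, hb⟩, ?_⟩
      change (A.submoduleOf A').mkQ ⟨b, hbA⟩ = (A.submoduleOf A').mkQ x
      rw [Submodule.mkQ_apply, Submodule.mkQ_apply, Submodule.Quotient.eq]
      change b - (x : V) ∈ A
      have : b - (x : V) = -a := by rw [← hab]; abel
      rw [this]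
      exact A.neg_mem ha
    · rintro ⟨y, hy⟩
      change (A.submoduleOf A').mkQ (Submodule.inclusion (inf_le_left : A' ⊓ B ≤ A') y) =
        (A.submoduleOf A').mkQ x at hy
      rw [Submodule.mkQ_apply, Submodule.mkQ_apply, Submodule.Quotient.eq] at hy
      have hy' : (y : V) - (x : V) ∈ A := hy
      have : (x : V) = -((y : V) - x) + y := by abel
      rw [this]
      exact Submodule.add_mem_sup (A.neg_mem hy') y.2.2
  have hπk : LinearMap.ker π = LinearMap.range φ := by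
    ext z
    obtain ⟨v, rfl⟩ := Submodule.mkQ_surjective _ z
    rw [LinearMap.mem_ker]
    have e1 : π ((A ⊔ B).mkQ v) = (A' ⊔ B).mkQ v := rfl
    rw [e1, Submodule.mkQ_apply, Submodule.Quotient.mk_eq_zero]
    constructor
    · intro hv
      obtain ⟨a, ha, b, hb, hab⟩ := Submodule.mem_sup.1 hv
      refine ⟨(A.submoduleOf A').mkQ ⟨a, ha⟩, ?_⟩
      change (A ⊔ B).mkQ a = (A ⊔ B).mkQ v
      rw [Submodule.mkQ_apply, Submodule.mkQ_apply, Submodule.Quotient.eq]
      have : a - v = -b := by rw [← hab]; abel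
      rw [this]
      exact (A ⊔ B).neg_mem (Submodule.mem_sup_right hb)
    · rintro ⟨w, hw⟩
      obtain ⟨a, rfl⟩ := Submodule.mkQ_surjective _ w
      change (A ⊔ B).mkQ (a : V) = (A ⊔ B).mkQ v at hw
      rw [Submodule.mkQ_apply, Submodule.mkQ_apply, Submodule.Quotient.eq] at hw
      have : v = -((a : V) - v) + a := by abel
      rw [this]
      exact (A' ⊔ B).add_mem ((A' ⊔ B).neg_mem (hle hw)) (Submodule.mem_sup_left a.2)
  have g1 : FiniteDimensional ℂ (LinearMap.ker φ) := by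
    rw [hφk]
    infer_instance
  have g2 : FiniteDimensional ℂ ((A' ⧸ A.submoduleOf A') ⧸ LinearMap.ker φ) :=
    Module.Finite.equiv φ.quotKerEquivRange.symm
  have g3 : FiniteDimensional ℂ (A' ⧸ A.submoduleOf A') :=
    Module.Finite.of_submodule_quotient (LinearMap.ker φ)
  have g4 : FiniteDimensional ℂ (V ⧸ (A' ⊔ B)) := Module.Finite.of_surjective π hπs
  refine ⟨g3, g4, ?_⟩
  have r1 := LinearMap.finrank_range_add_finrank_ker ψ
  have r2 := LinearMap.finrank_range_add_finrank_ker φ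
  have r3 := LinearMap.finrank_range_add_finrank_ker π
  rw [LinearMap.range_eq_top.2 hπs, finrank_top, hπk] at r3
  rw [hφk] at r2
  rw [hψk, (Submodule.submoduleOfEquivOfLe (inf_le_inf_right B h)).finrank_eq] at r1
  unfold qd
  omega

theorem chi_le_formula (E E' : Lat V) (h : ∀ i, E i ≤ E' i)
    (f1 : FiniteDimensional ℂ (H0 E')) (f2 : FiniteDimensional ℂ (V ⧸ (E 0 ⊔ E 1))) :
    chi E' = chi E + qd (E 0) (E' 0) + qd (E 1) (E' 1) ∧
    (∀ i, FiniteDimensional ℂ (E' i ⧸ (E i).submoduleOf (E' i))) := by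
  have f1' : FiniteDimensional ℂ (E' 0 ⊓ E' 1 : Submodule ℂ V) := f1
  have f3 : FiniteDimensional ℂ (E' 0 ⊓ E 1 : Submodule ℂ V) :=
    Submodule.finiteDimensional_of_le (inf_le_inf_left (E' 0) (h 1))
  obtain ⟨a1, a2, a3⟩ := chm_step (E 0) (E' 0) (E 1) (h 0) f3 f2
  rw [sup_comm] at a2
  have f4 : FiniteDimensional ℂ (E' 1 ⊓ E' 0 : Submodule ℂ V) := by
    rw [inf_comm]
    exact f1'
  obtain ⟨b1, b2, b3⟩ := chm_step (E 1) (E' 1) (E' 0) (h 1) f4 a2
  rw [inf_comm (E' 1) (E' 0), sup_comm (E' 1) (E' 0), inf_comm (E 1) (E' 0), sup_comm (E 1) (E' 0)] at b3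
  constructor
  · unfold chi h0 h1 H0
    linarith
  · intro i
    fin_cases i
    · exact a1
    · exact b1

theorem chi_mono (E E' : Lat V) (h : ∀ i, E i ≤ E' i)
    (f1 : FiniteDimensional ℂ (H0 E')) (f2 : FiniteDimensional ℂ (V ⧸ (E 0 ⊔ E 1))) :
    chi E ≤ chi E' := by
  have := (chi_le_formula E E' h f1 f2).1
  omega

theorem eq_of_chi_eq (E E' : Lat V) (h : ∀ i, E i ≤ E' i)
    (f1 : FiniteDimensional ℂ (H0 E')) (f2 : FiniteDimensional ℂ (V ⧸ (E 0 ⊔ E 1)))
    (he : chi E = chi E') : E = E' := by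
  obtain ⟨h1, h2⟩ := chi_le_formula E E' h f1 f2
  have key : ∀ i, qd (E i) (E' i) = 0 → E i = E' i := by
    intro i hi
    have h3 := h2 i
    have h4 : Subsingleton (E' i ⧸ (E i).submoduleOf (E' i)) := Module.finrank_zero_iff.1 hi
    apply le_antisymm (h i)
    intro x hx
    have h5 : (⟨x, hx⟩ : E' i) ∈ (E i).submoduleOf (E' i) :=
      (Submodule.Quotient.mk_eq_zero _).1 (Subsingleton.elim _ _)
    exact h5
  funext i
  apply key
  fin_cases i
  · change qd (E 0) (E' 0) = 0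
    omega
  · change qd (E 1) (E' 1) = 0
    omega

end CLF
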