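import Pool.Agent.CLF.Ctx

/-!
# Module Num: basic numbers of a bad bundle, pencils and the minimality inequality

Write `g` for the genus.
PROOFS.
`bad_dual`: `rr`, `deg_dl`, `ss_dl`, `bdl_dl`, `Subspace.dual_finrank_eq`: `h0 (dl K E) = 3g - 8 - s`
and `6 ≤ h0 (dl K E)` since `2 s + 8 ≤ 3 g - 3` and `s ≥ 3`: `3g-8-s ≥ (2s+11) - 8 - s = s + 3 ≥ 6`.
`bad_flip`: the dual is again bad up to the slope bound, stated as numbers.
`gen_pencil`: choose independent `a0, a1 ∈ H0 A`; `A' := gn R (span {a0,a1}) ≤ A` is a bundle with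
two independent sections, so `deg A ≤ deg A'` by minimality, and `deg A' ≤ deg A` (`deg_mono`), so
`A' = A` (`eq_of_deg_eq`).
`gen_five`: minimality holds for degree 5 since `L2` with `h = 2` gives `5 ≤ deg D` (`min 5 g = 5`).
`pnum`: `pencil_le` for `E`: `2 h0 E ≤ h0 (tw A E) + h0 (tw (inv A) E)`; `rr` for `tw A E`:
`h0 (tw A E) = deg E + 3 deg A + 3 (1-g) + h0 (dl K (tw A E))` and `dl_tw`.
`h3_tw`: apply `H3` to `E' := tw (inv A) E` (semistable by `ss_tw`, `bdl_inv`):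
`dl K E' = tw (inv (inv A)) (dl K E) = tw A (dl K E)` (`dl_tw`, `inv_inv`), and multiplication by the
nonzero `a ∈ H0 A` embeds `H0 (dl K E)` in `H0 (tw A (dl K E))`, so its `h0 ≥ 6`.
`deg E' = deg E - 3 deg A` (`deg_tw`, `deg_inv`).
`f_zero`: a nonzero `x ∈ H0 (tw (inv A) E)` gives `2 ≤ h0 A ≤ h0 (ln F E x) ≤ 1` (`h0_le_ln`).
-/

open Module

namespace CLF

universe u

variable {F : Type u} [Field F] [Algebra ℂ F] {R : Fin 2 → Subalgebra ℂ F} {K : Lat F}
variable {V : Type u} [AddCommGroup V] [Module ℂ V] [Module F V] [IsScalarTower ℂ F V]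
  [FiniteDimensional F V]

theorem bad_dual (C : Ctx R K) {E : Lat V} {s : ℤ} (B : Bad R E s) :
    finrank F (Dual F V) = 3 ∧ IsBdl R (dl K E) ∧ Semistable R (dl K E) ∧
    (h0 (dl K E) : ℤ) = 3 * (genus R : ℤ) - 8 - s ∧
    deg R (dl K E) = 6 * (genus R : ℤ) - 14 - 2 * s ∧ 6 ≤ h0 E ∧ 6 ≤ h0 (dl K E) := by
  have G := C.good
  have h1 := rr G B.bdl
  have h2 := deg_dl G B.bdl
  have h3 := B.sec
  have h4 := B.s3
  have h5 := B.le
  rw [B.rank, B.sec, B.dg] at h1
  rw [B.rank, B.dg] at h2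
  push_cast at h1 h2
  refine ⟨(Subspace.dual_finrank_eq).trans B.rank, bdl_dl G B.bdl, ss_dl G B.bdl B.ss, ?_, ?_,
    ?_, ?_⟩
  · linarith
  · linarith
  · omega
  · omega

theorem gen_pencil (C : Ctx R K) {A : Lat F} (hA : IsBdl R A) (h2 : 2 ≤ h0 A)
    (hmin : ∀ D : Lat F, IsBdl R D → 2 ≤ h0 D → deg R A ≤ deg R D) :
    ∃ a0 a1 : F, IsPencil R A a0 a1 := by
  have G := C.good
  haveI := (G.fin F A hA).1
  obtain ⟨f, hf⟩ := exists_linearIndependent_of_le_finrank (R := ℂ) (M := H0 A) h2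
  have hli : LinearIndependent ℂ (fun i => ((f i : H0 A) : F)) :=
    hf.map' (H0 A).subtype (Submodule.ker_subtype _)
  have hv : (fun i => ((f i : H0 A) : F)) = ![((f 0 : H0 A) : F), ((f 1 : H0 A) : F)] := by
    funext i
    fin_cases i <;> rfl
  rw [hv] at hli
  obtain ⟨a0, ha0⟩ : ∃ a0, a0 = ((f 0 : H0 A) : F) := ⟨_, rfl⟩
  obtain ⟨a1, ha1⟩ : ∃ a1, a1 = ((f 1 : H0 A) : F) := ⟨_, rfl⟩
  have m0 : a0 ∈ H0 A := ha0 ▸ (f 0).2
  have m1 : a1 ∈ H0 A := ha1 ▸ (f 1).2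
  rw [← ha0, ← ha1] at hli
  have hS : Submodule.span ℂ {a0, a1} ≤ H0 A := by
    rw [Submodule.span_le]
    rintro x (rfl | rfl)
    · exact m0
    · exact m1
  have hfd : FiniteDimensional ℂ (Submodule.span ℂ ({a0, a1} : Set F)) :=
    FiniteDimensional.span_of_finite ℂ (by simp)
  have ha0n : a0 ≠ 0 := hli.ne_zero 0
  have hsp : Submodule.span F ((Submodule.span ℂ ({a0, a1} : Set F) : Submodule ℂ F) : Set F) =
      ⊤ := by
    rw [Submodule.eq_top_iff']
    intro x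
    have h1 : a0 ∈ Submodule.span F
        ((Submodule.span ℂ ({a0, a1} : Set F) : Submodule ℂ F) : Set F) :=
      Submodule.subset_span (Submodule.subset_span (by simp))
    have h3 := Submodule.smul_mem _ (x * a0⁻¹) h1
    rwa [smul_eq_mul, mul_assoc, inv_mul_cancel₀ ha0n, mul_one] at h3
  have hb : IsBdl R (gn R (Submodule.span ℂ {a0, a1}) : Lat F) := bdl_gn _ hfd hsp
  have hle : ∀ i, (gn R (Submodule.span ℂ {a0, a1}) : Lat F) i ≤ A i := by
    intro i
    have h3 : Oo R i • A i = A i := O_smul hA i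
    have h4 : Submodule.span ℂ {a0, a1} ≤ A i := by
      refine hS.trans ?_
      fin_cases i
      · exact inf_le_left
      · exact inf_le_right
    calc (gn R (Submodule.span ℂ {a0, a1}) : Lat F) i = Oo R i • Submodule.span ℂ {a0, a1} := rfl
      _ ≤ Oo R i • A i := Submodule.smul_mono le_rfl h4
      _ = A i := h3
  have hge : Submodule.span ℂ {a0, a1} ≤ H0 (gn R (Submodule.span ℂ {a0, a1}) : Lat F) := by
    have h5 : ∀ i, Submodule.span ℂ {a0, a1} ≤ (gn R (Submodule.span ℂ {a0, a1}) : Lat F) i := by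
      intro i x hx
      have h6 : (1 : F) • x ∈ Oo R i • Submodule.span ℂ {a0, a1} :=
        Submodule.smul_mem_smul (show (1 : F) ∈ Oo R i from (R i).one_mem) hx
      rwa [one_smul] at h6
    exact le_inf (h5 0) (h5 1)
  haveI := (G.fin F _ hb).1
  have hcard : finrank ℂ (Submodule.span ℂ ({a0, a1} : Set F)) = 2 := by
    have h7 := finrank_span_eq_card hli
    rwa [Matrix.range_cons, Matrix.range_cons, Matrix.range_empty, Set.union_empty,
      Set.singleton_union, Fintype.card_fin] at h7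
  have h8 : 2 ≤ h0 (gn R (Submodule.span ℂ {a0, a1}) : Lat F) := by
    have := Submodule.finrank_mono hge
    rw [hcard] at this
    exact this
  have h9 := hmin _ hb h8
  have h10 := deg_mono G hb hA hle
  have h11 := eq_of_deg_eq G hb hA hle (le_antisymm h10 h9)
  refine ⟨a0, a1, hA, m0, m1, hli, fun i => ?_⟩
  rw [← h11]
  rfl

theorem gen_five (C : Ctx R K) {A : Lat F} (hA : IsBdl R A) (hd : deg R A = 5) (h2 : 2 ≤ h0 A) :
    h0 A = 2 ∧ ∃ a0 a1 : F, IsPencil R A a0 a1 := by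
  have hg := C.g9
  have hmin : ∀ D : Lat F, IsBdl R D → 2 ≤ h0 D → deg R A ≤ deg R D := by
    intro D hD h
    have h1 := C.L2 D hD 2 le_rfl (by exact_mod_cast h)
    rw [hd]
    omega
  refine ⟨?_, gen_pencil C hA h2 hmin⟩
  by_contra h
  have h3 : (3 : ℤ) ≤ (h0 A : ℤ) := by omega
  have h1 := C.L2 A hA 3 (by norm_num) h3
  rw [hd] at h1
  omega

theorem pnum (C : Ctx R K) {A : Lat F} {a0 a1 : F} (hA : IsPencil R A a0 a1) {E : Lat V}
    (hV : finrank F V = 3) (hE : IsBdl R E) :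
    2 * (h0 E : ℤ) - deg R E - 3 * deg R A + 3 * ((genus R : ℤ) - 1) ≤
      (h0 (tw (inv R A) E) : ℤ) + (h0 (tw (inv R A) (dl K E)) : ℤ) := by
  have G := C.good
  have h1 := pencil_le G hA.bdl (hA.ind.ne_zero 0) hA.gen hE
  have h2 := rr G (bdl_tw hA.bdl hE)
  have h3 := deg_tw G hA.bdl hE
  rw [dl_tw G hA.bdl hE, h3, hV] at h2
  push_cast at h2
  zify at h1
  linarith

theorem h3_tw (C : Ctx R K) {A : Lat F} {a0 a1 : F} (hA : IsPencil R A a0 a1) {E : Lat V}
    (hV : finrank F V = 3) (hE : IsBdl R E) (hs : Semistable R E) (h6 : 6 ≤ h0 (dl K E))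
    (h6' : 6 ≤ h0 (tw (inv R A) E)) :
    2 * (h0 (tw (inv R A) E) : ℤ) + 2 ≤ deg R E - 3 * deg R A := by
  have G := C.good
  have hE' : IsBdl R (tw (inv R A) E) := bdl_tw (bdl_inv G hA.bdl) hE
  have h1 : dl K (tw (inv R A) E) = tw A (dl K E) := by
    rw [dl_tw G (bdl_inv G hA.bdl) hE, inv_inv G hA.bdl]
  have hdl : IsBdl R (dl K E) := bdl_dl G hE
  have htw : IsBdl R (tw A (dl K E)) := bdl_tw hA.bdl hdl
  have h2 : h0 (dl K E) ≤ h0 (tw A (dl K E)) := by
    haveI := (G.fin _ _ htw).1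
    haveI := (G.fin _ _ hdl).1
    have ha0 : a0 ≠ 0 := hA.ind.ne_zero 0
    obtain ⟨f, hf⟩ : ∃ f : Dual F V →ₗ[ℂ] Dual F V, ∀ x, f x = a0 • x :=
      ⟨(LinearMap.lsmul F (Dual F V) a0).restrictScalars ℂ, fun _ => rfl⟩
    have hinj : Function.Injective f := by
      intro x y hxy
      rw [hf, hf] at hxy
      exact smul_right_injective _ ha0 hxy
    have hle : (H0 (dl K E)).map f ≤ H0 (tw A (dl K E)) := by
      rintro _ ⟨x, hx, rfl⟩
      rw [hf]
      refine ⟨?_, ?_⟩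
      · exact Submodule.smul_mem_smul hA.m0.1 hx.1
      · exact Submodule.smul_mem_smul hA.m0.2 hx.2
    have h3 := Submodule.finrank_mono hle
    rw [← (Submodule.equivMapOfInjective f hinj (H0 (dl K E))).finrank_eq] at h3
    exact h3
  have h4 := C.H3 V (tw (inv R A) E) hV hE' (ss_tw G (bdl_inv G hA.bdl) hE hs) h6'
    (by rw [h1]; exact h6.trans h2)
  have h5 := deg_tw G (bdl_inv G hA.bdl) hE
  rw [deg_inv G hA.bdl, hV] at h5
  rw [h5] at h4
  push_cast at h4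
  linarith

theorem f_zero (C : Ctx R K) {A : Lat F} (hA : IsBdl R A) (h2 : 2 ≤ h0 A) {E : Lat V}
    (hE : IsBdl R E) (hN : NoLine F E) : h0 (tw (inv R A) E) = 0 := by
  have G := C.good
  by_contra h
  have hne : H0 (tw (inv R A) E) ≠ ⊥ := by
    intro h3
    apply h
    unfold h0
    rw [h3]
    exact finrank_bot ℂ V
  obtain ⟨x, hx, hx0⟩ := Submodule.exists_mem_ne_zero_of_ne_bot hne
  have h3 := h0_le_ln G hA hE hx hx0
  have h4 := hN x hx0
  omega

end CLF
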