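import Pool.Agent.CLF.Col

/-!
# Module Dtw: degrees of twists

PROOFS.
`deg_O`: `deg (Oo R) = chi O - 1 * chi O = 0` (`finrank F F = 1`).
`deg_tw1`. Step 1: for line bundles `N ≤ L` and every line bundle `M`:
`deg (tw L M) - deg (tw N M) = deg L - deg N`. Induction on the natural number `deg L - deg N`
(`deg_mono`).  If it is `0` then `N = L` (`eq_of_deg_eq`).  Otherwise `N ≠ L`, take a point `P` with
`N ≤ tw P L` (`exists_pt`), `deg (tw P L) = deg L - 1`, and
`tw (tw P L) M = tw P (tw L M)` has degree `deg (tw L M) - 1` (`IsPt.drop`).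
Step 2: for arbitrary `L` put `N := L ⊓ O` (`bdl_inf`) and use Step 1 for `N ≤ L` and `N ≤ O`
(`tw O M = M`).
`deg_inv`: `tw L (inv L) = O`.
`cm_tw`: `≤`: if `a x ∈ L i • E i` then for `y ∈ inv L i`: `y • a x ∈ E i` (`mem_inv_tw` for
`L = inv (inv L)`), so `y • x ∈ cm a E i` for all `y ∈ inv L i`, so `x ∈ tw L (cm a E) i` by `mem_inv_tw`
applied to `inv L`. `≥`: clear.
`mp_tw`: `b (x • e) = x • b e`.
`deg_tw`: induction on `finrank F V`: dimension `0` trivial (`chi` of pairs in the zero space is `0`,
so all degrees are 0); else choose a vector `w ≠ 0`, `U = span {w}`, exact sequence `U → V → V ⧸ U`,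
`deg_add`, `cm_tw`, `mp_tw`, rank one case: `U ≃ F` (or do the induction with `F` in place of `U`:
`a = toSpanSingleton w : F → V` injective with range `span {w} = ker mkQ`, so `cm a E = ln F E w` is
a line bundle in `F` and `deg_tw1` applies).
-/

open Module

namespace CLF

universe u

variable {F : Type u} [Field F] [Algebra ℂ F] {R : Fin 2 → Subalgebra ℂ F} {K : Lat F}
variable {V : Type u} [AddCommGroup V] [Module ℂ V] [Module F V] [IsScalarTower ℂ F V]
  [FiniteDimensional F V]
variable {U : Type u} [AddCommGroup U] [Module ℂ U] [Module F U] [IsScalarTower ℂ F U]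
  [FiniteDimensional F U]
variable {W : Type u} [AddCommGroup W] [Module ℂ W] [Module F W] [IsScalarTower ℂ F W]
  [FiniteDimensional F W]

theorem deg_O : deg R (Oo R) = 0 := by
  unfold deg
  simp

private theorem step1 (G : Good R K) {M : Lat F} (hM : IsBdl R M) {N : Lat F} (hN : IsBdl R N) :
    ∀ (n : ℕ) (L : Lat F), IsBdl R L → (∀ i, N i ≤ L i) → deg R L - deg R N = n →
      deg R (tw L M) - deg R (tw N M) = n := by
  intro n
  induction n with
  | zero =>
    intro L hL h hd
    have h1 : N = L := eq_of_deg_eq G hN hL h (by push_cast at hd; omega)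
    rw [h1]
    simp
  | succ n ih =>
    intro L hL h hd
    have hne : N ≠ L := by
      intro h1
      rw [h1] at hd
      push_cast at hd
      omega
    obtain ⟨P, hP, hNP⟩ := exists_pt G hN hL h hne
    have h2 := hP.drop L hL
    have h3 := hP.drop (tw L M) (bdl_tw hL hM)
    have h4 := ih (tw P L) (bdl_tw hP.bdl hL) hNP (by push_cast at hd; omega)
    rw [tw_tw] at h3
    push_cast
    omega

private theorem step1' (G : Good R K) {M : Lat F} (hM : IsBdl R M) {N L : Lat F} (hN : IsBdl R N)
    (hL : IsBdl R L) (h : ∀ i, N i ≤ L i) :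
    deg R (tw L M) - deg R (tw N M) = deg R L - deg R N := by
  have h0 := deg_mono G hN hL h
  obtain ⟨n, hn⟩ := Int.eq_ofNat_of_zero_le (sub_nonneg.2 h0)
  rw [hn]
  exact step1 G hM hN n L hL h hn

theorem deg_tw1 (G : Good R K) {L M : Lat F} (hL : IsBdl R L) (hM : IsBdl R M) :
    deg R (tw L M) = deg R L + deg R M := by
  have hN := bdl_inf G hL (bdl_O (R := R))
  have h1 := step1' G hM hN hL (fun i => inf_le_left)
  have h2 := step1' G hM hN (bdl_O (R := R)) (fun i => inf_le_right)
  rw [tw_O hM, deg_O] at h2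
  omega

theorem deg_inv (G : Good R K) {L : Lat F} (hL : IsBdl R L) : deg R (inv R L) = - deg R L := by
  have h := deg_tw1 G hL (bdl_inv G hL)
  rw [tw_inv G hL, deg_O] at h
  omega

theorem deg_pt {P : Lat F} (hP : IsPt R P) : deg R P = -1 := by
  have h := hP.drop (Oo R) bdl_O
  rw [tw_comm, tw_O hP.bdl, deg_O] at h
  omega

theorem cm_tw (G : Good R K) {L : Lat F} (hL : IsBdl R L) {E : Lat V} (hE : IsBdl R E)
    (a : U →ₗ[F] V) (ha : Function.Injective a) : cm a (tw L E) = tw L (cm a E) := by
  funext i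
  ext x
  have h1 := mem_inv_tw G (bdl_inv G hL) hE i (a x)
  have h2 := mem_inv_tw G (bdl_inv G hL) (bdl_cm G hE a ha) i x
  rw [inv_inv G hL] at h1 h2
  rw [h2]
  refine Iff.trans (?_ : _ ↔ a x ∈ tw L E i) (h1.trans ?_)
  · exact Iff.rfl
  · refine forall₂_congr fun c _ => ?_
    rw [← map_smul]
    exact Iff.rfl

theorem mp_tw (L : Lat F) (E : Lat V) (b : V →ₗ[F] W) : mp b (tw L E) = tw L (mp b E) := by
  funext i
  apply le_antisymm
  · rintro _ ⟨x, hx, rfl⟩
    have hx' : x ∈ L i • E i := hx
    refine Submodule.smul_induction_on hx' ?_ ?_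
    · intro r hr n hn
      have h1 : (b.restrictScalars ℂ) (r • n) = r • (b n) := by simp
      rw [h1]
      exact Submodule.smul_mem_smul hr ⟨n, hn, rfl⟩
    · intro y z hy hz
      rw [map_add]
      exact Submodule.add_mem _ hy hz
  · refine Submodule.smul_le.2 ?_
    rintro r hr _ ⟨n, hn, rfl⟩
    exact ⟨r • n, Submodule.smul_mem_smul hr hn, by simp⟩

private theorem deg_tw_aux (G : Good R K) {L : Lat F} (hL : IsBdl R L) :
    ∀ (n : ℕ) (V : Type u) [AddCommGroup V] [Module ℂ V] [Module F V] [IsScalarTower ℂ F V]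
      [FiniteDimensional F V], finrank F V = n → ∀ {E : Lat V}, IsBdl R E →
      deg R (tw L E) = deg R E + (n : ℤ) * deg R L := by
  intro n
  induction n with
  | zero =>
    intro V _ _ _ _ _ hn E hE
    have h1 : Subsingleton V := Module.finrank_zero_iff.1 hn
    have h2 : tw L E = E := by
      funext i
      exact Subsingleton.elim _ _
    rw [h2]
    simp
  | succ n ih =>
    intro V _ _ _ _ _ hn E hE
    have h0 : Nontrivial V := Module.nontrivial_of_finrank_pos (R := F) (by omega)
    obtain ⟨w, hw⟩ := exists_ne (0 : V)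
    set a : F →ₗ[F] V := LinearMap.toSpanSingleton F V w with ha
    set b := (Submodule.span F {w}).mkQ with hb
    have hinj : Function.Injective a := by
      rw [← LinearMap.ker_eq_bot]
      exact LinearMap.ker_toSpanSingleton F hw
    have hsur : Function.Surjective b := Submodule.mkQ_surjective _
    have hab : LinearMap.range a = LinearMap.ker b := by
      rw [ha, hb, Submodule.ker_mkQ, LinearMap.range_toSpanSingleton]
    have hfr : finrank F (V ⧸ Submodule.span F {w}) = n := by
      have h1 := Submodule.finrank_quotient_add_finrank (Submodule.span F {w})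
      rw [finrank_span_singleton hw] at h1
      omega
    have h1 := deg_add G hE a b hinj hsur hab
    have h2 := deg_add G (bdl_tw hL hE) a b hinj hsur hab
    rw [cm_tw G hL hE a hinj, mp_tw, deg_tw1 G hL (bdl_cm G hE a hinj),
      ih _ hfr (bdl_mp hE b hsur)] at h2
    push_cast
    linarith

theorem deg_tw (G : Good R K) {L : Lat F} (hL : IsBdl R L) {E : Lat V} (hE : IsBdl R E) :
    deg R (tw L E) = deg R E + (finrank F V : ℤ) * deg R L :=
  deg_tw_aux G hL _ V rfl hE

end CLF
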