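import Pool.Agent.CLF.Spl
import Pool.Agent.CLF.Dtw

/-!
# Module Det2: the determinant of a rank two bundle

PROOF. `lam := ln F E (b 0)`, `φ := b.coord 1`, `q := mp φ E`, `D := tw lam q`.  The sequence
`F → V → F` with maps `toSpanSingleton (b 0)`, `φ` is exact, so `deg lam + deg q = deg E` (`deg_add`)
and `deg D = deg E` (`deg_tw1`).  Let `v 0, v 1 ∈ E i`, `y_j = φ (v j) ∈ q i`, `v0` from `split`,
`v0 = c b_0 + b_1` (as `φ v0 = 1`).  `v j - y_j • v0 = x_j • b_0 ∈ E i`, so `x_j ∈ lam i`.
The coordinates of `v j` are `(x_j + y_j c, y_j)`, and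
`b.det v = (x_0 + y_0 c) y_1 - (x_1 + y_1 c) y_0 = x_0 y_1 - x_1 y_0 ∈ lam i * q i` up to sign
convention of `Basis.det` (`Basis.det_apply`, `Matrix.det_fin_two`, `Basis.toMatrix_apply`).
-/

open Module

namespace CLF

universe u

variable {F : Type u} [Field F] [Algebra ℂ F] {R : Fin 2 → Subalgebra ℂ F} {K : Lat F}
variable {V : Type u} [AddCommGroup V] [Module ℂ V] [Module F V] [IsScalarTower ℂ F V]
  [FiniteDimensional F V]

theorem det2 (G : Good R K) {E : Lat V} (hE : IsBdl R E) (b : Basis (Fin 2) F V) :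
    ∃ D : Lat F, IsBdl R D ∧ deg R D = deg R E ∧
      ∀ i, ∀ v : Fin 2 → V, (∀ j, v j ∈ E i) → b.det v ∈ D i := by
  have hb0 : b 0 ≠ 0 := b.ne_zero 0
  have hφ : b.coord 1 ≠ 0 := by
    intro h
    have := congrArg (fun f => f (b 1)) h
    simp at this
  have hsurj : Function.Surjective (b.coord 1) := LinearMap.surjective hφ
  have hinj : Function.Injective (LinearMap.toSpanSingleton F V (b 0)) := by
    rw [← LinearMap.ker_eq_bot, LinearMap.ker_toSpanSingleton]
    exact hb0
  have hex : LinearMap.range (LinearMap.toSpanSingleton F V (b 0)) = LinearMap.ker (b.coord 1) := by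
    ext x
    rw [LinearMap.mem_range, LinearMap.mem_ker]
    constructor
    · rintro ⟨c, rfl⟩
      simp
    · intro h
      refine ⟨b.coord 0 x, ?_⟩
      have h2 := b.sum_repr x
      rw [Fin.sum_univ_two] at h2
      have h3 : b.repr x 1 = 0 := h
      rw [h3, zero_smul, add_zero] at h2
      simpa using h2
  have hlam : IsBdl R (ln F E (b 0)) := bdl_ln G hE hb0
  have hq : IsBdl R (mp (b.coord 1) E) := bdl_mp hE (b.coord 1) hsurj
  refine ⟨tw (ln F E (b 0)) (mp (b.coord 1) E), bdl_tw hlam hq, ?_, ?_⟩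
  · rw [deg_tw1 G hlam hq]
    exact deg_add G hE (LinearMap.toSpanSingleton F V (b 0)) (b.coord 1) hinj hsurj hex
  · intro i v hv
    obtain ⟨v0, hv0, hv0'⟩ := split G hE (b.coord 1) hφ i
    have hy : ∀ j, b.coord 1 (v j) ∈ mp (b.coord 1) E i := fun j => ⟨v j, hv j, rfl⟩
    have hx : ∀ j, b.coord 0 (v j) - b.coord 1 (v j) * b.coord 0 v0 ∈ ln F E (b 0) i := by
      intro j
      have h1 : v j - b.coord 1 (v j) • v0 ∈ E i := (E i).sub_mem (hv j) (hv0' _ (hy j))
      have h2 : v j - b.coord 1 (v j) • v0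
          = (b.coord 0 (v j) - b.coord 1 (v j) * b.coord 0 v0) • b 0 := by
        apply b.repr.injective
        ext k
        fin_cases k
        · simp
        · have : b.repr v0 1 = 1 := hv0
          simp [this]
      rw [h2] at h1
      exact h1
    have h4 : b.det v = (b.coord 0 (v 0) - b.coord 1 (v 0) * b.coord 0 v0) * b.coord 1 (v 1)
        - (b.coord 0 (v 1) - b.coord 1 (v 1) * b.coord 0 v0) * b.coord 1 (v 0) := by
      rw [Basis.det_apply, Matrix.det_fin_two]
      simp only [Basis.toMatrix_apply, Basis.coord_apply]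
      ring
    rw [h4]
    exact Submodule.sub_mem _ (Submodule.smul_mem_smul (hx 0) (hy 1))
      (Submodule.smul_mem_smul (hx 1) (hy 0))

end CLF
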