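import Pool.Agent.CLF.Dua

/-!
# Module Iso: invariance under linear isomorphisms; sections in subspaces

PROOFS. Transport of structure.
`h0_equiv`: `e` maps `H0 E` isomorphically onto `H0 (mp e E) = e(E 0) ⊓ e(E 1)`.
`chi`/`deg`: also `V/(E 0 + E 1) ≃ W/(e E 0 + e E 1)` and `finrank F V = finrank F W`.
`ss_equiv`: for `U ≤ W` nonzero, `cm U.subtype (mp e E)` corresponds to `cm (U.comap e).subtype E`
under the isomorphism `U.comap e ≃ U`.
`h0_dl_equiv`: the dual isomorphism maps `dl K (mp e E)` onto `dl K E`.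
`h0_cm_sub`: the inclusion `U → V` maps `H0 (cm U.subtype E)` isomorphically to `H0 E ⊓ U`.
`h0_ln`: the map `x ↦ x • w` maps `H0 (ln F E w)` isomorphically to `H0 E ⊓ F w`.
`deg_ln`: `F ≃ span F {w}`, `x ↦ x • w`, maps `ln F E w` onto `cm (span F {w}).subtype E`.
`ln_cm`: definition (`a (x • w) = x • a w`).
`deg_top`: `⊤ ≃ V`.
-/

open Module

namespace CLF

universe u

variable {F : Type u} [Field F] [Algebra ℂ F] {R : Fin 2 → Subalgebra ℂ F} {K : Lat F}
variable {V : Type u} [AddCommGroup V] [Module ℂ V] [Module F V] [IsScalarTower ℂ F V]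
  [FiniteDimensional F V]
variable {U : Type u} [AddCommGroup U] [Module ℂ U] [Module F U] [IsScalarTower ℂ F U]
  [FiniteDimensional F U]
variable {W : Type u} [AddCommGroup W] [Module ℂ W] [Module F W] [IsScalarTower ℂ F W]
  [FiniteDimensional F W]

/-- dimension of the image of a subspace under an injective map -/
private theorem fr_map {A B : Type*} [AddCommGroup A] [Module ℂ A] [AddCommGroup B] [Module ℂ B]
    (f : A →ₗ[ℂ] B) (hf : Function.Injective f) (S : Submodule ℂ A) :
    finrank ℂ (S.map f) = finrank ℂ S :=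
  (Submodule.equivMapOfInjective f hf S).finrank_eq.symm

private theorem H0_mp (E : Lat V) (e : V →ₗ[F] W) (he : Function.Injective e) :
    H0 (mp e E) = (H0 E).map (e.restrictScalars ℂ) := by
  have h : Function.Injective (e.restrictScalars ℂ) := he
  simp only [H0, mp]
  exact (Submodule.map_inf (e.restrictScalars ℂ) h).symm

private theorem H0_cm (E : Lat V) (a : U →ₗ[F] V) :
    H0 (cm a E) = (H0 E).comap (a.restrictScalars ℂ) := rfl

private theorem h0_cm' (E : Lat V) (a : U →ₗ[F] V) (ha : Function.Injective a) :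
    h0 (cm a E) =
      finrank ℂ (H0 E ⊓ (LinearMap.range a).restrictScalars ℂ : Submodule ℂ V) := by
  have h : Function.Injective (a.restrictScalars ℂ) := ha
  have h1 : ((H0 (cm a E)).map (a.restrictScalars ℂ)) =
      (H0 E ⊓ (LinearMap.range a).restrictScalars ℂ : Submodule ℂ V) := by
    rw [H0_cm]
    ext v
    simp only [Submodule.mem_map, Submodule.mem_comap, LinearMap.restrictScalars_apply,
      Submodule.mem_inf, Submodule.restrictScalars_mem, LinearMap.mem_range]
    constructor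
    · rintro ⟨y, hy, rfl⟩
      exact ⟨hy, y, rfl⟩
    · rintro ⟨h1, y, rfl⟩
      exact ⟨y, h1, rfl⟩
  unfold h0
  rw [← fr_map _ h, h1]

private theorem h1_equiv' (E : Lat V) (e : V ≃ₗ[F] W) : h1 (mp (e : V →ₗ[F] W) E) = h1 E := by
  unfold h1
  refine (Submodule.Quotient.equiv (E 0 ⊔ E 1)
    (mp (e : V →ₗ[F] W) E 0 ⊔ mp (e : V →ₗ[F] W) E 1) (e.restrictScalars ℂ) ?_).finrank_eq.symm
  exact Submodule.map_sup _ _ _

theorem bdl_equiv {E : Lat V} (hE : IsBdl R E) (e : V ≃ₗ[F] W) :
    IsBdl R (mp (e : V →ₗ[F] W) E) :=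
  bdl_mp hE _ e.surjective

theorem h0_equiv (E : Lat V) (e : V ≃ₗ[F] W) : h0 (mp (e : V →ₗ[F] W) E) = h0 E := by
  unfold h0
  rw [H0_mp E _ e.injective]
  exact fr_map _ e.injective _

theorem deg_equiv (E : Lat V) (e : V ≃ₗ[F] W) : deg R (mp (e : V →ₗ[F] W) E) = deg R E := by
  unfold deg chi
  rw [h0_equiv, h1_equiv', e.finrank_eq]

theorem ss_equiv {E : Lat V} (hs : Semistable R E) (e : V ≃ₗ[F] W) :
    Semistable R (mp (e : V →ₗ[F] W) E) := by
  intro U hU
  have hm : (U.comap (e : V →ₗ[F] W)).map (e : V →ₗ[F] W) = U :=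
    Submodule.map_comap_eq_of_surjective e.surjective U
  have hU' : U.comap (e : V →ₗ[F] W) ≠ ⊥ := by
    intro h
    rw [h, Submodule.map_bot] at hm
    exact hU hm.symm
  have h1 := hs _ hU'
  have e' : ↥(U.comap (e : V →ₗ[F] W)) ≃ₗ[F] U := LinearEquiv.ofSubmodules e _ _ hm
  have h2 : cm U.subtype (mp (e : V →ₗ[F] W) E) =
      mp ((LinearEquiv.ofSubmodules e _ _ hm : ↥(U.comap (e : V →ₗ[F] W)) ≃ₗ[F] U) :
        ↥(U.comap (e : V →ₗ[F] W)) →ₗ[F] U) (cm (U.comap (e : V →ₗ[F] W)).subtype E) := by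
    funext i
    ext ⟨x, hx⟩
    simp only [cm, mp, Submodule.mem_comap, Submodule.mem_map, LinearMap.restrictScalars_apply,
      Submodule.subtype_apply]
    constructor
    · rintro ⟨y, hy, hyx⟩
      have hyU : y ∈ U.comap (e : V →ₗ[F] W) := by
        rw [Submodule.mem_comap, hyx]; exact hx
      exact ⟨⟨y, hyU⟩, hy, Subtype.ext hyx⟩
    · rintro ⟨⟨y, hyU⟩, hy, hyx⟩
      exact ⟨y, hy, congrArg Subtype.val hyx⟩
  rw [h2, deg_equiv, deg_equiv, ← e.finrank_eq, ← e'.finrank_eq]
  exact h1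

theorem h0_dl_equiv (E : Lat V) (e : V ≃ₗ[F] W) :
    h0 (dl K (mp (e : V →ₗ[F] W) E)) = h0 (dl K E) := by
  have h : mp ((e.dualMap : Dual F W ≃ₗ[F] Dual F V) : Dual F W →ₗ[F] Dual F V)
      (dl K (mp (e : V →ₗ[F] W) E)) = dl K E := by
    funext i
    ext φ
    constructor
    · rintro ⟨ψ, hψ, rfl⟩ x hx
      exact hψ _ ⟨x, hx, rfl⟩
    · intro hφ
      refine ⟨e.symm.dualMap φ, ?_, ?_⟩
      · rintro _ ⟨x, hx, rfl⟩
        have h1 : (e.symm.dualMap φ) (((e : V →ₗ[F] W).restrictScalars ℂ) x) = φ x := by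
          simp
        rw [h1]
        exact hφ x hx
      · ext x
        simp
  rw [← h, h0_equiv]

theorem h0_cm_sub (E : Lat V) (U : Submodule F V) :
    h0 (cm U.subtype E) = finrank ℂ (H0 E ⊓ U.restrictScalars ℂ : Submodule ℂ V) := by
  rw [h0_cm' E U.subtype U.injective_subtype, Submodule.range_subtype]

theorem h0_ln (E : Lat V) {w : V} (hw : w ≠ 0) :
    h0 (ln F E w) =
      finrank ℂ (H0 E ⊓ (Submodule.span F {w}).restrictScalars ℂ : Submodule ℂ V) := by
  have hi : Function.Injective (LinearMap.toSpanSingleton F V w) := by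
    intro x y hxy
    simp only [LinearMap.toSpanSingleton_apply] at hxy
    exact smul_left_injective F hw hxy
  unfold ln
  rw [h0_cm' E _ hi, LinearMap.range_toSpanSingleton]

theorem deg_ln (E : Lat V) {w : V} (hw : w ≠ 0) :
    deg R (ln F E w) = deg R (cm (Submodule.span F {w}).subtype E) := by
  have h : mp ((LinearEquiv.toSpanNonzeroSingleton F V w hw :
      F ≃ₗ[F] ↥(Submodule.span F {w})) : F →ₗ[F] ↥(Submodule.span F {w})) (ln F E w) =
      cm (Submodule.span F {w}).subtype E := by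
    funext i
    ext ⟨x, hx⟩
    simp only [ln, cm, mp, Submodule.mem_comap, Submodule.mem_map,
      LinearMap.restrictScalars_apply, Submodule.subtype_apply]
    constructor
    · rintro ⟨y, hy, hyx⟩
      have h2 := congrArg Subtype.val hyx
      simp at h2
      rw [← h2]
      simpa using hy
    · intro hE
      obtain ⟨y, rfl⟩ := Submodule.mem_span_singleton.1 hx
      exact ⟨y, by simpa using hE, Subtype.ext (by simp)⟩
  rw [← h, deg_equiv]

theorem ln_cm (E : Lat V) (a : U →ₗ[F] V) (w : U) : ln F (cm a E) w = ln F E (a w) := by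
  funext i
  ext x
  simp [ln, cm]

theorem deg_top (E : Lat V) : deg R (cm (⊤ : Submodule F V).subtype E) = deg R E := by
  have h : mp ((Submodule.topEquiv : ↥(⊤ : Submodule F V) ≃ₗ[F] V) :
      ↥(⊤ : Submodule F V) →ₗ[F] V) (cm (⊤ : Submodule F V).subtype E) = E := by
    funext i
    ext x
    simp only [cm, mp, Submodule.mem_comap, Submodule.mem_map,
      LinearMap.restrictScalars_apply, Submodule.subtype_apply]
    constructor
    · rintro ⟨y, hy, rfl⟩
      exact hy
    · intro hx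
      exact ⟨⟨x, trivial⟩, hx, rfl⟩
  conv_rhs => rw [← h]
  rw [deg_equiv]

end CLF
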