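import Pool.Agent.CLF.Det2

/-!
# Module Det3: the determinant of a rank three bundle

PROOF. `ι : (Fin 2 → F) → V`, `ι p = p 0 • b 0 + p 1 • b 1` (injective, range = ker φ, `φ := b.coord 2`),
`E' := cm ι E`, a bundle of rank 2 (`bdl_cm`), `q := mp φ E`; `deg E' + deg q = deg E` (`deg_add`).
`det2` for `E'` and the standard basis (`Pi.basisFun F (Fin 2)`) gives `D'` with `deg D' = deg E'` and
`det (p, p') ∈ D' i` for `p, p' ∈ E' i`.  `D := tw q D'`.
For `v j ∈ E i`: `y_j = φ (v j) ∈ q i`; `v0 = c0 b_0 + c1 b_1 + b_2` from `split`;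
`v j - y_j • v0 = ι p_j`, `p_j ∈ E' i`. Coordinates of `v j`: `(p_j0 + y_j c0, p_j1 + y_j c1, y_j)`.
`b.det v = y_0 det(p_1,p_2) - y_1 det(p_0,p_2) + y_2 det(p_0,p_1)` (the terms with `c0, c1` cancel;
`Matrix.det_fin_three` and `ring`), which lies in `q i * D' i`.
-/

open Module

namespace CLF

universe u

variable {F : Type u} [Field F] [Algebra ℂ F] {R : Fin 2 → Subalgebra ℂ F} {K : Lat F}
variable {V : Type u} [AddCommGroup V] [Module ℂ V] [Module F V] [IsScalarTower ℂ F V]
  [FiniteDimensional F V]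

theorem det3 (G : Good R K) {E : Lat V} (hE : IsBdl R E) (b : Basis (Fin 3) F V) :
    ∃ D : Lat F, IsBdl R D ∧ deg R D = deg R E ∧
      ∀ i, ∀ v : Fin 3 → V, (∀ j, v j ∈ E i) → b.det v ∈ D i := by
  have hφ : b.coord 2 ≠ 0 := by
    intro h
    have := congrArg (fun f => f (b 2)) h
    simp at this
  have hsurj : Function.Surjective (b.coord 2) := LinearMap.surjective hφ
  let ι : (Fin 2 → F) →ₗ[F] V := Fintype.linearCombination F ![b 0, b 1]
  have hι : ∀ p, ι p = p 0 • b 0 + p 1 • b 1 := by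
    intro p
    simp [ι, Fintype.linearCombination_apply, Fin.sum_univ_two]
  have hc0 : ∀ p, b.coord 0 (ι p) = p 0 := by
    intro p
    rw [hι]
    simp
  have hc1 : ∀ p, b.coord 1 (ι p) = p 1 := by
    intro p
    rw [hι]
    simp
  have hc2 : ∀ p, b.coord 2 (ι p) = 0 := by
    intro p
    rw [hι]
    simp
  have hinj : Function.Injective ι := by
    intro p p' h
    funext j
    fin_cases j
    · have := congrArg (b.coord 0) h
      rwa [hc0, hc0] at this
    · have := congrArg (b.coord 1) h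
      rwa [hc1, hc1] at this
  have hex : LinearMap.range ι = LinearMap.ker (b.coord 2) := by
    ext x
    rw [LinearMap.mem_range, LinearMap.mem_ker]
    constructor
    · rintro ⟨c, rfl⟩
      exact hc2 c
    · intro h
      refine ⟨![b.coord 0 x, b.coord 1 x], ?_⟩
      rw [hι]
      have h2 := b.sum_repr x
      rw [Fin.sum_univ_three] at h2
      have h3 : b.repr x 2 = 0 := h
      rw [h3, zero_smul, add_zero] at h2
      simpa using h2
  have hE' : IsBdl R (cm ι E) := bdl_cm G hE ι hinj
  have hq : IsBdl R (mp (b.coord 2) E) := bdl_mp hE (b.coord 2) hsurj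
  obtain ⟨D', hD', hdeg, hdet⟩ := det2 G hE' (Pi.basisFun F (Fin 2))
  refine ⟨tw (mp (b.coord 2) E) D', bdl_tw hq hD', ?_, ?_⟩
  · rw [deg_tw1 G hq hD', hdeg, add_comm]
    exact deg_add G hE ι (b.coord 2) hinj hsurj hex
  · intro i v hv
    obtain ⟨v0, hv0, hv0'⟩ := split G hE (b.coord 2) hφ i
    have hv02 : b.repr v0 2 = 1 := hv0
    have hy : ∀ j, b.coord 2 (v j) ∈ mp (b.coord 2) E i := fun j => ⟨v j, hv j, rfl⟩
    let p : Fin 3 → (Fin 2 → F) := fun j =>
      ![b.coord 0 (v j) - b.coord 2 (v j) * b.coord 0 v0,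
        b.coord 1 (v j) - b.coord 2 (v j) * b.coord 1 v0]
    have hx : ∀ j, p j ∈ cm ι E i := by
      intro j
      have h1 : v j - b.coord 2 (v j) • v0 ∈ E i := (E i).sub_mem (hv j) (hv0' _ (hy j))
      have h2 : v j - b.coord 2 (v j) • v0 = ι (p j) := by
        apply b.repr.injective
        rw [hι]
        ext k
        fin_cases k
        · simp [p]
        · simp [p]
        · simp [p, hv02]
      rw [h2] at h1
      exact h1
    have hd : ∀ j k, p j 0 * p k 1 - p j 1 * p k 0 ∈ D' i := by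
      intro j k
      have h1 := hdet i ![p j, p k] (by
        intro l
        fin_cases l
        · exact hx j
        · exact hx k)
      rw [Basis.det_apply, Matrix.det_fin_two] at h1
      simp only [Basis.toMatrix_apply, Pi.basisFun_repr] at h1
      simp only [Matrix.cons_val_zero, Matrix.cons_val_one] at h1
      have e : p j 0 * p k 1 - p j 1 * p k 0 = p j 0 * p k 1 - p k 0 * p j 1 := by ring
      rw [e]
      exact h1
    have h4 : b.det v = b.coord 2 (v 0) * (p 1 0 * p 2 1 - p 1 1 * p 2 0)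
        - b.coord 2 (v 1) * (p 0 0 * p 2 1 - p 0 1 * p 2 0)
        + b.coord 2 (v 2) * (p 0 0 * p 1 1 - p 0 1 * p 1 0) := by
      rw [Basis.det_apply, Matrix.det_fin_three]
      simp only [Basis.toMatrix_apply, Basis.coord_apply, p, Matrix.cons_val_zero,
        Matrix.cons_val_one]
      ring
    rw [h4]
    exact Submodule.add_mem _ (Submodule.sub_mem _ (Submodule.smul_mem_smul (hy 0) (hd 1 2))
      (Submodule.smul_mem_smul (hy 1) (hd 0 2))) (Submodule.smul_mem_smul (hy 2) (hd 0 1))

end CLF
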