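import Pool.Agent.CLF.Prd
import Pool.Agent.CLF.Det3
import Pool.Agent.CLF.Iso

/-!
# Module Pr3: the Paranjape-Ramanan bound in rank three

PROOF. As in `Pr2` with `n = 3`, `det3`.  If `w 0, w 1, w 2 ∈ S` are ℂ-independent with determinant
`0`, their `F`-span has dimension at most `2`; extend it to a 2-dimensional `P` (or if the span has
dimension one it is a line containing 3 independent elements of `S`).  `S ⊓ P` contains the three
independent vectors so has `finrank ≥ 3`.  Otherwise `span_det_dim` gives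
`3 (m - 3) + 1 ≤ finrank T ≤ h0 D`.
-/

open Module

namespace CLF

universe u

variable {F : Type u} [Field F] [Algebra ℂ F] {R : Fin 2 → Subalgebra ℂ F} {K : Lat F}
variable {V : Type u} [AddCommGroup V] [Module ℂ V] [Module F V] [IsScalarTower ℂ F V]
  [FiniteDimensional F V]

private theorem pr3Indep {n : ℕ} (S : Submodule ℂ V) [FiniteDimensional ℂ S]
    (P : Submodule F V) (v : Fin n → V) (hv : ∀ i, v i ∈ S) (hP : ∀ i, v i ∈ P)
    (hli : LinearIndependent ℂ v) :
    n ≤ finrank ℂ (S ⊓ P.restrictScalars ℂ : Submodule ℂ V) := by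
  have : FiniteDimensional ℂ (S ⊓ P.restrictScalars ℂ : Submodule ℂ V) :=
    Submodule.finiteDimensional_of_le (inf_le_left : S ⊓ P.restrictScalars ℂ ≤ S)
  let v' : Fin n → (S ⊓ P.restrictScalars ℂ : Submodule ℂ V) := fun i => ⟨v i, hv i, hP i⟩
  have h1 : LinearIndependent ℂ v' := by
    apply LinearIndependent.of_comp (S ⊓ P.restrictScalars ℂ : Submodule ℂ V).subtype
    exact hli
  have h2 := h1.fintype_card_le_finrank
  simpa using h2

private theorem pr3Main (G : Good R K) {n : ℕ} (hn : 1 ≤ n) {E : Lat V} (hE : IsBdl R E)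
    (b : Basis (Fin n) F V) (S : Submodule ℂ V) (hS : S ≤ H0 E) (hm : n ≤ finrank ℂ S)
    (D : Lat F) (hD : IsBdl R D)
    (hdet : ∀ i, ∀ v : Fin n → V, (∀ j, v j ∈ E i) → b.det v ∈ D i) :
    (∃ v : Fin n → V, (∀ i, v i ∈ S) ∧ LinearIndependent ℂ v ∧
      finrank F (Submodule.span F (Set.range v)) < n) ∨
    n * (finrank ℂ S - n) + 1 ≤ h0 D := by
  obtain ⟨hfE, -⟩ := G.fin V E hE
  obtain ⟨hfD, -⟩ := G.fin F D hD
  have hSf : FiniteDimensional ℂ S := Submodule.finiteDimensional_of_le hS
  by_cases hex : ∃ v : Fin n → V, (∀ i, v i ∈ S) ∧ LinearIndependent ℂ v ∧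
      finrank F (Submodule.span F (Set.range v)) < n
  · exact Or.inl hex
  right
  let e : V ≃ₗ[ℂ] (Fin n → F) := b.equivFun.restrictScalars ℂ
  let S' : Submodule ℂ (Fin n → F) := S.map (e : V →ₗ[ℂ] (Fin n → F))
  have hS'f : FiniteDimensional ℂ S' := inferInstance
  have hrk : finrank ℂ S' = finrank ℂ S := LinearEquiv.finrank_map_eq e S
  have hdete : ∀ v : Fin n → V, Matrix.det (Matrix.of fun i => e (v i)) = b.det v := by
    intro v
    rw [Basis.det_apply, ← Matrix.det_transpose]
    congr 1
  have hmem : ∀ w : Fin n → Fin n → F, (∀ i, w i ∈ S') →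
      (∀ i, e.symm (w i) ∈ S) := by
    intro w hw i
    obtain ⟨x, hx, hxe⟩ := hw i
    rw [← hxe]
    simpa using hx
  have key := span_det_dim n hn S' hS'f (by rw [hrk]; exact hm) (by
    intro w hw hli hdet0
    apply hex
    refine ⟨fun i => e.symm (w i), hmem w hw, ?_, ?_⟩
    · exact hli.map' (e.symm : (Fin n → F) →ₗ[ℂ] V) e.symm.ker
    · have hnot : ¬ LinearIndependent F (fun i => e.symm (w i)) := by
        intro hlF
        have h1 : IsUnit (b.det (fun i => e.symm (w i))) := by
          rw [← Basis.is_basis_iff_det]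
          refine ⟨hlF, ?_⟩
          apply hlF.span_eq_top_of_card_eq_finrank'
          rw [Module.finrank_eq_card_basis b]
        rw [← hdete] at h1
        have h2 : (fun i => e ((fun i => e.symm (w i)) i)) = w := by
          funext i
          simp
        rw [h2, hdet0] at h1
        exact not_isUnit_zero h1
      have h3 : (Set.range (fun i => e.symm (w i))).finrank F ≤ Fintype.card (Fin n) :=
        finrank_range_le_card _
      rw [linearIndependent_iff_card_eq_finrank_span] at hnot
      rw [Fintype.card_fin] at h3 hnot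
      exact lt_of_le_of_ne h3 (fun h => hnot h.symm))
  obtain ⟨hk1, hk2⟩ := key
  rw [hrk] at hk1
  refine hk1.trans ?_
  unfold h0
  apply Submodule.finrank_mono
  rw [Submodule.span_le]
  rintro x ⟨w, hw, rfl⟩
  have hx : Matrix.det (Matrix.of w) = b.det (fun i => e.symm (w i)) := by
    rw [← hdete]
    congr 2
    funext i
    simp
  rw [hx]
  have hSE : ∀ i, e.symm (w i) ∈ H0 E := fun i => hS (hmem w hw i)
  exact ⟨hdet 0 _ (fun j => (hSE j).1), hdet 1 _ (fun j => (hSE j).2)⟩

theorem pr3 (G : Good R K) (hV : finrank F V = 3) {E : Lat V} (hE : IsBdl R E)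
    (S : Submodule ℂ V) (hS : S ≤ H0 E) (hm : 3 ≤ finrank ℂ S) :
    (∃ w : V, w ≠ 0 ∧
      2 ≤ finrank ℂ (S ⊓ (Submodule.span F {w}).restrictScalars ℂ : Submodule ℂ V)) ∨
    (∃ P : Submodule F V, finrank F P = 2 ∧
      3 ≤ finrank ℂ (S ⊓ P.restrictScalars ℂ : Submodule ℂ V)) ∨
    ∃ D : Lat F, IsBdl R D ∧ deg R D = deg R E ∧ 3 * finrank ℂ S ≤ h0 D + 8 := by
  let b : Basis (Fin 3) F V := finBasisOfFinrankEq F V hV
  obtain ⟨D, hD, hdeg, hdet⟩ := det3 G hE b
  obtain ⟨hfE, -⟩ := G.fin V E hE
  have hSf : FiniteDimensional ℂ S := Submodule.finiteDimensional_of_le hS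
  rcases pr3Main G (by norm_num) hE b S hS hm D hD hdet with ⟨v, hvS, hli, hlt⟩ | h
  · by_cases h2 : finrank F (Submodule.span F (Set.range v)) = 2
    · right
      left
      refine ⟨Submodule.span F (Set.range v), h2, ?_⟩
      exact pr3Indep S _ v hvS (fun i => Submodule.subset_span ⟨i, rfl⟩) hli
    · left
      have hv0 : v 0 ≠ 0 := hli.ne_zero 0
      refine ⟨v 0, hv0, ?_⟩
      refine le_trans (by norm_num) (pr3Indep S _ v hvS ?_ hli)
      intro i
      have h1 : Submodule.span F {v 0} ≤ Submodule.span F (Set.range v) := by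
        apply Submodule.span_mono
        rintro _ rfl
        exact ⟨0, rfl⟩
      have h3 : Submodule.span F {v 0} = Submodule.span F (Set.range v) := by
        apply Submodule.eq_of_le_of_finrank_le h1
        rw [finrank_span_singleton hv0]
        omega
      rw [h3]
      exact Submodule.subset_span ⟨i, rfl⟩
  · right
    right
    refine ⟨D, hD, hdeg, ?_⟩
    omega

end CLF
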