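import Pool.Agent.CLF.Ctx
import Pool.Agent.CLF.Pr2
import Pool.Agent.CLF.Pr3
import Pool.Agent.CLF.Num

/-!
# Module ClaimF: semistable bundles of rank three and degree at most eleven

CLAIM: `E` semistable of rank 3, `deg E ≤ 11` implies `h0 E ≤ 4`.
PROOF. (L2 numbers, `9 ≤ g ≤ 12`: `h0 ≥ 2 → deg ≥ 5`; `h0 ≥ 3 → deg ≥ 7`; `h0 ≥ 4 → deg ≥ 9`;
`h0 ≥ 5 → deg ≥ 11`; `h0 ≥ 7 → deg ≥ 14`.)
Let `m = h0 E ≥ 5`, apply `pr3` with `S = H0 E`.
(i) a line: `h0 (ln F E w) ≥ 2` (`h0_ln`), so `deg (ln F E w) ≥ 5`, but `3 deg (ln) ≤ 11` (`ss_ln`): no.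
(ii) a plane `P` with `finrank (H0 E ⊓ P) = h0 (cm P.subtype E) ≥ 3` (`h0_cm_sub`).  Let `N := cm P.subtype E`,
`3 deg N ≤ 2 deg E ≤ 22`, `deg N ≤ 7`.  Apply `pr2` to `N` (on the 2-dimensional space `P`) with `S = H0 N`.
A line in `P` with two sections is a line in `V` with two sections (`ln_cm`, `h0_ln`): excluded by (i).
So there is `D` with `deg D = deg N ≤ 7`, `2 h0 N ≤ h0 D + 3`.  If `h0 N ≥ 4` then `h0 D ≥ 5`,
`deg D ≥ 11`: no.  So `h0 N = 3`, `h0 D ≥ 3`, `deg N = deg D = 7`; the quotient line bundle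
`M = mp φ E` (`plane_quot`) has degree `deg E - 7 ≤ 4`, so `h0 M ≤ 1`, and
`h0 E ≤ h0 N + h0 M ≤ 4` (`h0_le_add`): no.
(iii) `D` with `deg D = deg E ≤ 11` and `h0 D ≥ 3 m - 8 ≥ 7`: `deg D ≥ 14`: no.
-/

open Module

namespace CLF

universe u

variable {F : Type u} [Field F] [Algebra ℂ F] {R : Fin 2 → Subalgebra ℂ F} {K : Lat F}
variable {V : Type u} [AddCommGroup V] [Module ℂ V] [Module F V] [IsScalarTower ℂ F V]
  [FiniteDimensional F V]

theorem claimF (C : Ctx R K) (hV : finrank F V = 3) {E : Lat V} (hE : IsBdl R E)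
    (hs : Semistable R E) (hd : deg R E ≤ 11) : h0 E ≤ 4 := by
  have G := C.good
  have hg := C.g9
  by_contra h
  have h5 : 5 ≤ h0 E := by omega
  have hline : ∀ w : V, w ≠ 0 → h0 (ln F E w) ≤ 1 := by
    intro w hw
    by_contra h1
    have h2 := C.L2 (ln F E w) (bdl_ln G hE hw) 2 le_rfl (by omega)
    have h3 := ss_ln hs hw
    rw [hV] at h3
    push_cast at h3
    omega
  rcases pr3 G hV hE (H0 E) le_rfl (by unfold h0 at h5; omega) with ⟨w, hw, h6⟩ | ⟨P, hP, h6⟩ |
    ⟨D, hD, dD, sD⟩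
  · have h7 := hline w hw
    rw [h0_ln E hw] at h7
    omega
  · rw [← h0_cm_sub] at h6
    have hN : IsBdl R (cm P.subtype E) := bdl_cm G hE P.subtype (Submodule.injective_subtype P)
    have hPb : P ≠ ⊥ := by
      rintro rfl
      rw [finrank_bot] at hP
      omega
    have h7 := hs P hPb
    rw [hV, hP] at h7
    push_cast at h7
    have hcases : ∃ D : Lat F, IsBdl R D ∧ deg R D = deg R (cm P.subtype E) ∧
        2 * h0 (cm P.subtype E) ≤ h0 D + 3 := by
      rcases pr2 G hP hN (H0 (cm P.subtype E)) le_rfl (by unfold h0 at h6; omega) with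
        ⟨w, hw, h8⟩ | h8
      · exfalso
        rw [← h0_ln _ hw, ln_cm] at h8
        have h9 := hline (P.subtype w) (by
          intro h10
          exact hw ((Submodule.injective_subtype P) (by rw [h10, map_zero])))
        omega
      · exact h8
    obtain ⟨D, hD, dD, sD⟩ := hcases
    have h8 := C.L2 D hD 3 (by norm_num) (by omega)
    have h9 : h0 (cm P.subtype E) ≤ 3 := by
      by_contra h10
      have h11 := C.L2 D hD 5 (by norm_num) (by omega)
      omega
    obtain ⟨φ, hφ, hk⟩ := plane_quot P (by rw [hP, hV])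
    have hrk : LinearMap.range P.subtype = LinearMap.ker φ := by
      rw [hk, Submodule.range_subtype]
    have hM : IsBdl R (mp φ E) := bdl_mp hE φ hφ
    have h10 := deg_add G hE P.subtype φ (Submodule.injective_subtype P) hφ hrk
    have h11 := h0_le_add G hE P.subtype φ (Submodule.injective_subtype P) hφ hrk
    have h12 : h0 (mp φ E) ≤ 1 := by
      by_contra h13
      have h14 := C.L2 (mp φ E) hM 2 le_rfl (by omega)
      omega
    omega
  · have h7 : 7 ≤ h0 D := by
      unfold h0 at h5 ⊢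
      unfold h0 at sD
      omega
    have h8 := C.L2 D hD 7 (by norm_num) (by omega)
    omega

end CLF
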