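import Pool.Agent.CLF.Good

/-!
# Module Cnv: lattices as modules over the rings `R i`

PROOFS.
`smul_stable`: `E i = Oo R i • span s` (hE.gen), so `r • (a • x) = (r a) • x`; use
`Submodule.smul_induction_on`.
`O_smul`: `≤` is `smul_stable`, `≥` because `1 ∈ R i`.
`sub_gen`: view `E i` as a submodule of the `R i`-module `V` (it is `Submodule.span (R i) s`), the
ring `R i` is Noetherian (`(G.ded i).toIsNoetherianRing` or similar), so the `R i`-submodule with
carrier `N` is finitely generated by some finset `s`; then `N = Oo R i • span ℂ s`: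
the right side is the `R i`-span of `s`.  (It is useful to first prove a private lemma:
for every set `s`, `x ∈ Oo R i • Submodule.span ℂ s ↔ x ∈ Submodule.span (R i) s`.)
`clear_den`: for one vector `x`: `x ∈ span F (E i) = ⊤` so `x = ∑ c_k • e_k` with `c_k ∈ F`,
`e_k ∈ E i`; by `IsFractionRing (R i) F` (G.frac i) there is a common denominator `r ≠ 0`
(`IsLocalization.exist_integer_multiples_of_finset` or by induction); for a finset take the
product of denominators (induction on the finset, using smul_stable).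
`comm_mul`: `E' i` is generated over `R i` by a finite set `t`; apply `clear_den` to `t`.
-/

open Module

namespace CLF

universe u

variable {F : Type u} [Field F] [Algebra ℂ F] {R : Fin 2 → Subalgebra ℂ F} {K : Lat F}
variable {V : Type u} [AddCommGroup V] [Module ℂ V] [Module F V] [IsScalarTower ℂ F V]
  [FiniteDimensional F V]

theorem smul_stable {E : Lat V} (hE : IsBdl R E) (i : Fin 2) {r : F} (hr : r ∈ R i) {x : V}
    (hx : x ∈ E i) : r • x ∈ E i := by
  obtain ⟨s, hs⟩ := hE.gen i
  rw [hs] at hx ⊢
  refine Submodule.smul_induction_on hx (fun a ha y hy => ?_) (fun y z hy hz => ?_)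
  · rw [smul_smul]
    exact Submodule.smul_mem_smul (show r * a ∈ Oo R i from (R i).mul_mem hr ha) hy
  · rw [smul_add]
    exact add_mem hy hz

theorem O_mul_O (i : Fin 2) : Oo R i * Oo R i = Oo R i := by
  exact Subalgebra.isIdempotentElem_toSubmodule (R i)

theorem O_smul {E : Lat V} (hE : IsBdl R E) (i : Fin 2) : Oo R i • E i = E i := by
  apply le_antisymm
  · rw [Submodule.smul_le]
    intro r hr x hx
    exact smul_stable hE i hr hx
  · intro x hx
    have h := Submodule.smul_mem_smul (show (1 : F) ∈ Oo R i from (R i).one_mem) hx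
    rwa [one_smul] at h

theorem mem_O_span_iff (i : Fin 2) (s : Set V) (x : V) :
    x ∈ Oo R i • Submodule.span ℂ s ↔ x ∈ Submodule.span (R i) s := by
  constructor
  · intro hx
    refine Submodule.smul_induction_on hx (fun a ha y hy => ?_) (fun y z hy hz => add_mem hy hz)
    have hy' : y ∈ Submodule.span (R i) s := by
      refine Submodule.span_induction (p := fun z _ => z ∈ Submodule.span (R i) s)
        (fun z hz => Submodule.subset_span hz) (zero_mem _) (fun a b _ _ ha hb => add_mem ha hb)
        (fun c z _ hz => ?_) hy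
      have h1 : c • z = (algebraMap ℂ (R i) c) • z := by
        rw [algebraMap_smul]
      rw [h1]
      exact Submodule.smul_mem _ _ hz
    exact Submodule.smul_mem _ (⟨a, ha⟩ : R i) hy'
  · intro hx
    refine Submodule.span_induction (p := fun z _ => z ∈ Oo R i • Submodule.span ℂ s)
      (fun z hz => ?_) (zero_mem _) (fun a b _ _ ha hb => add_mem ha hb)
      (fun c z _ hz => ?_) hx
    · have h := Submodule.smul_mem_smul (show (1 : F) ∈ Oo R i from (R i).one_mem)
        (Submodule.subset_span hz : z ∈ Submodule.span ℂ s)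
      rwa [one_smul] at h
    · refine Submodule.smul_induction_on hz (fun a ha y hy => ?_) (fun y z hy hz => ?_)
      · have h1 : c • a • y = ((c : F) * a) • y := by
          rw [mul_smul]; rfl
        rw [h1]
        exact Submodule.smul_mem_smul (show (c : F) * a ∈ Oo R i from (R i).mul_mem c.2 ha) hy
      · rw [smul_add]
        exact add_mem hy hz

theorem sub_gen (G : Good R K) {E : Lat V} (hE : IsBdl R E) (i : Fin 2) (N : Submodule ℂ V)
    (hN : N ≤ E i) (hst : ∀ r ∈ R i, ∀ x ∈ N, r • x ∈ N) :
    ∃ s : Finset V, N = Oo R i • Submodule.span ℂ (s : Set V) := by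
  obtain ⟨s, hs⟩ := hE.gen i
  have := G.ded i
  let N' : Submodule (R i) V :=
    { carrier := N
      add_mem' := fun {a b} ha hb => N.add_mem ha hb
      zero_mem' := N.zero_mem
      smul_mem' := fun c x hx => hst c c.2 x hx }
  have hle : N' ≤ Submodule.span (R i) (s : Set V) := by
    intro x hx
    rw [← mem_O_span_iff, ← hs]
    exact hN hx
  have hfg : N'.FG := Submodule.FG.of_le ⟨s, rfl⟩ hle
  obtain ⟨t, ht⟩ := hfg
  refine ⟨t, ?_⟩
  ext x
  rw [mem_O_span_iff, ht]
  exact Iff.rfl

private theorem clear_one (G : Good R K) {E : Lat V} (hE : IsBdl R E) (i : Fin 2) (x : V) :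
    ∃ r ∈ R i, r ≠ 0 ∧ r • x ∈ E i := by
  have hx : x ∈ Submodule.span F ((E i : Submodule ℂ V) : Set V) := by
    rw [hE.spans i]; trivial
  have := G.frac i
  refine Submodule.span_induction (p := fun z _ => ∃ r ∈ R i, r ≠ 0 ∧ r • z ∈ E i)
    (fun z hz => ⟨1, (R i).one_mem, one_ne_zero, by rwa [one_smul]⟩)
    ⟨1, (R i).one_mem, one_ne_zero, by rw [smul_zero]; exact zero_mem _⟩
    ?_ ?_ hx
  · rintro a b _ _ ⟨r, hr, hr0, hra⟩ ⟨s, hs, hs0, hsb⟩
    refine ⟨r * s, (R i).mul_mem hr hs, mul_ne_zero hr0 hs0, ?_⟩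
    rw [smul_add]
    refine add_mem ?_ ?_
    · rw [mul_comm, mul_smul]
      exact smul_stable hE i hs hra
    · rw [mul_smul]
      exact smul_stable hE i hr hsb
  · rintro a z _ ⟨r, hr, hr0, hrz⟩
    obtain ⟨p, q, hq, hpq⟩ := IsFractionRing.div_surjective (A := R i) a
    have hq0 : (q : F) ≠ 0 := by
      intro h
      exact nonZeroDivisors.ne_zero hq (Subtype.ext h)
    refine ⟨(q : F) * r, (R i).mul_mem q.2 hr, mul_ne_zero hq0 hr0, ?_⟩
    have h1 : ((q : F) * r) • a • z = (p : F) • r • z := by
      rw [smul_smul, smul_smul]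
      congr 1
      rw [← hpq]
      have h2 : algebraMap (R i) F p = (p : F) := rfl
      have h3 : algebraMap (R i) F q = (q : F) := rfl
      rw [h2, h3]
      field_simp
    rw [h1]
    exact smul_stable hE i p.2 hrz

theorem clear_den (G : Good R K) {E : Lat V} (hE : IsBdl R E) (i : Fin 2) (t : Finset V) :
    ∃ r ∈ R i, r ≠ 0 ∧ ∀ x ∈ t, r • x ∈ E i := by
  classical
  induction t using Finset.induction_on with
  | empty => exact ⟨1, (R i).one_mem, one_ne_zero, fun x hx => absurd hx (Finset.notMem_empty x)⟩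
  | insert a t _ ih =>
    obtain ⟨r, hr, hr0, hrt⟩ := ih
    obtain ⟨s, hs, hs0, hsa⟩ := clear_one G hE i a
    refine ⟨r * s, (R i).mul_mem hr hs, mul_ne_zero hr0 hs0, ?_⟩
    intro x hx
    rcases Finset.mem_insert.1 hx with rfl | hx
    · rw [mul_smul]
      exact smul_stable hE i hr hsa
    · rw [mul_comm, mul_smul]
      exact smul_stable hE i hs (hrt x hx)

theorem comm_mul (G : Good R K) {E E' : Lat V} (hE : IsBdl R E) (hE' : IsBdl R E') (i : Fin 2) :
    ∃ r ∈ R i, r ≠ 0 ∧ ∀ x ∈ E' i, r • x ∈ E i := by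
  obtain ⟨t, ht⟩ := hE'.gen i
  obtain ⟨r, hr, hr0, hrt⟩ := clear_den G hE i t
  refine ⟨r, hr, hr0, ?_⟩
  intro x hx
  rw [ht] at hx
  refine Submodule.smul_induction_on hx (fun a ha y hy => ?_) (fun y z hy hz => ?_)
  · have hy' : r • y ∈ E i := by
      refine Submodule.span_induction (p := fun z _ => r • z ∈ E i)
        (fun z hz => hrt z hz) (by rw [smul_zero]; exact zero_mem _)
        (fun a b _ _ ha hb => by rw [smul_add]; exact add_mem ha hb)
        (fun c z _ hz => ?_) hy
      rw [smul_comm]
      exact Submodule.smul_mem _ _ hz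
    rw [smul_comm]
    exact smul_stable hE i ha hy'
  · rw [smul_add]
    exact add_mem hy hz

end CLF
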