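import Pool.Agent.CLF.Bcm
import Pool.Agent.CLF.Chi
import Pool.Agent.CLF.Chm

/-!
# Module Dad: degrees in exact sequences and under inclusions

PROOFS.
`deg_add`: `chi_add` with `a.restrictScalars ℂ`, `b.restrictScalars ℂ` (finite dimensionality from
`G.fin`, `bdl_cm`, `bdl_mp`), and `finrank F U + finrank F W = finrank F V`.
`h0_add_map`: `h0_split`.  `h0_le_add`: the image of `H0 E` lies in `H0 (mp b E)`.
`deg_mono`, `eq_of_deg_eq`: `chi_mono`, `eq_of_chi_eq`.
`h0_mono`: `H0 E ≤ H0 E'` and `G.fin`.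
-/

open Module

namespace CLF

universe u

variable {F : Type u} [Field F] [Algebra ℂ F] {R : Fin 2 → Subalgebra ℂ F} {K : Lat F}
variable {V : Type u} [AddCommGroup V] [Module ℂ V] [Module F V] [IsScalarTower ℂ F V]
  [FiniteDimensional F V]
variable {U : Type u} [AddCommGroup U] [Module ℂ U] [Module F U] [IsScalarTower ℂ F U]
  [FiniteDimensional F U]
variable {W : Type u} [AddCommGroup W] [Module ℂ W] [Module F W] [IsScalarTower ℂ F W]
  [FiniteDimensional F W]

private theorem rs_range (a : U →ₗ[F] V) (b : V →ₗ[F] W)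
    (hab : LinearMap.range a = LinearMap.ker b) :
    LinearMap.range (a.restrictScalars ℂ) = LinearMap.ker (b.restrictScalars ℂ) := by
  ext x
  have h := SetLike.ext_iff.1 hab x
  simpa [LinearMap.mem_range, LinearMap.mem_ker] using h

theorem deg_add (G : Good R K) {E : Lat V} (hE : IsBdl R E) (a : U →ₗ[F] V) (b : V →ₗ[F] W)
    (ha : Function.Injective a) (hb : Function.Surjective b)
    (hab : LinearMap.range a = LinearMap.ker b) :
    deg R (cm a E) + deg R (mp b E) = deg R E := by
  have f12 := G.fin V E hE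
  have f34 := G.fin U (cm a E) (bdl_cm G hE a ha)
  have f56 := G.fin W (mp b E) (bdl_mp hE b hb)
  have h1 := chi_add (a.restrictScalars ℂ) (b.restrictScalars ℂ) ha hb (rs_range a b hab) E
    f12.1 f12.2 f34.1 f34.2 f56.1 f56.2
  have h2 : finrank F U + finrank F W = finrank F V := by
    have h3 := LinearMap.finrank_range_add_finrank_ker b
    rw [LinearMap.range_eq_top.2 hb, finrank_top, ← hab,
      LinearMap.finrank_range_of_inj ha] at h3
    omega
  have h4 : chi (cm a E) + chi (mp b E) = chi E := h1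
  have h5 : (finrank F V : ℤ) = (finrank F U : ℤ) + (finrank F W : ℤ) := by
    exact_mod_cast h2.symm
  unfold deg
  rw [h5, ← h4]
  ring

theorem h0_add_map (G : Good R K) {E : Lat V} (hE : IsBdl R E) (a : U →ₗ[F] V) (b : V →ₗ[F] W)
    (ha : Function.Injective a) (hab : LinearMap.range a = LinearMap.ker b) :
    h0 E = h0 (cm a E) + finrank ℂ ((H0 E).map (b.restrictScalars ℂ)) :=
  h0_split (a.restrictScalars ℂ) (b.restrictScalars ℂ) ha (rs_range a b hab) E (G.fin V E hE).1

theorem map_H0_le (E : Lat V) (b : V →ₗ[F] W) :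
    (H0 E).map (b.restrictScalars ℂ) ≤ H0 (mp b E) := by
  unfold H0 mp
  exact Submodule.map_inf_le _

theorem h0_le_add (G : Good R K) {E : Lat V} (hE : IsBdl R E) (a : U →ₗ[F] V) (b : V →ₗ[F] W)
    (ha : Function.Injective a) (hb : Function.Surjective b)
    (hab : LinearMap.range a = LinearMap.ker b) :
    h0 E ≤ h0 (cm a E) + h0 (mp b E) := by
  rw [h0_add_map G hE a b ha hab]
  have f := (G.fin W (mp b E) (bdl_mp hE b hb)).1
  have h := Submodule.finrank_mono (map_H0_le E b)
  unfold h0
  omega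

theorem deg_mono (G : Good R K) {E E' : Lat V} (hE : IsBdl R E) (hE' : IsBdl R E')
    (h : ∀ i, E i ≤ E' i) : deg R E ≤ deg R E' := by
  have h1 := chi_mono E E' h (G.fin V E' hE').1 (G.fin V E hE).2
  unfold deg
  omega

theorem eq_of_deg_eq (G : Good R K) {E E' : Lat V} (hE : IsBdl R E) (hE' : IsBdl R E')
    (h : ∀ i, E i ≤ E' i) (hd : deg R E = deg R E') : E = E' := by
  refine eq_of_chi_eq E E' h (G.fin V E' hE').1 (G.fin V E hE).2 ?_
  unfold deg at hd
  omega

theorem h0_mono (G : Good R K) {E E' : Lat V} (hE' : IsBdl R E')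
    (h : ∀ i, E i ≤ E' i) : h0 E ≤ h0 E' := by
  have f := (G.fin V E' hE').1
  have h1 : H0 E ≤ H0 E' := inf_le_inf (h 0) (h 1)
  exact Submodule.finrank_mono h1

end CLF
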