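import Pool.Agent.CLF.Inv2
import Pool.Agent.CLF.Dad

/-!
# Module Col: points (line bundles `P ≤ O` of colength one)

`exists_pt`: if `A ≤ L` are line bundles, `A ≠ L`, there is a point `P` with `A ≤ P L`.
PROOF. Choose `i` with `A i ≠ L i`.  `I := A i * inv L i ≤ Oo R i` (as `A i ≤ L i`, `tw_inv`), and
`I ≠ Oo R i` (else multiply by `L i`: `A i = L i`).  `I` is an ideal of `R i`
(`{r : R i | (r : F) ∈ I}`) and `1 ∉ I`, so it lies in a maximal ideal `p`
(`Ideal.exists_le_maximal`).  `I ≠ 0` so `p ≠ 0`.  Let `P i` be the image of `p` in `F` and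
`P j = Oo R j` for `j ≠ i`.  `P` is a bundle (`sub_gen`; it is nonzero, so spans `F`).
For a line bundle `M`: `chi_le_formula` for `tw P M ≤ M`:
`deg M = deg (tw P M) + qd (P i • M i) (M i) + qd (M j) (M j)`, the last term is `0`
(`P j • M j = M j`).  Claim `qd (P i • M i) (M i) = 1`.
(>0): `P i • M i = M i` would give (multiply by `inv M i`) `P i = Oo R i`, but `1 ∉ p`.
(≤1): pick `m ∈ M i` not in `P i • M i`, `N := P i • M i ⊔ Oo R i • span {m}`, `J := N * inv M i` is an
ideal of `R i` containing `p` and `J ≠ p` (else `N = P i • M i`), so `J = R i` and `N = M i`.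
By `G.resid`, every `r ∈ R i` is `c + p'`, `c ∈ ℂ`, `p' ∈ p`, so `Oo R i • span {m} ≤ ℂ m + P i • M i`
and `M i = ℂ m + P i • M i`; the quotient is spanned by the class of `m`.
Finally `A i = (A i * inv L i) • L i = I • L i ≤ P i • L i`, and `A j ≤ L j = Oo R j • L j`.
`exists_point`: by `G.nonfield` there is `x ∈ R 0` with `x⁻¹ ∉ R 0` (so `x ≠ 0`); apply `exists_pt`
with `L = Oo R`, `A 0 = x • Oo R 0` (image of multiplication by `x`), `A 1 = Oo R 1`.
-/

open Module

namespace CLF

universe u

variable {F : Type u} [Field F] [Algebra ℂ F] {R : Fin 2 → Subalgebra ℂ F} {K : Lat F}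
variable {V : Type u} [AddCommGroup V] [Module ℂ V] [Module F V] [IsScalarTower ℂ F V]
  [FiniteDimensional F V]

/-- a point of the curve, as a colength one line bundle inside `O` -/
structure IsPt (R : Fin 2 → Subalgebra ℂ F) (P : Lat F) : Prop where
  bdl : IsBdl R P
  le : ∀ i, P i ≤ Oo R i
  drop : ∀ M : Lat F, IsBdl R M → deg R (tw P M) = deg R M - 1

private theorem one_mem_Oo' (i : Fin 2) : (1 : F) ∈ Oo R i := (R i).one_mem

private theorem ex_ne {L : Lat F} (hL : IsBdl R L) (i : Fin 2) : ∃ x ∈ L i, x ≠ 0 := by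
  by_contra h
  push Not at h
  have h1 := hL.spans i
  have h2 : Submodule.span F ((L i : Submodule ℂ F) : Set F) = ⊥ := by
    rw [Submodule.span_eq_bot]
    exact h
  rw [h2] at h1
  exact bot_ne_top h1

private theorem sp_ne {N : Submodule ℂ F} {x : F} (hx : x ∈ N) (h0 : x ≠ 0) :
    Submodule.span F ((N : Submodule ℂ F) : Set F) = ⊤ := by
  rw [eq_top_iff]
  intro y _
  have : y = (y * x⁻¹) • x := by
    rw [smul_eq_mul, mul_assoc, inv_mul_cancel₀ h0, mul_one]
  rw [this]
  exact Submodule.smul_mem _ _ (Submodule.subset_span hx)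

private theorem L_inv (G : Good R K) {L : Lat F} (hL : IsBdl R L) (i : Fin 2) :
    L i * inv R L i = Oo R i := congrFun (tw_inv G hL) i

private theorem inv_L (G : Good R K) {L : Lat F} (hL : IsBdl R L) (i : Fin 2) :
    inv R L i * L i = Oo R i := by rw [mul_comm]; exact L_inv G hL i

private theorem O_L {L : Lat F} (hL : IsBdl R L) (i : Fin 2) :
    Oo R i * L i = L i := O_smul hL i

private theorem L_O {L : Lat F} (hL : IsBdl R L) (i : Fin 2) :
    L i * Oo R i = L i := by rw [mul_comm]; exact O_L hL i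

/-- ideal of `R i` given by a stable subspace -/
private def idl (R : Fin 2 → Subalgebra ℂ F) (i : Fin 2) (N : Submodule ℂ F)
    (hst : ∀ r ∈ R i, ∀ x ∈ N, r * x ∈ N) : Ideal (R i) where
  carrier := {r | (r : F) ∈ N}
  add_mem' := fun {a b} ha hb => by
    simpa using N.add_mem ha hb
  zero_mem' := by simp
  smul_mem' := fun c x hx => by
    simpa using hst c c.2 x hx

/-- image of an ideal in `F` -/
private def im (R : Fin 2 → Subalgebra ℂ F) (i : Fin 2) (p : Ideal (R i)) : Submodule ℂ F where
  carrier := {x | ∃ r : R i, r ∈ p ∧ (r : F) = x}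
  add_mem' := by
    rintro a b ⟨r, hr, rfl⟩ ⟨s, hs, rfl⟩
    exact ⟨r + s, p.add_mem hr hs, rfl⟩
  zero_mem' := ⟨0, p.zero_mem, rfl⟩
  smul_mem' := by
    rintro c x ⟨r, hr, rfl⟩
    refine ⟨algebraMap ℂ (R i) c * r, p.mul_mem_left _ hr, ?_⟩
    rw [Algebra.smul_def]
    rfl

private theorem mem_im {i : Fin 2} {p : Ideal (R i)} {x : F} :
    x ∈ im R i p ↔ ∃ r : R i, r ∈ p ∧ (r : F) = x := Iff.rfl

private theorem coe_mem_im {i : Fin 2} {p : Ideal (R i)} {r : R i} :
    (r : F) ∈ im R i p ↔ r ∈ p := by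
  rw [mem_im]
  constructor
  · rintro ⟨s, hs, h⟩
    rwa [← Subtype.ext h]
  · intro h
    exact ⟨r, h, rfl⟩

private theorem im_le {i : Fin 2} {p : Ideal (R i)} : im R i p ≤ Oo R i := by
  rintro x ⟨r, hr, rfl⟩
  exact r.2

private theorem im_st {i : Fin 2} {p : Ideal (R i)} : ∀ r ∈ R i, ∀ x ∈ im R i p, r * x ∈ im R i p := by
  rintro r hr x ⟨s, hs, rfl⟩
  exact ⟨⟨r, hr⟩ * s, p.mul_mem_left _ hs, rfl⟩

private theorem O_im {i : Fin 2} {p : Ideal (R i)} : Oo R i * im R i p = im R i p := by
  apply le_antisymm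
  · rw [Submodule.mul_le]
    exact im_st
  · intro x hx
    have := Submodule.mul_mem_mul (one_mem_Oo' (R := R) i) hx
    rwa [one_mul] at this

/-- the stable product -/
private theorem st_mul {i : Fin 2} {N N' : Submodule ℂ F} (h : Oo R i * N = N) :
    ∀ r ∈ R i, ∀ x ∈ N * N', r * x ∈ N * N' := by
  intro r hr x hx
  have h1 : r * x ∈ Oo R i * (N * N') := Submodule.mul_mem_mul hr hx
  rwa [← mul_assoc, h] at h1

private theorem colen (G : Good R K) {i : Fin 2} {p : Ideal (R i)} (hp : p.IsMaximal)
    {M : Lat F} (hM : IsBdl R M) : qd (im R i p * M i) (M i) = 1 := by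
  have hne : im R i p * M i ≠ M i := by
    intro h
    have h1 := congrArg (fun N => N * inv R M i) h
    rw [mul_assoc, L_inv G hM, mul_comm, O_im] at h1
    have h2 : (1 : F) ∈ im R i p := by
      rw [h1]
      exact one_mem_Oo' i
    have h3 : ((1 : R i) : F) ∈ im R i p := h2
    rw [coe_mem_im] at h3
    exact hp.ne_top ((Ideal.eq_top_iff_one p).2 h3)
  have hle : im R i p * M i ≤ M i := by
    have := mul_le_mul' (im_le (R := R) (i := i) (p := p)) (le_refl (M i))
    rwa [O_L hM] at this
  obtain ⟨m, hm, hm'⟩ := SetLike.exists_of_lt (lt_of_le_of_ne hle hne)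
  set N : Submodule ℂ F := im R i p * M i ⊔ Oo R i * Submodule.span ℂ {m} with hN
  have hON : Oo R i * N = N := by
    rw [hN, Submodule.mul_sup, ← mul_assoc, ← mul_assoc, O_im, O_mul_O]
  have hNM : N ≤ M i := by
    rw [hN]
    refine sup_le hle ?_
    rw [Submodule.mul_le]
    intro r hr y hy
    obtain ⟨c, rfl⟩ := Submodule.mem_span_singleton.1 hy
    exact smul_stable hM i hr ((M i).smul_mem c hm)
  have hmN : m ∈ N := by
    rw [hN]
    apply Submodule.mem_sup_right
    have := Submodule.mul_mem_mul (one_mem_Oo' (R := R) i) (Submodule.mem_span_singleton_self (R := ℂ) m)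
    rwa [one_mul] at this
  set J := idl R i (N * inv R M i) (st_mul hON) with hJ
  have hpJ : p ≤ J := by
    intro r hr
    change (r : F) ∈ N * inv R M i
    have h1 : im R i p ≤ N * inv R M i := by
      have : im R i p * M i * inv R M i ≤ N * inv R M i :=
        mul_le_mul' le_sup_left le_rfl
      rwa [mul_assoc, L_inv G hM, mul_comm, O_im] at this
    exact h1 (coe_mem_im.2 hr)
  have hJtop : J = ⊤ := by
    by_contra hJ'
    have hpe := hp.eq_of_le hJ' hpJ
    have h1 : N * inv R M i ≤ im R i p := by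
      intro x hx
      have hxO : x ∈ Oo R i := by
        have : N * inv R M i ≤ M i * inv R M i := mul_le_mul' hNM le_rfl
        rw [L_inv G hM] at this
        exact this hx
      refine (coe_mem_im (r := ⟨x, hxO⟩)).2 ?_
      rw [hpe]
      exact hx
    have h2 : N ≤ im R i p * M i := by
      have := mul_le_mul' h1 (le_refl (M i))
      rwa [mul_assoc, inv_L G hM, mul_comm N, hON] at this
    exact hm' (h2 hmN)
  have hNM' : M i ≤ N := by
    have h1 : (1 : F) ∈ N * inv R M i := by
      have : (1 : R i) ∈ J := by rw [hJtop]; trivial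
      exact this
    intro x hx
    have h2 : 1 * x ∈ N * inv R M i * M i := Submodule.mul_mem_mul h1 hx
    rwa [mul_assoc, inv_L G hM, mul_comm N, hON, one_mul] at h2
  unfold qd
  rw [finrank_eq_one_iff']
  refine ⟨Submodule.Quotient.mk ⟨m, hm⟩, ?_, ?_⟩
  · rw [Ne, Submodule.Quotient.mk_eq_zero]
    exact hm'
  · intro w
    obtain ⟨⟨x, hx⟩, rfl⟩ := Submodule.Quotient.mk_surjective _ w
    have hxN := hNM' hx
    rw [hN] at hxN
    obtain ⟨y, hy, z, hz, hyz⟩ := Submodule.mem_sup.1 hxN
    have hz' : z ∈ Submodule.span (R i) ({m} : Set F) := (mem_O_span_iff i {m} z).1 hz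
    obtain ⟨r, hr⟩ := Submodule.mem_span_singleton.1 hz'
    obtain ⟨c, hc⟩ := G.resid i p hp r
    refine ⟨c, ?_⟩
    rw [← Submodule.Quotient.mk_smul, Submodule.Quotient.eq]
    change c • m - x ∈ im R i p * M i
    have hrm : (r : F) * m = z := hr
    have hrc : ((r : F) - algebraMap ℂ F c) * m ∈ im R i p * M i :=
      Submodule.mul_mem_mul (coe_mem_im (r := r - algebraMap ℂ (R i) c) |>.2 hc) hm
    have : c • m - x = -(y + ((r : F) - algebraMap ℂ F c) * m) := by
      rw [← hyz, ← hrm, Algebra.smul_def]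
      ring
    rw [this]
    exact Submodule.neg_mem _ (Submodule.add_mem _ hy hrc)

private theorem qd_self (A : Submodule ℂ F) : qd A A = 0 := by
  unfold qd
  have h : A.submoduleOf A = ⊤ := Submodule.submoduleOf_self A
  rw [h]
  exact Module.finrank_zero_of_subsingleton

private theorem isPt_im (G : Good R K) (i : Fin 2) (p : Ideal (R i)) (hp : p.IsMaximal)
    (hp0 : p ≠ ⊥) : IsPt R (Function.update (Oo R) i (im R i p)) := by
  have hPi : Function.update (Oo R) i (im R i p) i = im R i p := Function.update_self i _ _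
  have hPj : ∀ j, j ≠ i → Function.update (Oo R) i (im R i p) j = Oo R j :=
    fun j hj => Function.update_of_ne hj _ _
  have hle : ∀ j, Function.update (Oo R) i (im R i p) j ≤ Oo R j := by
    intro j
    by_cases hj : j = i
    · subst hj; rw [hPi]; exact im_le
    · rw [hPj j hj]
  have hb : IsBdl R (Function.update (Oo R) i (im R i p)) := by
    constructor
    · intro j
      by_cases hj : j = i
      · subst hj; rw [hPi]
        exact sub_gen G bdl_O j (im R j p) im_le im_st
      · rw [hPj j hj]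
        exact bdl_O.gen j
    · intro j
      by_cases hj : j = i
      · subst hj; rw [hPi]
        obtain ⟨r, hr, hr0⟩ := Submodule.exists_mem_ne_zero_of_ne_bot hp0
        refine sp_ne (coe_mem_im.2 hr) ?_
        intro h
        exact hr0 (Subtype.ext h)
      · rw [hPj j hj]
        exact bdl_O.spans j
  refine ⟨hb, hle, ?_⟩
  intro M hM
  set P := Function.update (Oo R) i (im R i p) with hP
  have hPM : IsBdl R (tw P M) := bdl_tw hb hM
  have hPMle : ∀ j, tw P M j ≤ M j := by
    intro j
    have := tw_mono (E := M) (E' := M) hle (fun _ => le_rfl) j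
    rwa [tw_O hM] at this
  have hf := chi_le_formula (tw P M) M hPMle (G.fin F M hM).1 (G.fin F (tw P M) hPM).2
  have h1 : qd (tw P M i) (M i) = 1 := by
    have : tw P M i = im R i p * M i := by
      change P i * M i = _
      rw [hPi]
    rw [this]
    exact colen G hp hM
  have h2 : ∀ j, j ≠ i → qd (tw P M j) (M j) = 0 := by
    intro j hj
    have : tw P M j = M j := by
      change P j * M j = _
      rw [hPj j hj, O_L hM]
    rw [this]
    exact qd_self _
  have h3 : chi M = chi (tw P M) + 1 := by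
    rw [hf.1]
    fin_cases i
    · have a1 := h2 1 (by decide)
      have a0 : qd (tw P M 0) (M 0) = 1 := h1
      rw [a1, a0]
      simp
    · have a1 := h2 0 (by decide)
      have a0 : qd (tw P M 1) (M 1) = 1 := h1
      rw [a1, a0]
      simp
  unfold deg
  rw [h3]
  ring

theorem exists_pt (G : Good R K) {A L : Lat F} (hA : IsBdl R A) (hL : IsBdl R L)
    (h : ∀ i, A i ≤ L i) (hne : A ≠ L) : ∃ P : Lat F, IsPt R P ∧ ∀ i, A i ≤ tw P L i := by
  obtain ⟨i, hi⟩ := Function.ne_iff.1 hne
  have hinv : IsBdl R (inv R L) := bdl_inv G hL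
  set I := idl R i (A i * inv R L i) (st_mul (O_L hA i)) with hI
  have hIO : A i * inv R L i ≤ Oo R i := by
    have := mul_le_mul' (h i) (le_refl (inv R L i))
    rwa [L_inv G hL] at this
  have hItop : I ≠ ⊤ := by
    intro htop
    have h1 : (1 : F) ∈ A i * inv R L i := by
      have : (1 : R i) ∈ I := by rw [htop]; trivial
      exact this
    apply hi
    apply le_antisymm (h i)
    intro x hx
    have h2 : 1 * x ∈ A i * inv R L i * L i := Submodule.mul_mem_mul h1 hx
    rwa [mul_assoc, inv_L G hL, L_O hA, one_mul] at h2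
  obtain ⟨p, hp, hIp⟩ := Ideal.exists_le_maximal I hItop
  have hp0 : p ≠ ⊥ := by
    obtain ⟨x, hx, hx0⟩ := ex_ne hA i
    obtain ⟨y, hy, hy0⟩ := ex_ne hinv i
    have hxy := Submodule.mul_mem_mul hx hy
    intro hbot
    have : (⟨x * y, hIO hxy⟩ : R i) ∈ p := hIp hxy
    rw [hbot, Ideal.mem_bot] at this
    have h0 : x * y = 0 := congrArg Subtype.val this
    exact mul_ne_zero hx0 hy0 h0
  refine ⟨Function.update (Oo R) i (im R i p), isPt_im G i p hp hp0, ?_⟩
  intro j
  by_cases hj : j = i
  · subst hj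
    change A j ≤ Function.update (Oo R) j (im R j p) j * L j
    rw [Function.update_self]
    have h1 : A j * inv R L j ≤ im R j p := by
      intro x hx
      exact (coe_mem_im (r := ⟨x, hIO hx⟩)).2 (hIp hx)
    have h2 := mul_le_mul' h1 (le_refl (L j))
    rwa [mul_assoc, inv_L G hL, L_O hA] at h2
  · change A j ≤ Function.update (Oo R) i (im R i p) j * L j
    rw [Function.update_of_ne hj, O_L hL]
    exact h j

theorem exists_point (G : Good R K) : ∃ P : Lat F, IsPt R P := by
  obtain ⟨x, hx, hx'⟩ := G.nonfield 0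
  have hx0 : x ≠ 0 := by
    rintro rfl
    apply hx'
    rw [inv_zero]
    exact (R 0).zero_mem
  set A : Lat F := Function.update (Oo R) 0 (Oo R 0 • Submodule.span ℂ {x}) with hA
  have hA0 : A 0 = Oo R 0 • Submodule.span ℂ {x} := Function.update_self 0 _ _
  have hAj : ∀ j, j ≠ 0 → A j = Oo R j := fun j hj => Function.update_of_ne hj _ _
  have hxA : x ∈ A 0 := by
    rw [hA0]
    have := Submodule.smul_mem_smul (one_mem_Oo' (R := R) 0) (Submodule.mem_span_singleton_self (R := ℂ) x)
    simpa using this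
  have hAb : IsBdl R A := by
    constructor
    · intro j
      by_cases hj : j = 0
      · subst hj
        exact ⟨{x}, by rw [hA0]; simp⟩
      · rw [hAj j hj]
        exact bdl_O.gen j
    · intro j
      by_cases hj : j = 0
      · subst hj
        exact sp_ne hxA hx0
      · rw [hAj j hj]
        exact bdl_O.spans j
  have hle : ∀ j, A j ≤ Oo R j := by
    intro j
    by_cases hj : j = 0
    · subst hj
      rw [hA0, Submodule.smul_le]
      intro r hr m hm
      obtain ⟨c, rfl⟩ := Submodule.mem_span_singleton.1 hm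
      exact (R 0).mul_mem hr ((R 0).smul_mem hx c)
    · rw [hAj j hj]
  have hne : A ≠ Oo R := by
    intro h
    have h1 : (1 : F) ∈ A 0 := by
      rw [h]
      exact one_mem_Oo' 0
    rw [hA0, mem_O_span_iff] at h1
    obtain ⟨r, hr⟩ := Submodule.mem_span_singleton.1 h1
    apply hx'
    have h2 : (r : F) * x = 1 := hr
    have h3 : x⁻¹ = r := by
      field_simp
      rw [mul_comm]
      exact h2.symm
    rw [h3]
    exact r.2
  obtain ⟨P, hP, _⟩ := exists_pt G hAb bdl_O hle hne
  exact ⟨P, hP⟩

theorem tw_pt_le {P : Lat F} (hP : IsPt R P) {L : Lat F} (hL : IsBdl R L) :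
    ∀ i, tw P L i ≤ L i := by
  intro i
  have := tw_mono (E := L) (E' := L) hP.le (fun _ => le_rfl) i
  rwa [tw_O hL] at this

end CLF
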