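import Pool.Agent.CLF.Iso
import Pool.Agent.CLF.Dad

/-!
# Module Flag: flags in rank three, quotients by planes

PROOFS.
`plane_quot`: a subspace `P` of codimension one is the kernel of a nonzero functional
(e.g. `V ⧸ P` is one dimensional, compose `mkQ` with an isomorphism to `F`).
`flag`: let `U = span F {w}`, `Q = mp U.mkQ E` on `V ⧸ U` (2-dimensional).  `P := (span F {q}).comap U.mkQ`
is 2-dimensional.  The restriction of `U.mkQ` to `P` maps onto `span F {q} ≅ F` with kernel `U`:
maps `toSpanSingleton w' : F → P` and `P → F` with composition exact; `cm` of `cm P.subtype E` along the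
first is `ln F E w`, and `mp` of it along the second is `ln F Q q` (for `x ∈ F`: `x • q ∈ Q i`, i.e. `x • q = mkQ e`,
`e ∈ E i`, iff `x` is the image of `e ∈ E i ∩ P`).  `deg_add` gives the degree of `cm P.subtype E`.
For `D`: take a functional `φ : V ⧸ U → F` with kernel `span F {q}` (`plane_quot`-like) and
`D := mp φ Q`; `deg D = deg Q - deg (ln F Q q)`, `deg Q = deg E - deg (ln F E w)`.  For `S ≤ H0 Q`:
rank-nullity for `φ` on `S`: the kernel is `S ⊓ span F {q}`, the image lies in `H0 D`.
-/

open Module

namespace CLF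

universe u

variable {F : Type u} [Field F] [Algebra ℂ F] {R : Fin 2 → Subalgebra ℂ F} {K : Lat F}
variable {V : Type u} [AddCommGroup V] [Module ℂ V] [Module F V] [IsScalarTower ℂ F V]
  [FiniteDimensional F V]

omit [Algebra ℂ F] [Module ℂ V] [IsScalarTower ℂ F V] in
private theorem plane_quot' (P : Submodule F V) (hP : finrank F P + 1 = finrank F V) :
    ∃ φ : V →ₗ[F] F, Function.Surjective φ ∧ LinearMap.ker φ = P := by
  have h1 : finrank F (V ⧸ P) = finrank F F := by
    have := P.finrank_quotient_add_finrank
    rw [finrank_self]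
    omega
  let e : (V ⧸ P) ≃ₗ[F] F := LinearEquiv.ofFinrankEq _ _ h1
  refine ⟨(e : (V ⧸ P) →ₗ[F] F).comp P.mkQ, e.surjective.comp P.mkQ_surjective, ?_⟩
  rw [LinearEquiv.ker_comp, Submodule.ker_mkQ]

theorem plane_quot (P : Submodule F V) (hP : finrank F P + 1 = finrank F V) :
    ∃ φ : V →ₗ[F] F, Function.Surjective φ ∧ LinearMap.ker φ = P := plane_quot' P hP

private theorem flag_aux (G : Good R K) (hV : finrank F V = 3) {E : Lat V} (hE : IsBdl R E) {w : V}
    (hw : w ≠ 0) (U : Submodule F V) (hU : U = Submodule.span F {w}) (q : V ⧸ U) (hq : q ≠ 0) :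
    (∃ P : Submodule F V, finrank F P = 2 ∧ deg R (cm P.subtype E) =
      deg R (ln F E w) + deg R (ln F (mp U.mkQ E) q)) ∧
    ∃ D : Lat F, IsBdl R D ∧ deg R D =
      deg R E - deg R (ln F E w) - deg R (ln F (mp U.mkQ E) q) ∧
      ∀ S : Submodule ℂ (V ⧸ U),
        S ≤ H0 (mp U.mkQ E) →
        finrank ℂ S ≤ h0 D + finrank ℂ (S ⊓ (Submodule.span F {q}).restrictScalars ℂ :
          Submodule ℂ (V ⧸ U)) := by
  set Q : Lat (V ⧸ U) := mp U.mkQ E with hQ
  have hQb : IsBdl R Q := bdl_mp hE U.mkQ U.mkQ_surjective
  have hUr : finrank F U = 1 := by rw [hU]; exact finrank_span_singleton hw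
  have hVU : finrank F (V ⧸ U) = 2 := by
    have := U.finrank_quotient_add_finrank
    omega
  constructor
  · set P : Submodule F V := (Submodule.span F {q}).comap U.mkQ with hP
    have hwP : w ∈ P := by
      rw [hP, Submodule.mem_comap]
      have : U.mkQ w = 0 := by
        rw [← LinearMap.mem_ker, Submodule.ker_mkQ]
        rw [hU]; exact Submodule.mem_span_singleton_self w
      rw [this]
      exact Submodule.zero_mem _
    let w' : P := ⟨w, hwP⟩
    have hw' : w' ≠ 0 := fun h => hw (congrArg Subtype.val h)
    let a : F →ₗ[F] P := LinearMap.toSpanSingleton F P w'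
    have ha : Function.Injective a := by
      rw [← LinearMap.ker_eq_bot]
      exact LinearMap.ker_toSpanSingleton F hw'
    let eq := LinearEquiv.toSpanNonzeroSingleton F (V ⧸ U) q hq
    let b : P →ₗ[F] F := (eq.symm : _ →ₗ[F] F).comp
      ((U.mkQ.domRestrict P).codRestrict (Submodule.span F {q}) (fun x => x.2))
    have hbq : ∀ x : P, b x • q = U.mkQ (x : V) := by
      intro x
      have h1 : eq (b x) = (U.mkQ.domRestrict P).codRestrict (Submodule.span F {q}) (fun x => x.2) x :=
        eq.apply_symm_apply _
      have h2 := congrArg Subtype.val h1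
      exact h2
    have hb : Function.Surjective b := by
      intro c
      obtain ⟨v, hv⟩ := U.mkQ_surjective (c • q)
      have hvP : v ∈ P := by
        rw [hP, Submodule.mem_comap, hv]
        exact Submodule.smul_mem _ _ (Submodule.mem_span_singleton_self q)
      refine ⟨⟨v, hvP⟩, ?_⟩
      have h1 := hbq ⟨v, hvP⟩
      rw [hv] at h1
      exact smul_left_injective F hq h1
    have hab : LinearMap.range a = LinearMap.ker b := by
      ext x
      rw [LinearMap.mem_range, LinearMap.mem_ker]
      constructor
      · rintro ⟨c, rfl⟩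
        have h1 := hbq (a c)
        have h2 : U.mkQ ((a c : P) : V) = 0 := by
          rw [← LinearMap.mem_ker, Submodule.ker_mkQ]
          rw [hU]; exact Submodule.smul_mem _ _ (Submodule.mem_span_singleton_self w)
        rw [h2] at h1
        exact (smul_eq_zero.1 h1).resolve_right hq
      · intro hx
        have h1 := hbq x
        rw [hx, zero_smul] at h1
        have h2 : (x : V) ∈ U := by
          rw [← U.ker_mkQ, LinearMap.mem_ker]
          exact h1.symm
        rw [hU, Submodule.mem_span_singleton] at h2
        obtain ⟨c, hc⟩ := h2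
        exact ⟨c, Subtype.ext hc⟩
    refine ⟨P, ?_, ?_⟩
    · have h1 := b.finrank_range_add_finrank_ker
      rw [← hab, LinearMap.finrank_range_of_inj ha, LinearMap.range_eq_top.2 hb, finrank_top, finrank_self] at h1
      omega
    · have hbd : IsBdl R (cm P.subtype E) := bdl_cm G hE P.subtype P.injective_subtype
      have h1 := deg_add G hbd a b ha hb hab
      have h2 : cm a (cm P.subtype E) = ln F E w := by
        funext i
        ext x
        rfl
      have h3 : mp b (cm P.subtype E) = ln F Q q := by
        funext i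
        ext x
        constructor
        · rintro ⟨p, hp, rfl⟩
          change b p • q ∈ Q i
          rw [hbq]
          exact ⟨p, hp, rfl⟩
        · intro hx
          change x • q ∈ Q i at hx
          obtain ⟨e, he, hex⟩ := hx
          have hex' : U.mkQ e = x • q := hex
          have heP : e ∈ P := by
            rw [hP, Submodule.mem_comap, hex']
            exact Submodule.smul_mem _ _ (Submodule.mem_span_singleton_self q)
          refine ⟨⟨e, heP⟩, he, ?_⟩
          have h4 := hbq ⟨e, heP⟩
          rw [hex'] at h4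
          exact smul_left_injective F hq h4
      rw [h2, h3] at h1
      exact h1.symm
  · obtain ⟨φ, hφs, hφk⟩ := plane_quot' (Submodule.span F {q}) (by
      rw [finrank_span_singleton hq, hVU])
    have hDb : IsBdl R (mp φ Q) := bdl_mp hQb φ hφs
    refine ⟨mp φ Q, hDb, ?_, ?_⟩
    · have h1 := deg_add G hQb (LinearMap.toSpanSingleton F (V ⧸ U) q) φ
        (by rw [← LinearMap.ker_eq_bot]; exact LinearMap.ker_toSpanSingleton F hq) hφs
        (by rw [hφk, LinearMap.range_toSpanSingleton])
      have h2 := deg_add G hE (LinearMap.toSpanSingleton F V w) U.mkQ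
        (by rw [← LinearMap.ker_eq_bot]; exact LinearMap.ker_toSpanSingleton F hw) U.mkQ_surjective
        (by rw [Submodule.ker_mkQ, LinearMap.range_toSpanSingleton, hU])
      have h3 : cm (LinearMap.toSpanSingleton F (V ⧸ U) q) Q = ln F Q q := rfl
      have h4 : cm (LinearMap.toSpanSingleton F V w) E = ln F E w := rfl
      rw [h3] at h1
      rw [h4, ← hQ] at h2
      linarith
    · intro S hS
      have hf1 : FiniteDimensional ℂ (H0 Q) := (G.fin _ Q hQb).1
      have hf2 : FiniteDimensional ℂ (H0 (mp φ Q)) := (G.fin _ _ hDb).1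
      have hfS : FiniteDimensional ℂ S := Submodule.finiteDimensional_of_le hS
      let f : S →ₗ[ℂ] F := (φ.restrictScalars ℂ).domRestrict S
      have h1 := f.finrank_range_add_finrank_ker
      have h2 : LinearMap.range f ≤ H0 (mp φ Q) := by
        rintro _ ⟨x, rfl⟩
        have hx := hS x.2
        exact ⟨⟨x, hx.1, rfl⟩, ⟨x, hx.2, rfl⟩⟩
      have h3 : finrank ℂ (LinearMap.range f) ≤ h0 (mp φ Q) := Submodule.finrank_mono h2
      have h4 : (LinearMap.ker f).map S.subtype = S ⊓ (Submodule.span F {q}).restrictScalars ℂ := by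
        ext x
        rw [Submodule.mem_map, Submodule.mem_inf, Submodule.restrictScalars_mem, ← hφk]
        constructor
        · rintro ⟨y, hy, rfl⟩
          exact ⟨y.2, hy⟩
        · rintro ⟨hx, hk⟩
          exact ⟨⟨x, hx⟩, hk, rfl⟩
      have h5 : finrank ℂ (LinearMap.ker f) =
          finrank ℂ (S ⊓ (Submodule.span F {q}).restrictScalars ℂ : Submodule ℂ (V ⧸ U)) := by
        rw [← h4, Submodule.finrank_map_subtype_eq]
      omega

theorem flag (G : Good R K) (hV : finrank F V = 3) {E : Lat V} (hE : IsBdl R E) {w : V}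
    (hw : w ≠ 0) (q : V ⧸ (Submodule.span F {w})) (hq : q ≠ 0) :
    (∃ P : Submodule F V, finrank F P = 2 ∧ deg R (cm P.subtype E) =
      deg R (ln F E w) + deg R (ln F (mp (Submodule.span F {w}).mkQ E) q)) ∧
    ∃ D : Lat F, IsBdl R D ∧ deg R D =
      deg R E - deg R (ln F E w) - deg R (ln F (mp (Submodule.span F {w}).mkQ E) q) ∧
      ∀ S : Submodule ℂ (V ⧸ (Submodule.span F {w})),
        S ≤ H0 (mp (Submodule.span F {w}).mkQ E) →
        finrank ℂ S ≤ h0 D + finrank ℂ (S ⊓ (Submodule.span F {q}).restrictScalars ℂ :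
          Submodule ℂ (V ⧸ (Submodule.span F {w}))) :=
  flag_aux G hV hE hw _ rfl q hq

end CLF
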