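import Pool.Agent.CLF.Dua

/-!
# Module Lbd: line bundle facts

PROOFS.
`smul_H0_le`: clear from the definitions (`S ≤ L i` for both `i`, etc).
`h0_eq_zero_of_deg_neg`: if `x ∈ H0 L`, `x ≠ 0` then the line bundle `x • O` (image of `Oo R` under
multiplication by `x`, an `F`-linear automorphism; use `A' := tw (Oo R)`-like
`fun i => (Oo R i).map (LinearMap.mulLeft ℂ x)` ) is `≤ L`, and has degree `0` (`deg` is invariant
under `F`-linear automorphisms, or: `chi` is, since multiplication by `x` maps `H0`, `V/(..)`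
isomorphically).  `deg_mono` gives `0 ≤ deg L`.
`scale`: `A' i := (A i).map (LinearMap.mulLeft ℂ x)`.
`exists_scale_of_h0`: a nonzero `x ∈ H0 (tw (inv A) L)` satisfies `x * a ∈ L i` for `a ∈ A i`
(`mem_inv_tw`); use `scale`.
`eff`: `mem_inv_tw` for both `i`.
`h0_le_ln`: `a ↦ a`: `H0 L ≤ H0 (ln F E x)` because `a • x ∈ H0 E` by `eff`; `ln F E x` is a bundle
(`bdl_ln`), so its `H0` is finite dimensional.
`h0_drop`: `rr1` for `L` and `tw P L` and `h0 (kd K (tw P L)) ≥ h0 (kd K L)` (`kd_mono`, `h0_mono`),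
`deg (tw P L) = deg L - 1`.
-/

open Module

namespace CLF

universe u

variable {F : Type u} [Field F] [Algebra ℂ F] {R : Fin 2 → Subalgebra ℂ F} {K : Lat F}
variable {V : Type u} [AddCommGroup V] [Module ℂ V] [Module F V] [IsScalarTower ℂ F V]
  [FiniteDimensional F V]

theorem smul_H0_le {L : Lat F} {E : Lat V} {S : Submodule ℂ F} {T : Submodule ℂ V}
    (hS : S ≤ H0 L) (hT : T ≤ H0 E) : S • T ≤ H0 (tw L E) :=
  le_inf (Submodule.smul_mono (hS.trans inf_le_left) (hT.trans inf_le_left))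
    (Submodule.smul_mono (hS.trans inf_le_right) (hT.trans inf_le_right))

private theorem lbd_gen {A : Lat F} (hA : IsBdl R A) {x : F} (hx : x ≠ 0) :
    IsBdl R (fun i => (A i).map (LinearMap.mulLeft ℂ x) : Lat F) := by
  constructor
  · intro i
    obtain ⟨s, hs⟩ := hA.gen i
    classical
    refine ⟨s.image (fun y => x * y), ?_⟩
    rw [hs]
    have h1 : (Submodule.span ℂ ((s.image (fun y => x * y) : Finset F) : Set F))
        = (Submodule.span ℂ (s : Set F)).map (LinearMap.mulLeft ℂ x) := by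
      rw [Submodule.map_span, Finset.coe_image]; rfl
    rw [h1]
    apply le_antisymm
    · rintro _ ⟨y, hy, rfl⟩
      refine Submodule.smul_induction_on hy (fun r hr m hm => ?_) (fun a b ha hb => ?_)
      · have : LinearMap.mulLeft ℂ x (r • m) = r • (LinearMap.mulLeft ℂ x m) := by
          simp only [LinearMap.mulLeft_apply, smul_eq_mul]; ring
        rw [this]
        exact Submodule.smul_mem_smul hr ⟨m, hm, rfl⟩
      · rw [map_add]; exact Submodule.add_mem _ ha hb
    · refine Submodule.smul_le.2 ?_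
      rintro r hr _ ⟨m, hm, rfl⟩
      refine ⟨r • m, Submodule.smul_mem_smul hr hm, ?_⟩
      simp only [LinearMap.mulLeft_apply, smul_eq_mul]; ring
  · intro i
    rw [eq_top_iff]
    intro y _
    have h1 : x⁻¹ * y ∈ Submodule.span F ((A i : Submodule ℂ F) : Set F) := by
      rw [hA.spans i]; trivial
    have h2 := Submodule.mem_map_of_mem (f := LinearMap.mulLeft F x) h1
    rw [Submodule.map_span] at h2
    have h3 : LinearMap.mulLeft F x (x⁻¹ * y) = y := by
      rw [LinearMap.mulLeft_apply, mul_inv_cancel_left₀ hx]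
    rw [h3] at h2
    exact h2

private theorem lbd_H0 (A : Lat F) {x : F} (hx : x ≠ 0) :
    H0 (fun i => (A i).map (LinearMap.mulLeft ℂ x) : Lat F) =
      (H0 A).map (LinearMap.mulLeft ℂ x) := by
  have hinj : Function.Injective (LinearMap.mulLeft ℂ x) := fun a b hab =>
    mul_left_cancel₀ hx hab
  exact (Submodule.map_inf _ hinj).symm

private theorem lbd_h0 (A : Lat F) {x : F} (hx : x ≠ 0) :
    h0 (fun i => (A i).map (LinearMap.mulLeft ℂ x) : Lat F) = h0 A := by
  have hinj : Function.Injective (LinearMap.mulLeft ℂ x) := fun a b hab =>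
    mul_left_cancel₀ hx hab
  unfold h0
  rw [lbd_H0 A hx]
  exact (Submodule.equivMapOfInjective _ hinj (H0 A)).finrank_eq.symm

private noncomputable def lbd_eq {x : F} (hx : x ≠ 0) : F ≃ₗ[ℂ] F :=
  LinearEquiv.ofBijective (LinearMap.mulLeft ℂ x)
    ⟨fun a b hab => mul_left_cancel₀ hx hab, fun b => ⟨x⁻¹ * b, by simp [hx]⟩⟩

private theorem lbd_h1 (A : Lat F) {x : F} (hx : x ≠ 0) :
    h1 (fun i => (A i).map (LinearMap.mulLeft ℂ x) : Lat F) = h1 A := by
  unfold h1
  refine (Submodule.Quotient.equiv _ _ (lbd_eq hx) ?_).finrank_eq.symm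
  rw [Submodule.map_sup]
  rfl

private theorem lbd_deg (A : Lat F) {x : F} (hx : x ≠ 0) :
    deg R (fun i => (A i).map (LinearMap.mulLeft ℂ x) : Lat F) = deg R A := by
  unfold deg chi
  rw [lbd_h0 A hx, lbd_h1 A hx]

theorem scale (G : Good R K) {A L : Lat F} (hA : IsBdl R A) {x : F}
    (hx : x ≠ 0) (h : ∀ i, ∀ a ∈ A i, x * a ∈ L i) :
    ∃ A' : Lat F, IsBdl R A' ∧ (∀ i, A' i ≤ L i) ∧ deg R A' = deg R A ∧ h0 A' = h0 A := by
  refine ⟨_, lbd_gen hA hx, ?_, lbd_deg A hx, lbd_h0 A hx⟩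
  rintro i _ ⟨a, ha, rfl⟩
  exact h i a ha

theorem h0_eq_zero_of_deg_neg (G : Good R K) {L : Lat F} (hL : IsBdl R L)
    (h : deg R L < 0) : h0 L = 0 := by
  by_contra hne
  have hfd := (G.fin F L hL).1
  have hpos : 0 < finrank ℂ (H0 L) := Nat.pos_of_ne_zero hne
  have hnt : Nontrivial (H0 L) := Module.finrank_pos_iff.mp hpos
  obtain ⟨⟨x, hx⟩, hx0⟩ := exists_ne (0 : H0 L)
  have hx0' : x ≠ 0 := fun h => hx0 (Subtype.ext h)
  obtain ⟨A', hA', hle, hdeg, -⟩ := scale G (A := Oo R) (L := L) bdl_O hx0' (by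
    intro i a ha
    have hxi : x ∈ L i := by
      fin_cases i
      · exact hx.1
      · exact hx.2
    rw [mul_comm]
    exact smul_stable hL i ha hxi)
  have h1 := deg_mono G hA' hL hle
  rw [hdeg, deg_O] at h1
  omega

theorem exists_scale_of_h0 (G : Good R K) {A L : Lat F} (hA : IsBdl R A) (hL : IsBdl R L)
    (h : 0 < h0 (tw (inv R A) L)) :
    ∃ A' : Lat F, IsBdl R A' ∧ (∀ i, A' i ≤ L i) ∧ deg R A' = deg R A ∧ h0 A' = h0 A := by
  have hfd := (G.fin F _ (bdl_tw (bdl_inv G hA) hL)).1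
  have hnt : Nontrivial (H0 (tw (inv R A) L)) := Module.finrank_pos_iff.mp h
  obtain ⟨⟨x, hx⟩, hx0⟩ := exists_ne (0 : H0 (tw (inv R A) L))
  have hx0' : x ≠ 0 := fun h => hx0 (Subtype.ext h)
  refine scale G hA hx0' ?_
  intro i a ha
  have hxi : x ∈ tw (inv R A) L i := by
    fin_cases i
    · exact hx.1
    · exact hx.2
  have := (mem_inv_tw G hA hL i x).1 hxi a ha
  rwa [smul_eq_mul, mul_comm] at this

theorem eff (G : Good R K) {L : Lat F} (hL : IsBdl R L) {E : Lat V} (hE : IsBdl R E) {x : V}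
    (hx : x ∈ H0 (tw (inv R L) E)) : ∀ a ∈ H0 L, a • x ∈ H0 E := by
  intro a ha
  exact ⟨(mem_inv_tw G hL hE 0 x).1 hx.1 a ha.1, (mem_inv_tw G hL hE 1 x).1 hx.2 a ha.2⟩

theorem h0_le_ln (G : Good R K) {L : Lat F} (hL : IsBdl R L) {E : Lat V} (hE : IsBdl R E) {x : V}
    (hx : x ∈ H0 (tw (inv R L) E)) (hx0 : x ≠ 0) : h0 L ≤ h0 (ln F E x) := by
  have hfd := (G.fin F _ (bdl_ln G hE hx0)).1
  refine Submodule.finrank_mono ?_
  intro a ha
  exact eff G hL hE hx a ha

theorem h0_drop (G : Good R K) {P L : Lat F} (hP : IsPt R P) (hL : IsBdl R L) :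
    h0 L ≤ h0 (tw P L) + 1 := by
  have hT : IsBdl R (tw P L) := bdl_tw hP.bdl hL
  have e1 := rr1 G hL
  have e2 := rr1 G hT
  have e3 := hP.drop L hL
  have e4 : h0 (kd K L) ≤ h0 (kd K (tw P L)) :=
    h0_mono G (bdl_kd G hT) (kd_mono (tw_pt_le hP hL))
  omega

end CLF
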