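import Pool.Agent.CLF.Lbd

/-!
# Module Pen: the base point free pencil trick

Let `A` be generated by `a0, a1` (`A i = Oo R i * span {a0, a1}`), `a0 ≠ 0`.
PROOF. Consider the linear map `H0 E × H0 E → V`, `(e0, e1) ↦ a0 • e0 + a1 • e1`.  Its range is
`span {a0, a1} • H0 E`.  Its kernel is isomorphic to `H0 (tw (inv A) E)` through
`x ↦ (- a1 • x, a0 • x)`: for `x` in this `H0`, `a0 • x, a1 • x ∈ H0 E` (`eff`); conversely if
`a0 • e0 + a1 • e1 = 0` put `x = a0⁻¹ • e1`, then `a0 • x = e1`, `a1 • x = - e0`, so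
`A i • x ⊆ Oo R i • span {e0, e1} ⊆ E i` and `x ∈ inv A • E` by `mem_inv_tw`.  Rank-nullity
(all spaces finite dimensional by `G.fin`).
-/

open Module

namespace CLF

universe u

variable {F : Type u} [Field F] [Algebra ℂ F] {R : Fin 2 → Subalgebra ℂ F} {K : Lat F}
variable {V : Type u} [AddCommGroup V] [Module ℂ V] [Module F V] [IsScalarTower ℂ F V]
  [FiniteDimensional F V]

omit [FiniteDimensional F V] in
private theorem pen_comm (c : ℂ) (a : F) (x : V) : a • (c • x) = c • (a • x) := by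
  rw [← algebraMap_smul F c x, ← algebraMap_smul F c (a • x), smul_smul, smul_smul, mul_comm]

omit [FiniteDimensional F V] in
private theorem pen_smul_add (c d : ℂ) (a0 a1 : F) (x : V) :
    (c • a0 + d • a1) • x = c • (a0 • x) + d • (a1 • x) := by
  rw [add_smul, smul_assoc, smul_assoc]

/-- the map of the pencil -/
private def penMap (a0 a1 : F) (E : Lat V) : (H0 E × H0 E) →ₗ[ℂ] V where
  toFun p := a0 • (p.1 : V) + a1 • (p.2 : V)
  map_add' p q := by
    change a0 • ((p.1 : V) + q.1) + a1 • ((p.2 : V) + q.2) = _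
    rw [smul_add, smul_add]
    abel
  map_smul' c p := by
    change a0 • (c • (p.1 : V)) + a1 • (c • (p.2 : V)) = c • (a0 • (p.1 : V) + a1 • (p.2 : V))
    rw [pen_comm, pen_comm, smul_add]

private theorem penMap_apply (a0 a1 : F) (E : Lat V) (p : H0 E × H0 E) :
    penMap a0 a1 E p = a0 • (p.1 : V) + a1 • (p.2 : V) := rfl

private theorem penMap_range (a0 a1 : F) (E : Lat V) :
    LinearMap.range (penMap a0 a1 E) = Submodule.span ℂ {a0, a1} • H0 E := by
  apply le_antisymm
  · rintro _ ⟨p, rfl⟩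
    rw [penMap_apply]
    exact add_mem (Submodule.smul_mem_smul (Submodule.subset_span (Set.mem_insert _ _)) p.1.2)
      (Submodule.smul_mem_smul (Submodule.subset_span (Set.mem_insert_of_mem _ rfl)) p.2.2)
  · rw [Submodule.smul_le]
    intro r hr m hm
    obtain ⟨c, d, rfl⟩ := Submodule.mem_span_pair.1 hr
    refine ⟨(⟨c • m, (H0 E).smul_mem c hm⟩, ⟨d • m, (H0 E).smul_mem d hm⟩), ?_⟩
    rw [penMap_apply, pen_smul_add]
    change a0 • (c • m) + a1 • (d • m) = _
    rw [pen_comm, pen_comm]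

private theorem pen_gen_mem {A : Lat F} {a0 a1 : F}
    (hgen : ∀ i, A i = Oo R i * Submodule.span ℂ {a0, a1}) (i : Fin 2) {a : F}
    (ha : a ∈ Submodule.span ℂ {a0, a1}) : a ∈ A i := by
  rw [hgen]
  have h := Submodule.mul_mem_mul (M := Oo R i) (N := Submodule.span ℂ {a0, a1}) (R i).one_mem ha
  rwa [one_mul] at h

private theorem pen_mem (G : Good R K) {A : Lat F} (hA : IsBdl R A) {a0 a1 : F}
    (hgen : ∀ i, A i = Oo R i * Submodule.span ℂ {a0, a1}) {E : Lat V} (hE : IsBdl R E) (x : V) :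
    x ∈ H0 (tw (inv R A) E) ↔ a0 • x ∈ H0 E ∧ a1 • x ∈ H0 E := by
  have key : ∀ i, x ∈ tw (inv R A) E i ↔ a0 • x ∈ E i ∧ a1 • x ∈ E i := by
    intro i
    rw [mem_inv_tw G hA hE]
    constructor
    · intro h
      exact ⟨h a0 (pen_gen_mem hgen i (Submodule.subset_span (Set.mem_insert _ _))),
        h a1 (pen_gen_mem hgen i (Submodule.subset_span (Set.mem_insert_of_mem _ rfl)))⟩
    · rintro ⟨h0, h1⟩ a ha
      rw [hgen] at ha
      refine Submodule.mul_induction_on ha ?_ (fun u v hu hv => by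
        rw [add_smul]
        exact (E i).add_mem hu hv)
      intro r hr s hs
      obtain ⟨c, d, rfl⟩ := Submodule.mem_span_pair.1 hs
      rw [mul_smul, pen_smul_add]
      exact smul_stable hE i hr ((E i).add_mem ((E i).smul_mem c h0) ((E i).smul_mem d h1))
  constructor
  · rintro ⟨hx0, hx1⟩
    exact ⟨⟨((key 0).1 hx0).1, ((key 1).1 hx1).1⟩, ⟨((key 0).1 hx0).2, ((key 1).1 hx1).2⟩⟩
  · rintro ⟨⟨h00, h01⟩, ⟨h10, h11⟩⟩
    exact ⟨(key 0).2 ⟨h00, h10⟩, (key 1).2 ⟨h01, h11⟩⟩

theorem pencil (G : Good R K) {A : Lat F} (hA : IsBdl R A) {a0 a1 : F} (h0' : a0 ≠ 0)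
    (hgen : ∀ i, A i = Oo R i * Submodule.span ℂ {a0, a1}) {E : Lat V} (hE : IsBdl R E) :
    finrank ℂ (Submodule.span ℂ {a0, a1} • H0 E : Submodule ℂ V) + h0 (tw (inv R A) E)
      = 2 * h0 E := by
  have hfin : FiniteDimensional ℂ (H0 E) := (G.fin V E hE).1
  have h1 := LinearMap.finrank_range_add_finrank_ker (penMap a0 a1 E)
  rw [penMap_range, Module.finrank_prod] at h1
  have hm := pen_mem G hA hgen hE
  let κ : H0 (tw (inv R A) E) →ₗ[ℂ] LinearMap.ker (penMap a0 a1 E) :=
    { toFun := fun x => ⟨(⟨-(a1 • (x : V)), (H0 E).neg_mem ((hm x).1 x.2).2⟩,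
        ⟨a0 • (x : V), ((hm x).1 x.2).1⟩), by
          rw [LinearMap.mem_ker, penMap_apply]
          change a0 • (-(a1 • (x : V))) + a1 • (a0 • (x : V)) = 0
          rw [smul_neg, smul_smul, smul_smul, mul_comm a1 a0]
          abel⟩
      map_add' := fun x y => by
        apply Subtype.ext
        apply Prod.ext
        · apply Subtype.ext
          change -(a1 • ((x : V) + y)) = -(a1 • (x : V)) + -(a1 • (y : V))
          rw [smul_add]
          abel
        · apply Subtype.ext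
          change a0 • ((x : V) + y) = a0 • (x : V) + a0 • (y : V)
          rw [smul_add]
      map_smul' := fun c x => by
        apply Subtype.ext
        apply Prod.ext
        · apply Subtype.ext
          change -(a1 • (c • (x : V))) = c • (-(a1 • (x : V)))
          rw [pen_comm, smul_neg]
        · apply Subtype.ext
          change a0 • (c • (x : V)) = c • (a0 • (x : V))
          rw [pen_comm] }
  have hinj : Function.Injective κ := by
    intro x y hxy
    have h2 : a0 • (x : V) = a0 • (y : V) :=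
      congrArg (fun p : LinearMap.ker (penMap a0 a1 E) => (p.1.2 : V)) hxy
    apply Subtype.ext
    have h3 := congrArg (fun v => a0⁻¹ • v) h2
    simp only [smul_smul, inv_mul_cancel₀ h0', one_smul] at h3
    exact h3
  have hsurj : Function.Surjective κ := by
    rintro ⟨⟨e0, e1⟩, he⟩
    rw [LinearMap.mem_ker, penMap_apply] at he
    have he' : a0 • (e0 : V) + a1 • (e1 : V) = 0 := he
    have g1 : a0 • (a0⁻¹ • (e1 : V)) = e1 := by rw [smul_smul, mul_inv_cancel₀ h0', one_smul]
    have g2 : a1 • (a0⁻¹ • (e1 : V)) = -(e0 : V) := by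
      rw [smul_smul, mul_comm, ← smul_smul, eq_neg_of_add_eq_zero_right he', smul_neg, smul_smul,
        inv_mul_cancel₀ h0', one_smul]
    refine ⟨⟨a0⁻¹ • (e1 : V), (hm _).2 ⟨by rw [g1]; exact e1.2, by
      rw [g2]; exact (H0 E).neg_mem e0.2⟩⟩, ?_⟩
    apply Subtype.ext
    apply Prod.ext
    · apply Subtype.ext
      change -(a1 • (a0⁻¹ • (e1 : V))) = e0
      rw [g2, neg_neg]
    · apply Subtype.ext
      exact g1
  have h2 : h0 (tw (inv R A) E) = finrank ℂ (LinearMap.ker (penMap a0 a1 E)) :=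
    (LinearEquiv.ofBijective κ ⟨hinj, hsurj⟩).finrank_eq
  rw [h2, h1]
  unfold h0
  ring

theorem pencil_le (G : Good R K) {A : Lat F} (hA : IsBdl R A) {a0 a1 : F} (h0' : a0 ≠ 0)
    (hgen : ∀ i, A i = Oo R i * Submodule.span ℂ {a0, a1}) {E : Lat V} (hE : IsBdl R E) :
    2 * h0 E ≤ h0 (tw A E) + h0 (tw (inv R A) E) := by
  have h1 := pencil G hA h0' hgen hE
  have hfin : FiniteDimensional ℂ (H0 (tw A E)) := (G.fin V _ (bdl_tw hA hE)).1
  have h2 : Submodule.span ℂ {a0, a1} • H0 E ≤ H0 (tw A E) := by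
    apply smul_H0_le _ le_rfl
    intro a ha
    exact ⟨pen_gen_mem hgen 0 ha, pen_gen_mem hgen 1 ha⟩
  have h3 := Submodule.finrank_mono h2
  have h4 : h0 (tw A E) = finrank ℂ (H0 (tw A E)) := rfl
  omega

end CLF
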