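import Pool.Agent.CLF.Sem
import Pool.Agent.CLF.Lbd
import Pool.Agent.CLF.Flag
import Pool.Agent.CLF.Pen

/-!
# Module Ctx: the numerical context (definitions only, nothing to prove)
-/

open Module

namespace CLF

universe u

variable {F : Type u} [Field F] [Algebra ℂ F] {R : Fin 2 → Subalgebra ℂ F} {K : Lat F}
variable {V : Type u} [AddCommGroup V] [Module ℂ V] [Module F V] [IsScalarTower ℂ F V]
  [FiniteDimensional F V]

/-- everything used about a hypothetical curve with first Clifford index `3` and third Clifford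
index `8/3` -/
structure Ctx (R : Fin 2 → Subalgebra ℂ F) (K : Lat F) : Prop where
  good : Good R K
  g9 : 9 ≤ genus R
  g12 : genus R ≤ 12
  L2 : ∀ D : Lat F, IsBdl R D → ∀ h : ℤ, 2 ≤ h → h ≤ (h0 D : ℤ) →
    min (2 * h + 1) (h + (genus R : ℤ) - 2) ≤ deg R D
  B0 : ∃ D : Lat F, IsBdl R D ∧ 2 ≤ h0 D ∧ deg R D = 2 * (h0 D : ℤ) + 1 ∧
    deg R D ≤ (genus R : ℤ) - 1
  H3 : ∀ (V : Type u) [AddCommGroup V] [Module ℂ V] [Module F V] [IsScalarTower ℂ F V]
    [FiniteDimensional F V] (E : Lat V), finrank F V = 3 → IsBdl R E → Semistable R E →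
      6 ≤ h0 E → 6 ≤ h0 (dl K E) → 2 * (h0 E : ℤ) + 2 ≤ deg R E

/-- a semistable bundle of rank three computing the value `8/3` -/
structure Bad (R : Fin 2 → Subalgebra ℂ F) (E : Lat V) (s : ℤ) : Prop where
  rank : finrank F V = 3
  bdl : IsBdl R E
  ss : Semistable R E
  sec : (h0 E : ℤ) = 3 + s
  dg : deg R E = 2 * s + 8
  s3 : 3 ≤ s
  le : 2 * s + 8 ≤ 3 * (genus R : ℤ) - 3

/-- there is a line bundle of degree five with two sections -/
def Has5 (R : Fin 2 → Subalgebra ℂ F) : Prop :=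
  ∃ A : Lat F, IsBdl R A ∧ deg R A = 5 ∧ 2 ≤ h0 A

variable (F) in
/-- no rank one subbundle has two independent sections -/
def NoLine (E : Lat V) : Prop := ∀ w : V, w ≠ 0 → h0 (ln F E w) ≤ 1

/-- `A` is generated by the two sections `a0`, `a1` -/
structure IsPencil (R : Fin 2 → Subalgebra ℂ F) (A : Lat F) (a0 a1 : F) : Prop where
  bdl : IsBdl R A
  m0 : a0 ∈ H0 A
  m1 : a1 ∈ H0 A
  ind : LinearIndependent ℂ ![a0, a1]
  gen : ∀ i, A i = Oo R i * Submodule.span ℂ {a0, a1}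

end CLF
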