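import Pool.Agent.CLF.Ctx

/-!
# Module CtxA: consequences of `Cliff_1 = 3`

PROOF of `L2_of`. (1) Suppose `deg D ≤ g - 1` and `2 ≤ h0 D`.  Transport `D` along an isomorphism
`e : F ≃ₗ[F] (Fin 1 → F)` (`LinearEquiv.funUnique` symm): `E = mp e D` is a bundle (`bdl_equiv`), semistable
(`ss_rank_one`), same `h0`, `deg`.  So `(deg D - 2 (h0 D - 1)) / 1 ∈ cliffSet R 1` and `3 ≤` it:
`deg D ≥ 2 h0 D + 1`.
(2) Suppose `deg D ≥ g`. Let `D' = kd K D`; by `rr1`, `h0 D' = h0 D - deg D - 1 + g`, `deg D' = 2g-2-deg D ≤ g-2`.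
If `h0 D' ≥ 2` then (1) gives `deg D' ≥ 2 h0 D' + 1`, i.e. `deg D ≥ 2 h0 D + 1`.  If `h0 D' ≤ 1` then
`deg D ≥ h0 D + g - 2`.  In all cases `min (2h+1) (h+g-2) ≤ deg D` since `h ≤ h0 D`.
`B0_of`: `3 ∈ cliffSet R 1`: a bundle on `Fin 1 → F`; transport to `F` (e.symm):
`3 = (deg - 2 (h0 - 1))/1`.
-/

open Module

namespace CLF

universe u

variable {F : Type u} [Field F] [Algebra ℂ F] {R : Fin 2 → Subalgebra ℂ F} {K : Lat F}
variable {V : Type u} [AddCommGroup V] [Module ℂ V] [Module F V] [IsScalarTower ℂ F V]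
  [FiniteDimensional F V]

private theorem ctxa_step (h1 : IsLeast (cliffSet R 1) 3) {D : Lat F} (hD : IsBdl R D)
    (h2 : 2 ≤ h0 D) (hd : deg R D ≤ (genus R : ℤ) - 1) : 2 * (h0 D : ℤ) + 1 ≤ deg R D := by
  obtain ⟨e, -⟩ : ∃ e : F ≃ₗ[F] (Fin 1 → F), e = (LinearEquiv.funUnique (Fin 1) F F).symm :=
    ⟨_, rfl⟩
  have h3 : (3 : ℚ) ≤ ((deg R D : ℚ) - 2 * ((h0 D : ℚ) - ((1 : ℕ) : ℚ))) / ((1 : ℕ) : ℚ) := by
    refine h1.2 ⟨mp (e : F →ₗ[F] (Fin 1 → F)) D, bdl_equiv hD e,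
      ss_rank_one (Module.finrank_fin_fun F) _, ?_, ?_, ?_⟩
    · rw [h0_equiv]
      omega
    · rw [deg_equiv]
      push_cast
      linarith
    · rw [h0_equiv, deg_equiv]
  rw [Nat.cast_one, div_one] at h3
  have h4 : (2 * (h0 D : ℚ) + 1) ≤ (deg R D : ℚ) := by linarith
  exact_mod_cast h4

theorem L2_of (G : Good R K) (h1 : IsLeast (cliffSet R 1) 3) :
    ∀ D : Lat F, IsBdl R D → ∀ h : ℤ, 2 ≤ h → h ≤ (h0 D : ℤ) →
      min (2 * h + 1) (h + (genus R : ℤ) - 2) ≤ deg R D := by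
  intro D hD h hh2 hh
  have h2 : 2 ≤ h0 D := by omega
  by_cases hd : deg R D ≤ (genus R : ℤ) - 1
  · have h3 := ctxa_step h1 hD h2 hd
    omega
  · have h4 := rr1 G hD
    have h5 := deg_kd G hD
    have h6 := bdl_kd G hD
    by_cases h7 : 2 ≤ h0 (kd K D)
    · have h8 := ctxa_step h1 h6 h7 (by omega)
      omega
    · omega

theorem B0_of (h1 : IsLeast (cliffSet R 1) 3) :
    ∃ D : Lat F, IsBdl R D ∧ 2 ≤ h0 D ∧ deg R D = 2 * (h0 D : ℤ) + 1 ∧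
      deg R D ≤ (genus R : ℤ) - 1 := by
  obtain ⟨E, hE, hs, hh, hd, hc⟩ := h1.1
  obtain ⟨e, -⟩ : ∃ e : (Fin 1 → F) ≃ₗ[F] F, e = LinearEquiv.funUnique (Fin 1) F F := ⟨_, rfl⟩
  refine ⟨mp (e : (Fin 1 → F) →ₗ[F] F) E, bdl_equiv hE e, ?_, ?_, ?_⟩
  · rw [h0_equiv]
    omega
  · rw [h0_equiv, deg_equiv]
    rw [Nat.cast_one, div_one] at hc
    have h4 : (deg R E : ℚ) = 2 * (h0 E : ℚ) + 1 := by linarith
    exact_mod_cast h4
  · rw [deg_equiv]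
    push_cast at hd
    linarith

end CLF
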