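import Pool.Agent.CLF.Ctx

/-!
# Module CtxB: consequences of `Cliff_3 = 8/3`

PROOF of `H3_of`. (1) If `deg E ≤ 3 (g - 1)`: choose `e : V ≃ₗ[F] (Fin 3 → F)` (finrank 3), transport
(`bdl_equiv`, `ss_equiv`, `h0_equiv`, `deg_equiv`): `(deg E - 2 (h0 E - 3))/3 ∈ cliffSet R 3`, so
`8/3 ≤` it: `deg E ≥ 2 h0 E + 2`.
(2) If `deg E > 3 (g - 1)`: apply (1) to `dl K E` (`bdl_dl`, `ss_dl`, `finrank F (Dual F V) = 3`):
`deg (dl K E) = 3 (2g-2) - deg E < 3(g-1)` (`deg_dl`) and `h0 (dl K E) ≥ 6`: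
`3(2g-2) - deg E ≥ 2 h0 (dl K E) + 2`, and `h0 (dl K E) = h0 E - deg E - 3 (1-g)` (`rr`), which gives
`deg E ≥ 2 h0 E + 2`.
`exists_bad`: `8/3 ∈ cliffSet R 3` gives `E` on `Fin 3 → F` with `8/3 = (deg E - 2 (h0 E - 3))/3`,
i.e. `deg E = 2 h0 E + 2`; `s := h0 E - 3`.
-/

open Module

namespace CLF

universe u

variable {F : Type u} [Field F] [Algebra ℂ F] {R : Fin 2 → Subalgebra ℂ F} {K : Lat F}
variable {V : Type u} [AddCommGroup V] [Module ℂ V] [Module F V] [IsScalarTower ℂ F V]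
  [FiniteDimensional F V]

private theorem ctxb_step (h3 : IsLeast (cliffSet R 3) (8 / 3)) {E : Lat V}
    (hV : finrank F V = 3) (hE : IsBdl R E) (hs : Semistable R E) (h6 : 6 ≤ h0 E)
    (hd : deg R E ≤ 3 * ((genus R : ℤ) - 1)) : 2 * (h0 E : ℤ) + 2 ≤ deg R E := by
  have hfr : finrank F V = finrank F (Fin 3 → F) := by
    rw [hV, Module.finrank_fin_fun]
  obtain ⟨e, -⟩ : ∃ e : V ≃ₗ[F] (Fin 3 → F), e = LinearEquiv.ofFinrankEq _ _ hfr := ⟨_, rfl⟩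
  have h4 : (8 / 3 : ℚ) ≤ ((deg R E : ℚ) - 2 * ((h0 E : ℚ) - ((3 : ℕ) : ℚ))) / ((3 : ℕ) : ℚ) := by
    refine h3.2 ⟨mp (e : V →ₗ[F] (Fin 3 → F)) E, bdl_equiv hE e, ss_equiv hs e, ?_, ?_, ?_⟩
    · rw [h0_equiv]
      exact h6
    · rw [deg_equiv]
      push_cast
      linarith
    · rw [h0_equiv, deg_equiv]
  push_cast at h4
  have h5 : (2 * (h0 E : ℚ) + 2) ≤ (deg R E : ℚ) := by linarith
  exact_mod_cast h5

theorem H3_of (G : Good R K) (h3 : IsLeast (cliffSet R 3) (8 / 3)) :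
    ∀ (V : Type u) [AddCommGroup V] [Module ℂ V] [Module F V] [IsScalarTower ℂ F V]
    [FiniteDimensional F V] (E : Lat V), finrank F V = 3 → IsBdl R E → Semistable R E →
      6 ≤ h0 E → 6 ≤ h0 (dl K E) → 2 * (h0 E : ℤ) + 2 ≤ deg R E := by
  intro V _ _ _ _ _ E hV hE hs h6 h6'
  by_cases hd : deg R E ≤ 3 * ((genus R : ℤ) - 1)
  · exact ctxb_step h3 hV hE hs h6 hd
  · have h4 := rr G hE
    have h5 := deg_dl G hE
    rw [hV] at h4 h5
    push_cast at h4 h5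
    have h7 := ctxb_step h3 ((Subspace.dual_finrank_eq).trans hV) (bdl_dl G hE) (ss_dl G hE hs)
      h6' (by linarith)
    linarith

theorem exists_bad (h3 : IsLeast (cliffSet R 3) (8 / 3)) :
    ∃ (E : Lat (Fin 3 → F)) (s : ℤ), Bad R E s := by
  obtain ⟨E, hE, hs, hh, hd, hc⟩ := h3.1
  push_cast at hc hd
  have h4 : (deg R E : ℚ) = 2 * (h0 E : ℚ) + 2 := by linarith
  have h5 : deg R E = 2 * (h0 E : ℤ) + 2 := by exact_mod_cast h4
  exact ⟨E, (h0 E : ℤ) - 3, Module.finrank_fin_fun F, hE, hs, by ring, by linarith, by omega,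
    by linarith⟩

end CLF
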