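import Pool.Agent.CLF.Pids

/-!
# Module Ded: the two rings of the curve are Dedekind domains with fraction field `F`, finite over
the two rings of the line

PROOF. `SS i` is a PID (`SS_pid`), so a Dedekind domain, with fraction field `RatFunc ℂ` (`SS_frac`);
`F / RatFunc ℂ` is finite separable (characteristic zero).  `integralClosure.isDedekindDomain`,
`integralClosure.isFractionRing_of_finite_extension`, `IsIntegralClosure.finite`
(or `.isNoetherian`) with `A = SS i`, `K = RatFunc ℂ`, `L = F`, `C = integralClosure (SS i) F`; `rings F i` is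
`(integralClosure (SS i) F).restrictScalars ℂ`, the same underlying ring.
`rings_gen`: a finite set `t` of `SS i`-module generators of the integral closure.
`SS_le`: elements of `SS i` are integral.
-/

open Module

namespace CLF

universe u

variable (F : Type u) [Field F] [Algebra ℂ F] [Algebra (RatFunc ℂ) F]
  [IsScalarTower ℂ (RatFunc ℂ) F] [FiniteDimensional (RatFunc ℂ) F]

theorem ded_rings (i : Fin 2) : IsDedekindDomain (rings F i) := by
  have := SS_pid i
  have := SS_frac i
  have h : IsDedekindDomain (integralClosure (SS i) F) :=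
    integralClosure.isDedekindDomain (SS i) (RatFunc ℂ) F
  exact h

theorem frac_rings (i : Fin 2) : IsFractionRing (rings F i) F := by
  have := SS_pid i
  have := SS_frac i
  have h : IsFractionRing (integralClosure (SS i) F) F :=
    integralClosure.isFractionRing_of_finite_extension (RatFunc ℂ) F
  exact h

theorem rings_gen (i : Fin 2) : ∃ t : Finset F,
    ∀ x : F, x ∈ rings F i ↔ ∃ c : F → RatFunc ℂ, (∀ y, c y ∈ SS i) ∧ x = ∑ y ∈ t, c y • y := by
  have := SS_pid i
  have := SS_frac i
  have h : Module.Finite (SS i) (integralClosure (SS i) F) :=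
    IsIntegralClosure.finite (SS i) (RatFunc ℂ) F _
  have h2 : Module.Finite (SS i) (Subalgebra.toSubmodule (integralClosure (SS i) F)) := h
  obtain ⟨t, ht⟩ := Module.Finite.iff_fg.1 h2
  refine ⟨t, fun x => ?_⟩
  have h3 : x ∈ rings F i ↔ x ∈ Submodule.span (SS i) (t : Set F) := by
    rw [ht]
    rfl
  rw [h3, Submodule.mem_span_finset]
  constructor
  · rintro ⟨f, -, hf⟩
    exact ⟨fun y => (f y : RatFunc ℂ), fun y => (f y).2, hf.symm⟩
  · rintro ⟨c, hc, rfl⟩
    classical
    refine ⟨fun y => if y ∈ t then ⟨c y, hc y⟩ else 0, ?_, ?_⟩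
    · intro y hy
      by_contra hyt
      exact hy (if_neg hyt)
    · refine Finset.sum_congr rfl fun y hy => ?_
      simp only [if_pos hy]
      rfl

theorem SS_le (i : Fin 2) (f : RatFunc ℂ) (hf : f ∈ SS i) :
    algebraMap (RatFunc ℂ) F f ∈ rings F i := by
  have h : algebraMap (RatFunc ℂ) F f = algebraMap (SS i) F ⟨f, hf⟩ := rfl
  rw [h]
  exact (integralClosure (SS i) F).algebraMap_mem _

end CLF
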