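import Mathlib

/-!
# CLF (MP_3b64ec_ag): curves, vector bundles and Clifford indices through function fields

A curve is given by its function field `F`, a finite extension of `RatFunc ℂ`.  The curve is
covered by the affine curve with ring `R 0` (the integral closure of the polynomials in `F`) and by
the points above infinity, with semilocal ring `R 1` (the integral closure in `F` of the local
ring at infinity of `RatFunc ℂ`).  A vector bundle with generic fibre `V` (a finite dimensional
`F`-space) is a pair `E 0, E 1` of finitely generated `R 0`- resp. `R 1`-submodules of `V`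
spanning `V` over `F`.  Everything is written with `ℂ`-subspaces of `V`.
-/

open Module

namespace CLF

universe u v w

/-- Pairs of `ℂ`-subspaces of `V`. -/
abbrev Lat (V : Type u) [AddCommGroup V] [Module ℂ V] : Type u := Fin 2 → Submodule ℂ V

section coh

variable {V : Type u} [AddCommGroup V] [Module ℂ V]

/-- global sections of the pair -/
def H0 (E : Lat V) : Submodule ℂ V := E 0 ⊓ E 1

/-- dimension of the space of global sections -/
noncomputable def h0 (E : Lat V) : ℕ := finrank ℂ (H0 E)

/-- dimension of the first cohomology space `V / (E 0 + E 1)` -/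
noncomputable def h1 (E : Lat V) : ℕ := finrank ℂ (V ⧸ (E 0 ⊔ E 1))

/-- Euler characteristic -/
noncomputable def chi (E : Lat V) : ℤ := (h0 E : ℤ) - (h1 E : ℤ)

end coh

section bundles

variable {F : Type v} [Field F] [Algebra ℂ F]

/-- the structure sheaf, as a pair of subspaces of `F` -/
def Oo (R : Fin 2 → Subalgebra ℂ F) : Lat F := fun i => Subalgebra.toSubmodule (R i)

/-- the genus: dimension of `F / (R 0 + R 1)` -/
noncomputable def genus (R : Fin 2 → Subalgebra ℂ F) : ℕ := h1 (Oo R)

variable {V : Type u} [AddCommGroup V] [Module ℂ V] [Module F V] [IsScalarTower ℂ F V]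
variable {W : Type w} [AddCommGroup W] [Module ℂ W] [Module F W] [IsScalarTower ℂ F W]

/-- `E` is a vector bundle: `E i` is the `R i`-submodule generated by a finite set, and spans `V`
over the function field. -/
structure IsBdl (R : Fin 2 → Subalgebra ℂ F) (E : Lat V) : Prop where
  gen : ∀ i, ∃ s : Finset V, E i = Oo R i • Submodule.span ℂ (s : Set V)
  spans : ∀ i, Submodule.span F ((E i : Submodule ℂ V) : Set V) = ⊤

/-- the degree, defined through the Riemann-Roch formula `deg E = χ(E) - rank(E) χ(O)` -/
noncomputable def deg (R : Fin 2 → Subalgebra ℂ F) (E : Lat V) : ℤ :=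
  chi E - (finrank F V : ℤ) * chi (Oo R)

/-- inverse image of a pair under an `F`-linear map; for the inclusion of a subspace `U` of the
generic fibre this is the subbundle `E ∩ U` -/
def cm (a : W →ₗ[F] V) (E : Lat V) : Lat W := fun i => (E i).comap (a.restrictScalars ℂ)

/-- image of a pair under an `F`-linear map (quotient bundles) -/
def mp (a : V →ₗ[F] W) (E : Lat V) : Lat W := fun i => (E i).map (a.restrictScalars ℂ)

/-- semistability: every subbundle `E ∩ U` (`U` a nonzero `F`-subspace of the generic fibre) has
slope at most the slope of `E` -/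
def Semistable (R : Fin 2 → Subalgebra ℂ F) (E : Lat V) : Prop :=
  ∀ U : Submodule F V, U ≠ ⊥ →
    (finrank F V : ℤ) * deg R (cm U.subtype E) ≤ (finrank F U : ℤ) * deg R E

/-- The set of values `γ(E) = (deg E - 2 (h0 E - n)) / n` over all semistable bundles `E` of rank
`n` with `h0 E ≥ 2 n` and slope at most `g - 1`.  The rank-`n` Clifford index is its least
element. -/
def cliffSet (R : Fin 2 → Subalgebra ℂ F) (n : ℕ) : Set ℚ :=
  {c | ∃ E : Lat (Fin n → F), IsBdl R E ∧ Semistable R E ∧ 2 * n ≤ h0 E ∧
    deg R E ≤ (n : ℤ) * ((genus R : ℤ) - 1) ∧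
    c = ((deg R E : ℚ) - 2 * ((h0 E : ℚ) - (n : ℚ))) / (n : ℚ)}

/-- twist of a pair `E` in `V` by a pair `L` in `F` (product of lattices) -/
def tw (L : Lat F) (E : Lat V) : Lat V := fun i => L i • E i

/-- the inverse (dual) of a line bundle -/
noncomputable def inv (R : Fin 2 → Subalgebra ℂ F) (L : Lat F) : Lat F := fun i => Oo R i / L i

/-- the residual line bundle `K ⊗ L⁻¹` -/
noncomputable def kd (K L : Lat F) : Lat F := fun i => K i / L i

/-- the Serre dual bundle `Hom(E, K)` in the dual space -/
def dl (K : Lat F) (E : Lat V) : Lat (Dual F V) := fun i =>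
  { carrier := {φ | ∀ e ∈ E i, φ e ∈ K i}
    add_mem' := fun {a b} ha hb e he => by
      simpa using (K i).add_mem (ha e he) (hb e he)
    zero_mem' := fun e _ => by simp
    smul_mem' := fun c a ha e he => by
      simpa using (K i).smul_mem c (ha e he) }

variable (F) in
/-- the rank one subbundle of `E` through the vector `w`: all `x` in `F` with `x w` in `E` -/
def ln (E : Lat V) (w : V) : Lat F := cm (LinearMap.toSpanSingleton F V w) E

/-- the pair of submodules generated by a subspace -/
def gn (R : Fin 2 → Subalgebra ℂ F) (S : Submodule ℂ V) : Lat V := fun i => Oo R i • S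

end bundles

section field

/-- the polynomials, as a subalgebra of `RatFunc ℂ` -/
noncomputable def S0 : Subalgebra ℂ (RatFunc ℂ) :=
  (Algebra.ofId (Polynomial ℂ) (RatFunc ℂ) |>.restrictScalars ℂ).range

/-- the local ring at infinity of `RatFunc ℂ` -/
noncomputable def S1 : Subalgebra ℂ (RatFunc ℂ) where
  carrier := {f | f.intDegree ≤ 0}
  mul_mem' := by
    intro a b ha hb
    simp only [Set.mem_ofPred_eq] at *
    by_cases h1 : a = 0
    · simp [h1]
    by_cases h2 : b = 0
    · simp [h2]
    rw [RatFunc.intDegree_mul h1 h2]; omega
  add_mem' := by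
    intro a b ha hb
    simp only [Set.mem_ofPred_eq] at *
    by_cases h1 : b = 0
    · simpa [h1] using ha
    by_cases h2 : a + b = 0
    · simp [h2]
    · exact (RatFunc.intDegree_add_le h1 h2).trans (max_le ha hb)
  algebraMap_mem' := by
    intro r
    simp only [Set.mem_ofPred_eq]
    have : (algebraMap ℂ (RatFunc ℂ)) r = RatFunc.C r := rfl
    rw [this, RatFunc.intDegree_C]

/-- the two rings of `RatFunc ℂ` -/
noncomputable def SS : Fin 2 → Subalgebra ℂ (RatFunc ℂ) := ![S0, S1]

variable (F : Type u) [Field F] [Algebra ℂ F] [Algebra (RatFunc ℂ) F]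
  [IsScalarTower ℂ (RatFunc ℂ) F]

/-- the two rings of the curve with function field `F`: the integral closures in `F` of the
polynomials and of the local ring at infinity of `RatFunc ℂ` -/
noncomputable def rings : Fin 2 → Subalgebra ℂ F := fun i =>
  (integralClosure (SS i) F).restrictScalars ℂ

end field

end CLF
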