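import Pool.Agent.CLF.Ded

/-!
# Module Desc: a bundle on the curve is a bundle on the line

PROOF. `E i = Oo (rings F) i • span ℂ s`, and `rings F i` is generated as a module over `SS i` by a finite set `t`
(`rings_gen`), so `E i = Oo SS i • span ℂ (t • s)` (products `y • x`, `y ∈ t`, `x ∈ s`).
Spanning over `RatFunc ℂ`: `F` is algebraic over `RatFunc ℂ`: every element of `F` is `r / p` with `r ∈ rings F i`,
`p ∈ SS i`, `p ≠ 0` (`IsIntegralClosure.exists_smul_eq_mul`-type lemma, or `exists_integral_multiple`,
or the fraction ring property and norms); and `r • E i ≤ E i`; so `F • E i` is contained in the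
`RatFunc ℂ`-span of `E i`.
-/

open Module

namespace CLF

universe u

variable (F : Type u) [Field F] [Algebra ℂ F] [Algebra (RatFunc ℂ) F]
  [IsScalarTower ℂ (RatFunc ℂ) F] [FiniteDimensional (RatFunc ℂ) F]

private theorem desc_frac (i : Fin 2) (f : F) : ∃ p : RatFunc ℂ, p ≠ 0 ∧ p • f ∈ rings F i := by
  have := SS_pid i
  have := SS_frac i
  have h1 : IsAlgebraic (SS i) f :=
    (IsFractionRing.isAlgebraic_iff (SS i) (RatFunc ℂ) F).2 (Algebra.IsAlgebraic.isAlgebraic f)
  obtain ⟨y, hy, h2⟩ := h1.exists_integral_multiple
  refine ⟨(y : RatFunc ℂ), fun h => hy (Subtype.ext h), ?_⟩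
  exact h2

theorem desc {V : Type u} [AddCommGroup V] [Module ℂ V] [Module F V] [IsScalarTower ℂ F V]
    [FiniteDimensional F V] [Module (RatFunc ℂ) V] [IsScalarTower ℂ (RatFunc ℂ) V]
    [IsScalarTower (RatFunc ℂ) F V] (E : Lat V) (hE : IsBdl (rings F) E) : IsBdl SS E := by
  classical
  have hst : ∀ (i : Fin 2) (r : F), r ∈ rings F i → ∀ x ∈ E i, r • x ∈ E i := by
    intro i r hr x hx
    obtain ⟨s, hs⟩ := hE.gen i
    rw [hs] at hx ⊢
    refine Submodule.smul_induction_on hx ?_ ?_
    · intro a ha n hn
      rw [← mul_smul]
      exact Submodule.smul_mem_smul ((rings F i).mul_mem hr ha) hn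
    · intro a b ha hb
      rw [smul_add]
      exact Submodule.add_mem _ ha hb
  constructor
  · intro i
    obtain ⟨s, hs⟩ := hE.gen i
    obtain ⟨t, ht⟩ := rings_gen F i
    have htm : ∀ y ∈ t, y ∈ rings F i := by
      intro y hy
      rw [ht]
      refine ⟨fun z => if z = y then 1 else 0, fun z => ?_, ?_⟩
      · by_cases hz : z = y
        · simp only [if_pos hz]
          exact (SS i).one_mem
        · simp only [if_neg hz]
          exact (SS i).zero_mem
      · rw [Finset.sum_eq_single y]
        · simp
        · intro z _ hz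
          simp only [if_neg hz, zero_smul]
        · exact fun h => absurd hy h
    have hsE : ∀ x ∈ s, x ∈ E i := by
      intro x hx
      rw [hs]
      have h1 : (1 : F) • x ∈ Oo (rings F) i • Submodule.span ℂ (s : Set V) :=
        Submodule.smul_mem_smul (rings F i).one_mem (Submodule.subset_span hx)
      rwa [one_smul] at h1
    refine ⟨Finset.image₂ (fun y x => y • x) t s, ?_⟩
    apply le_antisymm
    · rw [hs, Submodule.smul_le]
      intro r hr n hn
      have hr' : r ∈ rings F i := hr
      rw [ht] at hr'
      obtain ⟨c, hc, rfl⟩ := hr'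
      rw [Finset.sum_smul]
      refine Submodule.sum_mem _ fun y hy => ?_
      rw [smul_assoc]
      refine Submodule.smul_mem_smul (hc y) ?_
      refine Submodule.span_induction ?_ ?_ ?_ ?_ hn
      · intro x hx
        refine Submodule.subset_span ?_
        rw [Finset.coe_image₂]
        exact ⟨y, hy, x, hx, rfl⟩
      · rw [smul_zero]
        exact Submodule.zero_mem _
      · intro a b _ _ ha hb
        rw [smul_add]
        exact Submodule.add_mem _ ha hb
      · intro a x _ hx
        rw [smul_comm]
        exact Submodule.smul_mem _ a hx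
    · rw [Submodule.smul_le]
      intro r hr n hn
      have hr' : r ∈ SS i := hr
      have h1 : r • n = (algebraMap (RatFunc ℂ) F r) • n := by
        rw [algebraMap_smul]
      rw [h1]
      refine hst i _ (SS_le F i r hr') n ?_
      refine Submodule.span_le.2 ?_ hn
      rw [Finset.coe_image₂]
      rintro _ ⟨y, hy, x, hx, rfl⟩
      exact hst i y (htm y hy) x (hsE x hx)
  · intro i
    rw [eq_top_iff]
    have hstep : ∀ (f : F), ∀ x ∈ Submodule.span (RatFunc ℂ) ((E i : Submodule ℂ V) : Set V),
        f • x ∈ Submodule.span (RatFunc ℂ) ((E i : Submodule ℂ V) : Set V) := by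
      intro f x hx
      refine Submodule.span_induction ?_ ?_ ?_ ?_ hx
      · intro x hx
        obtain ⟨p, hp, hpf⟩ := desc_frac F i f
        have h1 : f • x = p⁻¹ • ((p • f) • x) := by
          rw [← smul_assoc, ← smul_assoc, smul_eq_mul, inv_mul_cancel₀ hp, one_smul]
        rw [h1]
        exact Submodule.smul_mem _ _ (Submodule.subset_span (hst i _ hpf x hx))
      · rw [smul_zero]
        exact Submodule.zero_mem _
      · intro a b _ _ ha hb
        rw [smul_add]
        exact Submodule.add_mem _ ha hb
      · intro a x _ hx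
        have h1 : f • a • x = a • f • x := by
          rw [← algebraMap_smul F a x, ← algebraMap_smul F a (f • x), smul_comm]
        rw [h1]
        exact Submodule.smul_mem _ a hx
    intro x _
    have hx : x ∈ Submodule.span F ((E i : Submodule ℂ V) : Set V) := by
      rw [hE.spans i]
      trivial
    refine Submodule.span_induction ?_ ?_ ?_ ?_ hx
    · intro x hx
      exact Submodule.subset_span hx
    · exact Submodule.zero_mem _
    · intro a b _ _ ha hb
      exact Submodule.add_mem _ ha hb
    · intro a x _ hx
      exact hstep a x hx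

end CLF
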