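import Pool.Agent.CLF.Bdl
import Pool.Agent.CLF.Dtw

/-!
# Module Dua: Riemann-Roch and duality

PROOFS.
`chi_O`: `H0 (Oo R) = toSubmodule (R 0 ⊓ R 1) = toSubmodule ⊥ = ℂ·1` has dimension one, and
`h1 (Oo R) = genus R` by definition.
`h0_dl_dl`: the evaluation `V → Dual F (Dual F V)` is an `F`-linear isomorphism
(`Module.evalEquiv`) and maps `E i` onto `dl K (dl K E) i` (⊆ obvious; ⊇ is `G.refl`), hence `H0`
onto `H0`.
`rr`: `h0 E - h1 E = chi E = deg E + n chi O`, and `h1 E = h0 (dl K E)` (`G.dual`).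
`deg_dl`: `chi (dl K E) = h0 (dl K E) - h1 (dl K E) = h1 E - h0 (dl K (dl K E)) = h1 E - h0 E = - chi E`
(`G.dual` for `dl K E`, `bdl_dl`), `finrank F (Dual F V) = finrank F V`.
`h0_dl_F`: the isomorphism `Dual F F → F`, `φ ↦ φ 1` maps `dl K L i` onto `K i / L i = kd K L i`.
`rr1`: `rr` for `V = F` and `h0_dl_F`.
`h0_K`, `deg_K`: `rr1` for `L = O`: `h0 O = 1`, `kd K O = K` and for `L = K`: `kd K K = O`
(`kd_kd`, `kd_O`).  `deg_kd`: `kd_eq`, `deg_tw1`, `deg_inv`, `deg_K`.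
`dl_tw`: `φ ∈ dl K (tw L E) i ↔ ∀ a ∈ L i, ∀ e ∈ E i, φ (a • e) = (a • φ) e ∈ K i ↔ ∀ a ∈ L i, a • φ ∈ dl K E i`
and `mem_inv_tw` for the bundle `dl K E`.
-/

open Module

namespace CLF

universe u

variable {F : Type u} [Field F] [Algebra ℂ F] {R : Fin 2 → Subalgebra ℂ F} {K : Lat F}
variable {V : Type u} [AddCommGroup V] [Module ℂ V] [Module F V] [IsScalarTower ℂ F V]
  [FiniteDimensional F V]

private theorem dua_h0 {W : Type u} [AddCommGroup W] [Module ℂ W] [Module F W]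
    [IsScalarTower ℂ F W] (E : Lat V) (E' : Lat W) (e : V ≃ₗ[F] W)
    (h : ∀ i x, x ∈ E i ↔ e x ∈ E' i) : h0 E' = h0 E := by
  have hi : Function.Injective ((e : V →ₗ[F] W).restrictScalars ℂ) := e.injective
  have h1 : (H0 E).map ((e : V →ₗ[F] W).restrictScalars ℂ) = H0 E' := by
    ext y
    simp only [Submodule.mem_map, LinearMap.restrictScalars_apply, H0, Submodule.mem_inf]
    constructor
    · rintro ⟨x, ⟨h0, h1⟩, rfl⟩
      exact ⟨(h 0 x).1 h0, (h 1 x).1 h1⟩
    · rintro ⟨h0, h1⟩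
      refine ⟨e.symm y, ⟨(h 0 _).2 ?_, (h 1 _).2 ?_⟩, ?_⟩
      · rw [e.apply_symm_apply]; exact h0
      · rw [e.apply_symm_apply]; exact h1
      · exact e.apply_symm_apply y
  unfold h0
  rw [← h1]
  exact (Submodule.equivMapOfInjective _ hi (H0 E)).finrank_eq.symm

theorem h0_O (G : Good R K) : h0 (Oo R) = 1 := by
  have h : H0 (Oo R) = Subalgebra.toSubmodule (⊥ : Subalgebra ℂ F) := by
    rw [← G.const]
    rfl
  unfold h0
  rw [h]
  exact Subalgebra.finrank_bot

theorem chi_O (G : Good R K) : chi (Oo R) = 1 - (genus R : ℤ) := by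
  unfold chi genus
  rw [h0_O G]
  norm_num

theorem h0_dl_dl (G : Good R K) {E : Lat V} (hE : IsBdl R E) : h0 (dl K (dl K E)) = h0 E := by
  refine dua_h0 E (dl K (dl K E)) (Module.evalEquiv F V) fun i x => ⟨fun hx φ hφ => ?_, fun h => ?_⟩
  · exact hφ x hx
  · exact G.refl V E hE i x fun φ hφ => h φ hφ

theorem rr (G : Good R K) {E : Lat V} (hE : IsBdl R E) :
    (h0 E : ℤ) - (h0 (dl K E) : ℤ) = deg R E + (finrank F V : ℤ) * (1 - (genus R : ℤ)) := by
  unfold deg
  rw [chi_O G, ← G.dual V E hE]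
  unfold chi
  ring

theorem deg_dl (G : Good R K) {E : Lat V} (hE : IsBdl R E) :
    deg R (dl K E) = (finrank F V : ℤ) * (2 * (genus R : ℤ) - 2) - deg R E := by
  have e1 := G.dual (Dual F V) (dl K E) (bdl_dl G hE)
  rw [h0_dl_dl G hE] at e1
  have e2 := G.dual V E hE
  unfold deg
  rw [chi_O G, Subspace.dual_finrank_eq]
  unfold chi
  rw [e1, e2]
  ring

theorem h0_dl_F (G : Good R K) {L : Lat F} (hL : IsBdl R L) : h0 (dl K L) = h0 (kd K L) := by
  refine (dua_h0 (dl K L) (kd K L) (LinearMap.ringLmapEquivSelf F F F) fun i φ => ?_).symm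
  have h : (LinearMap.ringLmapEquivSelf F F F) φ = φ 1 := rfl
  rw [h]
  have h2 : (φ 1 ∈ kd K L i) ↔ ∀ y ∈ L i, φ 1 * y ∈ K i := Submodule.mem_div_iff_forall_mul_mem
  rw [h2]
  have h3 : ∀ y : F, φ 1 * y = φ y := by
    intro y
    have := φ.map_smul y 1
    rw [smul_eq_mul, mul_one, smul_eq_mul] at this
    rw [this, mul_comm]
  simp only [h3]
  rfl

theorem rr1 (G : Good R K) {L : Lat F} (hL : IsBdl R L) :
    (h0 L : ℤ) - (h0 (kd K L) : ℤ) = deg R L + 1 - (genus R : ℤ) := by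
  rw [← h0_dl_F G hL, rr G hL, Module.finrank_self]
  push_cast
  ring

theorem h0_K (G : Good R K) : h0 K = genus R := by
  have h := rr1 G (L := Oo R) bdl_O
  rw [kd_O G, h0_O G, deg_O] at h
  push_cast at h
  omega

theorem deg_K (G : Good R K) : deg R K = 2 * (genus R : ℤ) - 2 := by
  have h := rr1 G (L := K) G.Kb
  have h2 : kd K K = Oo R := by
    have h3 := kd_kd G (L := Oo R) bdl_O
    rwa [kd_O G] at h3
  rw [h2, h0_O G, h0_K G] at h
  push_cast at h
  omega

theorem deg_kd (G : Good R K) {L : Lat F} (hL : IsBdl R L) :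
    deg R (kd K L) = 2 * (genus R : ℤ) - 2 - deg R L := by
  rw [kd_eq G hL, deg_tw1 G (bdl_inv G hL) G.Kb, deg_inv G hL, deg_K G]
  ring

theorem dl_tw (G : Good R K) {L : Lat F} (hL : IsBdl R L) {E : Lat V} (hE : IsBdl R E) :
    dl K (tw L E) = tw (inv R L) (dl K E) := by
  funext i
  ext φ
  rw [mem_inv_tw G hL (bdl_dl G hE) i φ]
  constructor
  · intro h a ha e he
    have h1 : (a • φ) e = φ (a • e) := by
      rw [LinearMap.smul_apply, map_smul]
    rw [h1]
    exact h _ (Submodule.smul_mem_smul ha he)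
  · intro h x hx
    refine Submodule.smul_induction_on hx (fun a ha e he => ?_) (fun x y hx hy => ?_)
    · have h1 : (a • φ) e = φ (a • e) := by
        rw [LinearMap.smul_apply, map_smul]
      rw [← h1]
      exact h a ha e he
    · rw [map_add]
      exact (K i).add_mem hx hy

end CLF
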