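import Pool.Agent.CLF.FDefs

/-!
# Module Fun: functionals on `RatFunc ℂ` vanishing on lattices are residues

PROOF. Choose a polynomial `G ≠ 0` with `G S0 ≤ (g 0) S0` (write `g 0 = a / b`, then
`a = (g 0) b`, `G = a`), and `m : ℕ` with `{f | intDegree f ≤ -m} ∪ {0} ≤ (g 1) S1` (`m = -intDegree (g 1)` or 0).
Put `θ' f := θ (G f)`; it vanishes on polynomials, and on `f` with `intDegree f ≤ - M`,
`M := m + natDegree G` (+2 to be safe).  It suffices to find `P` with `θ' f = ρ (P f)` for all `f`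
(then `h = P / G`).  Let `c := ρ (X⁻¹) ≠ 0` and `P := c⁻¹ ∑_{j < M} θ' (X^(-j-1)) X^j`, increase `M` so that...
Check `θ' f = ρ (P f)`: both sides vanish for polynomials `f` (P f is a polynomial).
For `f = X^(-j-1)`, `j < M`: `ρ (X^i X^(-j-1))` is `0` for `i > j` (polynomial), `0` for `i < j` (degree ≤ -2), `c` for
`i = j`, so `ρ (P f) = θ' (X^(-j-1))`.  For `intDegree f ≤ -M-1`: `intDegree (P f) ≤ M-1-M-1 = -2` so `ρ (P f) = 0`, and
`θ' f = 0`.  Every `f` is a sum of a polynomial, a combination of `X^(-j-1)`, `j < M`, and an element `0` or of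
`intDegree ≤ -M-1` (subtract leading terms successively: induction on `M`, as in `Rho`).
-/

open Module

namespace CLF

universe u

/-- polynomial part -/
private theorem fun_split (f : RatFunc ℂ) : ∃ p : Polynomial ℂ, ∃ r : RatFunc ℂ,
    f = algebraMap (Polynomial ℂ) (RatFunc ℂ) p + r ∧ (r = 0 ∨ r.intDegree ≤ -1) := by
  have hm := RatFunc.monic_denom f
  have hd0 : algebraMap (Polynomial ℂ) (RatFunc ℂ) f.denom ≠ 0 := by
    rw [Ne, FaithfulSMul.algebraMap_eq_zero_iff]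
    exact RatFunc.denom_ne_zero f
  have h1 := Polynomial.modByMonic_add_div f.num f.denom
  refine ⟨f.num /ₘ f.denom, algebraMap (Polynomial ℂ) (RatFunc ℂ) (f.num %ₘ f.denom) /
    algebraMap (Polynomial ℂ) (RatFunc ℂ) f.denom, ?_, ?_⟩
  · rw [← RatFunc.num_div_denom f]
    conv_lhs => rw [← h1]
    rw [RatFunc.num_div_denom f, map_add, map_mul]
    field_simp
    ring
  · by_cases hr : f.num %ₘ f.denom = 0
    · left
      rw [hr, map_zero, zero_div]
    · right
      have hr0 : algebraMap (Polynomial ℂ) (RatFunc ℂ) (f.num %ₘ f.denom) ≠ 0 := by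
        rw [Ne, FaithfulSMul.algebraMap_eq_zero_iff]
        exact hr
      rw [RatFunc.intDegree_div hr0 hd0, RatFunc.intDegree_polynomial, RatFunc.intDegree_polynomial]
      have h2 := Polynomial.natDegree_lt_natDegree hr (Polynomial.degree_modByMonic_lt f.num hm)
      omega

private theorem fun_mem (p : Polynomial ℂ) : algebraMap (Polynomial ℂ) (RatFunc ℂ) p ∈ S0 := ⟨p, rfl⟩

/-- leading coefficient -/
private theorem fun_lead {u : RatFunc ℂ} (hu : u.intDegree ≤ 0) : ∃ (l : ℂ) (r : RatFunc ℂ),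
    u = algebraMap ℂ (RatFunc ℂ) l + r ∧ (r = 0 ∨ r.intDegree ≤ -1) := by
  obtain ⟨p, r, h1, h2⟩ := fun_split u
  have hr : r ∈ S1 := by
    rcases h2 with rfl | h2
    · exact S1.zero_mem
    · change r.intDegree ≤ 0
      omega
  have hp : algebraMap (Polynomial ℂ) (RatFunc ℂ) p ∈ S1 := by
    have h3 : algebraMap (Polynomial ℂ) (RatFunc ℂ) p = u - r := by rw [h1]; ring
    rw [h3]
    exact S1.sub_mem hu hr
  have h4 : (algebraMap (Polynomial ℂ) (RatFunc ℂ) p).intDegree ≤ 0 := hp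
  rw [RatFunc.intDegree_polynomial] at h4
  have h5 : p = Polynomial.C (p.coeff 0) := Polynomial.eq_C_of_natDegree_le_zero (by omega)
  refine ⟨p.coeff 0, r, ?_, h2⟩
  rw [h1]
  congr 1
  rw [h5, Polynomial.coeff_C_zero]
  exact RatFunc.algebraMap_C _

private theorem fun_Xpow (n : ℕ) : ((RatFunc.X : RatFunc ℂ) ^ n).intDegree = n := by
  have hX : (RatFunc.X : RatFunc ℂ) ≠ 0 := RatFunc.X_ne_zero
  induction n with
  | zero => rw [pow_zero, RatFunc.intDegree_one]; rfl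
  | succ n ih =>
    rw [pow_succ, RatFunc.intDegree_mul (pow_ne_zero n hX) hX, ih, RatFunc.intDegree_X]
    push_cast
    ring

private theorem fun_ind {ρ : RatFunc ℂ →ₗ[ℂ] ℂ} (hρ : IsRho ρ) (M : ℕ) :
    ∀ θ : RatFunc ℂ →ₗ[ℂ] ℂ, (∀ p ∈ S0, θ p = 0) →
      (∀ f : RatFunc ℂ, f.intDegree ≤ -((M : ℤ) + 1) → θ f = 0) →
      ∃ h : RatFunc ℂ, ∀ f, θ f = ρ (h * f) := by
  have hX : (RatFunc.X : RatFunc ℂ) ≠ 0 := RatFunc.X_ne_zero
  induction M with
  | zero =>
    intro θ h0 h1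
    refine ⟨0, fun f => ?_⟩
    rw [zero_mul, map_zero]
    obtain ⟨p, r, rfl, hr⟩ := fun_split f
    rw [map_add, h0 _ (fun_mem p), zero_add]
    rcases hr with rfl | hr
    · rw [map_zero]
    · exact h1 r (by push_cast; omega)
  | succ M ih =>
    intro θ h0 h1
    set t : RatFunc ℂ := 1 / RatFunc.X ^ (M + 1) with ht
    have ht0 : t ≠ 0 := one_div_ne_zero (pow_ne_zero _ hX)
    have htd : t.intDegree = -((M : ℤ) + 1) := by
      rw [ht, RatFunc.intDegree_div (one_ne_zero : (1 : RatFunc ℂ) ≠ 0) (pow_ne_zero _ hX), RatFunc.intDegree_one, fun_Xpow]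
      push_cast
      ring
    have hc : ρ (RatFunc.X ^ M * t) ≠ 0 := by
      apply hρ.one
      rw [RatFunc.intDegree_mul (pow_ne_zero _ hX) ht0, fun_Xpow, htd]
      ring
    set c := ρ (RatFunc.X ^ M * t) with hcdef
    set a := θ t / c with ha
    let θ₁ : RatFunc ℂ →ₗ[ℂ] ℂ := θ - a • (ρ ∘ₗ LinearMap.mulLeft ℂ (RatFunc.X ^ M))
    have hθ₁ : ∀ f, θ₁ f = θ f - a * ρ (RatFunc.X ^ M * f) := fun f => rfl
    have e0 : ∀ p ∈ S0, θ₁ p = 0 := by
      rintro _ ⟨p, rfl⟩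
      rw [hθ₁]
      rw [h0 _ ⟨p, rfl⟩, hρ.poly _ ⟨Polynomial.X ^ M * p, ?_⟩, mul_zero, sub_zero]
      change algebraMap (Polynomial ℂ) (RatFunc ℂ) (Polynomial.X ^ M * p) =
        RatFunc.X ^ M * algebraMap (Polynomial ℂ) (RatFunc ℂ) p
      rw [map_mul, map_pow, RatFunc.algebraMap_X]
    have elow : ∀ f : RatFunc ℂ, f ≠ 0 → f.intDegree ≤ -(((M + 1 : ℕ) : ℤ) + 1) → θ₁ f = 0 := by
      intro f hf0 hf
      rw [hθ₁, h1 f hf, hρ.low, mul_zero, sub_zero]
      rw [RatFunc.intDegree_mul (pow_ne_zero _ hX) hf0, fun_Xpow]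
      push_cast at hf
      omega
    have et : θ₁ t = 0 := by
      rw [hθ₁, ← hcdef, ha, div_mul_cancel₀ _ hc, sub_self]
    have e1 : ∀ f : RatFunc ℂ, f.intDegree ≤ -((M : ℤ) + 1) → θ₁ f = 0 := by
      intro f hf
      have hf0 : f ≠ 0 := by
        rintro rfl
        rw [RatFunc.intDegree_zero] at hf
        omega
      obtain ⟨l, r, hlr, hr⟩ := fun_lead (u := f / t) (by
        rw [RatFunc.intDegree_div hf0 ht0, htd]
        omega)
      have hf1 : f = l • t + t * r := by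
        have h2 : f = t * (f / t) := by rw [mul_div_cancel₀ _ ht0]
        rw [h2, hlr, Algebra.smul_def]
        ring
      rw [hf1, map_add, map_smul, et, smul_zero, zero_add]
      rcases hr with rfl | hr
      · rw [mul_zero, map_zero]
      · have hr0 : r ≠ 0 := by
          rintro rfl
          rw [RatFunc.intDegree_zero] at hr
          omega
        apply elow _ (mul_ne_zero ht0 hr0)
        rw [RatFunc.intDegree_mul ht0 hr0, htd]
        push_cast
        omega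
    obtain ⟨h, hh⟩ := ih θ₁ e0 e1
    refine ⟨h + a • RatFunc.X ^ M, fun f => ?_⟩
    have h2 := hh f
    rw [hθ₁] at h2
    rw [add_mul, map_add, ← h2, smul_mul_assoc, map_smul, smul_eq_mul]
    ring

theorem fun_repr {ρ : RatFunc ℂ →ₗ[ℂ] ℂ} (hρ : IsRho ρ) (θ : RatFunc ℂ →ₗ[ℂ] ℂ)
    (g : Fin 2 → RatFunc ℂ) (hg : ∀ i, g i ≠ 0) (H : ∀ i, ∀ p ∈ SS i, θ (g i * p) = 0) :
    ∃ h : RatFunc ℂ, ∀ f, θ f = ρ (h * f) := by
  have hg0 := hg 0
  have hg1 := hg 1
  have H0 : ∀ p ∈ S0, θ (g 0 * p) = 0 := H 0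
  have H1 : ∀ p ∈ S1, θ (g 1 * p) = 0 := H 1
  set d := (g 1 / g 0).intDegree with hd
  obtain ⟨h, hh⟩ := fun_ind hρ d.natAbs (θ ∘ₗ LinearMap.mulLeft ℂ (g 0)) H0 (by
    intro f hf
    change θ (g 0 * f) = 0
    have hf0 : f ≠ 0 := by
      rintro rfl
      rw [RatFunc.intDegree_zero] at hf
      omega
    have h1 : f / (g 1 / g 0) ∈ S1 := by
      change (f / (g 1 / g 0)).intDegree ≤ 0
      rw [RatFunc.intDegree_div hf0 (div_ne_zero hg1 hg0), ← hd]
      omega
    have h2 := H1 _ h1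
    have h3 : g 1 * (f / (g 1 / g 0)) = g 0 * f := by
      field_simp
    rwa [h3] at h2)
  refine ⟨h / g 0, fun f => ?_⟩
  have h1 := hh (f / g 0)
  change θ (g 0 * (f / g 0)) = _ at h1
  rw [mul_div_cancel₀ _ hg0] at h1
  rw [h1]
  congr 1
  field_simp

end CLF
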