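import Pool.Agent.CLF.FDefs

/-!
# Module Rho: the residue functional exists, and its orthogonality relations

PROOF of `exists_rho`. Every `f : RatFunc ℂ` is `p + r` with `p` a polynomial and `r = 0` or
`intDegree r < 0` (division with remainder of the numerator by the denominator); an `r` of
`intDegree = -1` is `c • X⁻¹ + r'` with `c ≠ 0` and `r' = 0` or `intDegree r' ≤ -2` (`X r` has degree 0;
take `c` = quotient of the leading coefficients of numerator and denominator of `X * r`).  So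
`RatFunc ℂ = N + ℂ X⁻¹` where `N = {p + r' | p polynomial, r' = 0 or intDegree r' ≤ -2}` (a subspace), and
`X⁻¹ ∉ N` (a nonzero polynomial has `intDegree ≥ 0`).  Take a linear functional which is `1` on `X⁻¹` and
`0` on `N` (`Submodule.exists_dual_map_eq_bot_of_notMem` or `Submodule.exists_le_ker_of_notMem`,
rescale).
PROOF of `orth`. `←`: `Sd i` is stable under `SS i` and `ρ` vanishes on `Sd i` (`poly`, resp. `low`:
`f * X^2 ∈ S1` means `intDegree f ≤ -2` or `f = 0`).  `→`, i = 0: write `h = p + r`; if `r ≠ 0`,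
`intDegree r = -k`, `k ≥ 1`, then with `q = X^(k-1)`: `ρ (h q) = ρ (r q) ≠ 0` (`r q` has degree -1).
i = 1: if `h ≠ 0` and `d = intDegree h ≥ -1` take `f = X^(-(d+1)) ∈ S1`: `h f` has degree `-1`.
-/

open Module

namespace CLF

universe u

private theorem Rho_mem0 (x : RatFunc ℂ) : x ∈ S0 ↔ ∃ p : Polynomial ℂ, algebraMap (Polynomial ℂ) (RatFunc ℂ) p = x :=
  Iff.rfl

private theorem Rho_mem1 (x : RatFunc ℂ) : x ∈ S1 ↔ x.intDegree ≤ 0 := Iff.rfl

private theorem Rho_memSd0 (x : RatFunc ℂ) : x ∈ Sd 0 ↔ x ∈ S0 := Iff.rfl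

private theorem Rho_memSd1 (h : RatFunc ℂ) : h ∈ Sd 1 ↔ h = 0 ∨ h.intDegree ≤ -2 := by
  have h1 : h ∈ Sd 1 ↔ (h * RatFunc.X ^ 2).intDegree ≤ 0 := Iff.rfl
  rw [h1]
  by_cases h0 : h = 0
  · simp [h0]
  · have hX : (RatFunc.X : RatFunc ℂ) ≠ 0 := RatFunc.X_ne_zero
    rw [pow_two, RatFunc.intDegree_mul h0 (mul_ne_zero hX hX), RatFunc.intDegree_mul hX hX,
      RatFunc.intDegree_X]
    constructor
    · intro h2
      right
      omega
    · rintro (h2 | h2)
      · exact absurd h2 h0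
      · omega

private theorem Rho_dec (f : RatFunc ℂ) : ∃ p : Polynomial ℂ,
    f - algebraMap (Polynomial ℂ) (RatFunc ℂ) p = 0 ∨
      (f - algebraMap (Polynomial ℂ) (RatFunc ℂ) p ≠ 0 ∧
        (f - algebraMap (Polynomial ℂ) (RatFunc ℂ) p).intDegree < 0) := by
  have hb : f.denom ≠ 0 := f.denom_ne_zero
  have hb' : algebraMap (Polynomial ℂ) (RatFunc ℂ) f.denom ≠ 0 := RatFunc.algebraMap_ne_zero hb
  refine ⟨f.num / f.denom, ?_⟩
  have h1 : f - algebraMap (Polynomial ℂ) (RatFunc ℂ) (f.num / f.denom) =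
      algebraMap (Polynomial ℂ) (RatFunc ℂ) (f.num % f.denom) /
        algebraMap (Polynomial ℂ) (RatFunc ℂ) f.denom := by
    have h2 := EuclideanDomain.div_add_mod f.num f.denom
    have h3 := congrArg (algebraMap (Polynomial ℂ) (RatFunc ℂ)) h2
    rw [map_add, map_mul] at h3
    have h5 : f * algebraMap (Polynomial ℂ) (RatFunc ℂ) f.denom =
        algebraMap (Polynomial ℂ) (RatFunc ℂ) f.num := by
      rw [← eq_div_iff hb']
      exact (RatFunc.num_div_denom f).symm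
    rw [eq_div_iff hb', sub_mul, h5, ← h3]
    ring
  rw [h1]
  by_cases hm : f.num % f.denom = 0
  · left
    rw [hm, map_zero, zero_div]
  · right
    have hm' : algebraMap (Polynomial ℂ) (RatFunc ℂ) (f.num % f.denom) ≠ 0 :=
      RatFunc.algebraMap_ne_zero hm
    refine ⟨div_ne_zero hm' hb', ?_⟩
    rw [RatFunc.intDegree_div hm' hb', RatFunc.intDegree_polynomial, RatFunc.intDegree_polynomial]
    have h4 : (f.num % f.denom).degree < f.denom.degree := Polynomial.degree_mod_lt _ hb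
    have h5 := (Polynomial.natDegree_lt_natDegree_iff hm).2 h4
    omega

private theorem Rho_lead {f : RatFunc ℂ} (hf : f.intDegree = -1) : ∃ c : ℂ, c ≠ 0 ∧
    f - c • (RatFunc.X : RatFunc ℂ)⁻¹ ∈ Sd 1 := by
  have hX : (RatFunc.X : RatFunc ℂ) ≠ 0 := RatFunc.X_ne_zero
  have hf0 : f ≠ 0 := by
    rintro rfl
    rw [RatFunc.intDegree_zero] at hf
    omega
  have hg : (f * RatFunc.X).intDegree = 0 := by
    rw [RatFunc.intDegree_mul hf0 hX, hf, RatFunc.intDegree_X]
    norm_num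
  obtain ⟨p, hp⟩ := Rho_dec (f * RatFunc.X)
  obtain ⟨r, hr⟩ : ∃ r, r = f * RatFunc.X - algebraMap (Polynomial ℂ) (RatFunc ℂ) p := ⟨_, rfl⟩
  rw [← hr] at hp
  have hpr : algebraMap (Polynomial ℂ) (RatFunc ℂ) p = f * RatFunc.X + -r := by
    rw [hr]; ring
  have hp0 : p ≠ 0 := by
    rintro rfl
    rw [map_zero, sub_zero] at hr
    rcases hp with h | ⟨-, h⟩
    · rw [h] at hr
      exact mul_ne_zero hf0 hX hr.symm
    · rw [hr, hg] at h
      omega
  have hp0' : algebraMap (Polynomial ℂ) (RatFunc ℂ) p ≠ 0 := RatFunc.algebraMap_ne_zero hp0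
  have hdeg : p.natDegree = 0 := by
    have h1 : (algebraMap (Polynomial ℂ) (RatFunc ℂ) p).intDegree ≤ 0 := by
      rcases hp with h | ⟨h0, h⟩
      · rw [hpr, h, neg_zero, add_zero, hg]
      · have h2 := RatFunc.intDegree_add_le (x := f * RatFunc.X) (y := -r) (neg_ne_zero.2 h0)
          (by rw [← hpr]; exact hp0')
        rw [← hpr, hg, RatFunc.intDegree_neg] at h2
        exact h2.trans (max_le le_rfl h.le)
    rw [RatFunc.intDegree_polynomial] at h1
    omega
  obtain ⟨c, rfl⟩ : ∃ c : ℂ, Polynomial.C c = p :=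
    ⟨p.coeff 0, (Polynomial.eq_C_of_natDegree_eq_zero hdeg).symm⟩
  have hc : c ≠ 0 := by
    rintro rfl
    exact hp0 (by rw [Polynomial.C_0])
  refine ⟨c, hc, ?_⟩
  have hCc : algebraMap (Polynomial ℂ) (RatFunc ℂ) (Polynomial.C c) = algebraMap ℂ (RatFunc ℂ) c := by
    rw [RatFunc.algebraMap_C]
    rfl
  have h3 : f - c • (RatFunc.X : RatFunc ℂ)⁻¹ = r * (RatFunc.X : RatFunc ℂ)⁻¹ := by
    rw [hr, hCc, Algebra.smul_def]
    field_simp
  rw [Rho_memSd1, h3]
  rcases hp with h | ⟨h0, h⟩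
  · left
    rw [h, zero_mul]
  · right
    rw [RatFunc.intDegree_mul h0 (inv_ne_zero hX), RatFunc.intDegree_inv, RatFunc.intDegree_X]
    omega

private theorem Rho_Xnot : (RatFunc.X : RatFunc ℂ)⁻¹ ∉ Subalgebra.toSubmodule S0 ⊔ Sd 1 := by
  intro h
  have hX : (RatFunc.X : RatFunc ℂ) ≠ 0 := RatFunc.X_ne_zero
  obtain ⟨y, hy, z, hz, hyz⟩ := Submodule.mem_sup.1 h
  obtain ⟨p, rfl⟩ := (Rho_mem0 y).1 hy
  rw [Rho_memSd1] at hz
  have hX1 : ((RatFunc.X : RatFunc ℂ)⁻¹).intDegree = -1 := by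
    rw [RatFunc.intDegree_inv, RatFunc.intDegree_X]
  by_cases hp : p = 0
  · rw [hp, map_zero, zero_add] at hyz
    rcases hz with hz | hz
    · rw [hz] at hyz
      exact inv_ne_zero hX hyz.symm
    · rw [hyz, hX1] at hz
      omega
  · have hp' : algebraMap (Polynomial ℂ) (RatFunc ℂ) p ≠ 0 := RatFunc.algebraMap_ne_zero hp
    have h1 : algebraMap (Polynomial ℂ) (RatFunc ℂ) p = (RatFunc.X : RatFunc ℂ)⁻¹ + -z := by
      rw [← hyz]; ring
    have h2 : (algebraMap (Polynomial ℂ) (RatFunc ℂ) p).intDegree ≤ -1 := by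
      by_cases hz0 : z = 0
      · rw [h1, hz0, neg_zero, add_zero, hX1]
      · have h3 := RatFunc.intDegree_add_le (x := (RatFunc.X : RatFunc ℂ)⁻¹) (y := -z)
          (neg_ne_zero.2 hz0) (by rw [← h1]; exact hp')
        rw [← h1, hX1, RatFunc.intDegree_neg] at h3
        rcases hz with hz | hz
        · exact absurd hz hz0
        · exact h3.trans (max_le le_rfl (by omega))
    rw [RatFunc.intDegree_polynomial] at h2
    omega

theorem exists_rho : ∃ ρ : RatFunc ℂ →ₗ[ℂ] ℂ, IsRho ρ := by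
  obtain ⟨ρ, h1, h2⟩ := Submodule.exists_le_ker_of_notMem Rho_Xnot
  have h3 : ∀ f ∈ Sd 1, ρ f = 0 := fun f hf => by
    have := h2 (Submodule.mem_sup_right hf)
    rwa [LinearMap.mem_ker] at this
  refine ⟨ρ, ⟨fun p hp => ?_, fun f hf => ?_, fun f hf => ?_⟩⟩
  · have := h2 (Submodule.mem_sup_left (show p ∈ Subalgebra.toSubmodule S0 from hp))
    rwa [LinearMap.mem_ker] at this
  · exact h3 f ((Rho_memSd1 f).2 (Or.inr hf))
  · obtain ⟨c, hc, hr⟩ := Rho_lead hf
    have h4 := h3 _ hr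
    rw [map_sub, map_smul, sub_eq_zero] at h4
    rw [h4, smul_eq_mul]
    exact mul_ne_zero hc h1

private theorem Rho_pow {x : RatFunc ℂ} (hx : x ≠ 0) (n : ℕ) :
    (x ^ n).intDegree = n * x.intDegree := by
  induction n with
  | zero => simp
  | succ n ih =>
    rw [pow_succ, RatFunc.intDegree_mul (pow_ne_zero _ hx) hx, ih]
    push_cast
    ring

theorem orth {ρ : RatFunc ℂ →ₗ[ℂ] ℂ} (hρ : IsRho ρ) (i : Fin 2) (h : RatFunc ℂ) :
    (∀ p ∈ SS i, ρ (h * p) = 0) ↔ h ∈ Sd i := by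
  have hX : (RatFunc.X : RatFunc ℂ) ≠ 0 := RatFunc.X_ne_zero
  have hi : i = 0 ∨ i = 1 := by omega
  rcases hi with rfl | rfl
  · have hSS : SS 0 = S0 := rfl
    rw [hSS, Rho_memSd0]
    constructor
    · intro hh
      obtain ⟨p, hp⟩ := Rho_dec h
      obtain ⟨r, hr⟩ : ∃ r, r = h - algebraMap (Polynomial ℂ) (RatFunc ℂ) p := ⟨_, rfl⟩
      rw [← hr] at hp
      rcases hp with h1 | ⟨h1, h2⟩
      · rw [h1] at hr
        exact (Rho_mem0 h).2 ⟨p, (sub_eq_zero.1 hr.symm).symm⟩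
      · exfalso
        obtain ⟨k, hk⟩ : ∃ k : ℕ, r.intDegree = -((k : ℤ) + 1) := ⟨(-r.intDegree - 1).toNat, by omega⟩
        have hq : (RatFunc.X : RatFunc ℂ) ^ k ∈ S0 :=
          (Rho_mem0 _).2 ⟨Polynomial.X ^ k, by rw [map_pow, RatFunc.algebraMap_X]⟩
        have h3 := hh _ hq
        have h4 : h = algebraMap (Polynomial ℂ) (RatFunc ℂ) p + r := by rw [hr]; ring
        rw [h4, add_mul, map_add, hρ.poly _ (S0.mul_mem ((Rho_mem0 _).2 ⟨p, rfl⟩) hq), zero_add] at h3
        refine hρ.one _ ?_ h3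
        rw [RatFunc.intDegree_mul h1 (pow_ne_zero _ hX), Rho_pow hX, hk, RatFunc.intDegree_X]
        ring
    · intro hh p hp
      exact hρ.poly _ (S0.mul_mem hh hp)
  · have hSS : SS 1 = S1 := rfl
    rw [hSS, Rho_memSd1]
    constructor
    · intro hh
      by_contra hcon
      push Not at hcon
      obtain ⟨h0, h1⟩ := hcon
      obtain ⟨k, hk⟩ : ∃ k : ℕ, h.intDegree = (k : ℤ) - 1 := ⟨(h.intDegree + 1).toNat, by omega⟩
      have hX' : ((RatFunc.X : RatFunc ℂ)⁻¹) ≠ 0 := inv_ne_zero hX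
      have hdeg : (((RatFunc.X : RatFunc ℂ)⁻¹) ^ k).intDegree = -(k : ℤ) := by
        rw [Rho_pow hX', RatFunc.intDegree_inv, RatFunc.intDegree_X]
        ring
      have hq : ((RatFunc.X : RatFunc ℂ)⁻¹) ^ k ∈ S1 := by
        rw [Rho_mem1, hdeg]
        omega
      refine hρ.one _ ?_ (hh _ hq)
      rw [RatFunc.intDegree_mul h0 (pow_ne_zero _ hX'), hdeg, hk]
      ring
    · rintro (h0 | h0) p hp
      · rw [h0, zero_mul, map_zero]
      · by_cases hp0 : p = 0
        · rw [hp0, mul_zero, map_zero]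
        · have hh0 : h ≠ 0 := by
            rintro rfl
            rw [RatFunc.intDegree_zero] at h0
            omega
          apply hρ.low
          rw [RatFunc.intDegree_mul hh0 hp0]
          rw [Rho_mem1] at hp
          omega

theorem mem_Sd_one (h : RatFunc ℂ) : h ∈ Sd 1 ↔ h = 0 ∨ h.intDegree ≤ -2 := Rho_memSd1 h

end CLF
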