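import Pool.Agent.CLF.FinS
import Pool.Agent.CLF.Fun
import Pool.Agent.CLF.Rho

/-!
# Module DualS: duality on the line

PROOF. Let `ρ` be a residue functional.  The map `ψ ↦ ρ ∘ ψ` from `H0 (dl Sd M) = {ψ ∈ Dual V | ψ (M i) ≤ Sd i}` to the
functionals on `V` vanishing on `M 0 ⊔ M 1`, i.e. to the dual of `V ⧸ (M 0 ⊔ M 1)`, is a linear
isomorphism: well defined since `ρ (Sd i) = 0` (`orth` with `p = 1`).  Injective: if `ρ (ψ v) = 0` for all `v`,
then `ρ (f ψ v) = 0` for all `f ∈ RatFunc ℂ`, so `ψ v ∈ Sd 0` and `Sd 1` by `orth`, so `ψ v` is a polynomial of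
negative degree, `ψ v = 0`.  Surjective: given `θ : V → ℂ` vanishing on `M 0` and `M 1`, for `v ∈ V` the functional
`f ↦ θ (f v)` vanishes on `(g i) SS i` for suitable `g i ≠ 0` (with `g i • v ∈ M i`; exists since `M i` spans and
`SS i` has fraction field `RatFunc ℂ`), so `fun_repr` gives `h_v` with `θ (f v) = ρ (h_v f)` for all `f`; `h_v` is unique
(as before), hence `v ↦ h_v =: ψ v` is `RatFunc ℂ`-linear; for `e ∈ M i`, `p ∈ SS i`: `ρ (ψ e * p) = θ (p e) = 0`, so
`ψ e ∈ Sd i` by `orth`.  Dimensions: `finrank` of the dual space equals that of the space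
(`Subspace.dual_finrank_eq`, finite dimensional by `fin_SS`).
-/

open Module

namespace CLF

universe u

variable {V : Type u} [AddCommGroup V] [Module ℂ V] [Module (RatFunc ℂ) V]
  [IsScalarTower ℂ (RatFunc ℂ) V] [FiniteDimensional (RatFunc ℂ) V]

private theorem ds_uniq {ρ : RatFunc ℂ →ₗ[ℂ] ℂ} (hρ : IsRho ρ) (h : RatFunc ℂ)
    (H : ∀ f, ρ (h * f) = 0) : h = 0 := by
  have h0 : h ∈ Sd 0 := (orth hρ 0 h).1 fun p _ => H p
  have h1 : h ∈ Sd 1 := (orth hρ 1 h).1 fun p _ => H p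
  rcases (mem_Sd_one h).1 h1 with h2 | h2
  · exact h2
  · exfalso
    obtain ⟨p, hp⟩ : ∃ p : Polynomial ℂ, algebraMap (Polynomial ℂ) (RatFunc ℂ) p = h := h0
    rw [← hp, RatFunc.intDegree_polynomial] at h2
    omega

private theorem ds_stable (M : Lat V) (hM : IsBdl SS M) (i : Fin 2) {p : RatFunc ℂ}
    (hp : p ∈ SS i) {v : V} (hv : v ∈ M i) : p • v ∈ M i := by
  obtain ⟨b, hb⟩ := free_basis M hM i
  rw [hb] at hv ⊢
  intro j
  rw [map_smul, Finsupp.smul_apply, smul_eq_mul]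
  exact mul_mem hp (hv j)

private theorem ds_clear (M : Lat V) (hM : IsBdl SS M) (i : Fin 2) (v : V) :
    ∃ g : RatFunc ℂ, g ≠ 0 ∧ g • v ∈ M i := by
  obtain ⟨b, hb⟩ := free_basis M hM i
  classical
  have := SS_frac i
  obtain ⟨c, hc⟩ := IsLocalization.exist_integer_multiples_of_finset
    (nonZeroDivisors (SS i)) (Finset.univ.image fun j => b.repr v j)
  refine ⟨(c : SS i), ?_, ?_⟩
  · intro h
    have h1 : (c : SS i) ≠ 0 := nonZeroDivisors.coe_ne_zero c
    apply h1
    exact Subtype.ext h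
  · rw [hb]
    intro j
    rw [map_smul, Finsupp.smul_apply, smul_eq_mul]
    obtain ⟨y, hy⟩ := hc (b.repr v j) (Finset.mem_image.2 ⟨j, Finset.mem_univ _, rfl⟩)
    have h2 : ((c : SS i) : RatFunc ℂ) * b.repr v j = (y : RatFunc ℂ) := hy.symm
    rw [h2]
    exact y.2

theorem dual_SS (M : Lat V) (hM : IsBdl SS M) : h1 M = h0 (dl (Sd : Lat (RatFunc ℂ)) M) := by
  obtain ⟨ρ, hρ⟩ := exists_rho
  obtain ⟨-, hfin⟩ := fin_SS M hM
  have hz : ∀ i : Fin 2, ∀ h ∈ Sd i, ρ h = 0 := by
    intro i h hh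
    have := (orth hρ i h).2 hh 1 (one_mem _)
    rwa [mul_one] at this
  let Ψ : H0 (dl (Sd : Lat (RatFunc ℂ)) M) →ₗ[ℂ] (M 0 ⊔ M 1).dualAnnihilator :=
    { toFun := fun ψ => ⟨ρ ∘ₗ ((ψ : Dual (RatFunc ℂ) V).restrictScalars ℂ), by
        rw [Submodule.mem_dualAnnihilator]
        intro w hw
        obtain ⟨x, hx, y, hy, rfl⟩ := Submodule.mem_sup.1 hw
        rw [map_add]
        have h0 : ((ψ : Dual (RatFunc ℂ) V)) x ∈ Sd 0 := ψ.2.1 x hx
        have h1 : ((ψ : Dual (RatFunc ℂ) V)) y ∈ Sd 1 := ψ.2.2 y hy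
        have e0 := hz 0 _ h0
        have e1 := hz 1 _ h1
        simp only [LinearMap.coe_comp, Function.comp_apply, LinearMap.coe_restrictScalars]
        rw [e0, e1, add_zero]⟩
      map_add' := by
        intro a b
        apply Subtype.ext
        ext v
        simp
      map_smul' := by
        intro c a
        apply Subtype.ext
        ext v
        simp }
  have hinj : Function.Injective Ψ := by
    rw [injective_iff_map_eq_zero]
    intro ψ hψ
    apply Subtype.ext
    rw [ZeroMemClass.coe_zero]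
    ext v
    rw [LinearMap.zero_apply]
    apply ds_uniq hρ
    intro f
    have h1 : (Ψ ψ : Dual ℂ V) (f • v) = 0 := by rw [hψ]; rfl
    have h2 : (Ψ ψ : Dual ℂ V) (f • v) = ρ ((ψ : Dual (RatFunc ℂ) V) (f • v)) := rfl
    rw [h2, map_smul, smul_eq_mul] at h1
    rw [mul_comm]
    exact h1
  have hsur : Function.Surjective Ψ := by
    intro θ
    have hθ : ∀ w ∈ M 0 ⊔ M 1, (θ : Dual ℂ V) w = 0 := (Submodule.mem_dualAnnihilator _).1 θ.2
    have hmem : ∀ i, ∀ w ∈ M i, (θ : Dual ℂ V) w = 0 := by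
      intro i w hw
      apply hθ
      fin_cases i
      · exact Submodule.mem_sup_left hw
      · exact Submodule.mem_sup_right hw
    have hex : ∀ v : V, ∃ h : RatFunc ℂ, ∀ f : RatFunc ℂ, (θ : Dual ℂ V) (f • v) = ρ (h * f) := by
      intro v
      choose g hg hgv using fun i => ds_clear M hM i v
      let θv : RatFunc ℂ →ₗ[ℂ] ℂ := (θ : Dual ℂ V) ∘ₗ
        ((LinearMap.toSpanSingleton (RatFunc ℂ) V v).restrictScalars ℂ)
      have hθv : ∀ f, θv f = (θ : Dual ℂ V) (f • v) := fun f => rfl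
      obtain ⟨h, hh⟩ := fun_repr hρ θv g hg (by
        intro i p hp
        rw [hθv]
        apply hmem i
        rw [mul_comm, mul_smul]
        exact ds_stable M hM i hp (hgv i))
      exact ⟨h, fun f => by rw [← hθv, hh]⟩
    choose h hh using hex
    have hadd : ∀ v w, h (v + w) = h v + h w := by
      intro v w
      rw [← sub_eq_zero]
      apply ds_uniq hρ
      intro f
      rw [sub_mul, add_mul, map_sub, map_add, ← hh, ← hh, ← hh, smul_add, map_add, sub_self]
    have hsm : ∀ (c : RatFunc ℂ) (v), h (c • v) = c * h v := by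
      intro c v
      rw [← sub_eq_zero]
      apply ds_uniq hρ
      intro f
      have e1 : c * h v * f = h v * (f * c) := by ring
      rw [sub_mul, map_sub, e1, ← hh, ← hh, mul_smul, sub_self]
    let ψ : Dual (RatFunc ℂ) V :=
      { toFun := h
        map_add' := hadd
        map_smul' := fun c v => by
          rw [hsm]; rfl }
    have hψ : ∀ i, ∀ e ∈ M i, ψ e ∈ Sd i := by
      intro i e he
      rw [← orth hρ]
      intro p hp
      have h1 : ρ (ψ e * p) = (θ : Dual ℂ V) (p • e) := (hh e p).symm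
      rw [h1]
      exact hmem i _ (ds_stable M hM i hp he)
    refine ⟨⟨ψ, hψ 0, hψ 1⟩, ?_⟩
    apply Subtype.ext
    ext v
    have h1 : (θ : Dual ℂ V) ((1 : RatFunc ℂ) • v) = ρ (h v * 1) := hh v 1
    rw [one_smul, mul_one] at h1
    exact h1.symm
  have e := LinearEquiv.ofBijective Ψ ⟨hinj, hsur⟩
  unfold h1 h0
  rw [e.finrank_eq, ← (Submodule.dualQuotEquivDualAnnihilator (M 0 ⊔ M 1)).finrank_eq,
    Subspace.dual_finrank_eq]

end CLF
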