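import Pool.Agent.CLF.Good

/-!
# FDefs: definitions for the function field part (nothing to prove)

`Sd 0 = ` polynomials, `Sd 1 = X⁻² S1` (differentials on the line, trivialised by `dX`).
`IsRho ρ`: `ρ` behaves like the coefficient of `X⁻¹` of the Laurent expansion at infinity.
-/

open Module

namespace CLF

universe u

/-- the canonical pair of the projective line -/
noncomputable def Sd : Fin 2 → Submodule ℂ (RatFunc ℂ) :=
  ![Subalgebra.toSubmodule S0,
    (Subalgebra.toSubmodule S1).comap (LinearMap.mulRight ℂ (RatFunc.X ^ 2))]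

/-- residue functionals at infinity -/
structure IsRho (ρ : RatFunc ℂ →ₗ[ℂ] ℂ) : Prop where
  poly : ∀ p ∈ S0, ρ p = 0
  low : ∀ f : RatFunc ℂ, f.intDegree ≤ -2 → ρ f = 0
  one : ∀ f : RatFunc ℂ, f.intDegree = -1 → ρ f ≠ 0

/-- the canonical pair of `F` attached to a functional `lam : F → RatFunc ℂ` -/
def Kx (F : Type u) [Field F] [Algebra ℂ F] [Algebra (RatFunc ℂ) F]
    [IsScalarTower ℂ (RatFunc ℂ) F] (lam : F →ₗ[RatFunc ℂ] RatFunc ℂ) : Lat F := fun i =>
  { carrier := {h | ∀ r ∈ rings F i, lam (h * r) ∈ Sd i}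
    add_mem' := fun {a b} ha hb r hr => by
      rw [add_mul, map_add]
      exact (Sd i).add_mem (ha r hr) (hb r hr)
    zero_mem' := fun r _ => by simp
    smul_mem' := fun c a ha r hr => by
      have h1 : lam (c • a * r) = c • lam (a * r) := by
        rw [smul_mul_assoc]
        have h2 : c • (a * r) = (algebraMap ℂ (RatFunc ℂ) c) • (a * r) := by
          rw [algebraMap_smul]
        rw [h2, map_smul, algebraMap_smul]
      rw [h1]
      exact (Sd i).smul_mem c (ha r hr) }

end CLF
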