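import Pool.Agent.CLF.FreeB

/-!
# Module FinS: finite dimensional cohomology on the line

PROOF. Let `b` be a basis for `M 1` (`free_basis` i = 1) and consider `M 0`.  There is `g ≠ 0` in `RatFunc ℂ` with
`g • ⊕ S0 b_j ≤ M 0 ≤ g⁻¹ • ⊕ S0 b_j`-type inclusions: for a basis `b'` for `M 0` (`free_basis` i = 0), write
`b'_k = ∑ c_kj b_j` and `b_j = ∑ d_jk b'_k`, and take a polynomial `g ≠ 0` with all `g c_kj`, `g d_jk` in `S0`.
`H0 M = M 0 ∩ M 1 ≤ ⊕ (g⁻¹ S0 ∩ S1) b_j`, and `g⁻¹ S0 ∩ S1 = {p/g | natDegree p ≤ natDegree g}` is finite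
dimensional.  `V / (M 0 + M 1)` is a quotient of `⊕ (RatFunc ℂ / (g S0 + S1)) b_j`, and
`RatFunc ℂ = S0 + S1` (polynomial part), so `RatFunc ℂ/(g S0 + S1)` is spanned by `1, X, ..., X^(deg g - 1)`.
-/

open Module

namespace CLF

universe u

variable {V : Type u} [AddCommGroup V] [Module ℂ V] [Module (RatFunc ℂ) V]
  [IsScalarTower ℂ (RatFunc ℂ) V] [FiniteDimensional (RatFunc ℂ) V]

private theorem fs_S0 (f : RatFunc ℂ) :
    f ∈ S0 ↔ ∃ p : Polynomial ℂ, algebraMap (Polynomial ℂ) (RatFunc ℂ) p = f := by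
  constructor
  · rintro ⟨p, hp⟩
    exact ⟨p, hp⟩
  · rintro ⟨p, hp⟩
    exact ⟨p, hp⟩

private theorem fs_S1 (f : RatFunc ℂ) : f ∈ S1 ↔ f.intDegree ≤ 0 := Iff.rfl

private theorem fs_split (f : RatFunc ℂ) :
    ∃ p : Polynomial ℂ, ∃ s ∈ S1, f = algebraMap (Polynomial ℂ) (RatFunc ℂ) p + s := by
  refine ⟨f.num / f.denom, algebraMap _ _ (f.num % f.denom) / algebraMap _ _ f.denom, ?_, ?_⟩
  · have hd : f.denom ≠ 0 := f.denom_ne_zero
    have hd' : algebraMap (Polynomial ℂ) (RatFunc ℂ) f.denom ≠ 0 := RatFunc.algebraMap_ne_zero hd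
    rw [fs_S1]
    by_cases h : f.num % f.denom = 0
    · rw [h]; simp
    · rw [RatFunc.intDegree_div (RatFunc.algebraMap_ne_zero h) hd',
        RatFunc.intDegree_polynomial, RatFunc.intDegree_polynomial]
      have h1 : (f.num % f.denom).degree < f.denom.degree := Polynomial.degree_mod_lt _ hd
      have h2 := Polynomial.natDegree_lt_natDegree h h1
      omega
  · have hd : f.denom ≠ 0 := f.denom_ne_zero
    have hd' : algebraMap (Polynomial ℂ) (RatFunc ℂ) f.denom ≠ 0 := RatFunc.algebraMap_ne_zero hd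
    have h1 : f.num = f.denom * (f.num / f.denom) + f.num % f.denom :=
      (EuclideanDomain.div_add_mod _ _).symm
    conv_lhs => rw [← RatFunc.num_div_denom f, h1]
    rw [map_add, map_mul]
    field_simp

/-- a common denominator -/
private theorem fs_den {ι : Type*} (s : Finset ι) (c : ι → RatFunc ℂ) :
    ∃ g : Polynomial ℂ, g ≠ 0 ∧
      ∀ i ∈ s, algebraMap (Polynomial ℂ) (RatFunc ℂ) g * c i ∈ S0 := by
  classical
  induction s using Finset.induction_on with
  | empty => exact ⟨1, one_ne_zero, by simp⟩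
  | insert a s ha ih =>
    obtain ⟨g, hg, h⟩ := ih
    refine ⟨(c a).denom * g, mul_ne_zero (c a).denom_ne_zero hg, ?_⟩
    intro i hi
    rcases Finset.mem_insert.1 hi with rfl | hi
    · have hd' : algebraMap (Polynomial ℂ) (RatFunc ℂ) (c i).denom ≠ 0 :=
        RatFunc.algebraMap_ne_zero (c i).denom_ne_zero
      have h1 : algebraMap (Polynomial ℂ) (RatFunc ℂ) ((c i).denom * g) * c i =
          algebraMap (Polynomial ℂ) (RatFunc ℂ) (g * (c i).num) := by
        conv_lhs => rw [← RatFunc.num_div_denom (c i)]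
        rw [RatFunc.num_div_denom, map_mul, map_mul]
        conv_lhs =>
          enter [2]
          rw [← RatFunc.num_div_denom (c i)]
        field_simp
      rw [h1]
      exact (fs_S0 _).2 ⟨_, rfl⟩
    · have h1 : algebraMap (Polynomial ℂ) (RatFunc ℂ) ((c a).denom * g) * c i =
          algebraMap (Polynomial ℂ) (RatFunc ℂ) ((c a).denom) *
            (algebraMap (Polynomial ℂ) (RatFunc ℂ) g * c i) := by
        rw [map_mul]; ring
      rw [h1]
      exact mul_mem ((fs_S0 _).2 ⟨_, rfl⟩) (h i hi)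

omit [Module ℂ V] [IsScalarTower ℂ (RatFunc ℂ) V] [FiniteDimensional (RatFunc ℂ) V] in
/-- comparison of two bases -/
private theorem fs_cmp {n : ℕ} (b b' : Basis (Fin n) (RatFunc ℂ) V) :
    ∃ g : Polynomial ℂ, g ≠ 0 ∧ ∀ v : V, (∀ j, b.repr v j ∈ S0) →
      ∀ k, algebraMap (Polynomial ℂ) (RatFunc ℂ) g * b'.repr v k ∈ S0 := by
  obtain ⟨g, hg, h⟩ := fs_den (Finset.univ : Finset (Fin n × Fin n))
    (fun q => b'.repr (b q.1) q.2)
  refine ⟨g, hg, ?_⟩
  intro v hv k
  have h1 : b'.repr v k = ∑ j, b.repr v j * b'.repr (b j) k := by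
    conv_lhs => rw [← b.sum_repr v]
    rw [map_sum, Finsupp.finsetSum_apply]
    refine Finset.sum_congr rfl fun j _ => ?_
    rw [map_smul, Finsupp.smul_apply, smul_eq_mul]
  rw [h1, Finset.mul_sum]
  refine sum_mem fun j _ => ?_
  have h2 : algebraMap (Polynomial ℂ) (RatFunc ℂ) g * (b.repr v j * b'.repr (b j) k) =
      b.repr v j * (algebraMap (Polynomial ℂ) (RatFunc ℂ) g * b'.repr (b j) k) := by ring
  rw [h2]
  exact mul_mem (hv j) (h (j, k) (Finset.mem_univ _))

/-- polynomials of bounded degree, inside the rational functions -/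
private noncomputable def fsD (N : ℕ) : Submodule ℂ (RatFunc ℂ) :=
  (Polynomial.degreeLT ℂ N).map
    ((Algebra.linearMap (Polynomial ℂ) (RatFunc ℂ)).restrictScalars ℂ)

private instance fsD_fin (N : ℕ) : Module.Finite ℂ (fsD N) := by
  unfold fsD
  infer_instance

private theorem fsD_mem {N : ℕ} {p : Polynomial ℂ} (hp : p.degree < (N : ℕ)) :
    algebraMap (Polynomial ℂ) (RatFunc ℂ) p ∈ fsD N := by
  unfold fsD
  exact ⟨p, Polynomial.mem_degreeLT.2 hp, rfl⟩

theorem fin_SS (M : Lat V) (hM : IsBdl SS M) :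
    FiniteDimensional ℂ (H0 M) ∧ FiniteDimensional ℂ (V ⧸ (M 0 ⊔ M 1)) := by
  obtain ⟨b, hb⟩ := free_basis M hM 0
  obtain ⟨b', hb'⟩ := free_basis M hM 1
  have hb0 : ∀ v, v ∈ M 0 ↔ ∀ j, b.repr v j ∈ S0 := hb
  have hb1 : ∀ v, v ∈ M 1 ↔ ∀ j, b'.repr v j ∈ S1 := hb'
  clear hb hb'
  constructor
  · obtain ⟨g, hg, h⟩ := fs_cmp b b'
    have hg' : algebraMap (Polynomial ℂ) (RatFunc ℂ) g ≠ 0 := RatFunc.algebraMap_ne_zero hg
    have key : ∀ v ∈ H0 M, ∀ k, algebraMap (Polynomial ℂ) (RatFunc ℂ) g * b'.repr v k ∈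
        fsD (g.natDegree + 1) := by
      intro v hv k
      have hv0 : v ∈ M 0 := hv.1
      have hv1 : v ∈ M 1 := hv.2
      have h1 := h v ((hb0 v).1 hv0) k
      have h2 := (hb1 v).1 hv1 k
      obtain ⟨p, hp⟩ := (fs_S0 _).1 h1
      rw [← hp]
      refine fsD_mem ?_
      by_cases hz : b'.repr v k = 0
      · have : p = 0 := by
          rw [hz, mul_zero] at hp
          exact (map_eq_zero_iff _ (RatFunc.algebraMap_injective ℂ)).1 hp
        rw [this, Polynomial.degree_zero]
        exact WithBot.bot_lt_coe _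
      · have h3 : (algebraMap (Polynomial ℂ) (RatFunc ℂ) p).intDegree ≤ g.natDegree := by
          rw [hp, RatFunc.intDegree_mul hg' hz, RatFunc.intDegree_polynomial]
          have := (fs_S1 _).1 h2
          omega
        rw [RatFunc.intDegree_polynomial] at h3
        have h4 : p.natDegree < g.natDegree + 1 := by omega
        refine lt_of_le_of_lt Polynomial.degree_le_natDegree ?_
        exact_mod_cast h4
    let Φ : H0 M →ₗ[ℂ] (Fin (finrank (RatFunc ℂ) V) → fsD (g.natDegree + 1)) :=
      { toFun := fun v k => ⟨_, key v.1 v.2 k⟩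
        map_add' := by
          intro v w
          funext k
          apply Subtype.ext
          simp [mul_add]
        map_smul' := by
          intro c v
          funext k
          apply Subtype.ext
          have h5 : b'.repr (c • (v : V)) k = c • b'.repr (v : V) k := by
            have : c • (v : V) = (algebraMap ℂ (RatFunc ℂ) c) • (v : V) := by
              rw [algebraMap_smul]
            rw [this, map_smul, Finsupp.smul_apply, algebraMap_smul]
          simp only [RingHom.id_apply, Pi.smul_apply, SetLike.val_smul]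
          rw [h5, mul_smul_comm] }
    refine Module.Finite.of_injective Φ ?_
    rw [injective_iff_map_eq_zero]
    intro v hv
    apply Subtype.ext
    rw [ZeroMemClass.coe_zero]
    apply b'.repr.injective
    rw [map_zero]
    ext k
    have h6 : algebraMap (Polynomial ℂ) (RatFunc ℂ) g * b'.repr v.1 k = 0 :=
      congrArg Subtype.val (congrFun hv k)
    rw [Finsupp.zero_apply]
    exact (mul_eq_zero.1 h6).resolve_left hg'
  · obtain ⟨g, hg, h⟩ := fs_cmp b' b
    have hg' : algebraMap (Polynomial ℂ) (RatFunc ℂ) g ≠ 0 := RatFunc.algebraMap_ne_zero hg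
    -- vectors with coordinates in `g S0` are in `M 0`
    have hM0 : ∀ (p : Polynomial ℂ) (j), algebraMap (Polynomial ℂ) (RatFunc ℂ) (g * p) • b' j ∈
        M 0 := by
      intro p j
      rw [hb0]
      intro k
      rw [map_smul, Finsupp.smul_apply, smul_eq_mul, map_mul]
      have h1 : ∀ i, b'.repr (b' j) i ∈ S0 := by
        intro i
        rw [Basis.repr_self]
        by_cases hij : j = i
        · subst hij
          rw [Finsupp.single_eq_same]; exact one_mem _
        · rw [Finsupp.single_eq_of_ne (Ne.symm hij)]; exact zero_mem _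
      have h2 := h (b' j) h1 k
      have h3 : algebraMap (Polynomial ℂ) (RatFunc ℂ) g *
          algebraMap (Polynomial ℂ) (RatFunc ℂ) p * b.repr (b' j) k =
          algebraMap (Polynomial ℂ) (RatFunc ℂ) p *
          (algebraMap (Polynomial ℂ) (RatFunc ℂ) g * b.repr (b' j) k) := by ring
      rw [h3]
      exact mul_mem ((fs_S0 _).2 ⟨_, rfl⟩) h2
    have hM1 : ∀ (s : RatFunc ℂ) (j), s ∈ S1 → s • b' j ∈ M 1 := by
      intro s j hs
      rw [hb1]
      intro k
      rw [map_smul, Finsupp.smul_apply, smul_eq_mul, Basis.repr_self]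
      by_cases hij : j = k
      · subst hij
        rw [Finsupp.single_eq_same, mul_one]; exact hs
      · rw [Finsupp.single_eq_of_ne (Ne.symm hij), mul_zero]; exact zero_mem _
    let T : (Fin (finrank (RatFunc ℂ) V) → fsD (g.natDegree + 1)) →ₗ[ℂ] V :=
      { toFun := fun c => ∑ j, (c j : RatFunc ℂ) • b' j
        map_add' := by
          intro v w
          simp [add_smul, Finset.sum_add_distrib]
        map_smul' := by
          intro c v
          simp [Finset.smul_sum] }
    let Q := (M 0 ⊔ M 1)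
    refine Module.Finite.of_surjective (Q.mkQ ∘ₗ T) ?_
    intro y
    obtain ⟨v, rfl⟩ := Q.mkQ_surjective y
    have hdec : ∀ f : RatFunc ℂ, ∃ r : fsD (g.natDegree + 1), ∃ p : Polynomial ℂ, ∃ s ∈ S1,
        f = algebraMap (Polynomial ℂ) (RatFunc ℂ) (g * p) + r + s := by
      intro f
      obtain ⟨q, s, hs, hf⟩ := fs_split f
      refine ⟨⟨algebraMap _ _ (q % g), fsD_mem ?_⟩, q / g, s, hs, ?_⟩
      · have h1 : (q % g).degree < g.degree := Polynomial.degree_mod_lt _ hg
        refine h1.trans_le ?_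
        rw [Polynomial.degree_eq_natDegree hg]
        exact_mod_cast Nat.le_succ _
      · rw [hf]
        conv_lhs => rw [← EuclideanDomain.div_add_mod q g]
        rw [map_add]
    choose r p s hs hf using fun j => hdec (b'.repr v j)
    refine ⟨r, ?_⟩
    simp only [LinearMap.coe_comp, Function.comp_apply]
    symm
    rw [← sub_eq_zero, ← map_sub, Submodule.mkQ_apply, Submodule.Quotient.mk_eq_zero]
    have h7 : v - T r = ∑ j, (algebraMap (Polynomial ℂ) (RatFunc ℂ) (g * p j) • b' j) +
        ∑ j, s j • b' j := by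
      have h8 : T r = ∑ j, (r j : RatFunc ℂ) • b' j := rfl
      rw [h8]
      conv_lhs => rw [← b'.sum_repr v]
      rw [← Finset.sum_sub_distrib, ← Finset.sum_add_distrib]
      refine Finset.sum_congr rfl fun j _ => ?_
      rw [← sub_smul, ← add_smul]
      congr 1
      conv_lhs => rw [hf j]
      ring
    rw [h7]
    exact Submodule.add_mem_sup (sum_mem fun j _ => hM0 _ j) (sum_mem fun j _ => hM1 _ j (hs j))

end CLF
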