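import Pool.Agent.CLF.FDefs

/-!
# Module Lam: functionals over `F` and over `RatFunc ℂ`

`V` is an `F`-space, hence a `RatFunc ℂ`-space.  `lam : F → RatFunc ℂ` nonzero and `RatFunc ℂ`-linear.
PROOF. The map `Dual F V → Dual (RatFunc ℂ) V`, `φ ↦ lam ∘ φ` is `RatFunc ℂ`-linear and injective: if
`φ ≠ 0` then `φ` is onto `F` and `lam ∘ φ ≠ 0`.  Both sides have the same dimension over `RatFunc ℂ`:
`finrank (RatFunc ℂ) F * finrank F V` (`Module.finrank_mul_finrank`, `Subspace.dual_finrank_eq`).
So it is bijective.  `exists_lam`: a nonzero vector space has a nonzero functional.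
-/

open Module

namespace CLF

universe u

variable (F : Type u) [Field F] [Algebra ℂ F] [Algebra (RatFunc ℂ) F]
  [IsScalarTower ℂ (RatFunc ℂ) F] [FiniteDimensional (RatFunc ℂ) F]

theorem exists_lam : ∃ lam : F →ₗ[RatFunc ℂ] RatFunc ℂ, lam ≠ 0 := by
  by_contra hcon
  push Not at hcon
  have h := (Module.forall_dual_apply_eq_zero_iff (RatFunc ℂ) (1 : F)).1 (fun φ => by
    rw [hcon φ]
    rfl)
  exact one_ne_zero h

theorem comp_bij {V : Type u} [AddCommGroup V] [Module ℂ V] [Module F V] [IsScalarTower ℂ F V]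
    [FiniteDimensional F V] [Module (RatFunc ℂ) V] [IsScalarTower ℂ (RatFunc ℂ) V]
    [IsScalarTower (RatFunc ℂ) F V] (lam : F →ₗ[RatFunc ℂ] RatFunc ℂ) (hlam : lam ≠ 0) :
    Function.Bijective (fun φ : Dual F V =>
      (lam ∘ₗ (φ.restrictScalars (RatFunc ℂ)) : Dual (RatFunc ℂ) V)) := by
  let L : Dual F V →ₗ[RatFunc ℂ] Dual (RatFunc ℂ) V :=
    { toFun := fun φ => lam ∘ₗ (φ.restrictScalars (RatFunc ℂ))
      map_add' := fun a b => by
        ext v
        change lam ((a + b) v) = lam (a v) + lam (b v)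
        rw [LinearMap.add_apply, map_add]
      map_smul' := fun c a => by
        ext v
        change lam ((c • a) v) = c • lam (a v)
        rw [LinearMap.smul_apply, map_smul] }
  have hinj : Function.Injective L := by
    rw [injective_iff_map_eq_zero]
    intro φ hφ
    by_contra hne
    apply hlam
    obtain ⟨v, hv⟩ : ∃ v, φ v ≠ 0 := by
      by_contra hcon
      push Not at hcon
      exact hne (LinearMap.ext hcon)
    ext x
    have h1 := LinearMap.congr_fun hφ ((x * (φ v)⁻¹) • v)
    change lam (φ ((x * (φ v)⁻¹) • v)) = 0 at h1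
    rw [map_smul, smul_eq_mul, inv_mul_cancel_right₀ hv] at h1
    rw [h1]
    rfl
  have hfd : FiniteDimensional (RatFunc ℂ) V := FiniteDimensional.trans (RatFunc ℂ) F V
  have hfd2 : FiniteDimensional (RatFunc ℂ) (Dual F V) := FiniteDimensional.trans (RatFunc ℂ) F (Dual F V)
  have hrank : finrank (RatFunc ℂ) (Dual F V) = finrank (RatFunc ℂ) (Dual (RatFunc ℂ) V) := by
    rw [Subspace.dual_finrank_eq, ← Module.finrank_mul_finrank (RatFunc ℂ) F (Dual F V),
      Subspace.dual_finrank_eq, Module.finrank_mul_finrank]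
  exact ⟨hinj, (LinearMap.injective_iff_surjective_of_finrank_eq_finrank hrank).1 hinj⟩

end CLF
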