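import Pool.Agent.CLF.FreeB
import Pool.Agent.CLF.Rho

/-!
# Module ReflS: reflexivity on the line

PROOF. Take the basis `b` of `free_basis` for `i`, `g_0 = 1`, `g_1 = X⁻²`; `Sd i = g_i SS i`.  The functional
`φ_j := g_i • b.coord j` lies in `dl Sd M i`, so `φ_j v = g_i * (b.repr v j) ∈ Sd i = g_i SS i`, hence
`b.repr v j ∈ SS i` for all `j` and `v ∈ M i`.
-/

open Module

namespace CLF

universe u

variable {V : Type u} [AddCommGroup V] [Module ℂ V] [Module (RatFunc ℂ) V]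
  [IsScalarTower ℂ (RatFunc ℂ) V] [FiniteDimensional (RatFunc ℂ) V]

private theorem exists_g (i : Fin 2) : ∃ g : RatFunc ℂ, ∀ y, g * y ∈ Sd i ↔ y ∈ SS i := by
  have hX : (RatFunc.X : RatFunc ℂ) ≠ 0 := RatFunc.X_ne_zero
  match i with
  | 0 => exact ⟨1, fun y => by simp [Sd, SS]⟩
  | 1 =>
    refine ⟨(RatFunc.X ^ 2)⁻¹, fun y => ?_⟩
    have h : (RatFunc.X ^ 2 : RatFunc ℂ)⁻¹ * y * RatFunc.X ^ 2 = y := by
      field_simp
    simp only [Sd, SS, Matrix.cons_val_one, Matrix.cons_val_fin_one, Submodule.mem_comap,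
      LinearMap.mulRight_apply, Subalgebra.mem_toSubmodule]
    rw [h]

theorem refl_SS (M : Lat V) (hM : IsBdl SS M) (i : Fin 2) (v : V)
    (H : ∀ φ ∈ dl (Sd : Lat (RatFunc ℂ)) M i, φ v ∈ Sd i) : v ∈ M i := by
  obtain ⟨b, hb⟩ := free_basis M hM i
  obtain ⟨g, hg⟩ := exists_g i
  refine (hb v).2 fun j => ?_
  have h := H (g • b.coord j) (by
    intro e he
    have h1 := (hb e).1 he j
    have h2 : (g • b.coord j) e = g * b.repr e j := by simp
    rw [h2]
    exact (hg _).2 h1)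
  have h2 : (g • b.coord j) v = g * b.repr v j := by simp
  rw [h2] at h
  exact (hg _).1 h

end CLF
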