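import Pool.Agent.CLF.Ded

/-!
# Module Res: residue fields are ℂ; constants; the rings are not fields

PROOFS.
`resid_rings`: `k := rings F i ⧸ P` is a field, integral over the image of `SS i`.  The contraction
`p = P ∩ SS i` is a maximal ideal of `SS i` (integral extension, `Ideal.isMaximal_comap_of_isIntegral_of_isMaximal`).
Every element of `SS i` is congruent to a constant mod `p`: for `i = 0` a maximal ideal of `S0 ≅ ℂ[X]` is
generated by some `X - a` (irreducible polynomials over ℂ have degree one); for `i = 1` the only maximal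
ideal of `S1` is `{f | f = 0 or intDegree f < 0}` and `f ∈ S1` is a constant plus such an element.
So `k` is integral (algebraic) over ℂ and `ℂ → k` is onto (`IsAlgClosed.algebraMap_surjective_of_isIntegral`
or similar).
`const_rings`: `y ∈ rings F 0 ⊓ rings F 1`: the minimal polynomial of `y` over `RatFunc ℂ` has
coefficients in `S0` and in `S1` (integrally closed rings: `minpoly.isIntegrallyClosed_eq_field_fractions`),
`S0 ⊓ S1 = ℂ`, so `y` is algebraic over ℂ and lies in the image of ℂ.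
(Alternative: `y` integral over `S0` and `S1`.)
`nonfield_rings`: `i = 0`: `x = X`; `X⁻¹ ∈ rings F 0` would be integral over the integrally closed `S0` and in
`RatFunc ℂ`, so in `S0`: no (`intDegree = -1 < 0`).  `i = 1`: `x = X⁻¹`, `X ∉ S1`.
-/

open Module

namespace CLF

universe u

section ResPrivate

open Polynomial

private theorem res_mem0 (f : RatFunc ℂ) : f ∈ SS 0 ↔ ∃ p : ℂ[X], algebraMap ℂ[X] (RatFunc ℂ) p = f :=
  Iff.rfl

private theorem res_mem1 (f : RatFunc ℂ) : f ∈ SS 1 ↔ f.intDegree ≤ 0 := Iff.rfl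

/-- polynomials have degree `≥ 0` -/
private theorem res_intDegree (p : ℂ[X]) :
    (algebraMap ℂ[X] (RatFunc ℂ) p).intDegree = p.natDegree := RatFunc.intDegree_polynomial

/-- a rational function of degree `0` is a constant plus something of negative degree -/
private theorem res_const (f : RatFunc ℂ) (hf : f.intDegree ≤ 0) :
    ∃ c : ℂ, f - algebraMap ℂ (RatFunc ℂ) c = 0 ∨ (f - algebraMap ℂ (RatFunc ℂ) c).intDegree < 0 := by
  by_cases hf0 : f = 0
  · exact ⟨0, Or.inl (by rw [hf0, map_zero, sub_zero])⟩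
  rcases lt_or_eq_of_le hf with h | h
  · exact ⟨0, Or.inr (by rwa [map_zero, sub_zero])⟩
  -- degree zero
  have hn0 : f.num ≠ 0 := RatFunc.num_ne_zero hf0
  have hd0 : f.denom ≠ 0 := RatFunc.denom_ne_zero f
  have hdeg : f.num.natDegree = f.denom.natDegree := by
    unfold RatFunc.intDegree at h
    omega
  obtain ⟨c, hc⟩ : ∃ c : ℂ, c = f.num.leadingCoeff / f.denom.leadingCoeff := ⟨_, rfl⟩
  refine ⟨c, ?_⟩
  have hl : f.denom.leadingCoeff ≠ 0 := leadingCoeff_ne_zero.2 hd0
  have hdA : algebraMap ℂ[X] (RatFunc ℂ) f.denom ≠ 0 := RatFunc.algebraMap_ne_zero hd0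
  have hfe : f - algebraMap ℂ (RatFunc ℂ) c =
      algebraMap ℂ[X] (RatFunc ℂ) (f.num - Polynomial.C c * f.denom) /
        algebraMap ℂ[X] (RatFunc ℂ) f.denom := by
    rw [map_sub, map_mul, sub_div, mul_div_cancel_right₀ _ hdA, RatFunc.num_div_denom]
    rfl
  by_cases hz : f.num - Polynomial.C c * f.denom = 0
  · left
    rw [hfe, hz, map_zero, zero_div]
  · right
    have hc0 : c ≠ 0 := by
      rw [hc]
      exact div_ne_zero (leadingCoeff_ne_zero.2 hn0) hl
    have hlt : (f.num - Polynomial.C c * f.denom).degree < f.num.degree := by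
      apply degree_sub_lt_left
      · rw [degree_C_mul hc0, degree_eq_natDegree hn0, degree_eq_natDegree hd0, hdeg]
      · exact hn0
      · rw [leadingCoeff_mul, leadingCoeff_C, hc, div_mul_cancel₀ _ hl]
    have hlt' : (f.num - Polynomial.C c * f.denom).natDegree < f.denom.natDegree := by
      rw [← hdeg]
      exact natDegree_lt_natDegree hz hlt
    rw [hfe, RatFunc.intDegree_div (RatFunc.algebraMap_ne_zero hz) hdA, res_intDegree,
      res_intDegree]
    omega

/-- residue fields of the line are `ℂ` -/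
private theorem res_line0 (p : Ideal (SS 0)) (hp : p.IsMaximal) (f : SS 0) :
    ∃ c : ℂ, f - algebraMap ℂ (SS 0) c ∈ p := by
  · -- polynomials: Nullstellensatz
    let φ : ℂ[X] →ₐ[ℂ] (SS 0) := ((Algebra.ofId (Polynomial ℂ) (RatFunc ℂ)).restrictScalars ℂ).rangeRestrict
    have hφ : Function.Surjective φ := AlgHom.rangeRestrict_surjective _
    have hft : Algebra.FiniteType ℂ (SS 0) := Algebra.FiniteType.of_surjective φ hφ
    let _ : Field ((SS 0) ⧸ p) := Ideal.Quotient.field p
    have hft2 : Algebra.FiniteType ℂ ((SS 0) ⧸ p) :=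
      Algebra.FiniteType.of_surjective (Ideal.Quotient.mkₐ ℂ p) (Ideal.Quotient.mkₐ_surjective ℂ p)
    have hfin : Module.Finite ℂ ((SS 0) ⧸ p) := finite_of_finite_type_of_isJacobsonRing ℂ _
    have hint : Algebra.IsIntegral ℂ ((SS 0) ⧸ p) := inferInstance
    obtain ⟨c, hc⟩ := (IsAlgClosed.algebraMap_bijective_of_isIntegral (k := ℂ)
      (K := (SS 0) ⧸ p)).2 (Ideal.Quotient.mk p f)
    refine ⟨c, ?_⟩
    rw [← Ideal.Quotient.eq_zero_iff_mem, map_sub, ← hc]
    exact sub_self _

private theorem res_line1 (p : Ideal (SS 1)) (hp : p.IsMaximal) (f : SS 1) :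
    ∃ c : ℂ, f - algebraMap ℂ (SS 1) c ∈ p := by
  · obtain ⟨c, hc⟩ := res_const f.1 f.2
    refine ⟨c, ?_⟩
    by_contra hcon
    obtain ⟨y, i, hi, hyi⟩ := hp.exists_inv hcon
    -- `i = 1 - y (f - c)` is a unit
    have h1 : ((i : SS 1) : RatFunc ℂ) = 1 - (y : RatFunc ℂ) *
        ((f : RatFunc ℂ) - algebraMap ℂ (RatFunc ℂ) c) := by
      have h2 := congrArg Subtype.val hyi
      change (y : RatFunc ℂ) * ((f : RatFunc ℂ) - algebraMap ℂ (RatFunc ℂ) c) + (i : RatFunc ℂ) = 1 at h2
      rw [← h2]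
      ring
    have h3 : (i : RatFunc ℂ) ≠ 0 ∧ (i : RatFunc ℂ).intDegree = 0 := by
      rw [h1]
      have hone : (1 : RatFunc ℂ).intDegree = 0 := RatFunc.intDegree_one
      rcases hc with hc | hc
      · rw [hc, mul_zero, sub_zero]
        exact ⟨one_ne_zero, hone⟩
      · by_cases hy : (y : RatFunc ℂ) = 0
        · rw [hy, zero_mul, sub_zero]
          exact ⟨one_ne_zero, hone⟩
        · have hfc : (f : RatFunc ℂ) - algebraMap ℂ (RatFunc ℂ) c ≠ 0 := by
            intro h
            rw [h, RatFunc.intDegree_zero] at hc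
            omega
          have hy1 : (y : RatFunc ℂ).intDegree ≤ 0 := y.2
          obtain ⟨u, hu⟩ : ∃ u : RatFunc ℂ, u = (y : RatFunc ℂ) *
            ((f : RatFunc ℂ) - algebraMap ℂ (RatFunc ℂ) c) := ⟨_, rfl⟩
          have hu0 : u ≠ 0 := by rw [hu]; exact mul_ne_zero hy hfc
          have hud : u.intDegree < 0 := by
            rw [hu, RatFunc.intDegree_mul hy hfc]
            omega
          rw [← hu]
          have hne : (1 : RatFunc ℂ) - u ≠ 0 := by
            intro h
            have h4 : u = 1 := (sub_eq_zero.1 h).symm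
            rw [h4, hone] at hud
            omega
          refine ⟨hne, ?_⟩
          have h5 : (1 - u).intDegree ≤ 0 := by
            have h6 : (1 : RatFunc ℂ) - u = 1 + -u := by ring
            rw [h6] at hne ⊢
            refine (RatFunc.intDegree_add_le (neg_ne_zero.2 hu0) hne).trans (max_le hone.le ?_)
            rw [RatFunc.intDegree_neg]
            omega
          by_contra h6
          have h7 : (1 - u).intDegree < 0 := lt_of_le_of_ne h5 h6
          have h8 : (1 : RatFunc ℂ) = (1 - u) + u := by ring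
          have h9 := RatFunc.intDegree_add_le (x := 1 - u) (y := u) hu0 (by
            rw [← h8]
            exact one_ne_zero)
          rw [← h8, hone] at h9
          have h10 := le_max_iff.1 h9
          omega
    apply hp.ne_top
    apply Ideal.eq_top_of_isUnit_mem p hi
    have h4 : (i : RatFunc ℂ)⁻¹ ∈ SS 1 := by
      rw [res_mem1, RatFunc.intDegree_inv, h3.2]
      omega
    refine IsUnit.of_mul_eq_one ⟨_, h4⟩ ?_
    apply Subtype.ext
    exact mul_inv_cancel₀ h3.1

private theorem res_line (i : Fin 2) : ∀ (p : Ideal (SS i)), p.IsMaximal → ∀ (f : SS i),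
    ∃ c : ℂ, f - algebraMap ℂ (SS i) c ∈ p := by
  have h : ∀ i : Fin 2, ∀ (p : Ideal (SS i)), p.IsMaximal → ∀ (f : SS i),
      ∃ c : ℂ, f - algebraMap ℂ (SS i) c ∈ p := by
    rw [Fin.forall_fin_two]
    exact ⟨res_line0, res_line1⟩
  exact h i

private theorem res_inter (f : RatFunc ℂ) (h0 : f ∈ SS 0) (h1 : f ∈ SS 1) :
    ∃ c : ℂ, algebraMap ℂ (RatFunc ℂ) c = f := by
  obtain ⟨p, rfl⟩ := (res_mem0 f).1 h0
  rw [res_mem1, res_intDegree] at h1
  have h2 : p.natDegree = 0 := by omega
  rw [eq_C_of_natDegree_eq_zero h2]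
  exact ⟨p.coeff 0, rfl⟩

end ResPrivate

variable (F : Type u) [Field F] [Algebra ℂ F] [Algebra (RatFunc ℂ) F]
  [IsScalarTower ℂ (RatFunc ℂ) F] [FiniteDimensional (RatFunc ℂ) F]

theorem resid_rings (i : Fin 2) (P : Ideal (rings F i)) (hP : P.IsMaximal)
    (a : rings F i) : ∃ c : ℂ, a - algebraMap ℂ (rings F i) c ∈ P := by
  classical
  obtain ⟨j, hj⟩ : ∃ j : SS i →+* rings F i, ∀ x : SS i, ((j x : rings F i) : F) =
      algebraMap (RatFunc ℂ) F (x : RatFunc ℂ) :=
    ⟨(algebraMap (SS i) (integralClosure (SS i) F)), fun x => rfl⟩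
  have hjint : j.IsIntegral := by
    intro x
    have h1 : IsIntegral (SS i) (x : F) := x.2
    obtain ⟨q, hq, hqx⟩ := h1
    refine ⟨q, hq, ?_⟩
    apply Subtype.ext
    rw [Polynomial.eval₂_eq_sum_range] at hqx ⊢
    rw [AddSubmonoidClass.coe_finsetSum]
    refine Eq.trans (Finset.sum_congr rfl fun n _ => ?_) hqx
    rw [MulMemClass.coe_mul, hj, SubmonoidClass.coe_pow]
    rfl
  have hcomm : ∀ c : ℂ, j (algebraMap ℂ (SS i) c) = algebraMap ℂ (rings F i) c := by
    intro c
    apply Subtype.ext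
    rw [hj]
    change algebraMap (RatFunc ℂ) F (algebraMap ℂ (RatFunc ℂ) c) = algebraMap ℂ F c
    rw [← IsScalarTower.algebraMap_apply]
  let _ : Field (rings F i ⧸ P) := Ideal.Quotient.field P
  obtain ⟨f, hf⟩ : ∃ f : SS i →+* (rings F i ⧸ P), f = (Ideal.Quotient.mk P).comp j := ⟨_, rfl⟩
  have hfint : f.IsIntegral := by
    rw [hf]
    exact RingHom.IsIntegral.trans _ _ hjint
      (RingHom.isIntegral_of_surjective _ Ideal.Quotient.mk_surjective)
  have hpmax : (RingHom.ker f).IsMaximal := by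
    have h1 : (RingHom.ker f) = (⊥ : Ideal (rings F i ⧸ P)).comap f := rfl
    rw [h1]
    exact Ideal.isMaximal_comap_of_isIntegral_of_isMaximal' f hfint ⊥
  have hfc : ∀ x : SS i, ∃ c : ℂ, algebraMap ℂ (rings F i ⧸ P) c = f x := by
    intro x
    obtain ⟨c, hc⟩ := res_line i _ hpmax x
    refine ⟨c, ?_⟩
    rw [RingHom.mem_ker, map_sub, sub_eq_zero] at hc
    rw [hc, hf, RingHom.comp_apply, hcomm]
    rfl
  have hint : Algebra.IsIntegral ℂ (rings F i ⧸ P) := by
    constructor
    intro y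
    obtain ⟨q, hq, hqy⟩ := hfint y
    have hlift : q.map f ∈ Polynomial.lifts (algebraMap ℂ (rings F i ⧸ P)) := by
      rw [Polynomial.lifts_iff_coeff_lifts]
      intro n
      rw [Polynomial.coeff_map]
      obtain ⟨c, hc⟩ := hfc (q.coeff n)
      exact ⟨c, hc⟩
    obtain ⟨q', h1, -, h3⟩ := Polynomial.lifts_and_natDegree_eq_and_monic hlift (hq.map f)
    refine ⟨q', h3, ?_⟩
    rw [← Polynomial.eval_map, h1, Polynomial.eval_map]
    exact hqy
  obtain ⟨c, hc⟩ := (IsAlgClosed.algebraMap_bijective_of_isIntegral (k := ℂ)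
    (K := rings F i ⧸ P)).2 (Ideal.Quotient.mk P a)
  refine ⟨c, ?_⟩
  rw [← Ideal.Quotient.eq_zero_iff_mem, map_sub, ← hc]
  exact sub_self _

/-- elements of the line which are in a ring of the curve -/
private theorem res_closed (i : Fin 2) (x : RatFunc ℂ) (hx : algebraMap (RatFunc ℂ) F x ∈ rings F i) :
    x ∈ SS i := by
  have := SS_pid i
  have := SS_frac i
  have h1 : IsIntegral (SS i) (algebraMap (RatFunc ℂ) F x) := hx
  have h2 : IsIntegral (SS i) x :=
    (isIntegral_algebraMap_iff (algebraMap (RatFunc ℂ) F).injective).1 h1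
  obtain ⟨y, hy⟩ := IsIntegrallyClosed.isIntegral_iff.1 h2
  rw [← hy]
  exact y.2

theorem const_rings : rings F 0 ⊓ rings F 1 = ⊥ := by
  rw [eq_bot_iff]
  rintro y ⟨h0, h1⟩
  have key : ∀ i : Fin 2, y ∈ rings F i → ∀ n, (minpoly (RatFunc ℂ) y).coeff n ∈ SS i := by
    intro i hy n
    have := SS_pid i
    have := SS_frac i
    have h2 : IsIntegral (SS i) y := hy
    have h3 := minpoly.isIntegrallyClosed_eq_field_fractions' (RatFunc ℂ) h2
    rw [h3, Polynomial.coeff_map]
    exact ((minpoly (SS i) y).coeff n).2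
  have hlift : minpoly (RatFunc ℂ) y ∈ Polynomial.lifts (algebraMap ℂ (RatFunc ℂ)) := by
    rw [Polynomial.lifts_iff_coeff_lifts]
    intro n
    obtain ⟨c, hc⟩ := res_inter _ (key 0 h0 n) (key 1 h1 n)
    exact ⟨c, hc⟩
  have hyint : IsIntegral (RatFunc ℂ) y := Algebra.IsIntegral.isIntegral y
  obtain ⟨q, hq1, -, hq3⟩ := Polynomial.lifts_and_natDegree_eq_and_monic hlift (minpoly.monic hyint)
  have hyC : IsIntegral ℂ y := by
    refine ⟨q, hq3, ?_⟩
    have h4 : Polynomial.aeval y q = Polynomial.aeval y (q.map (algebraMap ℂ (RatFunc ℂ))) :=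
      (Polynomial.aeval_map_algebraMap (RatFunc ℂ) y q).symm
    rw [← Polynomial.aeval_def, h4, hq1, minpoly.aeval]
  have h5 := minpoly.mem_range_of_degree_eq_one ℂ y
    (IsAlgClosed.degree_eq_one_of_irreducible ℂ (minpoly.irreducible hyC))
  obtain ⟨c, hc⟩ := h5
  exact Algebra.mem_bot.2 ⟨c, hc⟩

theorem nonfield_rings (i : Fin 2) : ∃ x ∈ rings F i, x⁻¹ ∉ rings F i := by
  have hX : (RatFunc.X : RatFunc ℂ) ≠ 0 := RatFunc.X_ne_zero
  have hXd : (RatFunc.X : RatFunc ℂ).intDegree = 1 := RatFunc.intDegree_X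
  have key : ∃ f : RatFunc ℂ, f ∈ SS i ∧ f⁻¹ ∉ SS i := by
    fin_cases i
    · refine ⟨RatFunc.X, (res_mem0 _).2 ⟨Polynomial.X, RatFunc.algebraMap_X⟩, ?_⟩
      intro h
      obtain ⟨p, hp⟩ := (res_mem0 _).1 h
      have h1 := res_intDegree p
      rw [hp, RatFunc.intDegree_inv, hXd] at h1
      omega
    · refine ⟨RatFunc.X⁻¹, ?_, ?_⟩
      · change _ ∈ SS 1
        rw [res_mem1, RatFunc.intDegree_inv, hXd]
        omega
      · change _ ∉ SS 1
        rw [res_mem1, inv_inv, hXd]
        omega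
  obtain ⟨f, hf1, hf2⟩ := key
  refine ⟨algebraMap (RatFunc ℂ) F f, SS_le F i f hf1, ?_⟩
  intro h
  rw [← map_inv₀] at h
  exact hf2 (res_closed F i _ h)

end CLF
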