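import Pool.Agent.CLF.Kbd
import Pool.Agent.CLF.Res
import Pool.Agent.CLF.Desc
import Pool.Agent.CLF.Lam
import Pool.Agent.CLF.DualS
import Pool.Agent.CLF.ReflS
import Pool.Agent.CLF.Cnv

/-!
# Module GoodX: function fields give `Good` data

PROOF. `lam` from `exists_lam`, `K = Kx F lam`.  Fields: `ded_rings`, `frac_rings`, `nonfield_rings`, `resid_rings`,
`const_rings`, `Kx_bdl`.  For an `F`-space `V` use `Module.compHom V (algebraMap (RatFunc ℂ) F)` as
`RatFunc ℂ`-structure (`letI`), with the scalar towers, `FiniteDimensional.trans`.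
`fin`: `desc` and `fin_SS`.  `dual`: `h1 E = h0 (dl Sd E)` (`dual_SS`), and the bijection
`φ ↦ lam ∘ φ` (`comp_bij`) is ℂ-linear and maps `dl (Kx) E i` onto `dl Sd E i`: for `φ ∈ Dual F V`,
`lam (φ e) ∈ Sd i` for all `e ∈ E i` iff `lam (φ e * r) = lam (φ (r • e)) ∈ Sd i` for all `e ∈ E i`, `r ∈ rings F i`
(`E i` is stable) iff `φ e ∈ Kx i`.
`refl`: if `φ v ∈ Kx i` for all `φ ∈ dl Kx E i`, then every `ψ ∈ dl Sd E i` is `lam ∘ φ`, `φ ∈ dl Kx E i`, so
`ψ v = lam (φ v * 1) ∈ Sd i`; `refl_SS`.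
-/

open Module

namespace CLF

universe u

variable (F : Type u) [Field F] [Algebra ℂ F] [Algebra (RatFunc ℂ) F]
  [IsScalarTower ℂ (RatFunc ℂ) F] [FiniteDimensional (RatFunc ℂ) F]

section aux

variable {V : Type u} [AddCommGroup V] [Module ℂ V] [Module F V] [IsScalarTower ℂ F V]
  [FiniteDimensional F V] [Module (RatFunc ℂ) V] [IsScalarTower ℂ (RatFunc ℂ) V]
  [IsScalarTower (RatFunc ℂ) F V]

private noncomputable def Psi (lam : F →ₗ[RatFunc ℂ] RatFunc ℂ) :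
    Dual F V →ₗ[ℂ] Dual (RatFunc ℂ) V where
  toFun φ := lam ∘ₗ (φ.restrictScalars (RatFunc ℂ))
  map_add' φ ψ := by
    ext v
    simp
  map_smul' c φ := by
    ext v
    simp only [LinearMap.comp_apply, LinearMap.restrictScalars_apply, LinearMap.smul_apply,
      RingHom.id_apply]
    exact LinearMap.map_smul_of_tower lam c (φ v)

private theorem Psi_apply (lam : F →ₗ[RatFunc ℂ] RatFunc ℂ) (φ : Dual F V) (v : V) :
    Psi F lam φ v = lam (φ v) := rfl

private theorem Psi_mem (lam : F →ₗ[RatFunc ℂ] RatFunc ℂ) {E : Lat V}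
    (hE : IsBdl (rings F) E) (i : Fin 2) (φ : Dual F V) :
    Psi F lam φ ∈ dl (Sd : Lat (RatFunc ℂ)) E i ↔ φ ∈ dl (Kx F lam) E i := by
  constructor
  · intro h e he r hr
    have h1 : φ e * r = φ (r • e) := by
      rw [map_smul, smul_eq_mul, mul_comm]
    rw [h1]
    exact h (r • e) (smul_stable hE i hr he)
  · intro h e he
    have h1 := h e he 1 (rings F i).one_mem
    rw [mul_one] at h1
    exact h1

private theorem Psi_bij (lam : F →ₗ[RatFunc ℂ] RatFunc ℂ) (hlam : lam ≠ 0) :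
    Function.Bijective (Psi (V := V) F lam) := comp_bij F lam hlam

private theorem dual_aux [FiniteDimensional (RatFunc ℂ) V]
    (lam : F →ₗ[RatFunc ℂ] RatFunc ℂ) (hlam : lam ≠ 0) {E : Lat V}
    (hE : IsBdl (rings F) E) : h1 E = h0 (dl (Kx F lam) E) := by
  rw [dual_SS E (desc F E hE)]
  unfold h0
  let e := LinearEquiv.ofBijective (Psi (V := V) F lam) (Psi_bij F lam hlam)
  have h : H0 (dl (Sd : Lat (RatFunc ℂ)) E) =
      (H0 (dl (Kx F lam) E)).map (e : Dual F V →ₗ[ℂ] Dual (RatFunc ℂ) V) := by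
    ext ψ
    constructor
    · intro hψ
      obtain ⟨φ, rfl⟩ := (Psi_bij (V := V) F lam hlam).2 ψ
      exact ⟨φ, ⟨(Psi_mem F lam hE 0 φ).1 hψ.1, (Psi_mem F lam hE 1 φ).1 hψ.2⟩, rfl⟩
    · rintro ⟨φ, hφ, rfl⟩
      exact ⟨(Psi_mem F lam hE 0 φ).2 hφ.1, (Psi_mem F lam hE 1 φ).2 hφ.2⟩
  rw [h, LinearEquiv.finrank_map_eq]

private theorem refl_aux [FiniteDimensional (RatFunc ℂ) V]
    (lam : F →ₗ[RatFunc ℂ] RatFunc ℂ) (hlam : lam ≠ 0) {E : Lat V}
    (hE : IsBdl (rings F) E) (i : Fin 2) (v : V)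
    (H : ∀ φ ∈ dl (Kx F lam) E i, φ v ∈ Kx F lam i) : v ∈ E i := by
  refine refl_SS E (desc F E hE) i v fun ψ hψ => ?_
  obtain ⟨φ, rfl⟩ := (Psi_bij (V := V) F lam hlam).2 ψ
  have h := H φ ((Psi_mem F lam hE i φ).1 hψ) 1 (rings F i).one_mem
  rw [mul_one] at h
  exact h

end aux

theorem good_rings : ∃ K : Lat F, Good (rings F) K := by
  obtain ⟨lam, hlam⟩ := exists_lam F
  refine ⟨Kx F lam, ⟨ded_rings F, frac_rings F, nonfield_rings F, resid_rings F, const_rings F,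
    Kx_bdl F lam hlam, ?_, ?_, ?_⟩⟩
  · intro V _ _ _ _ _ E hE
    letI : Module (RatFunc ℂ) V := Module.compHom V (algebraMap (RatFunc ℂ) F)
    haveI h1 : IsScalarTower (RatFunc ℂ) F V :=
      ⟨fun a b v => by rw [Algebra.smul_def, mul_smul]; rfl⟩
    haveI h2 : IsScalarTower ℂ (RatFunc ℂ) V := IsScalarTower.to₁₂₄ ℂ (RatFunc ℂ) F V
    haveI h3 : FiniteDimensional (RatFunc ℂ) V := FiniteDimensional.trans (RatFunc ℂ) F V
    exact fin_SS E (desc F E hE)
  · intro V _ _ _ _ _ E hE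
    letI : Module (RatFunc ℂ) V := Module.compHom V (algebraMap (RatFunc ℂ) F)
    haveI h1 : IsScalarTower (RatFunc ℂ) F V :=
      ⟨fun a b v => by rw [Algebra.smul_def, mul_smul]; rfl⟩
    haveI h2 : IsScalarTower ℂ (RatFunc ℂ) V := IsScalarTower.to₁₂₄ ℂ (RatFunc ℂ) F V
    haveI h3 : FiniteDimensional (RatFunc ℂ) V := FiniteDimensional.trans (RatFunc ℂ) F V
    exact dual_aux F lam hlam hE
  · intro V _ _ _ _ _ E hE i v H
    letI : Module (RatFunc ℂ) V := Module.compHom V (algebraMap (RatFunc ℂ) F)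
    haveI h1 : IsScalarTower (RatFunc ℂ) F V :=
      ⟨fun a b v => by rw [Algebra.smul_def, mul_smul]; rfl⟩
    haveI h2 : IsScalarTower ℂ (RatFunc ℂ) V := IsScalarTower.to₁₂₄ ℂ (RatFunc ℂ) F V
    haveI h3 : FiniteDimensional (RatFunc ℂ) V := FiniteDimensional.trans (RatFunc ℂ) F V
    exact refl_aux F lam hlam hE i v H

end CLF
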