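import Pool.Agent.CLF.Rel

/-!
# Module Rel2: independence of the coefficients of the relation

PROOF. Suppose `∑ c j • v j = 0` with `c : Fin (n+1) → ℂ`, `c k ≠ 0`.  For `j ≠ k` put
`b' j = b j - (c j / c k) • b k`.  These `n` vectors lie in `span ℂ (range b)`, are ℂ-independent, and
`∑_{j ≠ k} v j • b' j = ∑_{j ≠ k} v j • b j - (∑_{j≠k} c j v j / c k) • b k = ∑_j v j • b j = 0`.
Not all `v j`, `j ≠ k`, are zero (otherwise `c k v k = 0` and `v = 0`).  Index the set `{j ≠ k}` by `Fin n`
(`Fin.succAbove k`): this gives `w : Fin n → V`, `w j = b' (k.succAbove j)`, ℂ-independent, with elements in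
the span, and `F`-dependent.
-/

open Module

namespace CLF

universe u

variable {F : Type u} [Field F] [Algebra ℂ F] {R : Fin 2 → Subalgebra ℂ F} {K : Lat F}
variable {V : Type u} [AddCommGroup V] [Module ℂ V] [Module F V] [IsScalarTower ℂ F V]
  [FiniteDimensional F V]

theorem relation_indep (n : ℕ) (b : Fin (n + 1) → V) (hb : LinearIndependent ℂ b)
    (v : Fin (n + 1) → F) (hv : v ≠ 0) (hrel : ∑ j, v j • b j = 0)
    (h : ∀ w : Fin n → V, (∀ j, w j ∈ Submodule.span ℂ (Set.range b)) →
      LinearIndependent ℂ w → LinearIndependent F w) :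
    LinearIndependent ℂ v := by
  classical
  rw [Fintype.linearIndependent_iff]
  intro c hc
  by_contra hne
  push Not at hne
  obtain ⟨k, hk⟩ := hne
  have hsb : ∀ (x : ℂ) (y : F) (z : V), y • (x • z) = (x • y) • z := by
    intro x y z
    rw [smul_assoc, smul_comm]
  let w : Fin n → V := fun j => b (k.succAbove j) - (c (k.succAbove j) / c k) • b k
  have hw1 : ∀ j, w j ∈ Submodule.span ℂ (Set.range b) := by
    intro j
    exact Submodule.sub_mem _ (Submodule.subset_span ⟨_, rfl⟩)
      (Submodule.smul_mem _ _ (Submodule.subset_span ⟨_, rfl⟩))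
  have hw2 : LinearIndependent ℂ w := by
    rw [Fintype.linearIndependent_iff]
    intro d hd j
    have h1 := Fintype.linearIndependent_iff.1 hb
      (k.insertNth (-∑ i, d i * (c (k.succAbove i) / c k)) d) (by
        rw [Fin.sum_univ_succAbove _ k]
        simp only [Fin.insertNth_apply_same, Fin.insertNth_apply_succAbove]
        rw [← hd]
        simp only [w, smul_sub, Finset.sum_sub_distrib, smul_smul, ← Finset.sum_smul, neg_smul]
        abel) (k.succAbove j)
    rwa [Fin.insertNth_apply_succAbove] at h1
  have hw3 := h w hw1 hw2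
  have hrel' := hrel
  rw [Fin.sum_univ_succAbove _ k] at hrel' hc
  have hck : ∑ i, (c (k.succAbove i) / c k) • v (k.succAbove i) = - v k := by
    have h1 : ∑ i, (c (k.succAbove i) / c k) • v (k.succAbove i) =
        (c k)⁻¹ • ∑ i, c (k.succAbove i) • v (k.succAbove i) := by
      rw [Finset.smul_sum]
      refine Finset.sum_congr rfl fun i _ => ?_
      rw [smul_smul]
      congr 1
      ring
    rw [h1, eq_neg_of_add_eq_zero_right hc, smul_neg, smul_smul, inv_mul_cancel₀ hk, one_smul]
  have hzero : ∀ j, v (k.succAbove j) = 0 := by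
    refine Fintype.linearIndependent_iff.1 hw3 (fun j => v (k.succAbove j)) ?_
    simp only [w, smul_sub, Finset.sum_sub_distrib, hsb, ← Finset.sum_smul]
    rw [hck, neg_smul, sub_neg_eq_add, add_comm]
    exact hrel'
  have hvk : v k = 0 := by
    have h1 := hck
    simp only [hzero, smul_zero, Finset.sum_const_zero] at h1
    exact neg_eq_zero.1 h1.symm
  apply hv
  funext j
  by_cases hj : j = k
  · rw [hj, hvk]
    rfl
  · obtain ⟨i, rfl⟩ := Fin.exists_succAbove_eq hj
    rw [hzero]
    rfl

end CLF
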