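import Pool.Agent.CLF.FourA
import Pool.Agent.CLF.Rel2

/-!
# Module FourB: the line bundle attached to a four section bundle of degree nine

PROOF. Use `fourA`.  Let `b : Fin 4 → V` be a basis of `H0 E` (span ℂ (range b) = H0 E, independent), and
apply `rel` with `n = 3`: we get `v : Fin 4 → F`, `M := gn R (span ℂ (range v))` of degree `9`, and the count.
`relation_indep` (hypothesis from `fourA`) shows that `v` is ℂ-independent, so `h0 M ≥ 4`; `L2` with `h = 5`
(`deg ≥ 11`) gives `h0 M ≤ 4`.  So `H0 M = span ℂ (range v)` (finite dimensional, `v j ∈ H0 M` because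
`1 ∈ R i`), and `M i = Oo R i * H0 M`.
-/

open Module

namespace CLF

universe u

variable {F : Type u} [Field F] [Algebra ℂ F] {R : Fin 2 → Subalgebra ℂ F} {K : Lat F}
variable {V : Type u} [AddCommGroup V] [Module ℂ V] [Module F V] [IsScalarTower ℂ F V]
  [FiniteDimensional F V]

theorem fourB (C : Ctx R K) (hV : finrank F V = 3) {E : Lat V} (hE : IsBdl R E)
    (hs : Semistable R E) (hd : deg R E ≤ 9) (h4 : 4 ≤ h0 E) :
    h0 E = 4 ∧ deg R E = 9 ∧ ∃ M : Lat F, IsBdl R M ∧ deg R M = 9 ∧ h0 M = 4 ∧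
      (∀ i, M i = Oo R i * H0 M) ∧
      ∀ A : Lat F, IsBdl R A →
        h0 (dl K (tw A E)) + finrank ℂ (H0 M * H0 (kd K A) : Submodule ℂ F)
          = 4 * h0 (kd K A) := by
  obtain ⟨h04, hd9, hgn, hsp, hind⟩ := fourA C hV hE hs hd h4
  refine ⟨h04, hd9, ?_⟩
  have G := C.good
  have : FiniteDimensional ℂ (H0 E) := (G.fin V E hE).1
  let b0 : Basis (Fin 4) ℂ (H0 E) := finBasisOfFinrankEq ℂ (H0 E) h04
  let b : Fin 4 → V := fun j => (b0 j : V)
  have hbs : Submodule.span ℂ (Set.range b) = H0 E := by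
    have h1 : Set.range b = (H0 E).subtype '' Set.range b0 := by
      rw [← Set.range_comp]
      rfl
    rw [h1, Submodule.span_image, b0.span_eq, Submodule.map_top, Submodule.range_subtype]
  have hbi : LinearIndependent ℂ b :=
    b0.linearIndependent.map' (H0 E).subtype (Submodule.ker_subtype _)
  have hbF : Submodule.span F (Set.range b) = ⊤ := by
    rw [← hsp, ← hbs, Submodule.span_span_of_tower]
  obtain ⟨v, hv, hrel, huni, hM, hdM, hcount⟩ := rel G 3 (by norm_num) hV b hbF
  have hvi : LinearIndependent ℂ v := by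
    refine relation_indep 3 b hbi v hv hrel ?_
    intro w hw hwi
    exact hind w (fun j => by rw [← hbs]; exact hw j) hwi
  rw [hbs, hgn] at hdM
  rw [hd9] at hdM
  have : FiniteDimensional ℂ (H0 (gn R (Submodule.span ℂ (Set.range v)) : Lat F)) :=
    (G.fin F _ hM).1
  have hle : Submodule.span ℂ (Set.range v) ≤
      H0 (gn R (Submodule.span ℂ (Set.range v)) : Lat F) := by
    intro x hx
    have h1 : ∀ i, x ∈ gn R (Submodule.span ℂ (Set.range v)) i := by
      intro i
      have h2 : (1 : F) • x ∈ Oo R i • Submodule.span ℂ (Set.range v) :=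
        Submodule.smul_mem_smul (show (1 : F) ∈ Oo R i from (R i).one_mem) hx
      rw [one_smul] at h2
      exact h2
    exact ⟨h1 0, h1 1⟩
  have hfv : finrank ℂ (Submodule.span ℂ (Set.range v)) = 4 := by
    rw [finrank_span_eq_card hvi, Fintype.card_fin]
  have h4' : 4 ≤ h0 (gn R (Submodule.span ℂ (Set.range v)) : Lat F) := by
    rw [← hfv]
    exact Submodule.finrank_mono hle
  have g9 := C.g9
  have g9' : (9 : ℤ) ≤ (genus R : ℤ) := by exact_mod_cast g9
  have hM4 : h0 (gn R (Submodule.span ℂ (Set.range v)) : Lat F) = 4 := by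
    by_contra hne
    have h5 : 5 ≤ h0 (gn R (Submodule.span ℂ (Set.range v)) : Lat F) := by omega
    have h6 := C.L2 _ hM 5 (by norm_num) (by exact_mod_cast h5)
    rw [hdM] at h6
    rcases min_le_iff.1 h6 with h | h <;> linarith
  have hH : Submodule.span ℂ (Set.range v) =
      H0 (gn R (Submodule.span ℂ (Set.range v)) : Lat F) :=
    Submodule.eq_of_le_of_finrank_eq hle (by rw [hfv]; exact hM4.symm)
  refine ⟨gn R (Submodule.span ℂ (Set.range v)), hM, hdM, hM4, ?_, ?_⟩
  · intro i
    rw [← hH]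
    rfl
  · intro A hA
    have h7 := hcount A hA
    rw [hbs, hgn] at h7
    rw [← hH]
    simpa using h7

end CLF
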