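import Pool.Agent.CLF.Ctx

/-!
# Module SpanPen: pencil trick for line bundles, exact form

PROOF. If `h0 A = 2` and `A` is generated by `a0, a1` then `H0 A = span {a0, a1}`; use `pencil` with
`V = F`, `E = L` (`•` on `Submodule ℂ F` is multiplication).  `mul_H0_le` is `smul_H0_le`.
-/

open Module

namespace CLF

universe u

variable {F : Type u} [Field F] [Algebra ℂ F] {R : Fin 2 → Subalgebra ℂ F} {K : Lat F}
variable {V : Type u} [AddCommGroup V] [Module ℂ V] [Module F V] [IsScalarTower ℂ F V]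
  [FiniteDimensional F V]

theorem pencil_line (C : Ctx R K) {A : Lat F} {a0 a1 : F} (hA : IsPencil R A a0 a1)
    (h2 : h0 A = 2) {L : Lat F} (hL : IsBdl R L) :
    finrank ℂ (H0 A * H0 L : Submodule ℂ F) + h0 (tw (inv R A) L) = 2 * h0 L ∧
    H0 A = Submodule.span ℂ {a0, a1} := by
  have hfd := (C.good.fin F A hA.bdl).1
  have h1 : Submodule.span ℂ {a0, a1} ≤ H0 A := by
    rw [Submodule.span_le]
    intro x hx
    rcases hx with rfl | rfl
    · exact hA.m0
    · exact hA.m1
  have h3 : finrank ℂ (Submodule.span ℂ {a0, a1}) = 2 := by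
    have := finrank_span_eq_card hA.ind
    rw [Matrix.range_cons_cons_empty] at this
    simpa using this
  have h4 : Submodule.span ℂ {a0, a1} = H0 A :=
    Submodule.eq_of_le_of_finrank_eq h1 (by rw [h3]; exact h2.symm)
  refine ⟨?_, h4.symm⟩
  rw [← h4]
  exact pencil C.good hA.bdl (hA.ind.ne_zero 0) hA.gen hL

theorem mul_H0_le (A L : Lat F) : H0 A * H0 L ≤ H0 (tw A L) :=
  smul_H0_le le_rfl le_rfl

end CLF
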