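import Pool.Agent.CLF.Ctx

/-!
# Module StepB2: arithmetic of the plane case

Data of `StepB1`: `n = deg D`, `m = deg M = 2s+8-n`, `h0 D ≥ 2u+1`, `h0 M ≥ 1+s-u`, `3n ≤ 2(2s+8)`,
`2s+8 ≤ 3g-3`, `s ≥ 3`, `u ≥ 1`.
PROOF. L2 for D, `h = 2u+1 ≥ 3`: `n ≥ min (4u+3) (2u+g-1)`.
If `u ≥ s`: `n ≥ min (4s+3) (2s+g-1)` and `3n ≤ 4s+16`: `12s+9 ≤ 4s+16` no; `6s+3g-3 ≤ 4s+16` no.
If `u < s`: L2 for M, `h = 1+s-u ≥ 2`: `m ≥ min (2(s-u)+3) (s-u+g-1)`.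
(1)(1) `n ≥ 4u+3`, `m ≥ 2(s-u)+3`: sum `≥ 2s+2u+6`, so `u = 1`, and `n ≥ 7`, `m ≥ 2s+1`, so `n = 7`.
(1)(2) `n ≥ 4u+3`, `m ≥ s-u+g-1`: `s ≥ g+3u-6 ≥ g-3`; if `n ≠ 7`: either `u ≥ 2` and `s ≥ g`, or `u = 1` and `n ≥ 8`
   and `8 + s-1+g-1 ≤ 2s+8` so `s ≥ g-2`.
(2)(1) `n ≥ 2u+g-1`, `m ≥ 2(s-u)+3`: `g ≤ 6` no.
(2)(2) `n ≥ 2u+g-1`, `m ≥ s-u+g-1`: `s ≥ u+2g-10`, with `2s ≤ 3g-11`: `2u + g ≤ 9`, no.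
-/

open Module

namespace CLF

universe u

variable {F : Type u} [Field F] [Algebra ℂ F] {R : Fin 2 → Subalgebra ℂ F} {K : Lat F}
variable {V : Type u} [AddCommGroup V] [Module ℂ V] [Module F V] [IsScalarTower ℂ F V]
  [FiniteDimensional F V]

theorem stepB2 (C : Ctx R K) {D M : Lat F} (hD : IsBdl R D) (hM : IsBdl R M) (s u : ℤ)
    (h1 : 3 ≤ s) (h2 : 2 * s + 8 ≤ 3 * (genus R : ℤ) - 3) (h3 : 1 ≤ u)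
    (h4 : 2 * u + 1 ≤ (h0 D : ℤ)) (h5 : deg R M = 2 * s + 8 - deg R D)
    (h6 : 1 + s - u ≤ (h0 M : ℤ)) (h7 : 3 * deg R D ≤ 2 * (2 * s + 8)) :
    (u = 1 ∧ deg R D = 7) ∨
      ((genus R : ℤ) - 3 ≤ s ∧ (deg R D ≠ 7 → (genus R : ℤ) - 2 ≤ s)) := by
  have g9 := C.g9
  have g12 := C.g12
  have hn := C.L2 D hD (2 * u + 1) (by omega) h4
  by_cases hus : s ≤ u
  · exfalso
    omega
  · have hm := C.L2 M hM (1 + s - u) (by omega) h6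
    omega

end CLF
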