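import Pool.Agent.CLF.Defs

/-!
# Module PenSing: a pencil of square matrices over ℂ has a singular member

PROOF. If `f` is not injective take `(1, 0)` and a kernel vector.  Otherwise `f` is bijective (equal
finite dimensions), `T = f⁻¹ ∘ g : X → X` has an eigenvalue `μ` (`Module.End.exists_eigenvalue`, ℂ
algebraically closed, X nontrivial) with eigenvector `x ≠ 0`: `g x = μ f x`; take `(a, b) = (-μ, 1)`.
-/

open Module

namespace CLF

theorem pencil_singular {X Y : Type*} [AddCommGroup X] [Module ℂ X] [AddCommGroup Y]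
    [Module ℂ Y] [FiniteDimensional ℂ X] [FiniteDimensional ℂ Y]
    (hXY : finrank ℂ X = finrank ℂ Y) (hX : 0 < finrank ℂ X) (f g : X →ₗ[ℂ] Y) :
    ∃ (a b : ℂ) (x : X), (a ≠ 0 ∨ b ≠ 0) ∧ x ≠ 0 ∧ a • f x + b • g x = 0 := by
  by_cases hf : Function.Injective f
  · let e : X ≃ₗ[ℂ] Y := LinearEquiv.ofInjectiveOfFinrankEq f hf hXY
    have he : ∀ x, e x = f x := fun x => rfl
    have : Nontrivial X := Module.finrank_pos_iff.mp hX
    obtain ⟨μ, hμ⟩ := Module.End.exists_eigenvalue ((e.symm : Y →ₗ[ℂ] X) ∘ₗ g : Module.End ℂ X)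
    obtain ⟨x, hx⟩ := hμ.exists_hasEigenvector
    refine ⟨-μ, 1, x, Or.inr one_ne_zero, hx.2, ?_⟩
    have h1 := hx.apply_eq_smul
    have h2 : g x = μ • f x := by
      have h3 := congrArg e h1
      rw [map_smul, he x] at h3
      rw [← h3]
      exact (e.apply_symm_apply (g x)).symm
    rw [h2]; simp
  · obtain ⟨x, hx, hx0⟩ : ∃ x, f x = 0 ∧ x ≠ 0 := by
      by_contra hcon
      push Not at hcon
      exact hf ((injective_iff_map_eq_zero f).2 hcon)
    exact ⟨1, 0, x, Or.inl one_ne_zero, hx0, by simp [hx]⟩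

end CLF
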