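import Pool.Agent.CLF.StepQ2
import Pool.Agent.CLF.PenSing

/-!
# Module StepQ: a line bundle of degree seven with three sections forces a degree five pencil

PROOF. Suppose `¬ Has5 R`.  `h0 L = 3` (`L2`, `h = 4`: degree ≥ 9).  Let `V3 = H0 L`.
`deg (pw 5) = 35`, `deg (pw 6) = 42`; `kd K (pw 5)` has degree `2g-2-35 < 0`, so `h0 = 0`
(`h0_eq_zero_of_deg_neg`) and by `rr1` `h0 (pw 5) = 36 - g`, `h0 (pw 6) = 43 - g`.
`finrank (V3^5) = 21`, `finrank (V3^6) = 28` (`power_finrank`).  So `X := H0 (pw 5) / V3^5` and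
`Y := H0 (pw 6) / V3^6` both have dimension `15 - g > 0`.  Choose a basis `v1, v2, v3` of `V3`;
multiplication by `v1` and `v2` induces linear maps `f, g : X → Y` (`mul_pw_le`).  `pencil_singular`: there are
`(a,b) ≠ 0`, `τ ∈ H0 (pw 5)`, `τ ∉ V3^5` with `v τ ∈ V3^6`, `v = a v1 + b v2 ≠ 0` (v1, v2 independent).
Complete `v` to a basis `v, w, w'` of `V3`; `power_split`: `v τ = v q + p`, `q ∈ V3^5`, `p ∈ (span {w,w'})^6`,
and `p = v (τ - q)`, `τ - q ∈ H0 (pw 5)`: `inter_zero` gives `p = 0`, so `τ = q ∈ V3^5`: contradiction.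
(To avoid quotients: work with `Submodule.mapQ` or `Submodule.liftQ` on `H0 (pw 5) ⧸ (V3^5).submoduleOf ..`.)
-/

open Module

namespace CLF

universe u

variable {F : Type u} [Field F] [Algebra ℂ F] {R : Fin 2 → Subalgebra ℂ F} {K : Lat F}
variable {V : Type u} [AddCommGroup V] [Module ℂ V] [Module F V] [IsScalarTower ℂ F V]
  [FiniteDimensional F V]

private theorem stepQ_aux (C : Ctx R K) (h5 : ¬ Has5 R) {L : Lat F} (hL : IsBdl R L)
    (hd : deg R L = 7) (x y z : F) (hx : x ∈ H0 L) (hy : y ∈ H0 L) (hz : z ∈ H0 L)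
    (hi : ∀ a b c : ℂ, a • x + b • y + c • z = 0 → a = 0 ∧ b = 0 ∧ c = 0)
    (hT : H0 L = Submodule.span ℂ {x, y, z}) (α β : ℂ) (hα : α ≠ 0) (τ : F)
    (hτ : τ ∈ H0 (pw R L 5)) (h : (α • x + β • y) * τ ∈ (H0 L) ^ 6) : τ ∈ (H0 L) ^ 5 := by
  obtain ⟨v, hv⟩ : ∃ v, v = α • x + β • y := ⟨_, rfl⟩
  rw [← hv] at h
  have hvL : v ∈ H0 L := by
    rw [hv]
    exact Submodule.add_mem _ (Submodule.smul_mem _ _ hx) (Submodule.smul_mem _ _ hy)
  have hind : LinearIndependent ℂ ![v, y, z] := by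
    rw [Fintype.linearIndependent_iff]
    intro g hg
    have h1 : (g 0 * α) • x + (g 0 * β + g 1) • y + g 2 • z = 0 := by
      rw [← hg]
      simp only [Fin.sum_univ_three, Matrix.cons_val_zero, Matrix.cons_val_one, Matrix.cons_val, hv]
      rw [smul_add, smul_smul, smul_smul, add_smul]
      abel
    obtain ⟨e1, e2, e3⟩ := hi _ _ _ h1
    have e4 : g 0 = 0 := (mul_eq_zero.1 e1).resolve_right hα
    rw [e4, zero_mul, zero_add] at e2
    intro i
    fin_cases i
    · exact e4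
    · exact e2
    · exact e3
  have hv0 : v ≠ 0 := by
    have h1 := hind.ne_zero 0
    simpa using h1
  have hspan : H0 L = Submodule.span ℂ {v, y, z} := by
    apply le_antisymm
    · rw [hT, Submodule.span_le]
      intro t ht
      rcases ht with rfl | ht
      · have h1 : t = α⁻¹ • v + (-(α⁻¹ * β)) • y := by
          rw [hv, smul_add, smul_smul, smul_smul, inv_mul_cancel₀ hα, one_smul, neg_smul]
          abel
        rw [h1]
        exact Submodule.add_mem _ (Submodule.smul_mem _ _ (Submodule.subset_span (Or.inl rfl)))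
          (Submodule.smul_mem _ _ (Submodule.subset_span (Or.inr (Or.inl rfl))))
      · exact Submodule.subset_span (Or.inr ht)
    · rw [Submodule.span_le]
      intro t ht
      rcases ht with rfl | rfl | rfl
      · exact hvL
      · exact hy
      · exact hz
  have hsplit := power_split _ _ v y z hspan rfl 5
  rw [hsplit] at h
  obtain ⟨p1, hp1, p2, hp2, hp⟩ := Submodule.mem_sup.1 h
  obtain ⟨q, hq, rfl⟩ := Submodule.mem_span_singleton_mul.1 hp1
  have hqp : q ∈ H0 (pw R L 5) := pow_le L 5 hq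
  have hz' : v * (τ - q) = p2 := by
    rw [mul_sub, ← hp]
    ring
  have h0 := inter_zero C h5 hL hd v y z hvL hy hz hind 6 (by norm_num) le_rfl (τ - q)
    (Submodule.sub_mem _ hτ hqp) (by rw [hz']; exact hp2)
  have h1 : τ - q = 0 := (mul_eq_zero.1 h0).resolve_left hv0
  rw [sub_eq_zero.1 h1]
  exact hq

theorem stepQ (C : Ctx R K) {L : Lat F} (hL : IsBdl R L) (hd : deg R L = 7) (h3 : 3 ≤ h0 L) :
    Has5 R := by
  by_contra h5
  have g9 := C.g9
  have g12 := C.g12
  have G := C.good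
  have hh : h0 L = 3 := by
    by_contra hne
    have h1 := C.L2 L hL 4 (by norm_num) (by omega)
    rw [hd] at h1
    omega
  have hfd := (G.fin F L hL).1
  have hrr : ∀ j : ℕ, 5 ≤ j → (h0 (pw R L j) : ℤ) = 7 * j + 1 - (genus R : ℤ) := by
    intro j hj
    have h1 := rr1 G (bdl_pw hL j)
    have h2 := deg_kd G (bdl_pw hL j)
    rw [deg_pw G hL, hd] at h1 h2
    have h4 : h0 (kd K (pw R L j)) = 0 := by
      apply h0_eq_zero_of_deg_neg G (bdl_kd G (bdl_pw hL j))
      rw [h2]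
      omega
    rw [h4] at h1
    push_cast at h1
    linarith
  have hfdj : ∀ j : ℕ, FiniteDimensional ℂ (H0 (pw R L j)) := fun j => (G.fin F _ (bdl_pw hL j)).1
  have hfr : ∀ j : ℕ, j ≤ 6 → finrank ℂ (((H0 L) ^ j).comap (H0 (pw R L j)).subtype) =
      finrank ℂ ((H0 L) ^ j : Submodule ℂ F) := fun j _ =>
    (Submodule.comapSubtypeEquivOfLe (pow_le (R := R) L j)).finrank_eq
  have hq : ∀ j : ℕ, 5 ≤ j → j ≤ 6 →
      finrank ℂ (H0 (pw R L j) ⧸ ((H0 L) ^ j).comap (H0 (pw R L j)).subtype) + genus R = 15 := by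
    intro j hj hj6
    have h1 := Submodule.finrank_quotient_add_finrank (((H0 L) ^ j).comap (H0 (pw R L j)).subtype)
    rw [hfr j hj6] at h1
    have h2 := power_finrank C h5 hL hd hh j hj6
    have h4 := hrr j hj
    have h6 : finrank ℂ (H0 (pw R L j)) = h0 (pw R L j) := rfl
    rw [h6] at h1
    have h7 : j = 5 ∨ j = 6 := by omega
    rcases h7 with rfl | rfl
    · push_cast at h4
      omega
    · push_cast at h4
      omega
  -- multiplication maps
  have hmul : ∀ u ∈ H0 L, ∀ x ∈ H0 (pw R L 5), LinearMap.mulLeft ℂ u x ∈ H0 (pw R L 6) := by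
    intro u hu x hx
    exact mul_pw_le L 5 (Submodule.mul_mem_mul hu hx)
  have hmap : ∀ (u : F) (hu : u ∈ H0 L), ∃ f : (H0 (pw R L 5) ⧸ ((H0 L) ^ 5).comap (H0 (pw R L 5)).subtype)
      →ₗ[ℂ] (H0 (pw R L 6) ⧸ ((H0 L) ^ 6).comap (H0 (pw R L 6)).subtype),
      ∀ x : H0 (pw R L 5), f (Submodule.Quotient.mk x) =
        Submodule.Quotient.mk ⟨u * (x : F), hmul u hu x x.2⟩ := by
    intro u hu
    refine ⟨Submodule.mapQ _ _ ((LinearMap.mulLeft ℂ u).restrict (hmul u hu)) ?_, fun x => rfl⟩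
    intro x hx
    rw [Submodule.mem_comap] at hx ⊢
    change u * (x : F) ∈ (H0 L) ^ 6
    rw [pow_succ']
    exact Submodule.mul_mem_mul hu hx
  let b : Basis (Fin 3) ℂ (H0 L) := finBasisOfFinrankEq ℂ (H0 L) hh
  have hi : ∀ x y z : ℂ, x • (b 0 : F) + y • (b 1 : F) + z • (b 2 : F) = 0 →
      x = 0 ∧ y = 0 ∧ z = 0 := by
    intro x y z hxyz
    have h1 : ∑ i, (![x, y, z] i) • b i = 0 := by
      apply Subtype.ext
      rw [Fin.sum_univ_three]
      exact hxyz
    have h2 := Fintype.linearIndependent_iff.1 b.linearIndependent _ h1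
    exact ⟨h2 0, h2 1, h2 2⟩
  have hmem : ∀ x ∈ H0 L, ∃ p q r : ℂ, x = p • (b 0 : F) + q • (b 1 : F) + r • (b 2 : F) := by
    intro x hx
    have h1 := congrArg Subtype.val (b.sum_repr ⟨x, hx⟩)
    rw [Fin.sum_univ_three] at h1
    exact ⟨_, _, _, h1.symm⟩
  have hT : H0 L = Submodule.span ℂ {(b 0 : F), (b 1 : F), (b 2 : F)} := by
    apply le_antisymm
    · intro x hx
      obtain ⟨p, q, r, rfl⟩ := hmem x hx
      exact Submodule.add_mem _ (Submodule.add_mem _
        (Submodule.smul_mem _ _ (Submodule.subset_span (Or.inl rfl)))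
        (Submodule.smul_mem _ _ (Submodule.subset_span (Or.inr (Or.inl rfl)))))
        (Submodule.smul_mem _ _ (Submodule.subset_span (Or.inr (Or.inr rfl))))
    · rw [Submodule.span_le]
      rintro x (rfl | rfl | rfl)
      · exact (b 0).2
      · exact (b 1).2
      · exact (b 2).2
  have hT' : H0 L = Submodule.span ℂ {(b 1 : F), (b 0 : F), (b 2 : F)} := by
    refine hT.trans ?_
    rw [Set.insert_comm]
  obtain ⟨f, hf⟩ := hmap (b 0 : F) (b 0).2
  obtain ⟨g, hg⟩ := hmap (b 1 : F) (b 1).2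
  have hX := hq 5 le_rfl (by norm_num)
  have hY := hq 6 (by norm_num) le_rfl
  obtain ⟨α, β, ξ, hαβ, hξ, hpen⟩ := pencil_singular (by omega) (by omega) f g
  obtain ⟨τ, rfl⟩ := Submodule.Quotient.mk_surjective _ ξ
  rw [hf, hg, ← Submodule.Quotient.mk_smul, ← Submodule.Quotient.mk_smul,
    ← Submodule.Quotient.mk_add, Submodule.Quotient.mk_eq_zero, Submodule.mem_comap] at hpen
  have hpen' : (α • (b 0 : F) + β • (b 1 : F)) * (τ : F) ∈ (H0 L) ^ 6 := by
    have h1 : (α • (b 0 : F) + β • (b 1 : F)) * (τ : F) =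
        α • ((b 0 : F) * (τ : F)) + β • ((b 1 : F) * (τ : F)) := by
      rw [add_mul, smul_mul_assoc, smul_mul_assoc]
    rw [h1]
    exact hpen
  apply hξ
  rw [Submodule.Quotient.mk_eq_zero, Submodule.mem_comap]
  change (τ : F) ∈ (H0 L) ^ 5
  rcases hαβ with h | h
  · exact stepQ_aux C h5 hL hd _ _ _ (b 0).2 (b 1).2 (b 2).2 hi hT α β h τ τ.2 hpen'
  · refine stepQ_aux C h5 hL hd (b 1 : F) (b 0 : F) (b 2 : F) (b 1).2 (b 0).2 (b 2).2 ?_ hT'
      β α h τ τ.2 ?_
    · intro p q r hpqr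
      have h1 := hi q p r (by rw [← hpqr]; abel)
      exact ⟨h1.2.1, h1.1, h1.2.2⟩
    · rw [add_comm]
      exact hpen'

end CLF
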