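import Pool.Agent.CLF.Num
import Pool.Agent.CLF.StepQ

/-!
# Module StepB3: minimal pencils when there is no degree five pencil

PROOF. `B0`: `D0` with `h0 = l ≥ 2`, `deg = 2l+1 ≤ g-1 ≤ 11`, so `l ≤ 5`.  `l = 2`: degree 5, contradiction to
`¬ Has5`.  `l = 3`: degree 7: `stepQ` gives `Has5`.  So `l = 4` (degree 9, `g ≥ 10`) or `l = 5` (degree 11,
`g = 12`).  Removing points (`exists_point`, `IsPt.drop`, `h0_drop`, `bdl_tw`): from `(9,4)` two points give a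
bundle of degree 7 with `h0 ≥ 2`; from `(11,5)` three points give degree 8 with `h0 ≥ 2`.
Let `k` be the least degree of a line bundle with `h0 ≥ 2` (all such degrees are ≥ 5 by L2, so there is a
least one; use `Int`/`Nat` well-ordering, e.g. `Nat.find` on `toNat`), attained by `A`.  `k ≥ 6` since
`¬ Has5`; `k ≤ 7`, or `k ≤ 8` and `g = 12`.
-/

open Module

namespace CLF

universe u

variable {F : Type u} [Field F] [Algebra ℂ F] {R : Fin 2 → Subalgebra ℂ F} {K : Lat F}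
variable {V : Type u} [AddCommGroup V] [Module ℂ V] [Module F V] [IsScalarTower ℂ F V]
  [FiniteDimensional F V]

theorem stepB3 (C : Ctx R K) (h5 : ¬ Has5 R) :
    ∃ A : Lat F, IsBdl R A ∧ 2 ≤ h0 A ∧
      (∀ D : Lat F, IsBdl R D → 2 ≤ h0 D → deg R A ≤ deg R D) ∧ 10 ≤ genus R ∧
      6 ≤ deg R A ∧ (deg R A ≤ 7 ∨ (deg R A = 8 ∧ genus R = 12)) := by
  have g9 := C.g9
  have g12 := C.g12
  have hlow : ∀ D : Lat F, IsBdl R D → 2 ≤ h0 D → 6 ≤ deg R D := by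
    intro D hD h2
    have h := C.L2 D hD 2 le_rfl (by omega)
    have hne : deg R D ≠ 5 := fun h' => h5 ⟨D, hD, h', h2⟩
    omega
  have hdrop : ∀ D : Lat F, IsBdl R D → ∃ D' : Lat F, IsBdl R D' ∧ deg R D' = deg R D - 1 ∧
      h0 D ≤ h0 D' + 1 := by
    intro D hD
    obtain ⟨P, hP⟩ := exists_point C.good
    exact ⟨tw P D, bdl_tw hP.bdl hD, hP.drop D hD, h0_drop C.good hP hD⟩
  obtain ⟨D1, hD1, h21, hg10, hD1d⟩ : ∃ D1 : Lat F, IsBdl R D1 ∧ 2 ≤ h0 D1 ∧ 10 ≤ genus R ∧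
      (deg R D1 ≤ 7 ∨ (deg R D1 = 8 ∧ genus R = 12)) := by
    obtain ⟨D0, hD0, h20, hd0, hle0⟩ := C.B0
    have hl5 : h0 D0 ≤ 5 := by omega
    have hl2 : h0 D0 ≠ 2 := by
      intro h
      exact h5 ⟨D0, hD0, by rw [hd0, h]; norm_num, h20⟩
    have hl3 : h0 D0 ≠ 3 := by
      intro h
      exact h5 (stepQ C hD0 (by rw [hd0, h]; norm_num) (by omega))
    obtain ⟨D2, hD2, hd2, hh2⟩ := hdrop D0 hD0
    obtain ⟨D3, hD3, hd3, hh3⟩ := hdrop D2 hD2
    obtain ⟨D4, hD4, hd4, hh4⟩ := hdrop D3 hD3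
    have hl : h0 D0 = 4 ∨ h0 D0 = 5 := by omega
    rcases hl with hl | hl
    · exact ⟨D3, hD3, by omega, by omega, Or.inl (by omega)⟩
    · exact ⟨D4, hD4, by omega, by omega, Or.inr ⟨by omega, by omega⟩⟩
  classical
  have hex : ∃ n : ℕ, ∃ D : Lat F, IsBdl R D ∧ 2 ≤ h0 D ∧ deg R D = (n : ℤ) := by
    have h := hlow D1 hD1 h21
    exact ⟨(deg R D1).toNat, D1, hD1, h21, by rw [Int.toNat_of_nonneg (by omega)]⟩
  obtain ⟨A, hA, hA2, hAd⟩ := Nat.find_spec hex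
  refine ⟨A, hA, hA2, ?_, hg10, hlow A hA hA2, ?_⟩
  · intro D hD hD2
    have h := hlow D hD hD2
    have hmin := Nat.find_min' hex (m := (deg R D).toNat)
      ⟨D, hD, hD2, by rw [Int.toNat_of_nonneg (by omega)]⟩
    rw [hAd]
    omega
  · have h := hlow D1 hD1 h21
    have hmin := Nat.find_min' hex (m := (deg R D1).toNat)
      ⟨D1, hD1, h21, by rw [Int.toNat_of_nonneg (by omega)]⟩
    omega

end CLF
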