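import Pool.Agent.CLF.StepB1
import Pool.Agent.CLF.StepB2
import Pool.Agent.CLF.StepB3
import Pool.Agent.CLF.FourB
import Pool.Agent.CLF.SpanPen

/-!
# Module StepB4: the case without degree five pencil

`E` bad, `NoLine F E`, `¬ Has5 R`.  PROOF.
`stepB1`, `stepB2`: `deg D ≠ 7` (else `h0 D ≥ 3` and `stepQ` gives `Has5`), so `s ≥ g - 2`.
`stepB3`: `A` of minimal degree `k`, pencil `a0, a1` by `gen_pencil`.
`f = h0 (tw (inv A) E) = 0` (`f_zero`), `f' = h0 (tw (inv A) (dl K E))`; `pnum`: `f' ≥ 3g-5-3k`.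
`s ≥ g-2 ≥ 8`.
If `f' ≥ 6`: `h3_tw` for `dl K E` (needs `6 ≤ h0 (dl K (dl K E)) = h0 E`): `2f'+2 ≤ 6g-14-2s-3k`, with
`f' ≥ 3g-5-3k`: `6g-8-6k ≤ 6g-14-2s-3k`, `2 s ≤ 3k - 6`.  `k ≤ 7`: `s ≤ 7`: no.  `k = 8`, `g = 12`: `s ≤ 9` but `s ≥ 10`: no.
If `f' ≤ 5`: `3g-5-3k ≤ 5`.  `k = 6`: `g ≤ 9` no.  `k = 8`, `g = 12`: `7 ≤ 5` no.  `k = 7`: `g ≤ 10`, so `g = 10`,
`f' ≥ 4`, `s ≥ 8`, `2 s ≤ 19`, `s ∈ {8, 9}`.  `E' := tw (inv A) (dl K E)` is semistable of degree
`6g-14-2s-21 = 25 - 2s ≤ 9`, `h0 E' = f' ≥ 4`.  `fourB`: `deg E' = 9`, `s = 8`, `f' = 4`, and the line bundle `M`; with `A`: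
`tw A E' = dl K E`, `h0 (dl K (dl K E)) + dim (H0 M * H0 (kd K A)) = 4 h0 (kd K A)`, `h0 (dl K (dl K E)) = h0 E = 11`.
`h0 A = 2`: if `h0 A ≥ 3`, `stepQ` (degree 7) gives `Has5`.  `h0 (kd K A) = 2 - (7+1-10) = 4` (`rr1`).
So `dim (H0 M * H0 (kd K A)) = 16 - 11 = 5`.
But take two independent `v0, v1 ∈ H0 M`, `N := gn R (span {v0,v1})`, `deg N ≥ 7` (minimality of `k`), and
`pencil` for `N` and the line bundle `kd K A`: `dim (span {v0,v1} * H0 (kd K A)) = 8 - h0 (tw (inv N) (kd K A))`, the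
last bundle has degree `≤ 11 - 7 = 4` so `h0 ≤ 1` (L2).  So the dimension is `≥ 7 > 5`: contradiction.
-/

open Module

namespace CLF

universe u

variable {F : Type u} [Field F] [Algebra ℂ F] {R : Fin 2 → Subalgebra ℂ F} {K : Lat F}
variable {V : Type u} [AddCommGroup V] [Module ℂ V] [Module F V] [IsScalarTower ℂ F V]
  [FiniteDimensional F V]

/-- the last contradiction -/
private theorem stepB4_last (C : Ctx R K) {A M : Lat F} (hA : IsBdl R A) (hM : IsBdl R M)
    (hmin : ∀ D : Lat F, IsBdl R D → 2 ≤ h0 D → deg R A ≤ deg R D) (hdA : deg R A = 7)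
    (hg : genus R = 10) (hk : h0 (kd K A) = 4) (hM4 : h0 M = 4)
    (h5 : finrank ℂ (H0 M * H0 (kd K A) : Submodule ℂ F) = 5) : False := by
  have G := C.good
  have hfM : FiniteDimensional ℂ (H0 M) := (G.fin F M hM).1
  have hkb : IsBdl R (kd K A) := bdl_kd G hA
  have hfK : FiniteDimensional ℂ (H0 (kd K A)) := (G.fin F _ hkb).1
  have hfr : finrank ℂ (H0 M) = 4 := hM4
  let b := Module.finBasisOfFinrankEq ℂ (H0 M) hfr
  have hli : LinearIndependent ℂ (fun j : Fin 4 => ((b j : H0 M) : F)) :=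
    b.linearIndependent.map' (Submodule.subtype _) (Submodule.ker_subtype _)
  obtain ⟨v0, hv0⟩ : ∃ v0, v0 = ((b 0 : H0 M) : F) := ⟨_, rfl⟩
  obtain ⟨v1, hv1⟩ : ∃ v1, v1 = ((b 1 : H0 M) : F) := ⟨_, rfl⟩
  have hli2 : LinearIndependent ℂ ![v0, v1] := by
    have h := hli.comp (![0, 1] : Fin 2 → Fin 4) (by decide)
    have h' : (fun j : Fin 4 => ((b j : H0 M) : F)) ∘ (![0, 1] : Fin 2 → Fin 4) = ![v0, v1] := by
      funext j
      fin_cases j
      · simp [hv0]
      · simp [hv1]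
    rwa [h'] at h
  have h0M : v0 ∈ H0 M := by rw [hv0]; exact (b 0).2
  have h1M : v1 ∈ H0 M := by rw [hv1]; exact (b 1).2
  have hv0ne : v0 ≠ 0 := by
    have := hli2.ne_zero 0
    simpa using this
  have hspan : Submodule.span F ((Submodule.span ℂ {v0, v1} : Submodule ℂ F) : Set F) = ⊤ := by
    rw [eq_top_iff]
    intro x _
    have h1 : v0 ∈ Submodule.span F ((Submodule.span ℂ {v0, v1} : Submodule ℂ F) : Set F) :=
      Submodule.subset_span (Submodule.subset_span (by simp))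
    have h2 := Submodule.smul_mem _ (x * v0⁻¹) h1
    rwa [smul_eq_mul, inv_mul_cancel_right₀ hv0ne] at h2
  have hfS : FiniteDimensional ℂ (Submodule.span ℂ {v0, v1} : Submodule ℂ F) :=
    FiniteDimensional.span_of_finite ℂ (Set.toFinite _)
  obtain ⟨N, hNdef⟩ : ∃ N : Lat F, N = gn R (Submodule.span ℂ {v0, v1}) := ⟨_, rfl⟩
  have hN : IsBdl R N := by rw [hNdef]; exact bdl_gn _ hfS hspan
  have hgen : ∀ i, N i = Oo R i * Submodule.span ℂ {v0, v1} := by
    intro i
    rw [hNdef]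
    rfl
  have hmemN : ∀ x ∈ (Submodule.span ℂ {v0, v1} : Submodule ℂ F), x ∈ H0 N := by
    intro x hx
    have h1 : ∀ i, x ∈ N i := by
      intro i
      rw [hgen i]
      have h2 := Submodule.mul_mem_mul (show (1 : F) ∈ Oo R i from one_mem (R i)) hx
      rwa [one_mul] at h2
    exact ⟨h1 0, h1 1⟩
  have hfN : FiniteDimensional ℂ (H0 N) := (G.fin F N hN).1
  have h2N : 2 ≤ h0 N := by
    have hm : ∀ j : Fin 2, (![v0, v1] : Fin 2 → F) j ∈ H0 N := by
      intro j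
      fin_cases j
      · exact hmemN _ (Submodule.subset_span (by simp))
      · exact hmemN _ (Submodule.subset_span (by simp))
    have hli3 : LinearIndependent ℂ (fun j => (⟨(![v0, v1] : Fin 2 → F) j, hm j⟩ : H0 N)) := by
      apply LinearIndependent.of_comp (Submodule.subtype _)
      exact hli2
    have h1 := hli3.fintype_card_le_finrank
    rwa [Fintype.card_fin] at h1
  have hdN : (7 : ℤ) ≤ deg R N := by rw [← hdA]; exact hmin N hN h2N
  have hp := pencil G hN hv0ne hgen hkb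
  have hdk : deg R (kd K A) = 11 := by
    rw [deg_kd G hA, hdA, hg]
    norm_num
  have hdt : deg R (tw (inv R N) (kd K A)) ≤ 4 := by
    rw [deg_tw1 G (bdl_inv G hN) hkb, deg_inv G hN, hdk]
    linarith
  have h01 : h0 (tw (inv R N) (kd K A)) ≤ 1 := by
    by_contra hcon
    push Not at hcon
    have h1 := C.L2 _ (bdl_tw (bdl_inv G hN) hkb) 2 le_rfl (by exact_mod_cast hcon)
    rw [hg] at h1
    norm_num at h1
    linarith
  have hle : (Submodule.span ℂ {v0, v1} • H0 (kd K A) : Submodule ℂ F) ≤ H0 M * H0 (kd K A) := by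
    have hsub : Submodule.span ℂ {v0, v1} ≤ H0 M := by
      rw [Submodule.span_le]
      intro x hx
      rcases hx with hx | hx
      · rw [hx]; exact h0M
      · rw [Set.mem_singleton_iff.1 hx]; exact h1M
    exact Submodule.smul_mono hsub (le_refl (H0 (kd K A)))
  have hfP : FiniteDimensional ℂ (H0 M * H0 (kd K A) : Submodule ℂ F) := by
    apply (Submodule.fg_iff_finiteDimensional _).1
    exact Submodule.FG.mul ((Submodule.fg_iff_finiteDimensional _).2 hfM)
      ((Submodule.fg_iff_finiteDimensional _).2 hfK)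
  have hfl := Submodule.finrank_mono hle
  rw [h5] at hfl
  rw [hk] at hp
  omega

theorem stepB4 (C : Ctx R K) {E : Lat V} {s : ℤ} (B : Bad R E s) (hN : NoLine F E)
    (h5 : ¬ Has5 R) : False := by
  have G := C.good
  obtain ⟨P, φ, D, u, hP, hφ, hker, hD, hu, hcm, hdD, hDu, hdM, hM, h3D⟩ := stepB1 C B hN
  have hMb : IsBdl R (mp φ E) := bdl_mp B.bdl φ hφ
  have hD7 : deg R D ≠ 7 := fun h => h5 (stepQ C hD h (by omega))
  have hsg : (genus R : ℤ) - 2 ≤ s := by
    rcases stepB2 C hD hMb s u B.s3 B.le hu hDu hdM hM h3D with h | h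
    · exact absurd h.2 hD7
    · exact h.2 hD7
  obtain ⟨A, hA, h2A, hmin, hg10, hk6, hk⟩ := stepB3 C h5
  obtain ⟨a0, a1, hpen⟩ := gen_pencil C hA h2A hmin
  have hf0 := f_zero C hA h2A B.bdl hN
  have hpn := pnum C hpen B.rank B.bdl
  obtain ⟨hdr, hdb, hdss, hdh0, hddeg, h6E, h6d⟩ := bad_dual C B
  have hsec := B.sec
  have hdg := B.dg
  have hle := B.le
  rw [hf0] at hpn
  rcases le_or_gt 6 (h0 (tw (inv R A) (dl K E))) with hf6 | hf6
  · have h1 := h3_tw C hpen hdr hdb hdss (by rw [h0_dl_dl G B.bdl]; exact h6E) hf6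
    rcases hk with hk | ⟨hk, hg⟩
    · omega
    · omega
  · have hg : genus R = 10 := by
      rcases hk with hk | ⟨hk, hg⟩ <;> omega
    have hdA : deg R A = 7 := by
      rcases hk with hk | ⟨hk, hg⟩ <;> omega
    have hib : IsBdl R (inv R A) := bdl_inv G hA
    have hEb : IsBdl R (tw (inv R A) (dl K E)) := bdl_tw hib hdb
    have hEs : Semistable R (tw (inv R A) (dl K E)) := ss_tw G hib hdb hdss
    have hEd : deg R (tw (inv R A) (dl K E)) = deg R (dl K E) + 3 * (- deg R A) := by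
      rw [deg_tw G hib hdb, deg_inv G hA, hdr]
      norm_num
    have hs8 : (8 : ℤ) ≤ s := by omega
    obtain ⟨hE4, hE9, M, hMb', hM9, hM4, hMg, hform⟩ := fourB C hdr hEb hEs (by omega) (by omega)
    have hs' : s = 8 := by omega
    have hA2 : h0 A = 2 := by
      by_contra hcon
      exact h5 (stepQ C hA hdA (by omega))
    have hrr := rr1 G hA
    have hk4 : h0 (kd K A) = 4 := by omega
    have h1 := hform A hA
    rw [tw_inv_tw G hA hdb, h0_dl_dl G B.bdl, hk4] at h1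
    have h2 : h0 E = 11 := by omega
    have h3 : finrank ℂ (H0 M * H0 (kd K A) : Submodule ℂ F) = 5 := by omega
    exact stepB4_last C hA hMb' hmin hdA hg hk4 hM4 h3

end CLF
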