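import Pool.Agent.CLF.StepB1
import Pool.Agent.CLF.StepB2

/-!
# Module StepBa: the case with a degree five pencil

`E` bad, `NoLine F E`, `A` of degree five with two sections.  PROOF.
`gen_five`: pencil, `h0 A = 2`.  `f = h0 (tw (inv A) E) = 0` (`f_zero`), `pnum`: `f' ≥ 3g - 20 ≥ 7`.
`h3_tw` for `dl K E`: `2f'+2 ≤ 6g-14-2s-15`, so `f' ≤ 3g-16-s` (integers) and `s ≤ 4`.
`stepB1`, `stepB2`: `s ≥ g-3 ≥ 6` is impossible, so `u = 1`, `deg D = 7`: `N := cm P.subtype E` has degree 7,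
`h0 N = 3`, `deg (mp φ E) = 2s+1`, `h0 (mp φ E) ≥ s`; and `h0 (mp φ E) ≤ s` by L2 with `h = s+1`
(`min (2s+3) (s+g-1) > 2s+1` for `s ≤ 4`, `g ≥ 9`).
Sections: `h0_add_map` (a = P.subtype, b = φ): `h0 E = 3 + dim φ(H0 E)`, so `dim φ(H0 E) = s = h0 (mp φ E)` and
`φ(H0 E) = H0 (mp φ E)` (`map_H0_le`, equal finite dimensions).
`NoLine F (cm P.subtype E)`: `ln_cm`.
-/

open Module

namespace CLF

universe u

variable {F : Type u} [Field F] [Algebra ℂ F] {R : Fin 2 → Subalgebra ℂ F} {K : Lat F}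
variable {V : Type u} [AddCommGroup V] [Module ℂ V] [Module F V] [IsScalarTower ℂ F V]
  [FiniteDimensional F V]

theorem stepBa (C : Ctx R K) {E : Lat V} {s : ℤ} (B : Bad R E s) (hN : NoLine F E)
    (h5 : Has5 R) :
    (s = 3 ∨ s = 4) ∧ ∃ (P : Submodule F V) (φ : V →ₗ[F] F), finrank F P = 2 ∧
      Function.Surjective φ ∧ LinearMap.ker φ = P ∧ deg R (cm P.subtype E) = 7 ∧
      h0 (cm P.subtype E) = 3 ∧ NoLine F (cm P.subtype E) ∧ deg R (mp φ E) = 2 * s + 1 ∧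
      (h0 (mp φ E) : ℤ) = s ∧ (H0 E).map (φ.restrictScalars ℂ) = H0 (mp φ E) := by
  obtain ⟨A, hA, hdA, h2A⟩ := h5
  obtain ⟨hA2, a0, a1, hP⟩ := gen_five C hA hdA h2A
  obtain ⟨hr, hb, hss, hh, hd, h6, h6'⟩ := bad_dual C B
  have hf := f_zero C hA h2A B.bdl hN
  have hp := pnum C hP B.rank B.bdl
  rw [hf, B.sec, B.dg, hdA] at hp
  have g9 := C.g9
  have g9' : (9 : ℤ) ≤ (genus R : ℤ) := by exact_mod_cast g9
  have hf7 : (7 : ℤ) ≤ (h0 (tw (inv R A) (dl K E)) : ℤ) := by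
    push_cast at hp
    linarith
  have h3 := h3_tw C hP hr hb hss (by rw [h0_dl_dl C.good B.bdl]; exact h6)
    (by have : 7 ≤ h0 (tw (inv R A) (dl K E)) := by exact_mod_cast hf7
        omega)
  rw [hd, hdA] at h3
  have hs4 : s ≤ 4 := by
    push_cast at hp
    linarith
  obtain ⟨P, φ, D, u, hP2, hφ, hker, hD, hu, hN0, hdD, hD0, hdM, hM0, hdD3⟩ := stepB1 C B hN
  have hMb : IsBdl R (mp φ E) := bdl_mp B.bdl φ hφ
  have h2 := stepB2 C hD hMb s u B.s3 B.le hu hD0 hdM hM0 hdD3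
  rcases h2 with ⟨hu1, hD7⟩ | ⟨h2, -⟩
  swap
  · exfalso
    linarith
  subst hu1
  rw [hD7] at hdM hdD
  have hM1 : (h0 (mp φ E) : ℤ) = s := by
    by_contra hne
    have h1 : s + 1 ≤ (h0 (mp φ E) : ℤ) := by omega
    have h4 := C.L2 (mp φ E) hMb (s + 1) (by have := B.s3; linarith) h1
    rw [hdM] at h4
    rcases min_le_iff.1 h4 with h | h <;> linarith
  have hNN : h0 (cm P.subtype E) = 3 := by
    have : (h0 (cm P.subtype E) : ℤ) = 3 := by linarith
    exact_mod_cast this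
  have hadd := h0_add_map C.good B.bdl P.subtype φ P.injective_subtype
    (by rw [Submodule.range_subtype, hker])
  have : FiniteDimensional ℂ (H0 (mp φ E)) := (C.good.fin F (mp φ E) hMb).1
  have hmap : (H0 E).map (φ.restrictScalars ℂ) = H0 (mp φ E) := by
    refine Submodule.eq_of_le_of_finrank_eq (map_H0_le E φ) ?_
    have h1 : (h0 E : ℤ) = (h0 (cm P.subtype E) : ℤ) +
        (finrank ℂ ((H0 E).map (φ.restrictScalars ℂ)) : ℤ) := by exact_mod_cast hadd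
    rw [B.sec, hNN] at h1
    have h2 : (finrank ℂ ((H0 E).map (φ.restrictScalars ℂ)) : ℤ) = (h0 (mp φ E) : ℤ) := by
      push_cast at h1
      linarith
    exact_mod_cast h2
  refine ⟨by have := B.s3; omega, P, φ, hP2, hφ, hker, hdD.symm, hNN, ?_, by linarith, hM1, hmap⟩
  intro w hw
  rw [ln_cm]
  exact hN _ (by simpa using hw)

end CLF
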