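import Pool.Agent.CLF.Num

/-!
# Module StepM: the quotient line bundle contains the pencil

PROOF. `gen_five`, `pencil_le` (V = F): `2 h0 M ≤ h0 (tw A M) + h0 (tw (inv A) M)`.  `deg (tw A M) = 2s+6`.
If `h0 (tw (inv A) M) = 0` then `h0 (tw A M) ≥ 2 s`.  `s = 3`: degree 12, `h0 ≥ 6`: L2 `min 13 (g+4) = 13 > 12`.
`s = 4`: degree 14, `h0 ≥ 8`: L2 `min 17 (g+6) ≥ 15 > 14`.  Contradiction.
-/

open Module

namespace CLF

universe u

variable {F : Type u} [Field F] [Algebra ℂ F] {R : Fin 2 → Subalgebra ℂ F} {K : Lat F}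
variable {V : Type u} [AddCommGroup V] [Module ℂ V] [Module F V] [IsScalarTower ℂ F V]
  [FiniteDimensional F V]

theorem stepM (C : Ctx R K) {A M : Lat F} (hA : IsBdl R A) (dA : deg R A = 5) (sA : 2 ≤ h0 A)
    (hM : IsBdl R M) {s : ℤ} (hs : s = 3 ∨ s = 4) (dM : deg R M = 2 * s + 1)
    (sM : s ≤ (h0 M : ℤ)) : ∃ c ∈ H0 (tw (inv R A) M), c ≠ 0 := by
  obtain ⟨_, a0, a1, hp⟩ := gen_five C hA dA sA
  have g9 := C.g9
  have ha0 : a0 ≠ 0 := by
    have h := hp.ind.ne_zero 0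
    simpa using h
  have hpen := pencil_le C.good hA ha0 hp.gen hM
  have hdeg := deg_tw1 C.good hA hM
  have hbdl : IsBdl R (tw A M) := bdl_tw hA hM
  by_contra hno
  push Not at hno
  have hbot : H0 (tw (inv R A) M) = ⊥ := by
    rw [eq_bot_iff]
    intro c hc
    rw [Submodule.mem_bot]
    exact hno c hc
  have hz : h0 (tw (inv R A) M) = 0 := by
    unfold h0
    rw [hbot, finrank_bot]
  rw [hz] at hpen
  have hL2 := C.L2 (tw A M) hbdl (2 * s) (by rcases hs with rfl | rfl <;> norm_num) (by omega)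
  rcases hs with rfl | rfl
  · omega
  · omega

end CLF
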