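import Pool.Agent.CLF.Num
import Pool.Agent.CLF.Pen

/-!
# Module StepX: the lifting argument

`A` a pencil, `E` a bundle on `V`, `φ : V → F` surjective with kernel `P`, `N = cm P.subtype E`; assume
`h0 (tw (inv A) E) = 0`, `h0 N = 3`, `h0 (tw A N) ≤ 6`, `φ(H0 E) = H0 (mp φ E)`, and a nonzero
`c ∈ H0 (tw (inv A) (mp φ E))`.  CONTRADICTION.
PROOF. `h0 (tw (inv A) N) = 0`: `tw (inv A) N = cm P.subtype (tw (inv A) E)` (`cm_tw`), its sections map injectively
into `H0 (tw (inv A) E) = 0`.  `pencil` for `N`: `dim (span {a0,a1} • H0 N) = 6`, and this space is contained in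
`H0 (tw A N)` of dimension ≤ 6; so `H0 (tw A N) = span {a0,a1} • H0 N = {a0 • n + a1 • n' | n, n' ∈ H0 N}`.
`c * a0, c * a1 ∈ H0 (mp φ E)` (`eff`); choose `σ0, σ1 ∈ H0 E` with `φ σ_k = c * a_k`.
`ξ := a1 • σ0 - a0 • σ1` has `φ ξ = 0`, so `ξ ∈ P`, and `ξ ∈ H0 (tw A E)`; so `ξ`, as an element of `P`, lies in
`H0 (cm P.subtype (tw A E)) = H0 (tw A N)` (`cm_tw`), hence `ξ = a1 • n0 - a0 • n1` with `n0, n1 ∈ H0 N` (viewed in `V`, in `H0 E`).
So `a1 • (σ0 - n0) = a0 • (σ1 - n1)`.  Put `σ := a0⁻¹ • (σ0 - n0)`; then `a0 • σ = σ0 - n0 ∈ H0 E`,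
`a1 • σ = σ1 - n1 ∈ H0 E` (`a0 ≠ 0`), so `A i • σ ≤ E i` (`A i = Oo R i * span {a0,a1}`), `σ ∈ H0 (tw (inv A) E)` (`mem_inv_tw`),
so `σ = 0`.  But `φ (a0 • σ) = φ σ0 - φ n0 = c a0 ≠ 0`.  (`a0, a1 ≠ 0` by independence.)
-/

open Module

namespace CLF

universe u

variable {F : Type u} [Field F] [Algebra ℂ F] {R : Fin 2 → Subalgebra ℂ F} {K : Lat F}
variable {V : Type u} [AddCommGroup V] [Module ℂ V] [Module F V] [IsScalarTower ℂ F V]
  [FiniteDimensional F V]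

omit [FiniteDimensional F V] in
private theorem mem_pair_smul {a0 a1 : F} {T : Submodule ℂ V} {x : V}
    (hx : x ∈ (Submodule.span ℂ {a0, a1} • T : Submodule ℂ V)) :
    ∃ n ∈ T, ∃ n' ∈ T, x = a0 • n + a1 • n' := by
  refine Submodule.smul_induction_on hx ?_ ?_
  · intro r hr n hn
    obtain ⟨α, β, rfl⟩ := Submodule.mem_span_pair.mp hr
    refine ⟨α • n, T.smul_mem α hn, β • n, T.smul_mem β hn, ?_⟩
    rw [add_smul, smul_assoc, smul_assoc, smul_comm a0 α n, smul_comm a1 β n]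
  · rintro x y ⟨n, hn, n', hn', rfl⟩ ⟨m, hm, m', hm', rfl⟩
    refine ⟨n + m, T.add_mem hn hm, n' + m', T.add_mem hn' hm', ?_⟩
    rw [smul_add, smul_add]
    abel

theorem stepX (C : Ctx R K) {A : Lat F} {a0 a1 : F} (hA : IsPencil R A a0 a1) {E : Lat V}
    (hE : IsBdl R E) (φ : V →ₗ[F] F) (hφ : Function.Surjective φ)
    (hz : h0 (tw (inv R A) E) = 0) (h3 : h0 (cm (LinearMap.ker φ).subtype E) = 3)
    (h6 : h0 (tw A (cm (LinearMap.ker φ).subtype E)) ≤ 6)
    (hsurj : (H0 E).map (φ.restrictScalars ℂ) = H0 (mp φ E)) (c : F)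
    (hc : c ∈ H0 (tw (inv R A) (mp φ E))) (hc0 : c ≠ 0) : False := by
  classical
  have G := C.good
  have ha0 : a0 ≠ 0 := by
    have := hA.ind.ne_zero 0
    simpa using this
  have hinj : Function.Injective (LinearMap.ker φ).subtype := Submodule.injective_subtype _
  have hb : IsBdl R (cm (LinearMap.ker φ).subtype E) := bdl_cm G hE _ hinj
  have hinvA : IsBdl R (inv R A) := bdl_inv G hA.bdl
  have hspan : Submodule.span ℂ {a0, a1} ≤ H0 A := by
    rw [Submodule.span_le]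
    rintro x hx
    rcases hx with rfl | hx
    · exact hA.m0
    · rw [Set.mem_singleton_iff.mp hx]; exact hA.m1
  -- no sections of the negative twist
  have hbot : H0 (tw (inv R A) E) = ⊥ := by
    haveI := (G.fin V _ (bdl_tw hinvA hE)).1
    exact Submodule.finrank_eq_zero.mp hz
  have hzN : h0 (tw (inv R A) (cm (LinearMap.ker φ).subtype E)) = 0 := by
    rw [← cm_tw G hinvA hE _ hinj, h0_cm_sub, hbot]
    simp
  have hpen := pencil G hA.bdl ha0 hA.gen hb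
  rw [hzN, h3] at hpen
  haveI hfinN := (G.fin _ _ (bdl_tw hA.bdl hb)).1
  have heq : (Submodule.span ℂ {a0, a1} • H0 (cm (LinearMap.ker φ).subtype E) :
      Submodule ℂ (LinearMap.ker φ)) = H0 (tw A (cm (LinearMap.ker φ).subtype E)) := by
    apply Submodule.eq_of_le_of_finrank_le
    · exact smul_H0_le hspan le_rfl
    · have : finrank ℂ (H0 (tw A (cm (LinearMap.ker φ).subtype E))) ≤ 6 := h6
      omega
  have hM : IsBdl R (mp φ E) := bdl_mp hE φ hφ
  have hl0 : a0 • c ∈ (H0 E).map (φ.restrictScalars ℂ) := by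
    rw [hsurj]; exact eff G hA.bdl hM hc a0 hA.m0
  have hl1 : a1 • c ∈ (H0 E).map (φ.restrictScalars ℂ) := by
    rw [hsurj]; exact eff G hA.bdl hM hc a1 hA.m1
  obtain ⟨σ0, hσ0, hφ0⟩ := hl0
  obtain ⟨σ1, hσ1, hφ1⟩ := hl1
  have hφ0' : φ σ0 = a0 * c := by simpa using hφ0
  have hφ1' : φ σ1 = a1 * c := by simpa using hφ1
  set ξ : V := a1 • σ0 - a0 • σ1 with hξ
  have hker : ξ ∈ LinearMap.ker φ := by
    rw [LinearMap.mem_ker, hξ, map_sub, map_smul, map_smul, hφ0', hφ1']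
    simp only [smul_eq_mul]
    ring
  have hξA : ξ ∈ H0 (tw A E) := by
    apply Submodule.sub_mem
    · exact smul_H0_le le_rfl le_rfl (Submodule.smul_mem_smul hA.m1 hσ0)
    · exact smul_H0_le le_rfl le_rfl (Submodule.smul_mem_smul hA.m0 hσ1)
  have hξN : (⟨ξ, hker⟩ : LinearMap.ker φ) ∈ H0 (tw A (cm (LinearMap.ker φ).subtype E)) := by
    rw [← cm_tw G hA.bdl hE _ hinj]
    exact ⟨hξA.1, hξA.2⟩
  rw [← heq] at hξN
  obtain ⟨n, hn, n', hn', hnn⟩ := mem_pair_smul hξN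
  have hval : ξ = a0 • (n : V) + a1 • (n' : V) := by
    have := congrArg (Subtype.val) hnn
    simpa using this
  have hn0 : (n : V) ∈ H0 E := ⟨hn.1, hn.2⟩
  have hn0' : (n' : V) ∈ H0 E := ⟨hn'.1, hn'.2⟩
  set σ : V := a0⁻¹ • (σ0 - (n' : V)) with hσ
  have h0σ : a0 • σ = σ0 - (n' : V) := by
    rw [hσ, smul_smul, mul_inv_cancel₀ ha0, one_smul]
  have h1σ : a1 • σ = σ1 + (n : V) := by
    have h1 : a1 • (σ0 - (n' : V)) = a0 • (σ1 + (n : V)) := by
      rw [smul_sub, smul_add]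
      have := hval
      rw [hξ] at this
      rw [sub_eq_iff_eq_add] at this
      rw [this]
      abel
    rw [hσ, smul_comm, h1, smul_smul, inv_mul_cancel₀ ha0, one_smul]
  have hσmem : σ ∈ H0 (tw (inv R A) E) := by
    have hi : ∀ i, σ0 - (n' : V) ∈ E i → σ1 + (n : V) ∈ E i → σ ∈ tw (inv R A) E i := by
      intro i h1 h2
      rw [mem_inv_tw G hA.bdl hE]
      intro a ha
      rw [hA.gen i] at ha
      refine Submodule.mul_induction_on ha ?_ ?_
      · intro r hr t ht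
        obtain ⟨α, β, rfl⟩ := Submodule.mem_span_pair.mp ht
        rw [mul_smul]
        apply smul_stable hE i hr
        rw [add_smul, smul_assoc, smul_assoc, h0σ, h1σ]
        exact (E i).add_mem ((E i).smul_mem α h1) ((E i).smul_mem β h2)
      · intro x y hx hy
        rw [add_smul]
        exact (E i).add_mem hx hy
    have hs0 := (H0 E).sub_mem hσ0 hn0'
    have hs1 := (H0 E).add_mem hσ1 hn0
    exact ⟨hi 0 hs0.1 hs1.1, hi 1 hs0.2 hs1.2⟩
  rw [hbot, Submodule.mem_bot] at hσmem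
  rw [hσmem, smul_zero] at h0σ
  have h4 : σ0 = (n' : V) := (sub_eq_zero.mp h0σ.symm)
  have h5 : φ σ0 = 0 := by rw [h4]; exact n'.2
  rw [hφ0'] at h5
  exact mul_ne_zero ha0 hc0 h5

end CLF
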