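import Pool.Agent.CLF.Lbd
import Pool.Agent.CLF.Iso

/-!
# Module Scl: scaling a line bundle by an element of the function field

`sc x A i = x * A i`.
PROOFS. `x ≠ 0`; multiplication by `x` is an `F`-linear automorphism of `F`, so it preserves bundles,
`h0`, `h1`, `deg`.  `H0_sc`: `x (A 0 ∩ A 1) = x A 0 ∩ x A 1`.
`kd_sc`: `z * (x a) ∈ K i for all a ∈ A i` iff `z x ∈ kd K A i`, i.e. `z ∈ x⁻¹ kd K A i`.
`finrank_mul_map`: `S * x T = x (S * T)`, and multiplication by `x` is injective.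
`inv_sc`: same as `kd_sc` with `Oo R`.
-/

open Module

namespace CLF

universe u

variable {F : Type u} [Field F] [Algebra ℂ F] {R : Fin 2 → Subalgebra ℂ F} {K : Lat F}
variable {V : Type u} [AddCommGroup V] [Module ℂ V] [Module F V] [IsScalarTower ℂ F V]
  [FiniteDimensional F V]

/-- the scaled lattice -/
def sc (x : F) (A : Lat F) : Lat F := fun i => (A i).map (LinearMap.mulLeft ℂ x)

private theorem scl_mem {x : F} {N : Submodule ℂ F} {y : F} (hx : x ≠ 0) :
    y ∈ N.map (LinearMap.mulLeft ℂ x) ↔ x⁻¹ * y ∈ N := by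
  constructor
  · rintro ⟨z, hz, rfl⟩
    rwa [LinearMap.mulLeft_apply, inv_mul_cancel_left₀ hx]
  · intro h
    exact ⟨x⁻¹ * y, h, by rw [LinearMap.mulLeft_apply, mul_inv_cancel_left₀ hx]⟩

private theorem scl_mp (A : Lat F) {x : F} (hx : x ≠ 0) :
    ∃ e : F ≃ₗ[F] F, sc x A = mp (e : F →ₗ[F] F) A := by
  refine ⟨LinearEquiv.smulOfNeZero F F x hx, ?_⟩
  rfl

theorem bdl_sc {A : Lat F} (hA : IsBdl R A) {x : F} (hx : x ≠ 0) : IsBdl R (sc x A) := by
  obtain ⟨e, he⟩ := scl_mp A hx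
  rw [he]
  exact bdl_equiv hA e

theorem deg_sc (A : Lat F) {x : F} (hx : x ≠ 0) : deg R (sc x A) = deg R A := by
  obtain ⟨e, he⟩ := scl_mp A hx
  rw [he]
  exact deg_equiv A e

theorem H0_sc (A : Lat F) {x : F} (hx : x ≠ 0) :
    H0 (sc x A) = (H0 A).map (LinearMap.mulLeft ℂ x) := by
  ext y
  rw [scl_mem hx]
  unfold H0 sc
  rw [Submodule.mem_inf, Submodule.mem_inf, scl_mem hx, scl_mem hx]

theorem h0_sc (A : Lat F) {x : F} (hx : x ≠ 0) : h0 (sc x A) = h0 A := by
  obtain ⟨e, he⟩ := scl_mp A hx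
  rw [he]
  exact h0_equiv A e

theorem kd_sc (A : Lat F) {x : F} (hx : x ≠ 0) : kd K (sc x A) = sc x⁻¹ (kd K A) := by
  funext i
  ext y
  have h1 : y ∈ sc x⁻¹ (kd K A) i ↔ x * y ∈ K i / A i := by
    have h2 := scl_mem (N := kd K A i) (y := y) (inv_ne_zero hx)
    rw [_root_.inv_inv] at h2
    exact h2
  rw [h1]
  change y ∈ K i / (A i).map (LinearMap.mulLeft ℂ x) ↔ _
  rw [Submodule.mem_div_iff_forall_mul_mem, Submodule.mem_div_iff_forall_mul_mem]
  constructor
  · intro h z hz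
    have := h (x * z) ⟨z, hz, rfl⟩
    rwa [mul_left_comm, ← mul_assoc] at this
  · rintro h _ ⟨z, hz, rfl⟩
    have := h z hz
    rwa [mul_assoc, mul_left_comm] at this

theorem finrank_mul_map (S T : Submodule ℂ F) {x : F} (hx : x ≠ 0) :
    finrank ℂ (S * T.map (LinearMap.mulLeft ℂ x) : Submodule ℂ F)
      = finrank ℂ (S * T : Submodule ℂ F) := by
  have hinj : Function.Injective (LinearMap.mulLeft ℂ x) := by
    intro a b hab
    exact mul_left_cancel₀ hx hab
  have h1 : (S * T.map (LinearMap.mulLeft ℂ x) : Submodule ℂ F) =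
      (S * T).map (LinearMap.mulLeft ℂ x) := by
    apply le_antisymm
    · rw [Submodule.mul_le]
      rintro m hm _ ⟨t, ht, rfl⟩
      refine ⟨m * t, Submodule.mul_mem_mul hm ht, ?_⟩
      rw [LinearMap.mulLeft_apply, LinearMap.mulLeft_apply]
      ring
    · rw [Submodule.map_le_iff_le_comap, Submodule.mul_le]
      intro m hm t ht
      rw [Submodule.mem_comap, LinearMap.mulLeft_apply, mul_left_comm]
      exact Submodule.mul_mem_mul hm ⟨t, ht, rfl⟩
  rw [h1]
  exact (Submodule.equivMapOfInjective _ hinj (S * T)).finrank_eq.symm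

theorem sc_le {A L : Lat F} {x : F} (h : ∀ i, ∀ a ∈ A i, x * a ∈ L i) :
    ∀ i, sc x A i ≤ L i := by
  intro i
  rintro _ ⟨a, ha, rfl⟩
  exact h i a ha

end CLF
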