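import Pool.Agent.CLF.Ctx
import Pool.Agent.CLF.Pr2
import Pool.Agent.CLF.Rel2
import Pool.Agent.CLF.Num

/-!
# Module Three: rank two bundles of degree seven with three sections and no line with two sections

PROOF. `V` is 2-dimensional.  Two ℂ-independent sections `w 0, w 1` of `N` are `F`-independent (otherwise
`w 1 = x • w 0` and the line through `w 0` has two sections, `h0_ln`, contradicting `NoLine`).  So `H0 N` spans `V`
and `N' := gn R (H0 N) ≤ N` is a bundle, `H0 N ≤ H0 N'`.  `pr2` for `N'`, `S = H0 N`, `m = 3`: the line alternative is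
excluded, so `D` with `deg D = deg N'`, `h0 D ≥ 3`, `deg N' ≥ 7` (L2), so `N' = N` (`deg_mono`, `eq_of_deg_eq`).
Let `b : Fin 3 → V` be a basis of `H0 N`; `rel` with `n = 2` gives `v` and `L := gn R (span ℂ (range v))` of degree 7
and the count; `relation_indep`: `v` independent, so `h0 L ≥ 3`, and `h0 L ≤ 3` by L2 (`h = 4`: degree ≥ 9).
So `H0 L = span ℂ (range v)`, `L i = Oo R i * H0 L`.
-/

open Module

namespace CLF

universe u

variable {F : Type u} [Field F] [Algebra ℂ F] {R : Fin 2 → Subalgebra ℂ F} {K : Lat F}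
variable {V : Type u} [AddCommGroup V] [Module ℂ V] [Module F V] [IsScalarTower ℂ F V]
  [FiniteDimensional F V]

theorem three (C : Ctx R K) (hV : finrank F V = 2) {N : Lat V} (hb : IsBdl R N)
    (hd : deg R N = 7) (h3 : h0 N = 3) (hN : NoLine F N) :
    ∃ L : Lat F, IsBdl R L ∧ deg R L = 7 ∧ h0 L = 3 ∧ (∀ i, L i = Oo R i * H0 L) ∧
      ∀ A : Lat F, IsBdl R A →
        h0 (dl K (tw A N)) + finrank ℂ (H0 L * H0 (kd K A) : Submodule ℂ F)
          = 3 * h0 (kd K A) := by
  have G := C.good
  have g9 := C.g9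
  have g9' : (9 : ℤ) ≤ (genus R : ℤ) := by exact_mod_cast g9
  have : FiniteDimensional ℂ (H0 N) := (G.fin V N hb).1
  have hind : ∀ w : Fin 2 → V, (∀ j, w j ∈ H0 N) → LinearIndependent ℂ w →
      LinearIndependent F w := by
    intro w hw hwi
    by_contra hF
    have hw0 : w 0 ≠ 0 := hwi.ne_zero 0
    have hex : ∃ x : F, x • w 0 = w 1 := by
      by_contra hx
      push Not at hx
      apply hF
      have h1 := (LinearIndependent.pair_iff' hw0).2 hx
      have h2 : w = ![w 0, w 1] := by
        ext j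
        fin_cases j <;> rfl
      rw [h2]
      exact h1
    obtain ⟨x, hx⟩ := hex
    have h1 := hN (w 0) hw0
    rw [h0_ln N hw0] at h1
    have hmem : ∀ j, w j ∈ (H0 N ⊓ (Submodule.span F {w 0}).restrictScalars ℂ :
        Submodule ℂ V) := by
      intro j
      refine ⟨hw j, ?_⟩
      fin_cases j
      · exact Submodule.mem_span_singleton_self _
      · show w 1 ∈ Submodule.span F {w 0}
        rw [← hx]
        exact Submodule.smul_mem _ _ (Submodule.mem_span_singleton_self _)
    have : FiniteDimensional ℂ (H0 N ⊓ (Submodule.span F {w 0}).restrictScalars ℂ :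
        Submodule ℂ V) := Submodule.finiteDimensional_of_le inf_le_left
    let w' : Fin 2 → (H0 N ⊓ (Submodule.span F {w 0}).restrictScalars ℂ : Submodule ℂ V) :=
      fun j => ⟨w j, hmem j⟩
    have hw' : LinearIndependent ℂ w' := by
      apply LinearIndependent.of_comp
        (H0 N ⊓ (Submodule.span F {w 0}).restrictScalars ℂ : Submodule ℂ V).subtype
      exact hwi
    have h2 := hw'.fintype_card_le_finrank
    rw [Fintype.card_fin] at h2
    omega
  let b0 : Basis (Fin 3) ℂ (H0 N) := finBasisOfFinrankEq ℂ (H0 N) h3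
  let b : Fin 3 → V := fun j => (b0 j : V)
  have hbs : Submodule.span ℂ (Set.range b) = H0 N := by
    have h1 : Set.range b = (H0 N).subtype '' Set.range b0 := by
      rw [← Set.range_comp]
      rfl
    rw [h1, Submodule.span_image, b0.span_eq, Submodule.map_top, Submodule.range_subtype]
  have hbi : LinearIndependent ℂ b :=
    b0.linearIndependent.map' (H0 N).subtype (Submodule.ker_subtype _)
  have hsp : Submodule.span F ((H0 N : Submodule ℂ V) : Set V) = ⊤ := by
    have h1 : LinearIndependent ℂ (b ∘ (Fin.castSucc : Fin 2 → Fin 3)) :=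
      hbi.comp _ (Fin.castSucc_injective 2)
    have h2 := hind (b ∘ (Fin.castSucc : Fin 2 → Fin 3)) (fun j => (b0 j.castSucc).2) h1
    have h3 := h2.span_eq_top_of_card_eq_finrank (by rw [Fintype.card_fin, hV])
    rw [eq_top_iff, ← h3, Submodule.span_le]
    rintro _ ⟨j, rfl⟩
    exact Submodule.subset_span (b0 j.castSucc).2
  have hN'b : IsBdl R (gn R (H0 N)) := bdl_gn (H0 N) inferInstance hsp
  have hN'le : ∀ i, gn R (H0 N) i ≤ N i := by
    intro i
    have h1 : H0 N ≤ N i := by
      fin_cases i
      · exact inf_le_left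
      · exact inf_le_right
    calc gn R (H0 N) i = Oo R i • H0 N := rfl
      _ ≤ Oo R i • N i := Submodule.smul_mono le_rfl h1
      _ = N i := O_smul hb i
  have hHN : H0 N ≤ H0 (gn R (H0 N)) := by
    intro x hx
    have h1 : ∀ i, x ∈ gn R (H0 N) i := by
      intro i
      have h2 : (1 : F) • x ∈ Oo R i • H0 N :=
        Submodule.smul_mem_smul (show (1 : F) ∈ Oo R i from (R i).one_mem) hx
      rw [one_smul] at h2
      exact h2
    exact ⟨h1 0, h1 1⟩
  have hfN : finrank ℂ (H0 N) = 3 := h3
  have hN7 : (7 : ℤ) ≤ deg R (gn R (H0 N)) := by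
    rcases pr2 G hV hN'b (H0 N) hHN (by rw [hfN]; norm_num) with ⟨w, hw, h1⟩ | ⟨D, hD, hdD, h1⟩
    · exfalso
      have h2 := hN w hw
      rw [h0_ln N hw] at h2
      omega
    · rw [hfN] at h1
      have h2 := C.L2 D hD 3 (by norm_num) (by exact_mod_cast (by omega : 3 ≤ h0 D))
      rw [hdD] at h2
      rcases min_le_iff.1 h2 with h | h <;> linarith
  have hNeq : gn R (H0 N) = N := by
    refine eq_of_deg_eq G hN'b hb hN'le ?_
    have h1 := deg_mono G hN'b hb hN'le
    rw [hd] at h1 ⊢
    linarith
  have hbF : Submodule.span F (Set.range b) = ⊤ := by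
    rw [← hsp, ← hbs, Submodule.span_span_of_tower]
  obtain ⟨v, hv, hrel, huni, hM, hdM, hcount⟩ := rel G 2 (by norm_num) hV b hbF
  have hvi : LinearIndependent ℂ v := by
    refine relation_indep 2 b hbi v hv hrel ?_
    intro w hw hwi
    exact hind w (fun j => by rw [← hbs]; exact hw j) hwi
  rw [hbs, hNeq, hd] at hdM
  have : FiniteDimensional ℂ (H0 (gn R (Submodule.span ℂ (Set.range v)) : Lat F)) :=
    (G.fin F _ hM).1
  have hle : Submodule.span ℂ (Set.range v) ≤
      H0 (gn R (Submodule.span ℂ (Set.range v)) : Lat F) := by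
    intro x hx
    have h1 : ∀ i, x ∈ gn R (Submodule.span ℂ (Set.range v)) i := by
      intro i
      have h2 : (1 : F) • x ∈ Oo R i • Submodule.span ℂ (Set.range v) :=
        Submodule.smul_mem_smul (show (1 : F) ∈ Oo R i from (R i).one_mem) hx
      rw [one_smul] at h2
      exact h2
    exact ⟨h1 0, h1 1⟩
  have hfv : finrank ℂ (Submodule.span ℂ (Set.range v)) = 3 := by
    rw [finrank_span_eq_card hvi, Fintype.card_fin]
  have h3' : 3 ≤ h0 (gn R (Submodule.span ℂ (Set.range v)) : Lat F) := by
    rw [← hfv]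
    exact Submodule.finrank_mono hle
  have hM3 : h0 (gn R (Submodule.span ℂ (Set.range v)) : Lat F) = 3 := by
    by_contra hne
    have h5 : 4 ≤ h0 (gn R (Submodule.span ℂ (Set.range v)) : Lat F) := by omega
    have h6 := C.L2 _ hM 4 (by norm_num) (by exact_mod_cast h5)
    rw [hdM] at h6
    rcases min_le_iff.1 h6 with h | h <;> linarith
  have hH : Submodule.span ℂ (Set.range v) =
      H0 (gn R (Submodule.span ℂ (Set.range v)) : Lat F) :=
    Submodule.eq_of_le_of_finrank_eq hle (by rw [hfv]; exact hM3.symm)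
  refine ⟨gn R (Submodule.span ℂ (Set.range v)), hM, hdM, hM3, ?_, ?_⟩
  · intro i
    rw [← hH]
    rfl
  · intro A hA
    have h7 := hcount A hA
    rw [hbs, hNeq] at h7
    rw [← hH]
    simpa using h7

end CLF
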