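import Pool.Agent.CLF.Y7
import Pool.Agent.CLF.Three
import Pool.Agent.CLF.Scl

/-!
# Module Y8: the twisted rank two bundle has at most six sections

PROOF. `three` gives `L`.  `pencil_le` (V = F): `2 * 3 ≤ h0 (tw A0 L) + h0 (tw (inv A0) L)`, `deg (tw A0 L) = 12`, so
`h0 (tw A0 L) ≤ 5` (L2) and there is a nonzero section of `tw (inv A0) L`; `exists_scale_of_h0` gives `A ≤ L` of
degree 5 with `h0 A = h0 A0 = 2`.  `gen_five`: `a0, a1`.  So `YC R A L a0 a1`.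
`rr` for `tw A N` (rank 2, degree `7 + 10 = 17`): `h0 (tw A N) = 17 + 2 (1-g) + h0 (dl K (tw A N))` and
`h0 (dl K (tw A N)) = 3 (g-4) - dim (H0 L * H0 (kd K A)) ≤ 3 (g-4) - (g+1) = 2g - 13` (`three`, `yc_basic`, `y7`).
Hence `h0 (tw A N) ≤ 17 + 2 - 2g + 2g - 13 = 6`.
-/

open Module

namespace CLF

universe u

variable {F : Type u} [Field F] [Algebra ℂ F] {R : Fin 2 → Subalgebra ℂ F} {K : Lat F}
variable {V : Type u} [AddCommGroup V] [Module ℂ V] [Module F V] [IsScalarTower ℂ F V]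
  [FiniteDimensional F V]

theorem y8 (C : Ctx R K) (hV : finrank F V = 2) {N : Lat V} (hb : IsBdl R N)
    (hd : deg R N = 7) (h3 : h0 N = 3) (hN : NoLine F N) (h5 : Has5 R) :
    ∃ (A : Lat F) (a0 a1 : F), IsPencil R A a0 a1 ∧ deg R A = 5 ∧ h0 A = 2 ∧
      h0 (tw A N) ≤ 6 := by
  have G := C.good
  obtain ⟨L, bL, dL, sL, gL, hL⟩ := three C hV hb hd h3 hN
  obtain ⟨A0, bA0, dA0, sA0⟩ := h5
  obtain ⟨hA0, b0, b1, P0⟩ := gen_five C bA0 dA0 sA0
  have hb0 : b0 ≠ 0 := by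
    have := P0.ind.ne_zero 0
    simpa using this
  have hp := pencil_le G bA0 hb0 P0.gen bL
  have hdeg : deg R (tw A0 L) = 12 := by
    rw [deg_tw1 G bA0 bL, dA0, dL]; norm_num
  have h5' : h0 (tw A0 L) ≤ 5 := by
    by_contra hcon
    have := C.L2 _ (bdl_tw bA0 bL) 6 (by norm_num) (by omega)
    have g9 := C.g9
    rw [hdeg] at this
    omega
  obtain ⟨A, bA, hAL, dA, hA⟩ := exists_scale_of_h0 G bA0 bL (by omega)
  rw [dA0] at dA
  rw [hA0] at hA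
  obtain ⟨-, a0, a1, P⟩ := gen_five C bA dA (by omega)
  have Y : YC R A L a0 a1 := ⟨P, dA, hA, bL, dL, sL, gL, hAL⟩
  refine ⟨A, a0, a1, P, dA, hA, ?_⟩
  obtain ⟨-, -, -, -, -, -, -, -, hkA⟩ := yc_basic C Y
  have h7 := y7 C Y
  have h8 := hL A bA
  have h9 := rr G (bdl_tw bA hb)
  rw [deg_tw G bA hb, hV, hd, dA] at h9
  push_cast at h9
  omega

end CLF
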