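import Pool.Agent.CLF.StepA
import Pool.Agent.CLF.StepB4
import Pool.Agent.CLF.StepBa
import Pool.Agent.CLF.StepM
import Pool.Agent.CLF.Y8
import Pool.Agent.CLF.StepX
import Pool.Agent.CLF.CtxA
import Pool.Agent.CLF.CtxB
import Pool.Agent.CLF.GoodX

/-!
# Final: assembly (proved from the modules)
-/

open Module

namespace CLF

universe u

section

variable {F : Type u} [Field F] [Algebra ℂ F] {R : Fin 2 → Subalgebra ℂ F} {K : Lat F}
variable {V : Type u} [AddCommGroup V] [Module ℂ V] [Module F V] [IsScalarTower ℂ F V]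
  [FiniteDimensional F V]

theorem no_bad (C : Ctx R K) {E : Lat V} {s : ℤ} (B : Bad R E s) : False := by
  have hN := stepA C B
  by_cases h5 : Has5 R
  · obtain ⟨hs, P, φ, hP, hφ, hk, dN, sN, nN, dM, sM, hsurj⟩ := stepBa C B hN h5
    subst hk
    have bN : IsBdl R (cm (LinearMap.ker φ).subtype E) :=
      bdl_cm C.good B.bdl _ (Submodule.injective_subtype _)
    obtain ⟨A, a0, a1, hA, dA, sA, h6⟩ := y8 C hP bN dN sN nN h5
    obtain ⟨c, hc, hc0⟩ := stepM C hA.bdl dA (by omega) (bdl_mp B.bdl φ hφ) hs dM (by omega)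
    exact stepX C hA B.bdl φ hφ (f_zero C hA.bdl (by omega) B.bdl hN) sN h6 hsurj c hc hc0
  · exact stepB4 C B hN h5

end

theorem main (F : Type u) [Field F] [Algebra ℂ F] [Algebra (RatFunc ℂ) F]
    [IsScalarTower ℂ (RatFunc ℂ) F] [FiniteDimensional (RatFunc ℂ) F]
    (h9 : 9 ≤ genus (rings F)) (h12 : genus (rings F) ≤ 12) :
    ¬ (IsLeast (cliffSet (rings F) 1) 3 ∧ IsLeast (cliffSet (rings F) 3) (8 / 3)) := by
  rintro ⟨h1, h3⟩
  obtain ⟨K, G⟩ := good_rings F
  have C : Ctx (rings F) K :=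
    { good := G
      g9 := h9
      g12 := h12
      L2 := L2_of G h1
      B0 := B0_of h1
      H3 := H3_of G h3 }
  obtain ⟨E, s, B⟩ := exists_bad h3
  exact no_bad C B

end CLF
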