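import Pool.Agent.CLF.ClaimF

/-!
# Module FourA: semistable bundles of rank three and degree at most nine with four sections

PROOF. `claimF` gives `h0 E ≤ 4`, so `h0 E = 4`.
No line with two sections: `h0 (ln F E w) ≥ 2 → deg ≥ 5` but `3 deg (ln) ≤ 9`.
No plane `P` with three sections: `N := cm P.subtype E`, `3 deg N ≤ 18`, `deg N ≤ 6`; `pr2` on `N` (`S = H0 N`,
no line in it) gives `D` with `deg D = deg N ≤ 6`, `h0 D ≥ 2 * 3 - 3 = 3`, so `deg D ≥ 7`: no.
`indep`: three ℂ-independent sections `w 0, w 1, w 2` which are `F`-dependent would span over `F` a space of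
dimension ≤ 2, contained in a plane `P` with `finrank (H0 E ⊓ P) ≥ 3`: no.
Hence `H0 E` spans `V` over `F` and `N' := gn R (H0 E) ≤ E` is a bundle (`bdl_gn`) with `H0 E ≤ H0 N'`.
Apply `pr3` to `N'` with `S = H0 E ≤ H0 N'`, `m = 4`: the first two alternatives are excluded (they concern only
`S = H0 E`), so there is `D` with `deg D = deg N'`, `h0 D ≥ 12 - 8 = 4`, so `deg N' ≥ 9` (L2, h = 4).
`deg N' ≤ deg E ≤ 9` (`deg_mono`), so equality and `N' = E` (`eq_of_deg_eq`).
-/

open Module

namespace CLF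

universe u

variable {F : Type u} [Field F] [Algebra ℂ F] {R : Fin 2 → Subalgebra ℂ F} {K : Lat F}
variable {V : Type u} [AddCommGroup V] [Module ℂ V] [Module F V] [IsScalarTower ℂ F V]
  [FiniteDimensional F V]

/-- planes as kernels -/
private theorem fourA_plane (hV : finrank F V = 3) (U : Submodule F V) (hU : U ≠ ⊤) :
    ∃ P : Submodule F V, finrank F P = 2 ∧ U ≤ P := by
  obtain ⟨f, hf, hle⟩ := Submodule.exists_le_ker_of_lt_top U (lt_top_iff_ne_top.2 hU)
  refine ⟨LinearMap.ker f, ?_, hle⟩
  have h1 := LinearMap.finrank_range_add_finrank_ker f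
  have h2 : LinearMap.range f = ⊤ := by
    rw [LinearMap.range_eq_top]
    exact LinearMap.surjective hf
  rw [h2, finrank_top, finrank_self, hV] at h1
  omega

theorem fourA (C : Ctx R K) (hV : finrank F V = 3) {E : Lat V} (hE : IsBdl R E)
    (hs : Semistable R E) (hd : deg R E ≤ 9) (h4 : 4 ≤ h0 E) :
    h0 E = 4 ∧ deg R E = 9 ∧ gn R (H0 E) = E ∧ Submodule.span F ((H0 E : Submodule ℂ V) : Set V) = ⊤ ∧
    ∀ w : Fin 3 → V, (∀ j, w j ∈ H0 E) → LinearIndependent ℂ w → LinearIndependent F w := by
  have G := C.good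
  have hg := C.g9
  have hfin : FiniteDimensional ℂ (H0 E) := (G.fin V E hE).1
  have h04 : h0 E = 4 := le_antisymm (claimF C hV hE hs (by linarith)) h4
  have hfr : finrank ℂ (H0 E) = 4 := h04
  -- no line
  have hline : ∀ w : V, w ≠ 0 → h0 (ln F E w) ≤ 1 := by
    intro w hw
    by_contra hcon
    push Not at hcon
    have h1 := C.L2 (ln F E w) (bdl_ln G hE hw) 2 le_rfl (by exact_mod_cast hcon)
    have h2 := ss_ln hs hw
    rw [hV] at h2
    push_cast at h2
    have h3 : (5 : ℤ) ≤ min (2 * 2 + 1) (2 + (genus R : ℤ) - 2) := by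
      apply le_min
      · norm_num
      · have : (9 : ℤ) ≤ genus R := by exact_mod_cast hg
        linarith
    linarith
  -- no plane
  have hplane : ∀ P : Submodule F V, finrank F P = 2 →
      ¬ 3 ≤ finrank ℂ (H0 E ⊓ P.restrictScalars ℂ : Submodule ℂ V) := by
    intro P hP h3
    have hN : IsBdl R (cm P.subtype E) := bdl_cm G hE P.subtype P.injective_subtype
    have hPne : P ≠ ⊥ := by
      intro h
      rw [h, finrank_bot] at hP
      omega
    have h5 := hs P hPne
    rw [hV, hP] at h5
    push_cast at h5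
    rw [← h0_cm_sub E P] at h3
    have h6 : 3 ≤ finrank ℂ (H0 (cm P.subtype E)) := h3
    rcases pr2 G hP hN (H0 (cm P.subtype E)) le_rfl (by omega) with ⟨w, hw, h7⟩ | ⟨D, hD, hdD, h7⟩
    · rw [← h0_ln (cm P.subtype E) hw, ln_cm] at h7
      have hw' : P.subtype w ≠ 0 := fun h => hw (P.injective_subtype (by rw [h, map_zero]))
      have h8 := hline _ hw'
      omega
    · have h8 : (3 : ℤ) ≤ h0 D := by
        have : 3 ≤ h0 D := by omega
        exact_mod_cast this
      have h9 := C.L2 D hD 3 (by norm_num) h8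
      have h10 : (7 : ℤ) ≤ min (2 * 3 + 1) (3 + (genus R : ℤ) - 2) := by
        apply le_min
        · norm_num
        · have : (9 : ℤ) ≤ genus R := by exact_mod_cast hg
          linarith
      linarith
  have hspan : Submodule.span F ((H0 E : Submodule ℂ V) : Set V) = ⊤ := by
    by_contra hcon
    obtain ⟨P, hP, hle⟩ := fourA_plane hV _ hcon
    apply hplane P hP
    have h1 : (H0 E ⊓ P.restrictScalars ℂ : Submodule ℂ V) = H0 E := by
      rw [inf_eq_left]
      intro x hx
      exact hle (Submodule.subset_span hx)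
    rw [h1, hfr]
    norm_num
  have hN' : IsBdl R (gn R (H0 E) : Lat V) := bdl_gn (H0 E) hfin hspan
  have hle : ∀ i, gn R (H0 E) i ≤ E i := by
    intro i
    show Oo R i • H0 E ≤ E i
    rw [Submodule.smul_le]
    intro r hr x hx
    have hx' : x ∈ E i := by
      have hx2 : x ∈ E 0 ∧ x ∈ E 1 := hx
      fin_cases i
      · exact hx2.1
      · exact hx2.2
    exact smul_stable hE i hr hx'
  have hH : H0 E ≤ H0 (gn R (H0 E)) := by
    intro x hx
    have h1 : ∀ i, x ∈ gn R (H0 E) i := by
      intro i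
      have h2 := Submodule.smul_mem_smul (show (1 : F) ∈ Oo R i from one_mem (R i)) hx
      rwa [one_smul] at h2
    exact ⟨h1 0, h1 1⟩
  have hdeg : (9 : ℤ) ≤ deg R (gn R (H0 E) : Lat V) := by
    rcases pr3 G hV hN' (H0 E) hH (by omega) with ⟨w, hw, h7⟩ | ⟨P, hP, h7⟩ | ⟨D, hD, hdD, h7⟩
    · rw [← h0_ln E hw] at h7
      have := hline w hw
      omega
    · exact absurd h7 (hplane P hP)
    · have h8 : (4 : ℤ) ≤ h0 D := by
        have : 4 ≤ h0 D := by omega
        exact_mod_cast this
      have h9 := C.L2 D hD 4 (by norm_num) h8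
      have h10 : (9 : ℤ) ≤ min (2 * 4 + 1) (4 + (genus R : ℤ) - 2) := by
        apply le_min
        · norm_num
        · have : (9 : ℤ) ≤ genus R := by exact_mod_cast hg
          linarith
      linarith
  have hmono := deg_mono G hN' hE hle
  refine ⟨h04, by linarith, eq_of_deg_eq G hN' hE hle (by linarith), hspan, ?_⟩
  intro w hw hwi
  by_contra hcon
  have hne : Submodule.span F (Set.range w) ≠ ⊤ := by
    intro htop
    apply hcon
    apply linearIndependent_of_top_le_span_of_card_eq_finrank htop.ge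
    rw [Fintype.card_fin, hV]
  obtain ⟨P, hP, hle'⟩ := fourA_plane hV _ hne
  apply hplane P hP
  have hmem : ∀ j, w j ∈ (H0 E ⊓ P.restrictScalars ℂ : Submodule ℂ V) := fun j =>
    ⟨hw j, hle' (Submodule.subset_span ⟨j, rfl⟩)⟩
  have hfi : FiniteDimensional ℂ (H0 E ⊓ P.restrictScalars ℂ : Submodule ℂ V) :=
    Submodule.finiteDimensional_inf_left _ _
  have hli : LinearIndependent ℂ (fun j => (⟨w j, hmem j⟩ :
      (H0 E ⊓ P.restrictScalars ℂ : Submodule ℂ V))) := by
    apply LinearIndependent.of_comp (Submodule.subtype _)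
    exact hwi
  have h1 := hli.fintype_card_le_finrank
  rwa [Fintype.card_fin] at h1

end CLF
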