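import Pool.Agent.CLF.Pids

/-!
# Module FreeB: bundles on the line are free on each of the two pieces

PROOF. `M i` is (as in `IsBdl.gen`) a finitely generated torsion free module over the PID `SS i`, so it
is free (`Module.Free`, `Submodule.basisOfPid` / `Module.free_of_finite_type_torsion_free'`); an
`SS i`-basis of `M i` is `SS i`-independent in `V`, hence `RatFunc ℂ`-independent
(`LinearIndependent.iff_fractionRing`), and spans `V` over `RatFunc ℂ` since `M i` does.  So it is a basis
of `V`, reindex by `Fin (finrank ..)`.  `v ∈ M i` iff the coordinates of `v` lie in `SS i`.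
-/

open Module

namespace CLF

universe u

private theorem freeb_mem {K V : Type*} [Field K] [Algebra ℂ K] [AddCommGroup V] [Module ℂ V]
    [Module K V] [IsScalarTower ℂ K V] (S : Subalgebra ℂ K) (s : Set V) (v : V) :
    v ∈ Subalgebra.toSubmodule S • Submodule.span ℂ s ↔ v ∈ Submodule.span S s := by
  constructor
  · intro hv
    refine Submodule.smul_induction_on hv ?_ (fun x y hx hy => add_mem hx hy)
    intro r hr m hm
    have h1 : m ∈ Submodule.span S s := by
      induction hm using Submodule.span_induction with
      | mem x hx => exact Submodule.subset_span hx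
      | zero => exact zero_mem _
      | add x y _ _ hx hy => exact add_mem hx hy
      | smul c x _ hx =>
        have h2 := (Submodule.span S s).smul_mem (algebraMap ℂ S c) hx
        have h3 : (algebraMap ℂ S c) • x = c • x := by
          change (algebraMap ℂ K c) • x = c • x
          rw [algebraMap_smul]
        rwa [h3] at h2
    exact (Submodule.span S s).smul_mem (⟨r, hr⟩ : S) h1
  · intro hv
    induction hv using Submodule.span_induction with
    | mem x hx =>
      have h1 := Submodule.smul_mem_smul (I := Subalgebra.toSubmodule S) (N := Submodule.span ℂ s)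
        (S.one_mem) (Submodule.subset_span hx)
      rwa [one_smul] at h1
    | zero => exact zero_mem _
    | add x y _ _ hx hy => exact add_mem hx hy
    | smul r x _ hx =>
      refine Submodule.smul_induction_on hx ?_ (fun x y hx hy => by
        rw [smul_add]
        exact add_mem hx hy)
      intro a ha m hm
      have h2 : r • (a • m) = ((r : K) * a) • m := by
        rw [mul_smul]
        rfl
      rw [h2]
      exact Submodule.smul_mem_smul (S.mul_mem r.2 ha) hm

private theorem freeb_gen {K V : Type*} [Field K] [Algebra ℂ K] [AddCommGroup V] [Module ℂ V]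
    [Module K V] [IsScalarTower ℂ K V] [FiniteDimensional K V] (S : Subalgebra ℂ K)
    [IsPrincipalIdealRing S] [IsFractionRing S K] (s : Finset V)
    (hs : Submodule.span K ((Submodule.span S (s : Set V) : Submodule S V) : Set V) = ⊤) :
    ∃ b : Basis (Fin (finrank K V)) K V,
      ∀ v, v ∈ Submodule.span S (s : Set V) ↔ ∀ j, b.repr v j ∈ S := by
  classical
  set M := Submodule.span S (s : Set V) with hM
  have hfin : Module.Finite S M := Module.Finite.iff_fg.2 ⟨s, rfl⟩
  have htf : Module.IsTorsionFree S V := Module.IsTorsionFree.trans_faithfulSMul S K V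
  have hfree : Module.Free S M := inferInstance
  let b₀ := Module.finBasis S M
  have hli : LinearIndependent S (fun j => (b₀ j : V)) :=
    b₀.linearIndependent.map' M.subtype (Submodule.ker_subtype _)
  have hliK : LinearIndependent K (fun j => (b₀ j : V)) :=
    (LinearIndependent.iff_fractionRing S K).1 hli
  have hMs : ∀ v ∈ M, v ∈ Submodule.span K (Set.range fun j => (b₀ j : V)) := by
    intro v hv
    have h1 := b₀.sum_repr ⟨v, hv⟩
    have h2 : ∑ j, (b₀.repr ⟨v, hv⟩ j) • (b₀ j : V) = v := by
      have := congrArg M.subtype h1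
      rwa [map_sum] at this
    rw [← h2]
    refine Submodule.sum_mem _ fun j _ => ?_
    exact (Submodule.span K (Set.range fun j => (b₀ j : V))).smul_mem
      ((b₀.repr ⟨v, hv⟩ j : S) : K) (Submodule.subset_span ⟨j, rfl⟩)
  have hsp : ⊤ ≤ Submodule.span K (Set.range fun j => (b₀ j : V)) := by
    rw [← hs, Submodule.span_le]
    exact hMs
  let b := Basis.mk hliK hsp
  have hb : ∀ j, b j = (b₀ j : V) := fun j => Basis.mk_apply hliK hsp j
  have hn : finrank K V = finrank S M := by
    rw [Module.finrank_eq_card_basis b, Fintype.card_fin]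
  have key : ∀ v, v ∈ M ↔ ∀ j, b.repr v j ∈ S := by
    intro v
    constructor
    · intro hv j
      have h1 := b₀.sum_repr ⟨v, hv⟩
      have h2 : ∑ j, ((b₀.repr ⟨v, hv⟩ j : S) : K) • b j = v := by
        have := congrArg M.subtype h1
        rw [map_sum] at this
        refine Eq.trans ?_ this
        apply Finset.sum_congr rfl
        intro j _
        rw [hb]
        rfl
      have h3 := b.repr_sum_self (fun j => ((b₀.repr ⟨v, hv⟩ j : S) : K))
      rw [h2] at h3
      rw [h3]
      exact (b₀.repr ⟨v, hv⟩ j).2
    · intro hv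
      rw [← b.sum_repr v]
      refine Submodule.sum_mem _ fun j _ => ?_
      rw [hb]
      exact M.smul_mem (⟨b.repr v j, hv j⟩ : S) (b₀ j).2
  rw [hn]
  exact ⟨b, key⟩

variable {V : Type u} [AddCommGroup V] [Module ℂ V] [Module (RatFunc ℂ) V]
  [IsScalarTower ℂ (RatFunc ℂ) V] [FiniteDimensional (RatFunc ℂ) V]

theorem free_basis (M : Lat V) (hM : IsBdl SS M) (i : Fin 2) :
    ∃ b : Basis (Fin (finrank (RatFunc ℂ) V)) (RatFunc ℂ) V,
      ∀ v, v ∈ M i ↔ ∀ j, b.repr v j ∈ SS i := by
  obtain ⟨s, hs⟩ := hM.gen i
  have h1 := SS_pid i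
  have h2 := SS_frac i
  have h3 : ∀ v, v ∈ M i ↔ v ∈ Submodule.span (SS i) (s : Set V) := by
    intro v
    rw [hs]
    exact freeb_mem (SS i) (s : Set V) v
  have h4 := hM.spans i
  obtain ⟨b, hb⟩ := freeb_gen (SS i) s (by
    rw [← h4]
    congr 1
    ext v
    exact (h3 v).symm)
  exact ⟨b, fun v => (h3 v).trans (hb v)⟩

end CLF
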