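import Pool.Agent.CLF.Col

/-!
# Module Genu: a generic section generates

`M = gn R S` is generated by the finite dimensional `S`, `A ≤ M` line bundles.  Then there is
`u ∈ S` with `M i = A i + Oo R i • u` for `i = 0, 1`.
PROOF. For a maximal ideal `p` of `R i` write `p M i` for the ideal-times-lattice product (image of `p`
in `F` times `M i`).  Let `I i := {r : R i | r • M i ≤ A i}`, a nonzero ideal of `R i` (`comm_mul`).
Only finitely many maximal ideals contain `I i` (Dedekind domain; `Ideal.finite_factors` /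
`Ring.DimensionLEOne` ...).  For each of these `(i, p)` the subspace `S ⊓ p M i` of `S` is proper
(otherwise `M i = Oo R i • S ≤ p M i`, and cancelling `M i` gives `p = R i`).  A vector space over the
infinite field ℂ is not a finite union of proper subspaces (`Submodule`/`Subspace` lemma
`Subspace.biUnion_ne_univ_of_top_notMem` or similar), so choose `u ∈ S` outside all of them.
Let `N i := A i + Oo R i • u ≤ M i` (≤ M as `u ∈ S ≤ M i`).  If `N i ≠ M i` then
`J := N i * inv M i` is a proper ideal (it contains `I i`: if `r • M i ≤ A i` then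
`r ∈ r • (M i * inv M i) ≤ A i * inv M i`), so it lies in a maximal ideal `p ≥ I i`, hence
`u ∈ N i = J * M i ≤ p M i`: contradiction.  (`inv`, `tw_inv`, etc from Inv.)
-/

open Module

namespace CLF

universe u

variable {F : Type u} [Field F] [Algebra ℂ F] {R : Fin 2 → Subalgebra ℂ F} {K : Lat F}
variable {V : Type u} [AddCommGroup V] [Module ℂ V] [Module F V] [IsScalarTower ℂ F V]
  [FiniteDimensional F V]

private theorem one_mem_Oo' (i : Fin 2) : (1 : F) ∈ Oo R i := (R i).one_mem

private theorem ex_ne {L : Lat F} (hL : IsBdl R L) (i : Fin 2) : ∃ x ∈ L i, x ≠ 0 := by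
  by_contra h
  push Not at h
  have h1 := hL.spans i
  have h2 : Submodule.span F ((L i : Submodule ℂ F) : Set F) = ⊥ := by
    rw [Submodule.span_eq_bot]
    exact h
  rw [h2] at h1
  exact bot_ne_top h1

private theorem sp_ne {N : Submodule ℂ F} {x : F} (hx : x ∈ N) (h0 : x ≠ 0) :
    Submodule.span F ((N : Submodule ℂ F) : Set F) = ⊤ := by
  rw [eq_top_iff]
  intro y _
  have : y = (y * x⁻¹) • x := by
    rw [smul_eq_mul, mul_assoc, inv_mul_cancel₀ h0, mul_one]
  rw [this]
  exact Submodule.smul_mem _ _ (Submodule.subset_span hx)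

private theorem L_inv (G : Good R K) {L : Lat F} (hL : IsBdl R L) (i : Fin 2) :
    L i * inv R L i = Oo R i := congrFun (tw_inv G hL) i

private theorem inv_L (G : Good R K) {L : Lat F} (hL : IsBdl R L) (i : Fin 2) :
    inv R L i * L i = Oo R i := by rw [mul_comm]; exact L_inv G hL i

private theorem O_L {L : Lat F} (hL : IsBdl R L) (i : Fin 2) :
    Oo R i * L i = L i := O_smul hL i

private theorem L_O {L : Lat F} (hL : IsBdl R L) (i : Fin 2) :
    L i * Oo R i = L i := by rw [mul_comm]; exact O_L hL i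

/-- ideal of `R i` given by a stable subspace -/
private def idl (R : Fin 2 → Subalgebra ℂ F) (i : Fin 2) (N : Submodule ℂ F)
    (hst : ∀ r ∈ R i, ∀ x ∈ N, r * x ∈ N) : Ideal (R i) where
  carrier := {r | (r : F) ∈ N}
  add_mem' := fun {a b} ha hb => by
    simpa using N.add_mem ha hb
  zero_mem' := by simp
  smul_mem' := fun c x hx => by
    simpa using hst c c.2 x hx

/-- image of an ideal in `F` -/
private def im (R : Fin 2 → Subalgebra ℂ F) (i : Fin 2) (p : Ideal (R i)) : Submodule ℂ F where
  carrier := {x | ∃ r : R i, r ∈ p ∧ (r : F) = x}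
  add_mem' := by
    rintro a b ⟨r, hr, rfl⟩ ⟨s, hs, rfl⟩
    exact ⟨r + s, p.add_mem hr hs, rfl⟩
  zero_mem' := ⟨0, p.zero_mem, rfl⟩
  smul_mem' := by
    rintro c x ⟨r, hr, rfl⟩
    refine ⟨algebraMap ℂ (R i) c * r, p.mul_mem_left _ hr, ?_⟩
    rw [Algebra.smul_def]
    rfl

private theorem mem_im {i : Fin 2} {p : Ideal (R i)} {x : F} :
    x ∈ im R i p ↔ ∃ r : R i, r ∈ p ∧ (r : F) = x := Iff.rfl

private theorem coe_mem_im {i : Fin 2} {p : Ideal (R i)} {r : R i} :
    (r : F) ∈ im R i p ↔ r ∈ p := by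
  rw [mem_im]
  constructor
  · rintro ⟨s, hs, h⟩
    rwa [← Subtype.ext h]
  · intro h
    exact ⟨r, h, rfl⟩

private theorem im_le {i : Fin 2} {p : Ideal (R i)} : im R i p ≤ Oo R i := by
  rintro x ⟨r, hr, rfl⟩
  exact r.2

private theorem im_st {i : Fin 2} {p : Ideal (R i)} : ∀ r ∈ R i, ∀ x ∈ im R i p, r * x ∈ im R i p := by
  rintro r hr x ⟨s, hs, rfl⟩
  exact ⟨⟨r, hr⟩ * s, p.mul_mem_left _ hs, rfl⟩

private theorem O_im {i : Fin 2} {p : Ideal (R i)} : Oo R i * im R i p = im R i p := by
  apply le_antisymm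
  · rw [Submodule.mul_le]
    exact im_st
  · intro x hx
    have := Submodule.mul_mem_mul (one_mem_Oo' (R := R) i) hx
    rwa [one_mul] at this

/-- the stable product -/
private theorem st_mul {i : Fin 2} {N N' : Submodule ℂ F} (h : Oo R i * N = N) :
    ∀ r ∈ R i, ∀ x ∈ N * N', r * x ∈ N * N' := by
  intro r hr x hx
  have h1 : r * x ∈ Oo R i * (N * N') := Submodule.mul_mem_mul hr hx
  rwa [← mul_assoc, h] at h1

theorem gen_u (G : Good R K) {A M : Lat F} (hA : IsBdl R A) (hM : IsBdl R M)
    (h : ∀ i, A i ≤ M i) (S : Submodule ℂ F) (hS : FiniteDimensional ℂ S)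
    (hMS : ∀ i, M i = Oo R i * S) :
    ∃ u ∈ S, ∀ i, M i = A i ⊔ Oo R i * Submodule.span ℂ {u} := by
  have := G.ded
  have hinv : IsBdl R (inv R M) := bdl_inv G hM
  -- the conductor ideals
  let C : ∀ i, Ideal (R i) := fun i =>
    { carrier := {r | ∀ x ∈ M i, (r : F) * x ∈ A i}
      add_mem' := fun {a b} ha hb x hx => by
        have := (A i).add_mem (ha x hx) (hb x hx)
        rw [← add_mul] at this
        simpa using this
      zero_mem' := fun x hx => by simp
      smul_mem' := fun c y hy x hx => by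
        have := smul_stable hA i c.2 (hy x hx)
        rw [smul_eq_mul, ← mul_assoc] at this
        simpa using this }
  have hC : ∀ i, C i ≠ 0 := by
    intro i h0
    obtain ⟨r, hr, hr0, hr'⟩ := comm_mul G hA hM i
    have : (⟨r, hr⟩ : R i) ∈ C i := hr'
    rw [h0, Submodule.zero_eq_bot, Ideal.mem_bot] at this
    exact hr0 (congrArg Subtype.val this)
  have hfin : ∀ i, Finite {v : IsDedekindDomain.HeightOneSpectrum (R i) // v.asIdeal ∣ C i} :=
    fun i => (Ideal.finite_factors (hC i)).to_subtype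
  have hprop : ∀ (i : Fin 2) (p : Ideal (R i)), p.IsMaximal → ¬ S ≤ im R i p * M i := by
    intro i p hp hle
    have h1 : M i ≤ im R i p * M i := by
      have := mul_le_mul' (le_refl (Oo R i)) hle
      rwa [← hMS, ← mul_assoc, O_im] at this
    have h2 := mul_le_mul' h1 (le_refl (inv R M i))
    rw [mul_assoc, L_inv G hM, mul_comm, O_im] at h2
    have h3 : ((1 : R i) : F) ∈ im R i p := h2 (one_mem_Oo' i)
    rw [coe_mem_im] at h3
    exact hp.ne_top ((Ideal.eq_top_iff_one p).2 h3)
  have hex : ∃ u : S, ∀ j : (Σ i : Fin 2,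
      {v : IsDedekindDomain.HeightOneSpectrum (R i) // v.asIdeal ∣ C i}),
      u ∉ (im R j.1 j.2.1.asIdeal * M j.1).comap S.subtype := by
    by_contra hcon
    push Not at hcon
    have hcov : ⋃ j : (Σ i : Fin 2,
        {v : IsDedekindDomain.HeightOneSpectrum (R i) // v.asIdeal ∣ C i}),
        (((im R j.1 j.2.1.asIdeal * M j.1).comap S.subtype : Submodule ℂ S) : Set S)
          = Set.univ := by
      rw [Set.eq_univ_iff_forall]
      intro u
      obtain ⟨j, hj⟩ := hcon u
      exact Set.mem_iUnion.2 ⟨j, hj⟩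
    obtain ⟨j, hj⟩ := Subspace.exists_eq_top_of_iUnion_eq_univ hcov
    refine hprop j.1 j.2.1.asIdeal j.2.1.isMaximal ?_
    intro x hx
    have : (⟨x, hx⟩ : S) ∈ (im R j.1 j.2.1.asIdeal * M j.1).comap S.subtype := by
      rw [hj]; trivial
    exact this
  obtain ⟨u, hu⟩ := hex
  refine ⟨u, u.2, ?_⟩
  intro i
  set N : Submodule ℂ F := A i ⊔ Oo R i * Submodule.span ℂ {(u : F)} with hN
  have hSM : S ≤ M i := by
    intro x hx
    rw [hMS i]
    have := Submodule.mul_mem_mul (one_mem_Oo' (R := R) i) hx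
    rwa [one_mul] at this
  have hNM : N ≤ M i := by
    rw [hN]
    refine sup_le (h i) ?_
    rw [Submodule.mul_le]
    intro r hr y hy
    obtain ⟨c, rfl⟩ := Submodule.mem_span_singleton.1 hy
    exact smul_stable hM i hr ((M i).smul_mem c (hSM u.2))
  have huN : (u : F) ∈ N := by
    rw [hN]
    apply Submodule.mem_sup_right
    have := Submodule.mul_mem_mul (one_mem_Oo' (R := R) i)
      (Submodule.mem_span_singleton_self (R := ℂ) (u : F))
    rwa [one_mul] at this
  have hON : Oo R i * N = N := by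
    rw [hN, Submodule.mul_sup, ← mul_assoc, O_L hA, O_mul_O]
  have hNIO : N * inv R M i ≤ Oo R i := by
    have := mul_le_mul' hNM (le_refl (inv R M i))
    rwa [L_inv G hM] at this
  have hback : N * inv R M i * M i = N := by
    rw [mul_assoc, inv_L G hM, mul_comm, hON]
  by_contra hne
  set J := idl R i (N * inv R M i) (st_mul hON) with hJ
  have hJtop : J ≠ ⊤ := by
    intro htop
    have h1 : (1 : F) ∈ N * inv R M i := by
      have : (1 : R i) ∈ J := by rw [htop]; trivial
      exact this
    apply hne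
    apply le_antisymm _ hNM
    intro x hx
    have h2 : 1 * x ∈ N * inv R M i * M i := Submodule.mul_mem_mul h1 hx
    rwa [hback, one_mul] at h2
  obtain ⟨p, hp, hJp⟩ := Ideal.exists_le_maximal J hJtop
  have hCJ : C i ≤ J := by
    intro r hr
    change (r : F) ∈ N * inv R M i
    have key : ∀ x ∈ M i * inv R M i, (r : F) * x ∈ N * inv R M i := by
      intro x hx
      refine Submodule.mul_induction_on hx ?_ ?_
      · intro m hm y hy
        rw [← mul_assoc]
        exact Submodule.mul_mem_mul (Submodule.mem_sup_left (hr m hm)) hy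
      · intro a b ha hb
        rw [mul_add]
        exact Submodule.add_mem _ ha hb
    have := key 1 (by rw [L_inv G hM]; exact one_mem_Oo' i)
    rwa [mul_one] at this
  have hCp : C i ≤ p := hCJ.trans hJp
  have hp0 : p ≠ ⊥ := by
    intro h0
    apply hC i
    rw [Submodule.zero_eq_bot, eq_bot_iff, ← h0]
    exact hCp
  have hu' := hu ⟨i, ⟨⟨p, hp.isPrime, hp0⟩, Ideal.dvd_iff_le.2 hCp⟩⟩
  apply hu'
  change (u : F) ∈ im R i p * M i
  have h1 : N * inv R M i ≤ im R i p := by
    intro x hx
    exact (coe_mem_im (r := ⟨x, hNIO hx⟩)).2 (hJp hx)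
  have h2 := mul_le_mul' h1 (le_refl (M i))
  rw [hback] at h2
  exact h2 huN

end CLF
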