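import Pool.Agent.CLF.Defs

/-!
# CLF: the interface `Good` between the function field part and the bundle part
-/

open Module

namespace CLF

universe u

/-- All the facts about the pair of rings `R` (inside the field `F`) and the canonical pair `K`
used in the proof. -/
structure Good {F : Type u} [Field F] [Algebra ℂ F] (R : Fin 2 → Subalgebra ℂ F) (K : Lat F) :
    Prop where
  ded : ∀ i, IsDedekindDomain (R i)
  frac : ∀ i, IsFractionRing (R i) F
  nonfield : ∀ i, ∃ x ∈ R i, x⁻¹ ∉ R i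
  resid : ∀ i (P : Ideal (R i)), P.IsMaximal →
    ∀ a : R i, ∃ c : ℂ, a - algebraMap ℂ (R i) c ∈ P
  const : R 0 ⊓ R 1 = ⊥
  Kb : IsBdl R K
  fin : ∀ (V : Type u) [AddCommGroup V] [Module ℂ V] [Module F V] [IsScalarTower ℂ F V]
    [FiniteDimensional F V] (E : Lat V), IsBdl R E →
      FiniteDimensional ℂ (H0 E) ∧ FiniteDimensional ℂ (V ⧸ (E 0 ⊔ E 1))
  dual : ∀ (V : Type u) [AddCommGroup V] [Module ℂ V] [Module F V] [IsScalarTower ℂ F V]
    [FiniteDimensional F V] (E : Lat V), IsBdl R E → h1 E = h0 (dl K E)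
  refl : ∀ (V : Type u) [AddCommGroup V] [Module ℂ V] [Module F V] [IsScalarTower ℂ F V]
    [FiniteDimensional F V] (E : Lat V), IsBdl R E → ∀ (i : Fin 2) (v : V),
      (∀ φ ∈ dl K E i, φ v ∈ K i) → v ∈ E i

end CLF
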