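import Pool.Agent.CLF.Cnv

/-!
# Module Inv: line bundles are invertible

PROOFS.
`tw_inv`: for each `i`, `L i` is a nonzero finitely generated `R i`-submodule of `F`, i.e. a
nonzero fractional ideal of the Dedekind domain `R i` (G.ded i, G.frac i), so
`I * I⁻¹ = 1` (`FractionalIdeal.mul_inv_cancel`-type lemma for Dedekind domains; the inverse of a
fractional ideal is `1 / I = {x | ∀ y ∈ I, x * y ∈ R i}`).  Translate.
`tw_tw`: `Submodule.smul_assoc` (the product of lattices is `•` = `*`).
`tw_O`: `O_smul`.  `tw_comm`: `mul_comm` for submodules of the commutative algebra `F`.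
`inv_tw_tw`: `tw (inv L) (tw L E) = tw (tw (inv L) L) E = tw O E = E`.
`mem_inv_tw`: `→`: `a • (inv L i • E i) ≤ (L i * inv L i) • E i = E i`. `←`: let
`Y := L i • span ℂ {x} ≤ E i`, then `x ∈ O i • span {x} = (inv L i * L i) • span {x} ≤ inv L i • E i`.
-/

open Module

namespace CLF

universe u

variable {F : Type u} [Field F] [Algebra ℂ F] {R : Fin 2 → Subalgebra ℂ F} {K : Lat F}
variable {V : Type u} [AddCommGroup V] [Module ℂ V] [Module F V] [IsScalarTower ℂ F V]
  [FiniteDimensional F V]

theorem tw_tw (L M : Lat F) (E : Lat V) : tw L (tw M E) = tw (tw L M) E := by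
  funext i
  exact (Submodule.smul_assoc (L i) (M i) (E i)).symm

theorem tw_comm (L M : Lat F) : tw L M = tw M L := by
  funext i
  exact mul_comm (L i) (M i)

theorem tw_O {E : Lat V} (hE : IsBdl R E) : tw (Oo R) E = E := by
  funext i
  exact O_smul hE i

theorem tw_mono {L L' : Lat F} {E E' : Lat V} (h : ∀ i, L i ≤ L' i) (h' : ∀ i, E i ≤ E' i) :
    ∀ i, tw L E i ≤ tw L' E' i := by
  intro i
  exact Submodule.smul_mono (h i) (h' i)

theorem tw_inv (G : Good R K) {L : Lat F} (hL : IsBdl R L) : tw L (inv R L) = Oo R := by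
  funext i
  have := G.ded i
  have := G.frac i
  have hmul : tw L (inv R L) i = L i * (Oo R i / L i) := rfl
  rw [hmul]
  -- the fractional ideal
  let N : Submodule (R i) F :=
    { carrier := L i
      add_mem' := fun {a b} ha hb => (L i).add_mem ha hb
      zero_mem' := (L i).zero_mem
      smul_mem' := fun c x hx => smul_stable hL i c.2 hx }
  have hN : ∀ x, x ∈ N ↔ x ∈ L i := fun x => Iff.rfl
  obtain ⟨s, hs⟩ := hL.gen i
  have hNfg : N.FG := by
    refine ⟨s, ?_⟩
    ext x
    rw [hN, hs, mem_O_span_iff]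
  have hNfr : IsFractional (nonZeroDivisors (R i)) N := FractionalIdeal.isFractional_of_fg hNfg
  let I : FractionalIdeal (nonZeroDivisors (R i)) F := ⟨N, hNfr⟩
  have hI : ∀ x, x ∈ I ↔ x ∈ L i := fun x => Iff.rfl
  have hI0 : I ≠ 0 := by
    intro h0
    have hsp := hL.spans i
    have hbot : ((L i : Submodule ℂ F) : Set F) ⊆ {0} := by
      intro x hx
      have hx' : x ∈ I := (hI x).2 hx
      rw [h0] at hx'
      exact (FractionalIdeal.mem_zero_iff _).1 hx'
    have h1 : Submodule.span F ((L i : Submodule ℂ F) : Set F) ≤ ⊥ := by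
      rw [Submodule.span_le]
      intro x hx
      exact hbot hx
    rw [hsp] at h1
    have h2 : (1 : F) ∈ (⊥ : Submodule F F) := h1 Submodule.mem_top
    exact one_ne_zero ((Submodule.mem_bot F).1 h2)
  have hinv : I * I⁻¹ = 1 := mul_inv_cancel₀ hI0
  have hIinv : ∀ x, x ∈ I⁻¹ ↔ x ∈ Oo R i / L i := by
    intro x
    rw [FractionalIdeal.mem_inv_iff hI0, Submodule.mem_div_iff_forall_mul_mem]
    constructor
    · intro h y hy
      obtain ⟨z, hz⟩ := (FractionalIdeal.mem_one_iff _).1 (h y hy)
      rw [← hz]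
      exact z.2
    · intro h y hy
      exact (FractionalIdeal.mem_one_iff _).2 ⟨⟨x * y, h y hy⟩, rfl⟩
  apply le_antisymm
  · rw [Submodule.mul_le]
    intro m hm n hn
    have := (Submodule.mem_div_iff_forall_mul_mem).1 hn m hm
    rw [mul_comm]
    exact this
  · have h1 : (1 : F) ∈ I * I⁻¹ := by
      rw [hinv]; exact FractionalIdeal.one_mem_one _
    have h2 : ∀ x ∈ I * I⁻¹, x ∈ L i * (Oo R i / L i) := by
      intro x hx
      refine FractionalIdeal.mul_induction_on hx ?_ ?_
      · intro a ha b hb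
        exact Submodule.mul_mem_mul ((hI a).1 ha) ((hIinv b).1 hb)
      · intro a b ha hb
        exact Submodule.add_mem _ ha hb
    intro x hx
    have h3 : (1 : F) ∈ L i * (Oo R i / L i) := h2 1 h1
    -- stability
    have h4 : ∀ y ∈ L i * (Oo R i / L i), x * y ∈ L i * (Oo R i / L i) := by
      intro y hy
      refine Submodule.mul_induction_on hy ?_ ?_
      · intro m hm n hn
        rw [← mul_assoc]
        exact Submodule.mul_mem_mul (smul_stable hL i hx hm) hn
      · intro a b ha hb
        rw [mul_add]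
        exact Submodule.add_mem _ ha hb
    have h5 := h4 1 h3
    rwa [mul_one] at h5

theorem inv_tw_tw (G : Good R K) {L : Lat F} (hL : IsBdl R L) {E : Lat V} (hE : IsBdl R E) :
    tw (inv R L) (tw L E) = E := by
  rw [tw_tw, tw_comm (inv R L) L, tw_inv G hL, tw_O hE]

theorem tw_inv_tw (G : Good R K) {L : Lat F} (hL : IsBdl R L) {E : Lat V} (hE : IsBdl R E) :
    tw L (tw (inv R L) E) = E := by
  rw [tw_tw, tw_inv G hL, tw_O hE]

theorem mem_inv_tw (G : Good R K) {L : Lat F} (hL : IsBdl R L) {E : Lat V} (hE : IsBdl R E)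
    (i : Fin 2) (x : V) : x ∈ tw (inv R L) E i ↔ ∀ a ∈ L i, a • x ∈ E i := by
  constructor
  · intro hx a ha
    have h1 : a • x ∈ tw L (tw (inv R L) E) i := Submodule.smul_mem_smul ha hx
    rwa [tw_inv_tw G hL hE] at h1
  · intro h
    have h1 : (1 : F) ∈ inv R L i * L i := by
      have h2 : tw (inv R L) L i = Oo R i := by rw [tw_comm, tw_inv G hL]
      have h3 : (1 : F) ∈ Oo R i := one_mem (R i)
      rw [← h2] at h3
      exact h3
    have h4 : ∀ y ∈ inv R L i * L i, y • x ∈ tw (inv R L) E i := by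
      intro y hy
      refine Submodule.mul_induction_on hy ?_ ?_
      · intro m hm n hn
        rw [mul_smul]
        exact Submodule.smul_mem_smul hm (h n hn)
      · intro a b ha hb
        rw [add_smul]
        exact Submodule.add_mem _ ha hb
    have h5 := h4 1 h1
    rwa [one_smul] at h5

end CLF
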