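import Pool.Agent.CLF.Inv
import Pool.Agent.CLF.Btw

/-!
# Module Inv2: formal rules for inverses and residuals of line bundles

PROOFS (all formal from `tw_inv`, `tw_tw`, `tw_comm`, `tw_O`, `mem_inv_tw`).
`inv_inv`: `inv (inv L)` and `L` are both inverse to `inv L`.
`inv_tw`: both sides are inverse to `tw L M`.
`kd_eq`: `x ∈ K i / L i ↔ ∀ y ∈ L i, x * y ∈ K i` is `mem_inv_tw` with `V = F`, `E = K`.
`kd_kd`: `kd K (kd K L) = tw (inv (tw (inv L) K)) K = tw (tw L (inv K)) K = L`.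
`kd_tw`: `kd K (tw L M) = tw (inv M) (kd K L)`.
`inv_mono`, `kd_mono`: definition of `/`.
`inv_O`: `inv R (Oo R) = Oo R`.
`eq_of_tw_eq`: cancel `L`.
-/

open Module

namespace CLF

universe u

variable {F : Type u} [Field F] [Algebra ℂ F] {R : Fin 2 → Subalgebra ℂ F} {K : Lat F}
variable {V : Type u} [AddCommGroup V] [Module ℂ V] [Module F V] [IsScalarTower ℂ F V]
  [FiniteDimensional F V]

theorem inv_inv (G : Good R K) {L : Lat F} (hL : IsBdl R L) : inv R (inv R L) = L := by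
  have hi := bdl_inv G hL
  have h1 : tw (inv R (inv R L)) (tw (inv R L) L) = L := inv_tw_tw G hi hL
  rw [tw_comm (inv R L) L, tw_inv G hL, tw_comm, tw_O (bdl_inv G hi)] at h1
  exact h1

theorem inv_tw (G : Good R K) {L M : Lat F} (hL : IsBdl R L) (hM : IsBdl R M) :
    inv R (tw L M) = tw (inv R L) (inv R M) := by
  have hLM := bdl_tw hL hM
  have hY := bdl_tw (bdl_inv G hL) (bdl_inv G hM)
  have h1 : tw (tw L M) (tw (inv R L) (inv R M)) = Oo R := by
    rw [← tw_tw, tw_comm (inv R L) (inv R M), tw_inv_tw G hM (bdl_inv G hL), tw_inv G hL]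
  have h2 := inv_tw_tw G hLM hY
  rw [h1, tw_comm, tw_O (bdl_inv G hLM)] at h2
  exact h2

theorem kd_eq (G : Good R K) {L : Lat F} (hL : IsBdl R L) : kd K L = tw (inv R L) K := by
  funext i
  ext x
  rw [mem_inv_tw G hL G.Kb]
  show x ∈ K i / L i ↔ _
  rw [Submodule.mem_div_iff_forall_mul_mem]
  constructor
  · intro h a ha
    have := h a ha
    rwa [mul_comm] at this
  · intro h a ha
    have := h a ha
    rwa [smul_eq_mul, mul_comm] at this

theorem kd_kd (G : Good R K) {L : Lat F} (hL : IsBdl R L) : kd K (kd K L) = L := by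
  rw [kd_eq G (bdl_kd G hL), kd_eq G hL, inv_tw G (bdl_inv G hL) G.Kb, inv_inv G hL,
    ← tw_tw, tw_comm (inv R K) K, tw_inv G G.Kb, tw_comm, tw_O hL]

theorem kd_tw (G : Good R K) {L M : Lat F} (hL : IsBdl R L) (hM : IsBdl R M) :
    kd K (tw L M) = tw (inv R M) (kd K L) := by
  rw [kd_eq G (bdl_tw hL hM), kd_eq G hL, inv_tw G hL hM, tw_comm (inv R L) (inv R M), ← tw_tw]

theorem kd_inv (G : Good R K) {L : Lat F} (hL : IsBdl R L) : kd K (inv R L) = tw L K := by
  rw [kd_eq G (bdl_inv G hL), inv_inv G hL]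

theorem inv_O (G : Good R K) : inv R (Oo R) = Oo R := by
  have h := tw_inv G (bdl_O (R := R))
  rwa [tw_O (bdl_inv G bdl_O)] at h

theorem kd_O (G : Good R K) : kd K (Oo R) = K := by
  rw [kd_eq G bdl_O, inv_O G, tw_O G.Kb]

theorem kd_mono {L M : Lat F} (h : ∀ i, L i ≤ M i) : ∀ i, kd K M i ≤ kd K L i := by
  intro i x hx
  have hx' : x ∈ K i / M i := hx
  show x ∈ K i / L i
  rw [Submodule.mem_div_iff_forall_mul_mem] at hx' ⊢
  exact fun y hy => hx' y (h i hy)

theorem inv_mono {L M : Lat F} (h : ∀ i, L i ≤ M i) : ∀ i, inv R M i ≤ inv R L i := by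
  exact kd_mono h

theorem eq_of_tw_eq (G : Good R K) {L : Lat F} (hL : IsBdl R L) {E E' : Lat V}
    (hE : IsBdl R E) (hE' : IsBdl R E') (h : tw L E = tw L E') : E = E' := by
  rw [← inv_tw_tw G hL hE, h, inv_tw_tw G hL hE']

end CLF
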