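import Pool.Agent.CLF.Ded
import Pool.Agent.CLF.Rho

/-!
# Module Kbd: the canonical pair is a line bundle

`Kx F lam i = {h | lam (h r) ∈ Sd i for all r ∈ rings F i}`.
PROOF. It is stable under `rings F i`.  Generation: choose a basis `f : Basis (Fin n) (RatFunc ℂ) F` consisting of
elements of `rings F i` (every element of `F` has a nonzero multiple by an element of `SS i` in `rings F i`).  The map
`T : F → (Fin n → RatFunc ℂ)`, `h ↦ (lam (h f_j))_j` is injective and `RatFunc ℂ`-linear (if `lam (h f_j) = 0` for all `j` then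
`lam (h F) = 0`, so `h = 0` as `lam ≠ 0`), and maps `Kx i` into `∏ Sd i`, which is a finitely generated module over
the Noetherian ring `SS i` (`Sd i = g SS i`).  So `Kx i` is a finitely generated `SS i`-module, a fortiori
finitely generated over `rings F i`: `Kx i = Oo (rings F) i • span ℂ s`.
Spanning over `F`: it suffices that `Kx i ≠ 0`.  `rings F i = ∑ SS i t_l` (`rings_gen`); choose
`g ≠ 0` in `RatFunc ℂ` with `g * lam t_l ∈ Sd i` for all `l` (common denominator; `Sd i` is `g_i SS i`); then
`algebraMap g ∈ Kx i`: `lam (g r) = g lam r ∈ Sd i` for `r ∈ rings F i`.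
-/

open Module

namespace CLF

universe u

variable (F : Type u) [Field F] [Algebra ℂ F] [Algebra (RatFunc ℂ) F]
  [IsScalarTower ℂ (RatFunc ℂ) F] [FiniteDimensional (RatFunc ℂ) F]

/-- `Sd i` is a principal fractional ideal -/
private theorem kbd_Sd (i : Fin 2) : ∃ g : RatFunc ℂ, g ≠ 0 ∧
    ∀ h : RatFunc ℂ, h ∈ Sd i ↔ g⁻¹ * h ∈ SS i := by
  have hX : (RatFunc.X : RatFunc ℂ) ≠ 0 := RatFunc.X_ne_zero
  fin_cases i
  · refine ⟨1, one_ne_zero, fun h => ?_⟩
    rw [inv_one, one_mul]
    exact Iff.rfl
  · refine ⟨(RatFunc.X ^ 2)⁻¹, inv_ne_zero (pow_ne_zero 2 hX), fun h => ?_⟩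
    rw [inv_inv, mul_comm]
    exact Iff.rfl

private theorem kbd_stable (lam : F →ₗ[RatFunc ℂ] RatFunc ℂ) (i : Fin 2) (r : F)
    (hr : r ∈ rings F i) (h : F) (hh : h ∈ Kx F lam i) : r * h ∈ Kx F lam i := by
  intro s hs
  have h1 : r * h * s = h * (r * s) := by ring
  rw [h1]
  exact hh _ ((rings F i).mul_mem hr hs)

/-- `Kx i` as a module over `SS i` -/
private def kbdM (lam : F →ₗ[RatFunc ℂ] RatFunc ℂ) (i : Fin 2) : Submodule (SS i) F where
  carrier := {h | h ∈ Kx F lam i}
  add_mem' := fun {a b} ha hb => (Kx F lam i).add_mem ha hb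
  zero_mem' := (Kx F lam i).zero_mem
  smul_mem' := fun c {a} ha => by
    have h1 : c • a = (algebraMap (RatFunc ℂ) F (c : RatFunc ℂ)) * a := by
      rw [← Algebra.smul_def]
      rfl
    rw [h1]
    exact kbd_stable F lam i _ (SS_le F i _ c.2) a ha

private theorem kbd_fin (lam : F →ₗ[RatFunc ℂ] RatFunc ℂ) (hlam : lam ≠ 0) (i : Fin 2) :
    (kbdM F lam i).FG := by
  have := SS_pid i
  have := SS_frac i
  obtain ⟨s, b, hb⟩ := FiniteDimensional.exists_is_basis_integral (SS i) (RatFunc ℂ) F
  obtain ⟨g, hg0, hg⟩ := kbd_Sd i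
  have hmem : ∀ h : kbdM F lam i, ∀ j, g⁻¹ * lam ((h : F) * b j) ∈ SS i := by
    intro h j
    rw [← hg]
    exact h.2 _ (hb j)
  let T : kbdM F lam i →ₗ[SS i] (s → SS i) :=
    { toFun := fun h j => ⟨g⁻¹ * lam ((h : F) * b j), hmem h j⟩
      map_add' := fun h h' => by
        funext j
        apply Subtype.ext
        change g⁻¹ * lam (((h : F) + (h' : F)) * b j) =
          g⁻¹ * lam ((h : F) * b j) + g⁻¹ * lam ((h' : F) * b j)
        rw [add_mul, map_add, mul_add]
      map_smul' := fun c h => by
        funext j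
        apply Subtype.ext
        change g⁻¹ * lam (((c : RatFunc ℂ) • (h : F)) * b j) =
          (c : RatFunc ℂ) * (g⁻¹ * lam ((h : F) * b j))
        rw [smul_mul_assoc, map_smul, smul_eq_mul]
        ring }
  have hT : Function.Injective T := by
    rw [injective_iff_map_eq_zero]
    intro h hh
    apply Subtype.ext
    change (h : F) = 0
    by_contra hne
    apply hlam
    have h1 : ∀ j, lam ((h : F) * b j) = 0 := by
      intro j
      have h2 := congrArg Subtype.val (congrFun hh j)
      change g⁻¹ * lam ((h : F) * b j) = 0 at h2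
      exact (mul_eq_zero.1 h2).resolve_left (inv_ne_zero hg0)
    have h3 : ∀ y : F, lam ((h : F) * y) = 0 := by
      intro y
      have h4 : lam.comp (LinearMap.mulLeft (RatFunc ℂ) (h : F)) = 0 := by
        apply b.ext
        intro j
        exact h1 j
      exact LinearMap.congr_fun h4 y
    ext y
    have h5 := h3 ((h : F)⁻¹ * y)
    rw [← mul_assoc, mul_inv_cancel₀ hne, one_mul] at h5
    rw [h5]
    rfl
  have h6 : Module.Finite (SS i) (kbdM F lam i) := Module.Finite.of_injective T hT
  exact Module.Finite.iff_fg.1 h6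

theorem Kx_bdl (lam : F →ₗ[RatFunc ℂ] RatFunc ℂ) (hlam : lam ≠ 0) :
    IsBdl (rings F) (Kx F lam) := by
  classical
  constructor
  · intro i
    obtain ⟨s, hs⟩ := kbd_fin F lam hlam i
    refine ⟨s, ?_⟩
    have hsK : ∀ x ∈ s, x ∈ Kx F lam i := by
      intro x hx
      have h1 : x ∈ kbdM F lam i := by
        rw [← hs]
        exact Submodule.subset_span hx
      exact h1
    apply le_antisymm
    · intro x hx
      have h1 : x ∈ kbdM F lam i := hx
      rw [← hs] at h1
      refine Submodule.span_induction ?_ ?_ ?_ ?_ h1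
      · intro y hy
        have h2 : (1 : F) • y ∈ Oo (rings F) i • Submodule.span ℂ (s : Set F) :=
          Submodule.smul_mem_smul (rings F i).one_mem (Submodule.subset_span hy)
        rwa [one_smul] at h2
      · exact Submodule.zero_mem _
      · intro a b _ _ ha hb
        exact Submodule.add_mem _ ha hb
      · intro c y _ hy
        have h2 : c • y = (algebraMap (RatFunc ℂ) F (c : RatFunc ℂ)) • y := by
          rw [smul_eq_mul, ← Algebra.smul_def]
          rfl
        rw [h2]
        refine Submodule.smul_induction_on hy ?_ ?_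
        · intro r hr n hn
          rw [← mul_smul]
          exact Submodule.smul_mem_smul ((rings F i).mul_mem (SS_le F i _ c.2) hr) hn
        · intro a b ha hb
          rw [smul_add]
          exact Submodule.add_mem _ ha hb
    · rw [Submodule.smul_le]
      intro r hr n hn
      rw [smul_eq_mul]
      refine kbd_stable F lam i r hr n ?_
      exact Submodule.span_le.2 (fun x hx => hsK x hx) hn
  · intro i
    have := SS_pid i
    have := SS_frac i
    obtain ⟨t, ht⟩ := rings_gen F i
    obtain ⟨g, hg0, hg⟩ := kbd_Sd i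
    obtain ⟨p, hp⟩ := IsLocalization.exist_integer_multiples_of_finset
      (nonZeroDivisors (SS i)) (t.image lam)
    have hp0 : ((p : SS i) : RatFunc ℂ) ≠ 0 := by
      intro h
      exact nonZeroDivisors.ne_zero p.2 (Subtype.ext h)
    have hq0 : ((p : SS i) : RatFunc ℂ) * g ≠ 0 := mul_ne_zero hp0 hg0
    have hmem : algebraMap (RatFunc ℂ) F (((p : SS i) : RatFunc ℂ) * g) ∈ Kx F lam i := by
      intro r hr
      rw [ht] at hr
      obtain ⟨c, hc, rfl⟩ := hr
      rw [← Algebra.smul_def, map_smul, map_sum, smul_eq_mul, hg]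
      have h1 : g⁻¹ * (((p : SS i) : RatFunc ℂ) * g * ∑ y ∈ t, lam (c y • y)) =
          ∑ y ∈ t, c y * (((p : SS i) : RatFunc ℂ) * lam y) := by
        rw [Finset.mul_sum, Finset.mul_sum]
        refine Finset.sum_congr rfl fun y _ => ?_
        rw [map_smul, smul_eq_mul]
        field_simp
      rw [h1]
      refine Subalgebra.sum_mem _ fun y hy => (SS i).mul_mem (hc y) ?_
      obtain ⟨z, hz⟩ := hp (lam y) (Finset.mem_image_of_mem _ hy)
      have h2 : ((p : SS i) : RatFunc ℂ) * lam y = (z : RatFunc ℂ) := hz.symm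
      rw [h2]
      exact z.2
    have h0 : algebraMap (RatFunc ℂ) F (((p : SS i) : RatFunc ℂ) * g) ≠ 0 :=
      (map_ne_zero _).2 hq0
    rw [eq_top_iff]
    intro x _
    have h1 : x = (x / algebraMap (RatFunc ℂ) F (((p : SS i) : RatFunc ℂ) * g)) •
        algebraMap (RatFunc ℂ) F (((p : SS i) : RatFunc ℂ) * g) := by
      rw [smul_eq_mul, div_mul_cancel₀ _ h0]
    rw [h1]
    exact Submodule.smul_mem _ _ (Submodule.subset_span hmem)

end CLF
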