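import Pool.Agent.CLF.SpanPen
import Pool.Agent.CLF.Genu
import Pool.Agent.CLF.Num

/-!
# Module MulTen: genus nine, a multiplication map has rank at least ten

`g = 9`, `A ≤ M`, `deg A = 5`, `h0 A = 2`, `deg M = 9`, `h0 M = 4`, `M` generated by `H0 M`.  Claim:
`dim (H0 M * H0 (kd K A)) ≥ 10`.
PROOF. `h0 (kd K A) = 5` (`rr1`: `h0 A - h0 (kd K A) = 5 + 1 - 9`).
(1) `X := H0 A * H0 (kd K A) ≤ H0 K` has dimension `10 - h0 (tw (inv A) (kd K A))` (`pencil_line`).
`tw (inv A) (kd K A) = kd K (tw A A)` (`kd_tw`), and `rr1` for `tw A A` (degree 10):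
`h0 (kd K (tw A A)) = h0 (tw A A) - 2 ≤ 2` as `h0 (tw A A) ≤ 4` (`L2`, `h = 5`: `11 > 10`).
So `dim X ≥ 8`.  `X ≤ H0 K`: `mul_H0_le` and `tw A (kd K A) = K` (`kd_eq`, `tw_inv_tw`).
(2) `gen_u` (S = H0 M): `u ∈ H0 M` with `M i = A i + Oo R i u`.  The map `h ↦ u h`,
`H0 (kd K A) → F / H0 K`: its kernel is `H0 (kd K M)`: if `u h ∈ K i` and `h A i ≤ K i` then
`h M i ≤ K i`; and `h0 (kd K M) = h0 M - (9+1-9) = 3` (`rr1`).  So the image of
`u H0 (kd K A) ≤ H0 M * H0 (kd K A)` in `F / H0 K` has dimension `5 - 3 = 2`.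
(3) `Y := H0 M * H0 (kd K A)` contains `X` (dim ≥ 8, inside `H0 K`; `H0 A ≤ H0 M`) and its image in
`F / H0 K` has dimension ≥ 2, so `dim Y ≥ dim (Y ∩ H0 K) + 2 ≥ 10` (`Y` is finite dimensional).
-/

open Module

namespace CLF

universe u

variable {F : Type u} [Field F] [Algebra ℂ F] {R : Fin 2 → Subalgebra ℂ F} {K : Lat F}
variable {V : Type u} [AddCommGroup V] [Module ℂ V] [Module F V] [IsScalarTower ℂ F V]
  [FiniteDimensional F V]

theorem mul_ten (C : Ctx R K) (hg : genus R = 9) {A M : Lat F} {a0 a1 : F}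
    (hA : IsPencil R A a0 a1) (hM : IsBdl R M) (hle : ∀ i, A i ≤ M i) (dA : deg R A = 5)
    (sA : h0 A = 2) (dM : deg R M = 9) (sM : h0 M = 4) (gM : ∀ i, M i = Oo R i * H0 M) :
    10 ≤ finrank ℂ (H0 M * H0 (kd K A) : Submodule ℂ F) := by
  have G := C.good
  have hkA : IsBdl R (kd K A) := bdl_kd G hA.bdl
  have hkM : IsBdl R (kd K M) := bdl_kd G hM
  have hAA : IsBdl R (tw A A) := bdl_tw hA.bdl hA.bdl
  have e1 := rr1 G hA.bdl
  have e2 := rr1 G hM
  have e3 := rr1 G hAA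
  have e4 := deg_tw1 G hA.bdl hA.bdl
  have e5 : kd K (tw A A) = tw (inv R A) (kd K A) := kd_tw G hA.bdl hA.bdl
  have e6 := (pencil_line C hA sA hkA).1
  have e7 : (h0 (tw A A) : ℤ) ≤ 4 := by
    by_contra hcon
    have h5 := C.L2 (tw A A) hAA 5 (by norm_num) (by omega)
    rcases min_le_iff.1 h5 with h | h <;> omega
  rw [e5] at e3
  have dX : 8 ≤ finrank ℂ (H0 A * H0 (kd K A) : Submodule ℂ F) := by omega
  have dk : h0 (kd K A) = 5 := by omega
  have dkM : h0 (kd K M) = 3 := by omega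
  have hXK : H0 A * H0 (kd K A) ≤ H0 K := by
    have h1 := mul_H0_le A (kd K A)
    rwa [kd_eq G hA.bdl, tw_inv_tw G hA.bdl G.Kb, ← kd_eq G hA.bdl] at h1
  have fM := (G.fin F M hM).1
  have fA := (G.fin F A hA.bdl).1
  have fkA := (G.fin F _ hkA).1
  have fkM := (G.fin F _ hkM).1
  have fY : FiniteDimensional ℂ (H0 M * H0 (kd K A) : Submodule ℂ F) :=
    Module.Finite.iff_fg.2 ((Module.Finite.iff_fg.1 fM).mul (Module.Finite.iff_fg.1 fkA))
  have fX : FiniteDimensional ℂ (H0 A * H0 (kd K A) : Submodule ℂ F) :=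
    Module.Finite.iff_fg.2 ((Module.Finite.iff_fg.1 fA).mul (Module.Finite.iff_fg.1 fkA))
  obtain ⟨u, hu, huM⟩ := gen_u G hA.bdl hM hle (H0 M) fM gM
  have hu0 : u ≠ 0 := by
    rintro rfl
    have h1 : A = M := by
      funext i
      rw [huM i]
      simp
    rw [h1] at dA
    omega
  have hinj : Function.Injective (LinearMap.mulLeft ℂ u) := fun a b hab =>
    mul_left_cancel₀ hu0 hab
  have dZ : finrank ℂ ((H0 (kd K A)).map (LinearMap.mulLeft ℂ u)) = 5 := by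
    rw [← dk]
    exact (Submodule.equivMapOfInjective _ hinj (H0 (kd K A))).finrank_eq.symm
  have hXY : H0 A * H0 (kd K A) ≤ H0 M * H0 (kd K A) :=
    mul_le_mul' (inf_le_inf (hle 0) (hle 1)) le_rfl
  have hZY : (H0 (kd K A)).map (LinearMap.mulLeft ℂ u) ≤ H0 M * H0 (kd K A) := by
    rintro _ ⟨y, hy, rfl⟩
    exact Submodule.mul_mem_mul hu hy
  have hint : (H0 A * H0 (kd K A)) ⊓ (H0 (kd K A)).map (LinearMap.mulLeft ℂ u) ≤
      (H0 (kd K M)).map (LinearMap.mulLeft ℂ u) := by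
    rintro x ⟨hx1, hx2⟩
    obtain ⟨y, hy, rfl⟩ := hx2
    have hK := hXK hx1
    have hmem : ∀ i, u * y ∈ K i → y ∈ kd K A i → y ∈ kd K M i := by
      intro i h1 h2
      refine Submodule.mem_div_iff_forall_mul_mem.2 fun m hm => ?_
      rw [huM i] at hm
      obtain ⟨p, hp, q, hq, rfl⟩ := Submodule.mem_sup.1 hm
      rw [mul_add]
      refine Submodule.add_mem _ (Submodule.mem_div_iff_forall_mul_mem.1 h2 p hp) ?_
      have h3 : Oo R i * Submodule.span ℂ {u} ≤ (K i).comap (LinearMap.mulLeft ℂ y) := by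
        refine Submodule.mul_le.2 fun r hr x hx => ?_
        obtain ⟨c, rfl⟩ := Submodule.mem_span_singleton.1 hx
        have h4 := smul_stable G.Kb i hr (Submodule.smul_mem _ c h1)
        have h5 : LinearMap.mulLeft ℂ y (r * c • u) = r • c • (u * y) := by
          simp only [LinearMap.mulLeft_apply, smul_eq_mul, Algebra.smul_def]
          ring
        rw [Submodule.mem_comap, h5]
        exact h4
      exact h3 hq
    exact ⟨y, ⟨hmem 0 hK.1 hy.1, hmem 1 hK.2 hy.2⟩, rfl⟩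
  have dI : finrank ℂ ((H0 A * H0 (kd K A)) ⊓
      (H0 (kd K A)).map (LinearMap.mulLeft ℂ u) : Submodule ℂ F) ≤ 3 := by
    refine (Submodule.finrank_mono hint).trans ?_
    rw [← dkM]
    exact Submodule.finrank_map_le _ _
  have hsum := Submodule.finrank_sup_add_finrank_inf_eq (H0 A * H0 (kd K A))
    ((H0 (kd K A)).map (LinearMap.mulLeft ℂ u))
  have hfin : finrank ℂ ((H0 A * H0 (kd K A)) ⊔
      (H0 (kd K A)).map (LinearMap.mulLeft ℂ u) : Submodule ℂ F) ≤
      finrank ℂ (H0 M * H0 (kd K A) : Submodule ℂ F) :=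
    Submodule.finrank_mono (sup_le hXY hZY)
  omega

end CLF
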