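import Pool.Agent.CLF.MulTen
import Pool.Agent.CLF.Scl

/-!
# Module MulTen2: the same without the inclusion

PROOF. `gen_five`: `h0 A = 2` and `A` is a pencil.  `pencil_le` (V = F, E = M): `8 ≤ h0 (tw A M) + h0 (tw (inv A) M)`.
`h0 (tw A M) ≤ 7`: degree `14`, `L2` with `h = 8`: `min 17 15 = 15 > 14`.  So there is `x ≠ 0` in
`H0 (tw (inv A) M)`, i.e. `x * a ∈ M i` for `a ∈ A i` (`mem_inv_tw`).  Put `A' = sc x A ≤ M`; it is a pencil
(generated by `x a0, x a1`) of degree 5 with `h0 A' = 2`.  `mul_ten` for `A'`, and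
`kd K A' = sc x⁻¹ (kd K A)`, `H0_sc`, `finrank_mul_map`.
(To get the pencil structure of `A'` simply use `gen_five` again.)
-/

open Module

namespace CLF

universe u

variable {F : Type u} [Field F] [Algebra ℂ F] {R : Fin 2 → Subalgebra ℂ F} {K : Lat F}
variable {V : Type u} [AddCommGroup V] [Module ℂ V] [Module F V] [IsScalarTower ℂ F V]
  [FiniteDimensional F V]

theorem mul_ten' (C : Ctx R K) (hg : genus R = 9) {A M : Lat F} (hA : IsBdl R A)
    (hM : IsBdl R M) (dA : deg R A = 5) (sA : 2 ≤ h0 A) (dM : deg R M = 9) (sM : h0 M = 4)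
    (gM : ∀ i, M i = Oo R i * H0 M) :
    10 ≤ finrank ℂ (H0 M * H0 (kd K A) : Submodule ℂ F) := by
  have G := C.good
  obtain ⟨-, a0, a1, hp⟩ := gen_five C hA dA sA
  have e1 := pencil_le G hA (hp.ind.ne_zero 0) hp.gen hM
  have e2 : h0 (tw A M) ≤ 7 := by
    by_contra hcon
    have h5 := C.L2 (tw A M) (bdl_tw hA hM) 8 (by norm_num) (by omega)
    have h6 := deg_tw1 G hA hM
    rcases min_le_iff.1 h5 with h | h <;> omega
  have e3 : 0 < h0 (tw (inv R A) M) := by omega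
  have hb : IsBdl R (tw (inv R A) M) := bdl_tw (bdl_inv G hA) hM
  have hfd := (G.fin F _ hb).1
  have hnt : Nontrivial (H0 (tw (inv R A) M)) := Module.finrank_pos_iff.mp e3
  obtain ⟨⟨x, hx⟩, hx0⟩ := exists_ne (0 : H0 (tw (inv R A) M))
  have hx0' : x ≠ 0 := fun h => hx0 (Subtype.ext h)
  have hxa : ∀ i, ∀ a ∈ A i, x * a ∈ M i := by
    intro i a ha
    have hxi : x ∈ tw (inv R A) M i := by
      fin_cases i
      · exact hx.1
      · exact hx.2
    have := (mem_inv_tw G hA hM i x).1 hxi a ha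
    rwa [smul_eq_mul, mul_comm] at this
  have hA' : IsBdl R (sc x A) := bdl_sc hA hx0'
  have dA' : deg R (sc x A) = 5 := by rw [deg_sc A hx0', dA]
  have sA' : 2 ≤ h0 (sc x A) := by rw [h0_sc A hx0']; exact sA
  obtain ⟨h2, b0, b1, hp'⟩ := gen_five C hA' dA' sA'
  have h10 := mul_ten C hg hp' hM (sc_le hxa) dA' h2 dM sM gM
  rw [kd_sc A hx0', H0_sc _ (inv_ne_zero hx0'), finrank_mul_map _ _ (inv_ne_zero hx0')] at h10
  exact h10

end CLF
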