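import Pool.Agent.CLF.FDefs

/-!
# Module Pids: the two rings of the line are PIDs with fraction field `RatFunc ℂ`

PROOF. `S0` is the range of the injective map from `Polynomial ℂ`, so isomorphic to it.
`S1`: `IsPrincipalIdealRing`: a nonzero ideal `I`; among the nonzero elements choose `f` with
`-intDegree f ≥ 0` minimal; then every `g ∈ I` is `f * (g/f)` with `intDegree (g/f) ≤ 0`.
Fraction ring: `IsFractionRing` of `S0`: each `f` is a quotient of polynomials.  `S1`: each `f` is
`(f X^(-n)) / X^(-n)` with `n` large (both in `S1`).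
(`IsLocalization` constructor: `map_units`, `surj`, `exists_of_eq`.)
-/

open Module

namespace CLF

universe u

private theorem pids_mem1 {f : RatFunc ℂ} : f ∈ S1 ↔ f.intDegree ≤ 0 := Iff.rfl

private theorem pids_div {f g : RatFunc ℂ} (hf : f ≠ 0) (h : g.intDegree ≤ f.intDegree ∨ g = 0) :
    g / f ∈ S1 := by
  rw [pids_mem1]
  by_cases hg : g = 0
  · rw [hg, zero_div, RatFunc.intDegree_zero]
  · rw [RatFunc.intDegree_div hg hf]
    have := h.resolve_right hg
    omega

private theorem pids_S0 : IsPrincipalIdealRing S0 := by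
  let f : Polynomial ℂ →+* S0 :=
    (algebraMap (Polynomial ℂ) (RatFunc ℂ)).codRestrict S0 (fun p => ⟨p, rfl⟩)
  apply IsPrincipalIdealRing.of_surjective f
  rintro ⟨_, p, rfl⟩
  exact ⟨p, rfl⟩

private theorem pids_S1 : IsPrincipalIdealRing S1 := by
  classical
  refine ⟨fun I => ?_⟩
  by_cases hI : I = ⊥
  · rw [hI]
    exact bot_isPrincipal
  have hex : ∃ n : ℕ, ∃ f ∈ I, (f : RatFunc ℂ) ≠ 0 ∧ (f : RatFunc ℂ).intDegree = -(n : ℤ) := by
    obtain ⟨f, hf, hf0⟩ := Submodule.exists_mem_ne_zero_of_ne_bot hI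
    refine ⟨(f : RatFunc ℂ).intDegree.natAbs, f, hf, fun h => hf0 (Subtype.ext h), ?_⟩
    have := pids_mem1.1 f.2
    omega
  obtain ⟨f, hfI, hf0, hfd⟩ := Nat.find_spec hex
  refine ⟨f, le_antisymm ?_ ?_⟩
  · intro g hg
    rw [Submodule.mem_span_singleton]
    have hdiv : (g : RatFunc ℂ) / f ∈ S1 := by
      apply pids_div hf0
      by_cases hg0 : (g : RatFunc ℂ) = 0
      · exact Or.inr hg0
      left
      have hgd := pids_mem1.1 g.2
      have h1 := Nat.find_min' hex ⟨g, hg, hg0, (by omega :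
        (g : RatFunc ℂ).intDegree = -(((g : RatFunc ℂ).intDegree.natAbs : ℕ) : ℤ))⟩
      rw [hfd]
      omega
    refine ⟨⟨_, hdiv⟩, Subtype.ext ?_⟩
    exact div_mul_cancel₀ _ hf0
  · rw [Submodule.span_singleton_le_iff_mem]
    exact hfI

theorem SS_pid (i : Fin 2) : IsPrincipalIdealRing (SS i) := by
  fin_cases i
  · exact pids_S0
  · exact pids_S1

private theorem pids_F0 : IsFractionRing S0 (RatFunc ℂ) := by
  apply IsFractionRing.of_field
  intro z
  refine ⟨⟨algebraMap (Polynomial ℂ) (RatFunc ℂ) z.num, ⟨z.num, rfl⟩⟩,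
    ⟨algebraMap (Polynomial ℂ) (RatFunc ℂ) z.denom, ⟨z.denom, rfl⟩⟩, ?_⟩
  exact (RatFunc.num_div_denom z).symm

private theorem pids_F1 : IsFractionRing S1 (RatFunc ℂ) := by
  apply IsFractionRing.of_field
  intro z
  have hX : (RatFunc.X : RatFunc ℂ) ≠ 0 := RatFunc.X_ne_zero
  have hXn : ∀ n : ℕ, ((RatFunc.X : RatFunc ℂ) ^ n).intDegree = n := by
    intro n
    induction n with
    | zero => rw [pow_zero, RatFunc.intDegree_one]; rfl
    | succ n ih =>
      rw [pow_succ, RatFunc.intDegree_mul (pow_ne_zero n hX) hX, ih, RatFunc.intDegree_X]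
      push_cast
      ring
  have hXi : (RatFunc.X ^ z.intDegree.natAbs : RatFunc ℂ) ≠ 0 := pow_ne_zero _ hX
  refine ⟨⟨z / RatFunc.X ^ z.intDegree.natAbs, ?_⟩, ⟨1 / RatFunc.X ^ z.intDegree.natAbs, ?_⟩, ?_⟩
  · apply pids_div hXi
    left
    rw [hXn]
    omega
  · apply pids_div hXi
    left
    rw [hXn, RatFunc.intDegree_one]
    omega
  · change z = (z / RatFunc.X ^ z.intDegree.natAbs) / (1 / RatFunc.X ^ z.intDegree.natAbs)
    field_simp

theorem SS_frac (i : Fin 2) : IsFractionRing (SS i) (RatFunc ℂ) := by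
  fin_cases i
  · exact pids_F0
  · exact pids_F1

end CLF
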