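import Pool.Agent.CLF.Inv2
import Pool.Agent.CLF.Dtw

/-!
# Module Pow: powers of a line bundle

`pw R L 0 = O`, `pw R L (j+1) = tw (pw R L j) L`.
PROOFS. Inductions (`bdl_tw`, `deg_tw1`).  `pow_le`: `(H0 L)^j ≤ H0 (pw R L j)` by induction
(`(H0 L)^(j+1) = (H0 L)^j * H0 L`, for `j = 0`: `1 = ℂ·1 ≤ Oo R i`).
-/

open Module

namespace CLF

universe u

variable {F : Type u} [Field F] [Algebra ℂ F] {R : Fin 2 → Subalgebra ℂ F} {K : Lat F}
variable {V : Type u} [AddCommGroup V] [Module ℂ V] [Module F V] [IsScalarTower ℂ F V]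
  [FiniteDimensional F V]

/-- powers of a line bundle -/
def pw (R : Fin 2 → Subalgebra ℂ F) (L : Lat F) : ℕ → Lat F
  | 0 => Oo R
  | (j + 1) => tw (pw R L j) L

theorem bdl_pw {L : Lat F} (hL : IsBdl R L) (j : ℕ) : IsBdl R (pw R L j) := by
  induction j with
  | zero => exact bdl_O
  | succ j ih => exact bdl_tw ih hL

theorem deg_pw (G : Good R K) {L : Lat F} (hL : IsBdl R L) (j : ℕ) :
    deg R (pw R L j) = (j : ℤ) * deg R L := by
  induction j with
  | zero => simp [pw, deg_O]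
  | succ j ih =>
    rw [pw, deg_tw1 G (bdl_pw hL j) hL, ih]
    push_cast; ring

theorem pow_le (L : Lat F) (j : ℕ) : (H0 L) ^ j ≤ H0 (pw R L j) := by
  induction j with
  | zero =>
    rw [pow_zero, Submodule.one_le]
    exact ⟨(R 0).one_mem, (R 1).one_mem⟩
  | succ j ih =>
    rw [pow_succ]
    refine le_inf ?_ ?_
    · exact mul_le_mul' (ih.trans inf_le_left) inf_le_left
    · exact mul_le_mul' (ih.trans inf_le_right) inf_le_right

theorem mul_pw_le (L : Lat F) (j : ℕ) : H0 L * H0 (pw R L j) ≤ H0 (pw R L (j + 1)) := by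
  rw [mul_comm]
  refine le_inf ?_ ?_
  · exact mul_le_mul' inf_le_left inf_le_left
  · exact mul_le_mul' inf_le_right inf_le_right

end CLF
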