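import Pool.Agent.CLF.Defs

/-!
# PrDefs: the algebra of maximal minors of a generic matrix
-/

open Module

namespace CLF


open MvPolynomial in
/-- the generic `n × m` matrix -/
noncomputable def gmat (n m : ℕ) : Matrix (Fin n) (Fin m) (MvPolynomial (Fin n × Fin m) ℂ) :=
  Matrix.of fun i j => X (i, j)

/-- the maximal minor with columns `J 0, ..., J (n-1)` -/
noncomputable def mnr (n m : ℕ) (J : Fin n → Fin m) : MvPolynomial (Fin n × Fin m) ℂ :=
  Matrix.det ((gmat n m).submatrix id J)

/-- the algebra generated by the maximal minors -/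
noncomputable def AA (n m : ℕ) : Subalgebra ℂ (MvPolynomial (Fin n × Fin m) ℂ) :=
  Algebra.adjoin ℂ (Set.range (mnr n m))

/-- the maximal minor as an element of the algebra `AA` -/
noncomputable def pj (n m : ℕ) (J : Fin n → Fin m) : AA n m :=
  ⟨mnr n m J, Algebra.subset_adjoin ⟨J, rfl⟩⟩

end CLF
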