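import Pool.Agent.CLF.PrDefs

/-!
# Module Pra: the ideal of all maximal minors in `AA n m` has height at least `n (m - n) + 1`

PROOF. Let `1 ≤ n ≤ m`, `N = n (m - n)`, and `T = MvPolynomial (Option (Fin n × Fin (m-n))) ℂ` with
variables `t = X none` and `z_(i,j) = X (some (i,j))`.  For a subset `s` of `Fin n × Fin (m-n)` let
`θ_s : MvPolynomial (Fin n × Fin m) ℂ → T` be the `ℂ`-algebra homomorphism sending the generic matrix to
the matrix `M_s` whose first `n` columns are `diag(t, 1, ..., 1)`, and whose column `n + j` has entry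
`z_(i,j)` in row `i` if `(i,j) ∈ s` and `0` otherwise, the row `0` being multiplied by `t`.
Every maximal minor of `M_s` is divisible by `t` (row `0` is).  Let `q_s` be the kernel of `θ_s`
restricted to `AA n m`, a prime ideal (T is a domain).  Let `m0` be the kernel of the homomorphism
`AA n m → ℂ` given by evaluation at `0`; it contains all `pj J` (as `n ≥ 1`).
(a) if `s ⊆ s'` then `q_s' ≤ q_s` (`θ_s = π ∘ θ_s'` with `π` killing the `z`-variables outside `s`).
(b) if `(i,j) ∈ s'`, `(i,j) ∉ s`: let `J` be the standard embedding `Fin n → Fin m` updated at `i`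
to the value `n + j`; then `θ_s' (mnr J) = t z_(i,j) ≠ 0` and `θ_s (mnr J) = 0`: the matrix is
`diag(t,1,..,1)` with column `i` replaced by the column `n+j` (`Matrix.det` of an updated column of
a diagonal matrix is the product of the other diagonal entries with the `i`-th entry of the column;
e.g. `Matrix.cramer` / `Matrix.det_updateCol`...).  So `q_s' < q_s`.
(c) `q_∅ < m0`: for the standard `J`, `θ_∅ (mnr J) = t ≠ 0` but `pj J ∈ m0`; and `q_∅ ≤ m0` because
evaluating `θ_∅ x` at `t = 0` gives the evaluation of `x` at `0` for `x ∈ AA n m` (both are algebra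
homs on `AA`, both kill all `pj J`; use `Algebra.adjoin` induction or `Subalgebra` hom extensionality).
By induction along a chain `∅ ⊂ {e 0} ⊂ {e 0, e 1} ⊂ ...` of `N` steps: height of `q_∅` is at least
`N`, so height of `m0` is at least `N + 1`  (`Ideal.primeHeight` / `Ideal.height`,
`Ideal.primeHeight_add_one_le_of_lt` and similar in `Mathlib/RingTheory/Ideal/Height.lean`).
-/

open Module

namespace CLF


open MvPolynomial in
private noncomputable def praInner (n m : ℕ) (s : Finset (Fin n × Fin (m - n))) :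
    Matrix (Fin n) (Fin m) (MvPolynomial (Option (Fin n × Fin (m - n))) ℂ) :=
  Matrix.of fun i c =>
    if h : c.val < n then (if c.val = i.val then 1 else 0)
    else (if (i, (⟨c.val - n, by omega⟩ : Fin (m - n))) ∈ s then
      X (some (i, (⟨c.val - n, by omega⟩ : Fin (m - n)))) else 0)

open MvPolynomial in
private noncomputable def praSc (n m : ℕ) (i : Fin n) :
    MvPolynomial (Option (Fin n × Fin (m - n))) ℂ :=
  if i.val = 0 then X none else 1

open MvPolynomial in
private noncomputable def praTh (n m : ℕ) (s : Finset (Fin n × Fin (m - n))) :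
    MvPolynomial (Fin n × Fin m) ℂ →ₐ[ℂ] MvPolynomial (Option (Fin n × Fin (m - n))) ℂ :=
  aeval fun p => praSc n m p.1 * praInner n m s p.1 p.2

private theorem praProd (n m : ℕ) (hn : 1 ≤ n) :
    ∏ i, praSc n m i = MvPolynomial.X none := by
  rw [Finset.prod_eq_single (⟨0, by omega⟩ : Fin n)]
  · simp [praSc]
  · intro b _ hb
    have : b.val ≠ 0 := fun h => hb (Fin.ext h)
    simp [praSc, this]
  · intro h
    exact absurd (Finset.mem_univ _) h

private theorem praTh_mnr (n m : ℕ) (hn : 1 ≤ n) (s : Finset (Fin n × Fin (m - n)))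
    (J : Fin n → Fin m) :
    praTh n m s (mnr n m J) =
      MvPolynomial.X none * ((praInner n m s).submatrix id J).det := by
  rw [mnr, AlgHom.map_det]
  have e : (praTh n m s).mapMatrix ((gmat n m).submatrix id J) =
      Matrix.of fun i j => praSc n m i * ((praInner n m s).submatrix id J) i j := by
    ext1 i j
    simp [praTh, gmat]
  rw [e, Matrix.det_mul_column, praProd n m hn]

private noncomputable def praQ (n m : ℕ) (s : Finset (Fin n × Fin (m - n))) : Ideal (AA n m) :=
  RingHom.ker ((praTh n m s).comp (AA n m).val)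

private instance praQ_prime (n m : ℕ) (s : Finset (Fin n × Fin (m - n))) :
    (praQ n m s).IsPrime := RingHom.ker_isPrime _

open MvPolynomial in
private noncomputable def praPi (n m : ℕ) (s : Finset (Fin n × Fin (m - n))) :
    MvPolynomial (Option (Fin n × Fin (m - n))) ℂ →ₐ[ℂ]
      MvPolynomial (Option (Fin n × Fin (m - n))) ℂ :=
  aeval fun o => match o with
    | none => X none
    | some p => if p ∈ s then X (some p) else 0

private theorem praPi_th (n m : ℕ) (s s' : Finset (Fin n × Fin (m - n))) (h : s ⊆ s') :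
    (praPi n m s).comp (praTh n m s') = praTh n m s := by
  apply MvPolynomial.algHom_ext
  intro p
  simp only [AlgHom.comp_apply, praTh, MvPolynomial.aeval_X, map_mul]
  congr 1
  · unfold praSc
    split_ifs
    · simp [praPi]
    · simp
  · unfold praInner
    simp only [Matrix.of_apply]
    split_ifs with h1 h2 h3 h4 h5
    · simp
    · simp
    · simp [praPi, h4]
    · simp [praPi, h4]
    · exact absurd (h h5) h3
    · simp

private theorem praQ_le (n m : ℕ) (s s' : Finset (Fin n × Fin (m - n))) (h : s ⊆ s') :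
    praQ n m s' ≤ praQ n m s := by
  intro x hx
  rw [praQ, RingHom.mem_ker] at hx ⊢
  rw [← praPi_th n m s s' h]
  have : (praTh n m s') ((AA n m).val x) = 0 := hx
  change praPi n m s (praTh n m s' ((AA n m).val x)) = 0
  rw [this, map_zero]

private noncomputable def praStd (n m : ℕ) (hnm : n ≤ m) : Fin n → Fin m :=
  fun i => ⟨i.val, by omega⟩

private theorem praDet (n m : ℕ) (hnm : n ≤ m) (s : Finset (Fin n × Fin (m - n)))
    (i : Fin n) (j : Fin (m - n)) :
    ((praInner n m s).submatrix id
      (Function.update (praStd n m hnm) i ⟨n + j.val, by omega⟩)).det =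
      if (i, j) ∈ s then MvPolynomial.X (some (i, j)) else 0 := by
  have e : (praInner n m s).submatrix id
      (Function.update (praStd n m hnm) i ⟨n + j.val, by omega⟩) =
      (1 : Matrix (Fin n) (Fin n) _).updateCol i
        (fun a => if (a, j) ∈ s then MvPolynomial.X (some (a, j)) else 0) := by
    ext1 a b
    by_cases hb : b = i
    · subst hb
      simp [praInner]
    · rw [Matrix.updateCol_ne hb]
      simp only [Matrix.submatrix_apply, id_eq, Function.update_of_ne hb]
      simp only [praInner, praStd, Matrix.of_apply, b.isLt, dite_true, Matrix.one_apply]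
      by_cases hab : a = b
      · simp [hab]
      · have : b.val ≠ a.val := fun h => hab (Fin.ext h.symm)
        simp [hab, this]
  rw [e, ← Matrix.cramer_apply, Matrix.cramer_one]
  rfl

private theorem praDet0 (n m : ℕ) (hnm : n ≤ m) (s : Finset (Fin n × Fin (m - n))) :
    ((praInner n m s).submatrix id (praStd n m hnm)).det = 1 := by
  have e : (praInner n m s).submatrix id (praStd n m hnm) = 1 := by
    ext1 a b
    simp only [Matrix.submatrix_apply, id_eq]
    simp only [praInner, praStd, Matrix.of_apply, b.isLt, dite_true, Matrix.one_apply]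
    by_cases hab : a = b
    · simp [hab]
    · have : b.val ≠ a.val := fun h => hab (Fin.ext h.symm)
      simp [hab, this]
  rw [e, Matrix.det_one]

private theorem praQ_lt (n m : ℕ) (hn : 1 ≤ n) (hnm : n ≤ m)
    (s : Finset (Fin n × Fin (m - n))) (p : Fin n × Fin (m - n)) (hp : p ∉ s) :
    praQ n m (insert p s) < praQ n m s := by
  refine lt_of_le_of_ne (praQ_le n m _ _ (Finset.subset_insert p s)) ?_
  intro heq
  obtain ⟨i, j⟩ := p
  have h1 : pj n m (Function.update (praStd n m hnm) i ⟨n + j.val, by omega⟩) ∈ praQ n m s := by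
    rw [praQ, RingHom.mem_ker]
    change praTh n m s (mnr n m _) = 0
    rw [praTh_mnr n m hn, praDet, if_neg hp, mul_zero]
  rw [← heq, praQ, RingHom.mem_ker] at h1
  have h2 : praTh n m (insert (i, j) s)
      (mnr n m (Function.update (praStd n m hnm) i ⟨n + j.val, by omega⟩)) = 0 := h1
  rw [praTh_mnr n m hn, praDet, if_pos (Finset.mem_insert_self _ _)] at h2
  exact mul_ne_zero (MvPolynomial.X_ne_zero _) (MvPolynomial.X_ne_zero _) h2

private theorem praHeight (n m : ℕ) (hn : 1 ≤ n) (hnm : n ≤ m) (k : ℕ) :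
    ∀ s : Finset (Fin n × Fin (m - n)), sᶜ.card = k → (k : ℕ∞) ≤ (praQ n m s).height := by
  induction k with
  | zero => intro s _; simp
  | succ k ih =>
    intro s hs
    have hne : sᶜ.Nonempty := by
      rw [← Finset.card_pos]; omega
    obtain ⟨p, hp⟩ := hne
    have hp' : p ∉ s := Finset.mem_compl.1 hp
    have hc : (insert p s)ᶜ.card = k := by
      rw [Finset.compl_insert, Finset.card_erase_of_mem hp, hs]
      rfl
    have h1 := ih _ hc
    have h2 := Ideal.height_add_one_le_of_lt_of_isPrime (praQ_lt n m hn hnm s p hp')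
    push_cast
    exact le_trans (by gcongr) h2

private noncomputable def praM0 (n m : ℕ) : Ideal (AA n m) :=
  RingHom.ker ((MvPolynomial.aeval (fun _ => (0 : ℂ)) :
    MvPolynomial (Fin n × Fin m) ℂ →ₐ[ℂ] ℂ).comp (AA n m).val)

private instance praM0_prime (n m : ℕ) : (praM0 n m).IsPrime := RingHom.ker_isPrime _

private theorem praM0_mem (n m : ℕ) (hn : 1 ≤ n) (J : Fin n → Fin m) :
    (MvPolynomial.aeval (fun _ => (0 : ℂ)) : MvPolynomial (Fin n × Fin m) ℂ →ₐ[ℂ] ℂ)
      (mnr n m J) = 0 := by
  rw [mnr, AlgHom.map_det]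
  have e : (MvPolynomial.aeval (fun _ => (0 : ℂ)) :
      MvPolynomial (Fin n × Fin m) ℂ →ₐ[ℂ] ℂ).mapMatrix ((gmat n m).submatrix id J) = 0 := by
    ext1 i j
    simp [gmat]
  have : Nonempty (Fin n) := ⟨⟨0, by omega⟩⟩
  rw [e, Matrix.det_zero]

private theorem praQ0_lt (n m : ℕ) (hn : 1 ≤ n) (hnm : n ≤ m) :
    praQ n m ∅ < praM0 n m := by
  have key : ((MvPolynomial.aeval (fun _ => (0 : ℂ)) :
      MvPolynomial (Option (Fin n × Fin (m - n))) ℂ →ₐ[ℂ] ℂ).comp
        ((praTh n m ∅).comp (AA n m).val)) =
      ((MvPolynomial.aeval (fun _ => (0 : ℂ)) :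
        MvPolynomial (Fin n × Fin m) ℂ →ₐ[ℂ] ℂ).comp (AA n m).val) := by
    unfold AA
    apply AlgHom.adjoin_ext
    rintro x ⟨J, rfl⟩
    change (MvPolynomial.aeval (fun _ => (0 : ℂ))) (praTh n m ∅ (mnr n m J)) =
      (MvPolynomial.aeval (fun _ => (0 : ℂ))) (mnr n m J)
    rw [praM0_mem n m hn, praTh_mnr n m hn]
    simp
  refine lt_of_le_of_ne ?_ ?_
  · intro x hx
    rw [praQ, RingHom.mem_ker] at hx
    rw [praM0, RingHom.mem_ker]
    rw [← key]
    have : (praTh n m ∅) ((AA n m).val x) = 0 := hx
    change (MvPolynomial.aeval (fun _ => (0 : ℂ))) (praTh n m ∅ ((AA n m).val x)) = 0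
    rw [this, map_zero]
  · intro heq
    have h1 : pj n m (praStd n m hnm) ∈ praM0 n m := by
      rw [praM0, RingHom.mem_ker]
      exact praM0_mem n m hn _
    rw [← heq, praQ, RingHom.mem_ker] at h1
    have h2 : praTh n m ∅ (mnr n m (praStd n m hnm)) = 0 := h1
    rw [praTh_mnr n m hn, praDet0, mul_one] at h2
    exact MvPolynomial.X_ne_zero _ h2

theorem exists_prime_height (n m : ℕ) (hn : 1 ≤ n) (hnm : n ≤ m) :
    ∃ m0 : Ideal (AA n m), m0.IsPrime ∧ (∀ J, pj n m J ∈ m0) ∧
      ((n * (m - n) + 1 : ℕ) : ℕ∞) ≤ m0.height := by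
  refine ⟨praM0 n m, inferInstance, fun J => ?_, ?_⟩
  · rw [praM0, RingHom.mem_ker]
    exact praM0_mem n m hn J
  · have h1 := praHeight n m hn hnm (n * (m - n)) ∅ (by simp [Finset.compl_empty])
    have h2 := Ideal.height_add_one_le_of_lt_of_isPrime (praQ0_lt n m hn hnm)
    rw [Nat.cast_add, Nat.cast_one]
    exact le_trans (by gcongr) h2

end CLF
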