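import Pool.Agent.CLF.Pra

/-!
# Module Prb: points of the cone of the algebra `AA n m` on few hyperplanes

PROOF. `AA n m` is a finitely generated `ℂ`-algebra (generated by the finitely many `pj J`), so it is
Noetherian and Jacobson.  Let `l k := ∑ J, a k J • pj n m J`, `I := span {l k | k : Fin r}` and `m0` from
`exists_prime_height`.  `I ≤ m0`; choose a minimal prime `p` over `I` with `p ≤ m0`
(`Ideal.exists_minimalPrimes_le`).  Krull: `p.height ≤ r` (`Ideal.height_le_card_of_mem_minimalPrimes_span_finset`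
or the `spanFinrank` version, file `Mathlib/RingTheory/Ideal/KrullsHeightTheorem.lean`)
`< n (m-n) + 1 ≤ m0.height`, so `p ≠ m0`.  Some `pj J ∉ p`: otherwise `p` contains
all `pj J`; but the quotient `AA/(all pj J)` is `ℂ` (AA is generated by the `pj J`), so the ideal
generated by the `pj J` is maximal or everything, hence `p` = that ideal = `m0`.  Contradiction.
As `p` is an intersection of maximal ideals (Jacobson), there is a maximal ideal `M ≥ p` with
`pj J ∉ M`.  `AA/M` is a field of finite type over `ℂ`, so finite over `ℂ`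
(`finite_of_finite_type_of_isJacobsonRing`), so `= ℂ` (algebraically closed:
`IsAlgClosed.algebraMap_bijective_of_isIntegral` ...).  The quotient map is the wanted `χ`.
-/

open Module

namespace CLF


private theorem prbFT (n m : ℕ) : Algebra.FiniteType ℂ (AA n m) := by
  apply Subalgebra.fg_iff_finiteType (AA n m) |>.1
  refine ⟨(Set.finite_range (mnr n m)).toFinset, ?_⟩
  rw [Set.Finite.coe_toFinset]
  rfl

theorem exists_point_on (n m r : ℕ) (hn : 1 ≤ n) (hnm : n ≤ m) (hr : r < n * (m - n) + 1)
    (a : Fin r → (Fin n → Fin m) → ℂ) :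
    ∃ χ : AA n m →ₐ[ℂ] ℂ, (∀ k, ∑ J, a k J * χ (pj n m J) = 0) ∧ ∃ I, χ (pj n m I) ≠ 0 := by
  obtain ⟨m0, hm0p, hm0, hht⟩ := exists_prime_height n m hn hnm
  have : Algebra.FiniteType ℂ (AA n m) := prbFT n m
  have : IsNoetherianRing (AA n m) := Algebra.FiniteType.isNoetherianRing ℂ _
  have : IsJacobsonRing (AA n m) := isJacobsonRing_of_finiteType (A := ℂ)
  let l : Fin r → AA n m := fun k => ∑ J, a k J • pj n m J
  have hI : Ideal.span (Set.range l) ≤ m0 := by
    rw [Ideal.span_le]
    rintro _ ⟨k, rfl⟩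
    refine Ideal.sum_mem _ fun J _ => ?_
    rw [Algebra.smul_def]
    exact Ideal.mul_mem_left _ _ (hm0 J)
  obtain ⟨p, hp, hpm⟩ := Ideal.exists_minimalPrimes_le hI
  have hpp : p.IsPrime := hp.isPrime
  have hpr : p.height ≤ r := by
    refine le_trans (Ideal.height_le_card_of_mem_minimalPrimes_span (Set.finite_range l) hp) ?_
    have : (Set.range l).ncard ≤ r := by
      have := Set.ncard_image_le (Set.finite_univ (α := Fin r)) (f := l)
      rw [Set.image_univ, Set.ncard_univ, Nat.card_eq_fintype_card, Fintype.card_fin] at this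
      exact this
    exact_mod_cast this
  have hJ : ∃ J, pj n m J ∉ p := by
    by_contra hcon
    push Not at hcon
    have hcl : ∀ x : AA n m, ∃ c : ℂ, x - algebraMap ℂ (AA n m) c ∈ p := by
      rintro ⟨y, hy⟩
      induction hy using Algebra.adjoin_induction with
      | mem y hy =>
        obtain ⟨J, rfl⟩ := hy
        refine ⟨0, ?_⟩
        rw [map_zero, sub_zero]
        exact hcon J
      | algebraMap c => exact ⟨c, by
          convert p.zero_mem using 1
          exact sub_self _⟩
      | add y z hy hz h1 h2 =>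
        obtain ⟨c, hc⟩ := h1
        obtain ⟨d, hd⟩ := h2
        refine ⟨c + d, ?_⟩
        convert p.add_mem hc hd using 1
        rw [map_add, sub_add_sub_comm]
        rfl
      | mul y z hy hz h1 h2 =>
        obtain ⟨c, hc⟩ := h1
        obtain ⟨d, hd⟩ := h2
        refine ⟨c * d, ?_⟩
        have := p.add_mem (p.mul_mem_right (⟨z, hz⟩ : AA n m) hc)
          (p.mul_mem_left (algebraMap ℂ (AA n m) c) hd)
        convert this using 1
        rw [map_mul, sub_mul, mul_sub, sub_add_sub_cancel]
        rfl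
    have hle : m0 ≤ p := by
      intro x hx
      obtain ⟨c, hc⟩ := hcl x
      have h1 : algebraMap ℂ (AA n m) c ∈ m0 := by
        have := m0.sub_mem hx (hpm hc)
        simpa using this
      have hc0 : c = 0 := by
        by_contra hne
        have hu : IsUnit (algebraMap ℂ (AA n m) c) := (IsUnit.mk0 c hne).map _
        exact hm0p.ne_top (Ideal.eq_top_of_isUnit_mem _ h1 hu)
      rw [hc0, map_zero, sub_zero] at hc
      exact hc
    have heq : p = m0 := le_antisymm hpm hle
    rw [heq] at hpr
    have h2 : ((n * (m - n) + 1 : ℕ) : ℕ∞) ≤ (r : ℕ∞) := hht.trans hpr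
    have h3 : n * (m - n) + 1 ≤ r := by exact_mod_cast h2
    omega
  obtain ⟨J, hJ⟩ := hJ
  have hjac : p.jacobson = p := IsJacobsonRing.out inferInstance hpp.isRadical
  rw [← hjac, Ideal.jacobson, Ideal.mem_sInf] at hJ
  push Not at hJ
  obtain ⟨M, ⟨hpM, hMm⟩, hJM⟩ := hJ
  let _ := Ideal.Quotient.field M
  have : Module.Finite ℂ (AA n m ⧸ M) := finite_of_finite_type_of_isJacobsonRing ℂ _
  have hbij : Function.Bijective (algebraMap ℂ (AA n m ⧸ M)) :=
    IsAlgClosed.algebraMap_bijective_of_isIntegral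
  let e : ℂ ≃ₐ[ℂ] (AA n m ⧸ M) := AlgEquiv.ofBijective (Algebra.ofId ℂ _) hbij
  have hz : ∀ x, (e.symm : (AA n m ⧸ M) →ₐ[ℂ] ℂ).comp (Ideal.Quotient.mkₐ ℂ M) x = 0 ↔ x ∈ M := by
    intro x
    simp [Ideal.Quotient.eq_zero_iff_mem]
  refine ⟨(e.symm : (AA n m ⧸ M) →ₐ[ℂ] ℂ).comp (Ideal.Quotient.mkₐ ℂ M), fun k => ?_, J, ?_⟩
  · have hl : l k ∈ M := hpM (hp.le (Ideal.subset_span ⟨k, rfl⟩))
    have := (hz (l k)).2 hl
    simp only [l, map_sum, map_smul, smul_eq_mul] at this
    exact this
  · intro h
    exact hJM ((hz _).1 h)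

end CLF
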