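import Pool.Agent.CLF.PrDefs

/-!
# Module Prc: points of the cone come from matrices (Cramer)

PROOF. Put `y a b := χ (pj (Function.update I a b))`.  In the polynomial ring let `XI` be the square
matrix of the columns `I` of the generic matrix.  Entry `(a,b)` of `adjugate XI * gmat` is
`det (XI.updateCol a (column b of gmat)) = mnr (update I a b)` (`Matrix.cramer_apply`,
`Matrix.mulVec_cramer`/`Matrix.adjugate` and cramer: `adjugate A *ᵥ v = cramer A v`).  Hence for every
`J` the matrix `(mnr (update I a (J b)))_(a,b)` equals `adjugate XI * (columns J of gmat)` and its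
determinant is `(mnr I)^(n-1) * mnr J` (`Matrix.det_mul`, `Matrix.det_adjugate`).  This is an identity
between elements of the subalgebra `AA`; apply `χ` (ring homs commute with `det`:
`RingHom.map_det` / `AlgHom.map_det`): `det (y.submatrix id J) = χ(pj I)^(n-1) * χ(pj J)`.
-/

open Module

namespace CLF


private theorem prc_entry (n m : ℕ) (I J : Fin n → Fin m) (a b : Fin n) :
    (((gmat n m).submatrix id I).adjugate * ((gmat n m).submatrix id J)) a b =
      mnr n m (Function.update I a (J b)) := by
  have h1 : (((gmat n m).submatrix id I).adjugate * ((gmat n m).submatrix id J)) a b =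
      (((gmat n m).submatrix id I).adjugate.mulVec (fun i => gmat n m i (J b))) a := by
    simp [Matrix.mul_apply, Matrix.mulVec, dotProduct]
  rw [h1, ← Matrix.cramer_eq_adjugate_mulVec, Matrix.cramer_apply, mnr]
  congr 1
  ext i j
  by_cases h : j = a
  · subst h
    simp
  · simp [Matrix.updateCol_ne h, Function.update_of_ne h]

theorem matrix_of_point (n m : ℕ) (hn : 1 ≤ n) (χ : AA n m →ₐ[ℂ] ℂ) (I : Fin n → Fin m)
    (hI : χ (pj n m I) ≠ 0) :
    ∃ y : Matrix (Fin n) (Fin m) ℂ, ∃ c : ℂ, c ≠ 0 ∧
      ∀ J : Fin n → Fin m, (y.submatrix id J).det = c * χ (pj n m J) := by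
  refine ⟨Matrix.of fun a b => χ (pj n m (Function.update I a b)), χ (pj n m I) ^ (n - 1),
    pow_ne_zero _ hI, fun J => ?_⟩
  have key : (Matrix.of fun a b => pj n m (Function.update I a (J b)) :
      Matrix (Fin n) (Fin n) (AA n m)).det = pj n m I ^ (n - 1) * pj n m J := by
    have hv : Function.Injective (AA n m).val := Subtype.val_injective
    apply hv
    rw [AlgHom.map_det, map_mul, map_pow]
    have e1 : (AA n m).val.mapMatrix (Matrix.of fun a b => pj n m (Function.update I a (J b))) =
        ((gmat n m).submatrix id I).adjugate * ((gmat n m).submatrix id J) := by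
      ext1 a b
      rw [prc_entry]
      rfl
    rw [e1, Matrix.det_mul, Matrix.det_adjugate, Fintype.card_fin]
    rfl
  have h2 := congrArg χ key
  rw [map_mul, map_pow, AlgHom.map_det] at h2
  rw [← h2]
  congr 1

end CLF
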