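import Pool.Agent.CLF.Prb
import Pool.Agent.CLF.Prc

/-!
# Module Prd: dimension of the span of determinants

`S ≤ (Fin n → F)` a `ℂ`-subspace of finite dimension `m ≥ n ≥ 1` such that any `n` ℂ-independent vectors
of `S` have nonzero determinant.  Then the `ℂ`-span of all `n × n` determinants of vectors of `S` has
dimension at least `n (m - n) + 1`.
PROOF. Let `e : Basis (Fin m) ℂ S`, `T` the span, and suppose `r = finrank T < n (m-n) + 1` (`T` is
spanned by the finitely many `d J := det (e (J 0), ..., e (J (n-1)))`, `J : Fin n → Fin m`, by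
multilinearity, so it is finite dimensional).  Choose a basis `f : Basis (Fin r) ℂ T` and write
`d J = ∑ k, a k J • f k`.  By `exists_point_on` and `matrix_of_point` there are `χ`, `y`, `c ≠ 0` with
`∑ J, a k J * χ(pj J) = 0` for all `k` and `det (y.submatrix id J) = c χ(pj J)` for all `J`, not all `0`.
Put `w i = ∑ j, y i j • e j ∈ S`.  Multilinearity: `det w = ∑ J, (∏ i, y i (J i)) * d J` (sum over all
functions `J`), and averaging over permutations: `n! * det w = ∑ J, det (y.submatrix id J) * d J`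
(expand `det (y.submatrix id J) = ∑ σ, sgn σ ∏ i, y (σ i) (J i)` or its transpose, substitute
`J = J' ∘ σ`, use the alternating property of `d`).  Hence
`n! * det w = ∑ k, f k * (c ∑ J, a k J χ(pj J)) = 0` and `det w = 0`.  But the `w i` are ℂ-independent,
because some `n × n` minor `det (y.submatrix id J)` is nonzero.  Contradiction.
-/

open Module

namespace CLF

/-- expansion of the determinant of linear combinations -/
private theorem prd_expand {F : Type*} [Field F] [Algebra ℂ F] {n m : ℕ}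
    (e : Fin m → Fin n → F) (y : Fin n → Fin m → ℂ) :
    Matrix.det (Matrix.of fun i => ∑ j, y i j • e j) =
      ∑ J : Fin n → Fin m, (∏ i, y i (J i)) • Matrix.det (Matrix.of fun i => e (J i)) := by
  classical
  let D : MultilinearMap ℂ (fun _ : Fin n => Fin n → F) F :=
    (Matrix.detRowAlternating (n := Fin n) (R := F)).toMultilinearMap.restrictScalars ℂ
  have hD : ∀ w : Fin n → Fin n → F, Matrix.det (Matrix.of w) = D w := fun w => rfl
  simp only [hD]
  rw [D.map_sum]
  refine Finset.sum_congr rfl fun J _ => ?_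
  exact D.map_smul_univ (fun i => y i (J i)) (fun i => e (J i))

/-- averaging over permutations -/
private theorem prd_average {F : Type*} [Field F] [Algebra ℂ F] {n m : ℕ}
    (e : Fin m → Fin n → F) (y : Fin n → Fin m → ℂ) :
    (Nat.factorial n : ℂ) • Matrix.det (Matrix.of fun i => ∑ j, y i j • e j) =
      ∑ J : Fin n → Fin m, ((Matrix.of y).submatrix id J).det •
        Matrix.det (Matrix.of fun i => e (J i)) := by
  classical
  have h1 : ∀ σ : Equiv.Perm (Fin n),
      ∑ J : Fin n → Fin m, ((((Equiv.Perm.sign σ : ℤˣ) : ℤ) : ℂ) * ∏ i, y (σ i) (J i)) •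
        Matrix.det (Matrix.of fun i => e (J i)) =
      Matrix.det (Matrix.of fun i => ∑ j, y i j • e j) := by
    intro σ
    rw [prd_expand]
    refine Fintype.sum_equiv (Equiv.arrowCongr σ (Equiv.refl (Fin m))) _ _ fun J => ?_
    have h2 : (∏ i, y i ((Equiv.arrowCongr σ (Equiv.refl (Fin m))) J i)) = ∏ i, y (σ i) (J i) := by
      refine (Fintype.prod_equiv σ _ _ fun i => ?_).symm
      simp [Equiv.arrowCongr]
    have h3 : Matrix.det (Matrix.of fun i => e (J i)) = (((Equiv.Perm.sign σ : ℤˣ) : ℤ) : F) *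
        Matrix.det (Matrix.of fun i => e ((Equiv.arrowCongr σ (Equiv.refl (Fin m))) J i)) := by
      rw [← Matrix.det_permute]
      congr 1
      ext i k
      simp [Equiv.arrowCongr]
    rw [h2, h3]
    rcases Int.units_eq_one_or (Equiv.Perm.sign σ) with hs | hs
    · rw [hs]
      simp
    · rw [hs]
      simp
  have h4 : ∀ J : Fin n → Fin m, ((Matrix.of y).submatrix id J).det •
      Matrix.det (Matrix.of fun i => e (J i)) =
      ∑ σ : Equiv.Perm (Fin n), ((((Equiv.Perm.sign σ : ℤˣ) : ℤ) : ℂ) * ∏ i, y (σ i) (J i)) •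
        Matrix.det (Matrix.of fun i => e (J i)) := by
    intro J
    rw [Matrix.det_apply', Finset.sum_smul]
    rfl
  rw [Finset.sum_congr rfl fun J _ => h4 J, Finset.sum_comm, Finset.sum_congr rfl fun σ _ => h1 σ,
    Finset.sum_const, Finset.card_univ, Fintype.card_perm, Fintype.card_fin]
  rw [Nat.cast_smul_eq_nsmul]

theorem span_det_dim {F : Type*} [Field F] [Algebra ℂ F] (n : ℕ) (hn : 1 ≤ n)
    (S : Submodule ℂ (Fin n → F)) (hS : FiniteDimensional ℂ S) (hm : n ≤ finrank ℂ S)
    (h : ∀ w : Fin n → Fin n → F, (∀ i, w i ∈ S) → LinearIndependent ℂ w →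
      Matrix.det (Matrix.of w) ≠ 0) :
    n * (finrank ℂ S - n) + 1 ≤
      finrank ℂ (Submodule.span ℂ {x : F | ∃ w : Fin n → Fin n → F, (∀ i, w i ∈ S) ∧
        x = Matrix.det (Matrix.of w)}) ∧
    FiniteDimensional ℂ (Submodule.span ℂ {x : F | ∃ w : Fin n → Fin n → F, (∀ i, w i ∈ S) ∧
        x = Matrix.det (Matrix.of w)}) := by
  classical
  obtain ⟨m, hmm⟩ : ∃ m, m = finrank ℂ S := ⟨_, rfl⟩
  rw [← hmm] at hm ⊢
  obtain ⟨e, -⟩ : ∃ e : Basis (Fin m) ℂ S, True := ⟨(finBasis ℂ S).reindex (finCongr hmm.symm), trivial⟩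
  obtain ⟨T, hT⟩ : ∃ T : Submodule ℂ F, T = Submodule.span ℂ {x : F | ∃ w : Fin n → Fin n → F,
    (∀ i, w i ∈ S) ∧ x = Matrix.det (Matrix.of w)} := ⟨_, rfl⟩
  rw [← hT]
  obtain ⟨d, hd⟩ : ∃ d : (Fin n → Fin m) → F, d = fun J =>
    Matrix.det (Matrix.of fun i => ((e (J i) : S) : Fin n → F)) := ⟨_, rfl⟩
  have hdT : ∀ J, d J ∈ T := by
    intro J
    rw [hT, hd]
    exact Submodule.subset_span ⟨_, fun i => (e (J i)).2, rfl⟩
  have hexp : ∀ w : Fin n → Fin n → F, (hw : ∀ i, w i ∈ S) →
      Matrix.det (Matrix.of w) = ∑ J : Fin n → Fin m,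
        (∏ i, e.repr ⟨w i, hw i⟩ (J i)) • d J := by
    intro w hw
    have h1 : w = fun i => ∑ j, e.repr ⟨w i, hw i⟩ j • ((e j : S) : Fin n → F) := by
      funext i
      have h2 := congrArg Subtype.val (e.sum_repr ⟨w i, hw i⟩)
      rw [AddSubmonoidClass.coe_finsetSum] at h2
      exact h2.symm
    conv_lhs => rw [h1]
    rw [prd_expand (fun j => ((e j : S) : Fin n → F)) (fun i j => e.repr ⟨w i, hw i⟩ j), hd]
  have hTle : T ≤ Submodule.span ℂ (Set.range d) := by
    rw [hT, Submodule.span_le]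
    rintro x ⟨w, hw, rfl⟩
    rw [hexp w hw]
    exact Submodule.sum_mem _ fun J _ =>
      Submodule.smul_mem _ _ (Submodule.subset_span ⟨J, rfl⟩)
  have hTfin : FiniteDimensional ℂ T := by
    have h1 : FiniteDimensional ℂ (Submodule.span ℂ (Set.range d)) :=
      FiniteDimensional.span_of_finite ℂ (Set.finite_range d)
    exact Submodule.finiteDimensional_of_le hTle
  refine ⟨?_, hTfin⟩
  by_contra hcon
  push Not at hcon
  obtain ⟨r, hr⟩ : ∃ r, r = finrank ℂ T := ⟨_, rfl⟩
  rw [← hr] at hcon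
  obtain ⟨f, -⟩ : ∃ f : Basis (Fin r) ℂ T, True := ⟨(finBasis ℂ T).reindex (finCongr hr.symm), trivial⟩
  obtain ⟨χ, hχ, I, hI⟩ := exists_point_on n m r hn hm hcon (fun k J => f.repr ⟨d J, hdT J⟩ k)
  obtain ⟨y, c, hc, hy⟩ : ∃ y : Fin n → Fin m → ℂ, ∃ c : ℂ, c ≠ 0 ∧
      ∀ J : Fin n → Fin m, ((Matrix.of y).submatrix id J).det = c * χ (pj n m J) := by
    obtain ⟨y, c, hc, hy⟩ := matrix_of_point n m hn χ I hI
    exact ⟨fun i j => y i j, c, hc, hy⟩
  obtain ⟨w, hw⟩ : ∃ w : Fin n → Fin n → F, w = fun i => ∑ j, y i j • ((e j : S) : Fin n → F) :=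
    ⟨_, rfl⟩
  have hwS : ∀ i, w i ∈ S := by
    intro i
    rw [hw]
    exact Submodule.sum_mem _ fun j _ => S.smul_mem _ (e j).2
  have hdet : Matrix.det (Matrix.of w) = 0 := by
    have h1 := prd_average (fun j => ((e j : S) : Fin n → F)) (fun i j => y i j)
    have h2 : ∀ J, d J = ∑ k, f.repr ⟨d J, hdT J⟩ k • ((f k : T) : F) := by
      intro J
      have h3 := congrArg Subtype.val (f.sum_repr ⟨d J, hdT J⟩)
      rw [AddSubmonoidClass.coe_finsetSum] at h3
      exact h3.symm
    have h4 : ∑ J : Fin n → Fin m, ((Matrix.of fun i j => y i j).submatrix id J).det •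
        Matrix.det (Matrix.of fun i => ((e (J i) : S) : Fin n → F)) = 0 := by
      have h5 : ∀ J : Fin n → Fin m, ((Matrix.of fun i j => y i j).submatrix id J).det •
          Matrix.det (Matrix.of fun i => ((e (J i) : S) : Fin n → F)) =
          ∑ k, (c * (f.repr ⟨d J, hdT J⟩ k * χ (pj n m J))) • ((f k : T) : F) := by
        intro J
        have h6 : Matrix.det (Matrix.of fun i => ((e (J i) : S) : Fin n → F)) = d J := by
          rw [hd]
        have h7 : ((Matrix.of fun i j => y i j).submatrix id J).det = c * χ (pj n m J) := hy J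
        rw [h6, h7]
        conv_lhs => rw [h2 J]
        rw [Finset.smul_sum]
        refine Finset.sum_congr rfl fun k _ => ?_
        rw [smul_smul]
        congr 1
        ring
      rw [Finset.sum_congr rfl fun J _ => h5 J, Finset.sum_comm]
      refine Finset.sum_eq_zero fun k _ => ?_
      rw [← Finset.sum_smul, ← Finset.mul_sum, hχ k, mul_zero, zero_smul]
    rw [h4] at h1
    have h8 : (Nat.factorial n : ℂ) ≠ 0 := by exact_mod_cast Nat.factorial_ne_zero n
    have h9 := (smul_eq_zero.1 h1).resolve_left h8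
    rw [hw]
    exact h9
  refine h w hwS ?_ hdet
  -- independence
  have hyind : LinearIndependent ℂ y := by
    have h1 : ((Matrix.of fun i j => y i j).submatrix id I).det ≠ 0 := by
      have h2 : ((Matrix.of fun i j => y i j).submatrix id I).det = c * χ (pj n m I) := hy I
      rw [h2]
      exact mul_ne_zero hc hI
    have h3 : LinearIndependent ℂ ((Matrix.of fun i j => y i j).submatrix id I) :=
      Matrix.linearIndependent_rows_of_det_ne_zero h1
    have h4 : LinearIndependent ℂ (fun i => (LinearMap.funLeft ℂ ℂ I) (y i)) := h3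
    exact LinearIndependent.of_comp (LinearMap.funLeft ℂ ℂ I) h4
  rw [Fintype.linearIndependent_iff] at hyind ⊢
  intro g hg i
  refine hyind g ?_ i
  funext j
  have h1 : ∑ j, (∑ i, g i * y i j) • e j = 0 := by
    apply Subtype.ext
    rw [AddSubmonoidClass.coe_finsetSum]
    change ∑ j, (∑ i, g i * y i j) • ((e j : S) : Fin n → F) = 0
    rw [← hg]
    rw [hw]
    simp only [Finset.smul_sum, smul_smul, Finset.sum_smul]
    rw [Finset.sum_comm]
  have h2 := Fintype.linearIndependent_iff.1 e.linearIndependent _ h1 j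
  rw [Finset.sum_apply]
  simpa using h2

end CLF
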