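import Pool.Agent.CLF.Dua

/-!
# Module Rel: n+1 generators of a rank n bundle

`b : Fin (n+1) → V` spans `V` over `F`, `finrank F V = n`.
PROOF. The `F`-linear map `p : (Fin (n+1) → F) → V`, `x ↦ ∑ x j • b j` is surjective, so its kernel has
dimension one: spanned by `v ≠ 0`.  `N := gn R (span ℂ (range b))`.
Let `O' : Lat (Fin (n+1) → F)`, `O' i := {x | ∀ j, x j ∈ Oo R i}` (a bundle).  Then `mp p O' = N` and for
`a := toSpanSingleton v : F → (Fin (n+1) → F)` (injective, range = ker p): `cm a O' i = {x | ∀ j, x v_j ∈ Oo R i}
= Oo R i / L i = inv R L i`, `L := gn R (span ℂ (range v))`, `L` is a bundle since `v ≠ 0`.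
`deg O' = 0` (`chi O' = (n+1) chi (Oo R)`: `H0` and `H1` are products; or `deg_add` and induction; or
`deg_add` along `Fin (n+1) → F`), so `deg N = - deg (inv L) = deg L` (`deg_add`, `deg_inv`).
Last statement: let `T ≤ F` be a finite dimensional ℂ-subspace. The map
`{φ | ∀ j, φ (b j) ∈ T} → {h : Fin (n+1) → T | ∑ v j * h j = 0}`, `φ ↦ (φ (b j))_j` is a ℂ-linear
isomorphism (injective since `b` spans; surjective: given `h` with `∑ v j h j = 0`, the functional
`x ↦ ∑ x j h j` on `F^(n+1)` vanishes on `ker p = F v`, so it factors through `p`), and the right side is the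
kernel of `T^(n+1) → F`, `h ↦ ∑ v j h j`, whose range is `span ℂ (range v) * T`.
`mem_dl_gn`: `φ ∈ dl K (tw A N) i ↔ ∀ a ∈ A i, ∀ j, φ (a • b j) = a * φ (b j) ∈ K i`
(`N i = Oo R i • span (range b)`, and `K i`, `A i` are `R i`-stable) `↔ ∀ j, φ (b j) ∈ K i / A i`.
-/

open Module

namespace CLF

universe u

variable {F : Type u} [Field F] [Algebra ℂ F] {R : Fin 2 → Subalgebra ℂ F} {K : Lat F}
variable {V : Type u} [AddCommGroup V] [Module ℂ V] [Module F V] [IsScalarTower ℂ F V]
  [FiniteDimensional F V]

private def OO (R : Fin 2 → Subalgebra ℂ F) (n : ℕ) : Lat (Fin n → F) :=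
  fun i => Submodule.pi Set.univ (fun _ => Oo R i)

private theorem mem_OO {n : ℕ} {i : Fin 2} {x : Fin n → F} :
    x ∈ OO R n i ↔ ∀ j, x j ∈ Oo R i := by
  simp [OO]

private theorem one_mem_Oo (i : Fin 2) : (1 : F) ∈ Oo R i := (R i).one_mem

private theorem OO_eq_gn (n : ℕ) (i : Fin 2) :
    OO R n i = Oo R i • Submodule.span ℂ (Set.range (fun j : Fin n => (Pi.single j 1 : Fin n → F))) := by
  apply le_antisymm
  · intro x hx
    have hx' := mem_OO.1 hx
    have : x = ∑ j, x j • (Pi.single j 1 : Fin n → F) := by
      ext k
      simp [Finset.sum_apply, Pi.single_apply]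
    rw [this]
    exact Submodule.sum_mem _ fun j _ =>
      Submodule.smul_mem_smul (hx' j) (Submodule.subset_span ⟨j, rfl⟩)
  · rw [Submodule.smul_le]
    intro r hr m hm
    rw [mem_OO]
    have hm' : ∀ j, m j ∈ Oo R i := by
      rw [← mem_OO]
      have hle : Submodule.span ℂ (Set.range (fun j : Fin n => (Pi.single j 1 : Fin n → F)))
          ≤ OO R n i := by
        rw [Submodule.span_le]
        rintro _ ⟨j, rfl⟩
        change _ ∈ OO R n i
        rw [mem_OO]
        intro k
        by_cases h : k = j
        · subst h; simpa using one_mem_Oo i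
        · simp [h]
      exact hle hm
    intro j
    exact (R i).mul_mem hr (hm' j)

private theorem bdl_OO (n : ℕ) : IsBdl R (OO R n) := by
  classical
  constructor
  · intro i
    refine ⟨Finset.univ.image (fun j : Fin n => (Pi.single j 1 : Fin n → F)), ?_⟩
    rw [OO_eq_gn]
    simp
  · intro i
    rw [eq_top_iff]
    intro x _
    have : x = ∑ j, x j • (Pi.single j 1 : Fin n → F) := by
      ext k
      simp [Finset.sum_apply, Pi.single_apply]
    rw [this]
    refine Submodule.sum_mem _ fun j _ => Submodule.smul_mem _ _ (Submodule.subset_span ?_)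
    change _ ∈ OO R n i
    rw [OO_eq_gn]
    have := Submodule.smul_mem_smul (one_mem_Oo (R := R) i)
      (Submodule.subset_span (R := ℂ) (Set.mem_range_self (f := fun j : Fin n => (Pi.single j 1 : Fin n → F)) j))
    simpa using this

private theorem h0_OO (n : ℕ) : h0 (OO R n) = n * h0 (Oo R) := by
  have e : H0 (OO R n) = Submodule.pi Set.univ (fun _ => H0 (Oo R)) := by
    ext x
    simp only [H0, Submodule.mem_inf, mem_OO, Submodule.mem_pi, Set.mem_univ, true_implies]
    exact ⟨fun h j => ⟨h.1 j, h.2 j⟩, fun h => ⟨fun j => (h j).1, fun j => (h j).2⟩⟩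
  let Φ : (Submodule.pi Set.univ (fun _ : Fin n => H0 (Oo R)) : Submodule ℂ (Fin n → F)) ≃ₗ[ℂ]
      (Fin n → H0 (Oo R)) :=
    { toFun := fun x j => ⟨x.1 j, x.2 j trivial⟩
      map_add' := fun x y => rfl
      map_smul' := fun c x => rfl
      invFun := fun y => ⟨fun j => (y j).1, fun j _ => (y j).2⟩
      left_inv := fun x => rfl
      right_inv := fun x => rfl }
  unfold h0
  rw [e, Φ.finrank_eq]
  by_cases hf : FiniteDimensional ℂ (H0 (Oo R))
  · rw [Module.finrank_pi_fintype]
    simp
  · rcases Nat.eq_zero_or_pos n with rfl | hn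
    · simp
      exact Module.finrank_zero_of_subsingleton
    · rw [Module.finrank_of_not_finite hf, mul_zero]
      apply Module.finrank_of_not_finite
      intro h
      apply hf
      exact Module.Finite.of_surjective (LinearMap.proj (R := ℂ) (φ := fun _ : Fin n => H0 (Oo R)) ⟨0, hn⟩)
        (LinearMap.proj_surjective _)

private theorem h1_OO (G : Good R K) (n : ℕ) : h1 (OO R n) = n * h1 (Oo R) := by
  have e : OO R n 0 ⊔ OO R n 1 = Submodule.pi Set.univ (fun _ => Oo R 0 ⊔ Oo R 1) := by
    apply le_antisymm
    · refine sup_le ?_ ?_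
      · intro x hx
        have := mem_OO.1 hx
        simp only [Submodule.mem_pi, Set.mem_univ, true_implies]
        exact fun j => Submodule.mem_sup_left (this j)
      · intro x hx
        have := mem_OO.1 hx
        simp only [Submodule.mem_pi, Set.mem_univ, true_implies]
        exact fun j => Submodule.mem_sup_right (this j)
    · intro x hx
      simp only [Submodule.mem_pi, Set.mem_univ, true_implies] at hx
      choose y hy z hz hyz using fun j => Submodule.mem_sup.1 (hx j)
      rw [Submodule.mem_sup]
      exact ⟨y, mem_OO.2 hy, z, mem_OO.2 hz, funext hyz⟩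
  have f2 : FiniteDimensional ℂ (F ⧸ (Oo R 0 ⊔ Oo R 1)) := (G.fin F (Oo R) bdl_O).2
  unfold h1
  rw [e, (Submodule.quotientPi (fun _ : Fin n => Oo R 0 ⊔ Oo R 1)).finrank_eq,
    Module.finrank_pi_fintype]
  simp

private theorem deg_OO (G : Good R K) (n : ℕ) : deg R (OO R n) = 0 := by
  unfold deg chi
  rw [h0_OO, h1_OO G]
  simp
  ring

omit [FiniteDimensional F V] in
private theorem mp_OO {n : ℕ} (b : Fin n → V) :
    mp (Fintype.linearCombination F b) (OO R n)
      = (gn R (Submodule.span ℂ (Set.range b)) : Lat V) := by
  funext i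
  unfold mp gn
  apply le_antisymm
  · rintro _ ⟨x, hx, rfl⟩
    have hx' := mem_OO.1 hx
    change Fintype.linearCombination F b x ∈ _
    rw [Fintype.linearCombination_apply]
    exact Submodule.sum_mem _ fun j _ =>
      Submodule.smul_mem_smul (hx' j) (Submodule.subset_span ⟨j, rfl⟩)
  · rw [Submodule.smul_le]
    intro r hr m hm
    have hm' : ∃ x ∈ OO R n i, Fintype.linearCombination F b x = m := by
      have hle : Submodule.span ℂ (Set.range b)
          ≤ (OO R n i).map ((Fintype.linearCombination F b).restrictScalars ℂ) := by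
        rw [Submodule.span_le]
        rintro _ ⟨j, rfl⟩
        refine ⟨Pi.single j 1, ?_, ?_⟩
        · change _ ∈ OO R n i
          rw [mem_OO]
          intro k
          by_cases h : k = j
          · subst h; simpa using one_mem_Oo i
          · simp [h]
        · change Fintype.linearCombination F b (Pi.single j 1) = b j
          simp [Fintype.linearCombination_apply_single]
      exact hle hm
    obtain ⟨x, hx, rfl⟩ := hm'
    refine ⟨r • x, ?_, ?_⟩
    · change _ ∈ OO R n i
      rw [mem_OO]
      intro j
      exact (R i).mul_mem hr (mem_OO.1 hx j)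
    · change Fintype.linearCombination F b (r • x) = _
      rw [map_smul]

private theorem cm_OO {n : ℕ} (v : Fin n → F) :
    cm (LinearMap.toSpanSingleton F (Fin n → F) v) (OO R n)
      = inv R (gn R (Submodule.span ℂ (Set.range v)) : Lat F) := by
  funext i
  ext x
  unfold inv gn
  rw [Submodule.mem_div_iff_forall_mul_mem]
  change LinearMap.toSpanSingleton F (Fin n → F) v x ∈ OO R n i ↔ _
  rw [LinearMap.toSpanSingleton_apply, mem_OO]
  constructor
  · intro h y hy
    refine Submodule.smul_induction_on hy ?_ ?_
    · intro r hr m hm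
      have hm' : x * m ∈ Oo R i := by
        have hle : Submodule.span ℂ (Set.range v)
            ≤ (Oo R i).comap (LinearMap.mulLeft ℂ x) := by
          rw [Submodule.span_le]
          rintro _ ⟨j, rfl⟩
          exact h j
        exact hle hm
      rw [smul_eq_mul, mul_left_comm]
      exact (R i).mul_mem hr hm'
    · intro a b ha hb
      rw [mul_add]
      exact (Oo R i).add_mem ha hb
  · intro h j
    have := h (v j) (by
      have := Submodule.smul_mem_smul (one_mem_Oo (R := R) i)
        (Submodule.subset_span (R := ℂ) (Set.mem_range_self (f := v) j))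
      simpa using this)
    exact this

omit [FiniteDimensional F V] in
private theorem mem_dl_gn {n : ℕ} (b : Fin n → V) {A : Lat F} (hA : IsBdl R A) (i : Fin 2)
    (φ : Dual F V) :
    φ ∈ dl K (tw A (gn R (Submodule.span ℂ (Set.range b)) : Lat V)) i
      ↔ ∀ j, φ (b j) ∈ kd K A i := by
  change (∀ e ∈ tw A (gn R (Submodule.span ℂ (Set.range b)) : Lat V) i, φ e ∈ K i) ↔ _
  unfold kd tw gn
  constructor
  · intro h j
    rw [Submodule.mem_div_iff_forall_mul_mem]
    intro a ha
    have h1 := Submodule.smul_mem_smul ha (Submodule.smul_mem_smul (one_mem_Oo (R := R) i)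
        (Submodule.subset_span (R := ℂ) (Set.mem_range_self (f := b) j)))
    have h2 := h _ h1
    rw [map_smul, one_smul, smul_eq_mul, mul_comm] at h2
    exact h2
  · intro h e he
    refine Submodule.smul_induction_on he ?_ ?_
    · intro a ha m hm
      have key : ∀ m ∈ Oo R i • Submodule.span ℂ (Set.range b), φ (a • m) ∈ K i := by
        intro m hm
        refine Submodule.smul_induction_on hm ?_ ?_
        · intro r hr s hs
          have hra : r * a ∈ A i := smul_stable hA i hr ha
          have hle : Submodule.span ℂ (Set.range b)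
              ≤ (K i).comap (((r * a) • φ).restrictScalars ℂ) := by
            rw [Submodule.span_le]
            rintro _ ⟨j, rfl⟩
            change (r * a) * φ (b j) ∈ K i
            have := (Submodule.mem_div_iff_forall_mul_mem.1 (h j)) (r * a) hra
            rwa [mul_comm] at this
          have h3 : (r * a) * φ s ∈ K i := hle hs
          rw [smul_smul, map_smul, smul_eq_mul, mul_comm a r]
          exact h3
        · intro x y hx hy
          rw [smul_add, map_add]
          exact (K i).add_mem hx hy
      exact key m hm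
    · intro x y hx hy
      rw [map_add]
      exact (K i).add_mem hx hy

theorem rel (G : Good R K) (n : ℕ) (hn : 1 ≤ n) (hV : finrank F V = n) (b : Fin (n + 1) → V)
    (hb : Submodule.span F (Set.range b) = ⊤) :
    ∃ v : Fin (n + 1) → F, v ≠ 0 ∧ (∑ j, v j • b j = 0) ∧
      (∀ x : Fin (n + 1) → F, ∑ j, x j • b j = 0 → ∃ c : F, ∀ j, x j = c * v j) ∧
      IsBdl R (gn R (Submodule.span ℂ (Set.range v)) : Lat F) ∧
      deg R (gn R (Submodule.span ℂ (Set.range v)) : Lat F)
        = deg R (gn R (Submodule.span ℂ (Set.range b)) : Lat V) ∧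
      ∀ (A : Lat F), IsBdl R A →
        h0 (dl K (tw A (gn R (Submodule.span ℂ (Set.range b)) : Lat V))) +
          finrank ℂ (Submodule.span ℂ (Set.range v) * H0 (kd K A) : Submodule ℂ F)
          = (n + 1) * h0 (kd K A) := by
  have hsurj : Function.Surjective (Fintype.linearCombination F b) := by
    rw [← LinearMap.range_eq_top, Fintype.range_linearCombination, hb]
  have hk : finrank F (LinearMap.ker (Fintype.linearCombination F b)) = 1 := by
    have h := LinearMap.finrank_range_add_finrank_ker (Fintype.linearCombination F b)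
    rw [LinearMap.range_eq_top.2 hsurj, finrank_top, hV] at h
    simp at h
    omega
  obtain ⟨v', hv', hv''⟩ := finrank_eq_one_iff'.1 hk
  have hp : ∀ x : Fin (n + 1) → F, Fintype.linearCombination F b x = ∑ j, x j • b j :=
    fun x => Fintype.linearCombination_apply F b x
  have hv0 : (v' : Fin (n + 1) → F) ≠ 0 := fun h => hv' (Subtype.ext h)
  obtain ⟨v, hvm⟩ := v'
  simp only at hv0
  have hvb : ∑ j, v j • b j = 0 := by
    rw [← hp]
    exact hvm
  have hgen : ∀ x : Fin (n + 1) → F, ∑ j, x j • b j = 0 → ∃ c : F, ∀ j, x j = c * v j := by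
    intro x hx
    obtain ⟨c, hc⟩ := hv'' ⟨x, by rw [LinearMap.mem_ker, hp, hx]⟩
    refine ⟨c, fun j => ?_⟩
    have := congrArg (fun y : LinearMap.ker (Fintype.linearCombination F b) =>
      (y : Fin (n + 1) → F) j) hc
    exact this.symm
  have hspv : Submodule.span F ((Submodule.span ℂ (Set.range v) : Submodule ℂ F) : Set F) = ⊤ := by
    obtain ⟨j, hj⟩ := Function.ne_iff.1 hv0
    rw [eq_top_iff]
    intro x _
    have : x = (x * (v j)⁻¹) • v j := by
      rw [smul_eq_mul, mul_assoc, inv_mul_cancel₀ hj, mul_one]
    rw [this]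
    exact Submodule.smul_mem _ _ (Submodule.subset_span (Submodule.subset_span ⟨j, rfl⟩))
  have hL : IsBdl R (gn R (Submodule.span ℂ (Set.range v)) : Lat F) :=
    bdl_gn _ (FiniteDimensional.span_of_finite ℂ (Set.finite_range v)) hspv
  refine ⟨v, hv0, hvb, hgen, hL, ?_, ?_⟩
  · have hinj : Function.Injective (LinearMap.toSpanSingleton F (Fin (n + 1) → F) v) := by
      rw [← LinearMap.ker_eq_bot, LinearMap.ker_toSpanSingleton]
      exact hv0
    have hex : LinearMap.range (LinearMap.toSpanSingleton F (Fin (n + 1) → F) v)
        = LinearMap.ker (Fintype.linearCombination F b) := by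
      ext x
      rw [LinearMap.mem_range, LinearMap.mem_ker]
      constructor
      · rintro ⟨c, rfl⟩
        rw [LinearMap.toSpanSingleton_apply, map_smul, hp, hvb, smul_zero]
      · intro h
        rw [hp] at h
        obtain ⟨c, hc⟩ := hgen x h
        refine ⟨c, ?_⟩
        rw [LinearMap.toSpanSingleton_apply]
        funext j
        exact (hc j).symm
    have h := deg_add G (bdl_OO (R := R) (n + 1))
      (LinearMap.toSpanSingleton F (Fin (n + 1) → F) v) (Fintype.linearCombination F b)
      hinj hsurj hex
    rw [deg_OO G, mp_OO, cm_OO, deg_inv G hL] at h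
    linarith
  · intro A hA
    have hTf : FiniteDimensional ℂ (H0 (kd K A)) := (G.fin F (kd K A) (bdl_kd G hA)).1
    -- the map on tuples
    let ψ : (Fin (n + 1) → H0 (kd K A)) →ₗ[ℂ] F :=
      { toFun := fun h => ∑ j, v j * (h j : F)
        map_add' := by
          intro x y
          rw [← Finset.sum_add_distrib]
          refine Finset.sum_congr rfl fun j _ => ?_
          simp [mul_add]
        map_smul' := by
          intro c x
          rw [RingHom.id_apply, Finset.smul_sum]
          refine Finset.sum_congr rfl fun j _ => ?_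
          simp }
    have hψ : ∀ h, ψ h = ∑ j, v j * (h j : F) := fun h => rfl
    have hrange : LinearMap.range ψ
        = (Submodule.span ℂ (Set.range v) * H0 (kd K A) : Submodule ℂ F) := by
      apply le_antisymm
      · rintro _ ⟨h, rfl⟩
        rw [hψ]
        exact Submodule.sum_mem _ fun j _ =>
          Submodule.mul_mem_mul (Submodule.subset_span ⟨j, rfl⟩) (h j).2
      · rw [Submodule.mul_le]
        intro m hm t ht
        have hle : Submodule.span ℂ (Set.range v)
            ≤ (LinearMap.range ψ).comap (LinearMap.mulRight ℂ t) := by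
          rw [Submodule.span_le]
          rintro _ ⟨j, rfl⟩
          refine ⟨Pi.single j ⟨t, ht⟩, ?_⟩
          rw [hψ, Finset.sum_eq_single j]
          · simp
          · intro k _ hk
            simp [hk]
          · simp
        exact hle hm
    have hmem : ∀ φ : Dual F V, φ ∈ H0 (dl K (tw A (gn R (Submodule.span ℂ (Set.range b)) : Lat V)))
        ↔ ∀ j, φ (b j) ∈ H0 (kd K A) := by
      intro φ
      simp only [H0, Submodule.mem_inf, mem_dl_gn b hA]
      exact ⟨fun h j => ⟨h.1 j, h.2 j⟩, fun h => ⟨fun j => (h j).1, fun j => (h j).2⟩⟩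
    let Φ : H0 (dl K (tw A (gn R (Submodule.span ℂ (Set.range b)) : Lat V))) →ₗ[ℂ]
        LinearMap.ker ψ :=
      { toFun := fun φ => ⟨fun j => ⟨φ.1 (b j), (hmem φ.1).1 φ.2 j⟩, by
          rw [LinearMap.mem_ker, hψ]
          have : ∑ j, v j * φ.1 (b j) = φ.1 (∑ j, v j • b j) := by
            rw [map_sum]
            exact Finset.sum_congr rfl fun j _ => by rw [map_smul, smul_eq_mul]
          simp only
          rw [this, hvb, map_zero]⟩
        map_add' := fun x y => rfl
        map_smul' := fun c x => rfl }
    have hΦi : Function.Injective Φ := by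
      intro φ φ' h
      apply Subtype.ext
      apply LinearMap.ext_on_range hb
      intro j
      have := congrArg (fun y : LinearMap.ker ψ => ((y : Fin (n + 1) → H0 (kd K A)) j : F)) h
      exact this
    have hΦs : Function.Surjective Φ := by
      rintro ⟨h, hh⟩
      rw [LinearMap.mem_ker, hψ] at hh
      -- functional on tuples
      let ℓ : (Fin (n + 1) → F) →ₗ[F] F := Fintype.linearCombination F (fun j => (h j : F))
      have hℓ : ∀ x, ℓ x = ∑ j, x j * (h j : F) := by
        intro x
        simp only [ℓ, Fintype.linearCombination_apply, smul_eq_mul]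
      have hker : LinearMap.ker (Fintype.linearCombination F b) ≤ LinearMap.ker ℓ := by
        intro x hx
        rw [LinearMap.mem_ker, hp] at hx
        obtain ⟨c, hc⟩ := hgen x hx
        rw [LinearMap.mem_ker, hℓ]
        have : ∑ j, x j * (h j : F) = c * ∑ j, v j * (h j : F) := by
          rw [Finset.mul_sum]
          exact Finset.sum_congr rfl fun j _ => by rw [hc j, mul_assoc]
        rw [this, hh, mul_zero]
      obtain ⟨s, hs⟩ := (Fintype.linearCombination F b).exists_rightInverse_of_surjective
        (LinearMap.range_eq_top.2 hsurj)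
      let φ : Dual F V := ℓ.comp s
      have hφ : ∀ j, φ (b j) = h j := by
        intro j
        have h1 : s (b j) - Pi.single j 1 ∈ LinearMap.ker (Fintype.linearCombination F b) := by
          rw [LinearMap.mem_ker, map_sub]
          have e1 : Fintype.linearCombination F b (s (b j)) = b j :=
            congrArg (fun f => f (b j)) hs
          rw [e1, hp, Finset.sum_eq_single j]
          · simp
          · intro k _ hk
            simp [hk]
          · simp
        have h2 := hker h1
        rw [LinearMap.mem_ker, map_sub, sub_eq_zero] at h2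
        have h3 : ℓ (Pi.single j 1) = h j := by
          rw [hℓ, Finset.sum_eq_single j]
          · simp
          · intro k _ hk
            simp [hk]
          · simp
        rw [← h3, ← h2]
        rfl
      refine ⟨⟨φ, (hmem φ).2 fun j => by rw [hφ]; exact (h j).2⟩, ?_⟩
      apply Subtype.ext
      funext j
      apply Subtype.ext
      exact hφ j
    have e1 : h0 (dl K (tw A (gn R (Submodule.span ℂ (Set.range b)) : Lat V)))
        = finrank ℂ (LinearMap.ker ψ) :=
      (LinearEquiv.ofBijective Φ ⟨hΦi, hΦs⟩).finrank_eq
    have e2 := LinearMap.finrank_range_add_finrank_ker ψ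
    rw [hrange] at e2
    rw [e1, add_comm, e2, Module.finrank_pi_fintype]
    simp [h0]

end CLF
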