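import Pool.Agent.CLF.Iso

/-!
# Module Sem: semistability

PROOFS.
`ss_ln`: the definition for `U = span F {w}` (`finrank = 1`) and `deg_ln`.
`ss_rank_one`: a nonzero `U` in a one dimensional space is `⊤`; `deg_top`.
`ss_tw`: `cm U.subtype (tw L E) = tw L (cm U.subtype E)` (`cm_tw`) and `deg_tw` twice:
`n (deg (E ∩ U) + u deg L) ≤ u (deg E + n deg L)`.
`ss_dl`: let `U' ≤ Dual F V`, `U' ≠ ⊥`, `U := U'.dualCoannihilator = {v | ∀ φ ∈ U', φ v = 0}`, `u' = finrank U'`,
`finrank U = n - u'`.  The space `U'` is isomorphic to `Dual F (V ⧸ U)` through `ψ ↦ ψ ∘ mkQ`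
(`U' = U.dualAnnihilator`), and under this isomorphism `cm U'.subtype (dl K E)` corresponds to
`dl K (mp U.mkQ E)` (`ψ ∘ mkQ ∈ dl K E i ↔ ψ (mkQ e) ∈ K i for e ∈ E i`).  So
`deg (cm U'.subtype (dl K E)) = u' (2g-2) - deg (mp U.mkQ E) = u' (2g-2) - deg E + deg (cm U.subtype E)`
(`deg_dl`, `deg_add` for `U → V → V ⧸ U`).  If `U = ⊥` then `cm U.subtype E` is a pair in the zero
space and has degree `0`; else semistability gives `n deg (E ∩ U) ≤ (n - u') deg E`.  In both cases
`n deg(..) ≤ n u' (2g-2) - n deg E + (n-u') deg E = u' (n (2g-2) - deg E) = u' deg (dl K E)`.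
-/

open Module

namespace CLF

universe u

variable {F : Type u} [Field F] [Algebra ℂ F] {R : Fin 2 → Subalgebra ℂ F} {K : Lat F}
variable {V : Type u} [AddCommGroup V] [Module ℂ V] [Module F V] [IsScalarTower ℂ F V]
  [FiniteDimensional F V]

private theorem deg_bot (E : Lat V) : deg R (cm (⊥ : Submodule F V).subtype E) = 0 := by
  have hsub : Subsingleton (⊥ : Submodule F V) := by infer_instance
  have h1' : h0 (cm (⊥ : Submodule F V).subtype E) = 0 := by
    unfold h0
    exact finrank_zero_of_subsingleton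
  have h2 : h1 (cm (⊥ : Submodule F V).subtype E) = 0 := by
    unfold CLF.h1
    exact finrank_zero_of_subsingleton
  unfold deg chi
  rw [h1', h2]
  simp

theorem ss_ln {E : Lat V} (hs : Semistable R E) {w : V} (hw : w ≠ 0) :
    (finrank F V : ℤ) * deg R (ln F E w) ≤ deg R E := by
  have h := hs (Submodule.span F {w}) (by simpa using hw)
  rw [finrank_span_singleton hw] at h
  rw [deg_ln E hw]
  simpa using h

theorem ss_rank_one (h : finrank F V = 1) (E : Lat V) : Semistable R E := by
  intro U hU
  have h1 : finrank F U ≤ 1 := h ▸ Submodule.finrank_le U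
  have h2 : finrank F U ≠ 0 := by
    intro h0
    exact hU (Submodule.finrank_eq_zero.mp h0)
  have h3 : finrank F U = finrank F V := by omega
  have h4 : U = ⊤ := Submodule.eq_top_of_finrank_eq h3
  subst h4
  rw [deg_top, h3]

theorem ss_tw (G : Good R K) {L : Lat F} (hL : IsBdl R L) {E : Lat V} (hE : IsBdl R E)
    (hs : Semistable R E) : Semistable R (tw L E) := by
  intro U hU
  have h := hs U hU
  have hinj : Function.Injective U.subtype := Submodule.injective_subtype U
  rw [cm_tw G hL hE U.subtype hinj, deg_tw G hL (bdl_cm G hE U.subtype hinj), deg_tw G hL hE]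
  nlinarith

theorem ss_dl (G : Good R K) {E : Lat V} (hE : IsBdl R E) (hs : Semistable R E) :
    Semistable R (dl K E) := by
  intro U' hU'
  obtain ⟨U, rfl⟩ : ∃ U : Submodule F V, U' = U.dualAnnihilator :=
    ⟨U'.dualCoannihilator, (Subspace.dualCoannihilator_dualAnnihilator_eq).symm⟩
  let e := U.dualQuotEquivDualAnnihilator
  have hb : IsBdl R (mp U.mkQ E) := bdl_mp hE _ (Submodule.mkQ_surjective U)
  have key : cm (U.dualAnnihilator).subtype (dl K E)
      = mp (F := F) (V := Dual F (V ⧸ U)) (W := (U.dualAnnihilator : Submodule F (Dual F V)))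
        (e : Dual F (V ⧸ U) →ₗ[F] U.dualAnnihilator) (dl K (mp U.mkQ E)) := by
    funext i
    ext φ
    constructor
    · intro hφ
      refine ⟨e.symm φ, ?_, by simp⟩
      rintro y ⟨x, hx, rfl⟩
      have h1 : (e.symm φ) (U.mkQ x) = (φ : Dual F V) x := by
        have : (e (e.symm φ) : Dual F V) x = (e.symm φ) (U.mkQ x) := by
          simp only [e, Submodule.dualQuotEquivDualAnnihilator_apply]
          rfl
        rw [← this]
        simp
      have h2 := hφ x hx
      simp only [LinearMap.coe_restrictScalars]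
      rw [h1]
      exact h2
    · rintro ⟨ψ, hψ, rfl⟩
      intro x hx
      have h1 := hψ (U.mkQ x) ⟨x, hx, rfl⟩
      exact h1
  have hadd := deg_add G hE U.subtype U.mkQ (Submodule.injective_subtype U)
    (Submodule.mkQ_surjective U) (by simp)
  have hfin : finrank F U.dualAnnihilator = finrank F (V ⧸ U) := by
    rw [← e.finrank_eq, Subspace.dual_finrank_eq]
  have hrank : finrank F (V ⧸ U) + finrank F U = finrank F V := Submodule.finrank_quotient_add_finrank U
  rw [key, deg_equiv, deg_dl G hb, deg_dl G hE, hfin, Subspace.dual_finrank_eq]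
  have hu : (finrank F V : ℤ) * deg R (cm U.subtype E) ≤ (finrank F U : ℤ) * deg R E := by
    by_cases hU : U = ⊥
    · subst hU
      rw [deg_bot]
      simp
    · exact hs U hU
  have hrank' : (finrank F V : ℤ) = (finrank F (V ⧸ U) : ℤ) + (finrank F U : ℤ) := by
    exact_mod_cast hrank.symm
  have hq : deg R (mp U.mkQ E) = deg R E - deg R (cm U.subtype E) := by linarith
  rw [hq]
  rw [hrank'] at hu ⊢
  nlinarith

end CLF
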