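import Pool.Agent.CLF.Inv
import Pool.Agent.CLF.Btw
import Pool.Agent.CLF.Bcm

/-!
# Module Spl: quotient line bundles split off on each affine piece

PROOF. `Q := mp φ E` is a line bundle (`φ ≠ 0` so `φ` is surjective).  Claim: for every
`z ∈ Q i * inv R Q i` there is `v : V` with `φ v = z` and `y • v ∈ E i` for all `y ∈ Q i`.
Induction on `z` (`Submodule.mul_induction_on`): for `z = φ e * b`, `e ∈ E i`, `b ∈ inv R Q i` take
`v = b • e`: `y • v = (y b) • e` and `y b ∈ R i`.  Sums: add.  Since `1 ∈ Oo R i = Q i * inv R Q i`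
(`tw_inv`) we get `v0` for `z = 1`.
-/

open Module

namespace CLF

universe u

variable {F : Type u} [Field F] [Algebra ℂ F] {R : Fin 2 → Subalgebra ℂ F} {K : Lat F}
variable {V : Type u} [AddCommGroup V] [Module ℂ V] [Module F V] [IsScalarTower ℂ F V]
  [FiniteDimensional F V]

theorem split (G : Good R K) {E : Lat V} (hE : IsBdl R E) (φ : V →ₗ[F] F) (hφ : φ ≠ 0)
    (i : Fin 2) : ∃ v0 : V, φ v0 = 1 ∧ ∀ y ∈ mp φ E i, y • v0 ∈ E i := by
  have hs : Function.Surjective φ := LinearMap.surjective hφ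
  have hQ : IsBdl R (mp φ E) := bdl_mp hE φ hs
  have h1 : (1 : F) ∈ mp φ E i * inv R (mp φ E) i := by
    have h2 := congrFun (tw_inv G hQ) i
    unfold tw at h2
    rw [smul_eq_mul] at h2
    rw [h2]
    exact (R i).one_mem
  have key : ∀ z ∈ mp φ E i * inv R (mp φ E) i, ∃ v : V, φ v = z ∧ ∀ y ∈ mp φ E i, y • v ∈ E i := by
    intro z hz
    induction hz using Submodule.mul_induction_on' with
    | mem_mul_mem m hm b hb =>
      obtain ⟨e, he, rfl⟩ := hm
      refine ⟨b • e, ?_, ?_⟩
      · rw [map_smul, smul_eq_mul, mul_comm]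
        rfl
      · intro y hy
        rw [smul_smul]
        refine smul_stable hE i ?_ he
        have h3 := Submodule.mem_div_iff_forall_mul_mem.1 hb y hy
        rw [mul_comm]
        exact h3
    | add x _ y _ hx hy =>
      obtain ⟨v, rfl, hv⟩ := hx
      obtain ⟨w, rfl, hw⟩ := hy
      refine ⟨v + w, map_add _ _ _, fun z hz => ?_⟩
      rw [smul_add]
      exact (E i).add_mem (hv z hz) (hw z hz)
  exact key 1 h1

end CLF
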