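import Pool.Agent.CLF.ClaimF

/-!
# Module StepG: if a degree five pencil exists then `s ≤ 8`

PROOF. Let `A` be the degree 5 line bundle (`Has5`), `a0, a1` from `gen_five`,
`f = h0 (tw (inv A) E)`, `f' = h0 (tw (inv A) (dl K E))`.  `pnum`: `f + f' ≥ 3g - 20`
(`2 (3+s) - (2s+8) - 15 + 3g - 3`).
Suppose `s ≥ 9`.  From `2 s + 8 ≤ 3 g - 3`: `g ≥ 10`.
(a) if `f ≥ 6`: `h3_tw`: `2 f + 2 ≤ 2 s + 8 - 15`, so `f ≤ s - 5`.
(b) if `f' ≥ 6`: `h3_tw` for `dl K E` (needs `6 ≤ h0 (dl K (dl K E)) = h0 E`, `h0_dl_dl`, and `bad_dual`):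
`2 f' + 2 ≤ 6g - 14 - 2s - 15`, so `f' ≤ 3g - 16 - s`.
(c) if `s = 9` then `deg (tw (inv A) E) = 2 s - 7 = 11` and `claimF` gives `f ≤ 4` (`ss_tw`).
(a)+(b): `f + f' ≤ 3g - 21`: no.
(a), `f' ≤ 5`: `f ≥ 3g - 25`, `s ≥ 3g - 20`, with `2 s ≤ 3 g - 11`: `3 g ≤ 29`: no since `g ≥ 10`.
`f ≤ 5`, (b): `f ≥ s - 4 ≥ 5` so `f = 5`, `s = 9`: contradicts (c).
`f ≤ 5`, `f' ≤ 5`: `3g - 20 ≤ 10`, `g = 10`, `s ≤ 9`, `s = 9`, `f + f' = 10`, `f = 5`: contradicts (c).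
-/

open Module

namespace CLF

universe u

variable {F : Type u} [Field F] [Algebra ℂ F] {R : Fin 2 → Subalgebra ℂ F} {K : Lat F}
variable {V : Type u} [AddCommGroup V] [Module ℂ V] [Module F V] [IsScalarTower ℂ F V]
  [FiniteDimensional F V]

theorem stepG (C : Ctx R K) {E : Lat V} {s : ℤ} (B : Bad R E s) (h5 : Has5 R) : s ≤ 8 := by
  have G := C.good
  obtain ⟨A, hA, dA, sA⟩ := h5
  obtain ⟨-, a0, a1, hP⟩ := gen_five C hA dA sA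
  obtain ⟨hr, hb, hss, hh, hdd, h6, h6'⟩ := bad_dual C B
  have hE := B.bdl
  have p1 := pnum C hP B.rank hE
  have p2 := C.g9
  have p3 := B.s3
  have p4 := B.le
  have p5 := B.sec
  have p6 := B.dg
  have hbi := bdl_inv G hA
  have q1 : 6 ≤ h0 (tw (inv R A) E) →
      2 * (h0 (tw (inv R A) E) : ℤ) + 2 ≤ deg R E - 3 * deg R A :=
    fun h => h3_tw C hP B.rank hE B.ss h6' h
  have q2 : 6 ≤ h0 (tw (inv R A) (dl K E)) →
      2 * (h0 (tw (inv R A) (dl K E)) : ℤ) + 2 ≤ deg R (dl K E) - 3 * deg R A := by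
    intro h
    refine h3_tw C hP hr hb hss ?_ h
    rw [h0_dl_dl G hE]
    exact h6
  have q3 : deg R (tw (inv R A) E) ≤ 11 → h0 (tw (inv R A) E) ≤ 4 := fun h =>
    claimF C B.rank (bdl_tw hbi hE) (ss_tw G hbi hE B.ss) h
  have q4 := deg_tw G hbi hE
  rw [deg_inv G hA, B.rank] at q4
  push_cast at q4
  omega

end CLF
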