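import Pool.Agent.CLF.MulTen2
import Pool.Agent.CLF.FourB

/-!
# Module StepS: genus nine, s = 8 and a degree five pencil is impossible

PROOF of `stepS0`. `F0 := tw (inv A) E` is semistable (`ss_tw`) of degree `24 - 15 = 9` (`deg_tw`) with
`4` sections.  `fourB` gives `M`; with the line bundle `A`: `tw A F0 = E` (`tw_inv_tw`),
`h0 (dl K E) + dim (H0 M * H0 (kd K A)) = 4 h0 (kd K A)`.  `h0 (kd K A) = 5` (`rr1`, `h0 A = 2` by `gen_five`,
`g = 9`: `2 - 5 - 1 + 9 = 5`), `h0 (dl K E) = 11` (`rr`: `h0 E - h0 (dl K E) = 24 - 24 = 0`),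
so `dim (..) = 9`, contradicting `mul_ten'`.
PROOF of `stepS`. `pnum`: `f + f' ≥ 3 * 9 - 20 = 7`; `claimF`: `f, f' ≤ 4` (degree `24 - 15 = 9`; for the dual
bundle: `deg (dl K E) = 24`).  So `f ≥ 4` or `f' ≥ 4`, and `stepS0` for `E` or `dl K E`.
-/

open Module

namespace CLF

universe u

variable {F : Type u} [Field F] [Algebra ℂ F] {R : Fin 2 → Subalgebra ℂ F} {K : Lat F}
variable {V : Type u} [AddCommGroup V] [Module ℂ V] [Module F V] [IsScalarTower ℂ F V]
  [FiniteDimensional F V]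

theorem stepS0 (C : Ctx R K) (hg : genus R = 9) (hV : finrank F V = 3) {E : Lat V}
    (hE : IsBdl R E) (hs : Semistable R E) (hd : deg R E = 24) (h11 : h0 E = 11) {A : Lat F}
    (hA : IsBdl R A) (dA : deg R A = 5) (sA : 2 ≤ h0 A) (h4 : 4 ≤ h0 (tw (inv R A) E)) :
    False := by
  have G := C.good
  have hbi := bdl_inv G hA
  have q4 := deg_tw G hbi hE
  rw [deg_inv G hA, hV, hd, dA] at q4
  obtain ⟨-, -, M, hM, dM, sM, gM, hc⟩ := fourB C hV (bdl_tw hbi hE) (ss_tw G hbi hE hs)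
    (by rw [q4]; norm_num) h4
  have h1 := hc A hA
  rw [tw_inv_tw G hA hE] at h1
  have h2 := mul_ten' C hg hA hM dA sA dM sM gM
  obtain ⟨h3, -⟩ := gen_five C hA dA sA
  have h5 := rr1 G hA
  rw [h3, dA, hg] at h5
  have h6 := rr G hE
  rw [h11, hd, hV, hg] at h6
  push_cast at h5 h6
  omega

theorem stepS (C : Ctx R K) (hg : genus R = 9) {E : Lat V} (B : Bad R E 8) (h5 : Has5 R) :
    False := by
  have G := C.good
  obtain ⟨A, hA, dA, sA⟩ := h5
  obtain ⟨-, a0, a1, hP⟩ := gen_five C hA dA sA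
  obtain ⟨hr, hb, hss, hh, hdd, h6, h6'⟩ := bad_dual C B
  have hE := B.bdl
  have p1 := pnum C hP B.rank hE
  have p5 := B.sec
  have p6 := B.dg
  rw [p5, p6, dA, hg] at p1
  rw [hg] at hh hdd
  push_cast at p1 hh hdd
  rcases Nat.lt_or_ge (h0 (tw (inv R A) E)) 4 with h | h
  · refine stepS0 C hg hr hb hss ?_ ?_ hA dA sA (by omega)
    · linarith
    · omega
  · refine stepS0 C hg B.rank hE B.ss ?_ ?_ hA dA sA h
    · linarith
    · omega

end CLF
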