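import Pool.Agent.CLF.StepA1
import Pool.Agent.CLF.StepG
import Pool.Agent.CLF.StepS

/-!
# Module StepA: a bad bundle has no line subbundle with two sections

PROOF. Take the data of `stepA1`: `lam = deg L`, `f = deg F1`, `r = deg D`, `t = s - a`.
`lam + f ≤ 2g - 2` (from `3 (lam+f) ≤ 2 (2s+8) ≤ 2 (3g-3)`), `lam ≥ 5`, so `f ≤ 2g - 7`.
`3 r ≥ 2 s + 8` (from `3 (lam + f) ≤ 2(2s+8)`).
L2 for F1 with `h = 1 + b`: `f ≥ min (2b+3) (b+g-1)`.  If `b ≥ g - 3` this is `≥ b+g-1 ≥ 2g-4`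
(when `b + g - 1 ≤ 2 b + 3`): contradiction with `f ≤ 2g-7`.  So `b ≤ g-4` and `f ≥ 2b+3`.
Case `b ≥ t`: then `f ≥ 2t + 3`, `lam ≥ 2a+3`, so `r ≤ 2s+8 - 2a-3 - 2t-3 = 2`, but `3 r ≥ 2s+8 ≥ 14`: no.
Case `b < t`: L2 for D with `h = 1 + t - b ≥ 2`: `r ≥ min (2(t-b)+3) (t-b+g-1)`.
 If `r ≥ 2(t-b)+3`: `lam+f+r ≥ 2a+3+2b+3+2t-2b+3 = 2s+9`: no.
 So `r ≥ t-b+g-1` and `2a+3+2b+3+t-b+g-1 ≤ 2t+2a+8`: `t ≥ g+b-3`, `s ≥ g-3+a+b`.
 With `x = lam-2a-3`, `y = f-2b-3`, `z = r-(t-b+g-1)` (all ≥ 0) `x+y+z = t+3-g-b = s-a-b+3-g`, and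
 `2 s ≤ 3 g - 11`: so `2(a+b+x+y+z) ≤ g-5 ≤ 7`, `a+b+x+y+z ≤ 3`.
 If `a = b = 1`: `x + y ≤ 1` so `x = 0` or `y = 0`: `Has5` (L has degree `2a+3+x = 5`, or F1 degree 5; both have
 `h0 ≥ 2`).  If `a + b = 3` then `x = y = 0` and one of `a, b` is `1`: `Has5` again.
 So `Has5`; by `stepG`, `s ≤ 8`.  But `s ≥ g-3+a+b ≥ g-1`: so `g = 9`, `s = 8` and `stepS` gives `False`.
-/

open Module

namespace CLF

universe u

variable {F : Type u} [Field F] [Algebra ℂ F] {R : Fin 2 → Subalgebra ℂ F} {K : Lat F}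
variable {V : Type u} [AddCommGroup V] [Module ℂ V] [Module F V] [IsScalarTower ℂ F V]
  [FiniteDimensional F V]

theorem stepA (C : Ctx R K) {E : Lat V} {s : ℤ} (B : Bad R E s) : NoLine F E := by
  intro w hw
  by_contra hcon
  have h2 : 2 ≤ h0 (ln F E w) := by omega
  obtain ⟨L, F1, D, a, b, hL, hF1, hD, e1, e2, e3, e4, e5, e6, e7, e8, e9, e10⟩ :=
    stepA1 C B hw h2
  have g9 := C.g9
  have g12 := C.g12
  have hs3 := B.s3
  have hle := B.le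
  have l1 := C.L2 F1 hF1 (1 + b) (by omega) e4
  have hf : 2 * b + 3 ≤ deg R F1 := by
    rcases min_le_iff.1 l1 with h | h
    · omega
    · omega
  have hbt : b < s - a := by
    by_contra hc
    omega
  have l2 := C.L2 D hD (1 + s - a - b) (by omega) e10
  have hr : (s - a - b) + (genus R : ℤ) - 1 ≤ deg R D := by
    rcases min_le_iff.1 l2 with h | h
    · omega
    · omega
  have h5 : Has5 R := by
    have h6 : deg R L = 5 ∨ deg R F1 = 5 := by omega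
    rcases h6 with h | h
    · exact ⟨L, hL, h, by omega⟩
    · exact ⟨F1, hF1, h, by omega⟩
  have hs8 := stepG C B h5
  have hg : genus R = 9 := by omega
  have hs : s = 8 := by omega
  subst hs
  exact stepS C hg B h5

end CLF
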