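import Pool.Agent.CLF.Ctx
import Pool.Agent.CLF.Pr2
import Pool.Agent.CLF.Num

/-!
# Module StepA1: data from a line with two sections

`E` bad, `w ≠ 0`, `h0 (ln F E w) = 1 + a ≥ 2`.
PROOF. `lam := deg (ln F E w)`, `3 lam ≤ 2 s + 8 ≤ 3g - 3` (`ss_ln`), so `lam ≤ g - 1`, and `L2` with `h = 1 + a`:
`min (2a+3) (a+g-1) ≤ lam` gives `2a + 3 ≤ lam` (as `a ≥ 1`).  Hence `6 a + 9 ≤ 2 s + 8`, `3 a + 1 ≤ s`
(integers), `t := s - a ≥ 2a + 1 ≥ 3`.
`U := span F {w}`, `Q := mp U.mkQ E` on `V ⧸ U` (finrank 2), `S := (H0 E).map U.mkQ ≤ H0 Q` (`map_H0_le`), of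
dimension `h0 E - h0 (ln F E w) = 2 + t` (`h0_add_map` with `toSpanSingleton`, or `h0_ln` + rank-nullity).
`deg Q = 2 s + 8 - lam ≤ 2 t + 5`.
`pr2` for `Q`, `S`: if there is `D` with `deg D = deg Q`, `h0 D ≥ 2 (2+t) - 3 = 2t + 1` then `L2` gives
`min (4t+3) (2t+g-1) ≤ 2t + 5`, impossible for `t ≥ 3`, `g ≥ 9`.  So there is `q ≠ 0` in `V ⧸ U` with
`finrank (S ⊓ span {q}) = 1 + b ≥ 2`.  `F1 := ln F Q q`, `h0 F1 ≥ 1 + b` (`h0_ln`).
`flag` gives `P` (so `3 (lam + deg F1) ≤ 2 (2s+8)` by semistability for `P`) and `D` with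
`deg D = 2s+8 - lam - deg F1`, `2 + t ≤ h0 D + (1 + b)`.
-/

open Module

namespace CLF

universe u

variable {F : Type u} [Field F] [Algebra ℂ F] {R : Fin 2 → Subalgebra ℂ F} {K : Lat F}
variable {V : Type u} [AddCommGroup V] [Module ℂ V] [Module F V] [IsScalarTower ℂ F V]
  [FiniteDimensional F V]

theorem stepA1 (C : Ctx R K) {E : Lat V} {s : ℤ} (B : Bad R E s) {w : V} (hw : w ≠ 0)
    (h2 : 2 ≤ h0 (ln F E w)) :
    ∃ (L F1 D : Lat F) (a b : ℤ), IsBdl R L ∧ IsBdl R F1 ∧ IsBdl R D ∧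
      (h0 L : ℤ) = 1 + a ∧ 1 ≤ a ∧ 1 ≤ b ∧ 1 + b ≤ (h0 F1 : ℤ) ∧ 3 * a + 1 ≤ s ∧
      2 * a + 3 ≤ deg R L ∧ deg R L + deg R F1 + deg R D = 2 * s + 8 ∧
      3 * deg R L ≤ 2 * s + 8 ∧ 3 * (deg R L + deg R F1) ≤ 2 * (2 * s + 8) ∧
      1 + s - a - b ≤ (h0 D : ℤ) := by
  have G := C.good
  have g9 := C.g9
  have hs3 := B.s3
  have hle := B.le
  have hL : IsBdl R (ln F E w) := bdl_ln G B.bdl hw
  have hssl := ss_ln B.ss hw
  rw [B.rank, B.dg] at hssl
  have hL2 := C.L2 _ hL (h0 (ln F E w)) (by exact_mod_cast h2) le_rfl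
  have hlam : 2 * (h0 (ln F E w) : ℤ) + 1 ≤ deg R (ln F E w) := by
    rcases min_le_iff.1 hL2 with h | h
    · exact h
    · exfalso
      have h3 : (2 : ℤ) ≤ (h0 (ln F E w) : ℤ) := by exact_mod_cast h2
      push_cast at hssl
      omega
  have hQ : IsBdl R (mp (Submodule.span F {w}).mkQ E) := bdl_mp B.bdl (Submodule.span F {w}).mkQ (Submodule.mkQ_surjective _)
  have hinj : Function.Injective (LinearMap.toSpanSingleton F V w) := by
    intro x y hxy
    exact smul_left_injective F hw hxy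
  have hab : LinearMap.range (LinearMap.toSpanSingleton F V w) = LinearMap.ker (Submodule.span F {w}).mkQ := by
    rw [LinearMap.range_toSpanSingleton, Submodule.ker_mkQ]
  have hd := deg_add G B.bdl (LinearMap.toSpanSingleton F V w) (Submodule.span F {w}).mkQ hinj
    (Submodule.mkQ_surjective _) hab
  have hh := h0_add_map G B.bdl (LinearMap.toSpanSingleton F V w) (Submodule.span F {w}).mkQ hinj hab
  have hd' : deg R (ln F E w) + deg R (mp (Submodule.span F {w}).mkQ E) = deg R E := hd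
  have hh' : h0 E = h0 (ln F E w) + finrank ℂ ((H0 E).map ((Submodule.span F {w}).mkQ.restrictScalars ℂ)) := hh
  have hV2 : finrank F (V ⧸ (Submodule.span F {w})) = 2 := by
    have h3 := Submodule.finrank_quotient_add_finrank (Submodule.span F {w})
    rw [B.rank, finrank_span_singleton hw] at h3
    omega
  have hSle := map_H0_le E (Submodule.span F {w}).mkQ
  have hsec := B.sec
  have hdg := B.dg
  set S := (H0 E).map ((Submodule.span F {w}).mkQ.restrictScalars ℂ) with hS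
  have hm : 2 ≤ finrank ℂ S := by
    push_cast at hssl
    omega
  have h2' : (2 : ℤ) ≤ (h0 (ln F E w) : ℤ) := by exact_mod_cast h2
  push_cast at hssl
  rcases pr2 G hV2 hQ S hSle hm with ⟨q, hq, hq2⟩ | ⟨D, hD, hDd, hDs⟩
  · have hF1 : IsBdl R (ln F (mp (Submodule.span F {w}).mkQ E) q) := bdl_ln G hQ hq
    have hln := h0_ln (F := F) (mp (Submodule.span F {w}).mkQ E) hq
    have hfdQ := (G.fin (V ⧸ (Submodule.span F {w})) _ hQ).1
    have hmono : finrank ℂ (S ⊓ (Submodule.span F {q}).restrictScalars ℂ :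
        Submodule ℂ (V ⧸ (Submodule.span F {w}))) ≤ finrank ℂ (H0 (mp (Submodule.span F {w}).mkQ E) ⊓
          (Submodule.span F {q}).restrictScalars ℂ : Submodule ℂ (V ⧸ (Submodule.span F {w}))) := by
      have : FiniteDimensional ℂ (H0 (mp (Submodule.span F {w}).mkQ E) ⊓
          (Submodule.span F {q}).restrictScalars ℂ : Submodule ℂ (V ⧸ (Submodule.span F {w}))) :=
        Submodule.finiteDimensional_inf_left _ _
      exact Submodule.finrank_mono (inf_le_inf hSle le_rfl)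
    obtain ⟨⟨P, hP2, hPd⟩, D, hD, hDd, hDS⟩ := flag G B.rank B.bdl hw q hq
    have hDS' := hDS S hSle
    have hPne : P ≠ ⊥ := by
      rintro rfl
      rw [finrank_bot] at hP2
      omega
    have hPs := B.ss P hPne
    rw [B.rank, hP2, hPd, B.dg] at hPs
    push_cast at hPs
    refine ⟨ln F E w, ln F (mp (Submodule.span F {w}).mkQ E) q, D, (h0 (ln F E w) : ℤ) - 1,
      (finrank ℂ (S ⊓ (Submodule.span F {q}).restrictScalars ℂ :
        Submodule ℂ (V ⧸ (Submodule.span F {w}))) : ℤ) - 1, hL, hF1, hD, ?_, ?_, ?_, ?_, ?_, ?_, ?_, ?_, ?_, ?_⟩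
    all_goals omega
  · exfalso
    have h5 := C.L2 D hD (2 * (finrank ℂ S : ℤ) - 3) (by omega) (by omega)
    rcases min_le_iff.1 h5 with h | h <;> omega

end CLF
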