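import Pool.Agent.CLF.Ctx
import Pool.Agent.CLF.Pr2
import Pool.Agent.CLF.Pr3
import Pool.Agent.CLF.Num

/-!
# Module StepB1: the plane with three sections

`E` bad with `NoLine F E`.
PROOF. `pr3` with `S = H0 E`, `m = 3 + s ≥ 6`.  The line alternative contradicts `NoLine` (`h0_ln`).
The third: `deg D = 2s+8`, `h0 D ≥ 3 (3+s) - 8 = 3s+1`; `L2`: `min (6s+3) (3s+g-1) ≤ 2s+8`, impossible for
`s ≥ 3`, `g ≥ 9`.  So there is a plane `P` with `h0 (cm P.subtype E) = 2 + u ≥ 3` (`h0_cm_sub`).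
Let `N := cm P.subtype E`; `pr2` on `N` with `S = H0 N`: the line alternative contradicts `NoLine`
(`ln_cm`, `h0_ln`), so `D` with `deg D = deg N`, `h0 D ≥ 2 (2+u) - 3 = 2u+1`.
`φ` from `plane_quot`, `M := mp φ E`, `deg M = deg E - deg N` (`deg_add`), `h0 E ≤ h0 N + h0 M`.
`3 deg N ≤ 2 deg E` by semistability (`P ≠ ⊥`).
-/

open Module

namespace CLF

universe u

variable {F : Type u} [Field F] [Algebra ℂ F] {R : Fin 2 → Subalgebra ℂ F} {K : Lat F}
variable {V : Type u} [AddCommGroup V] [Module ℂ V] [Module F V] [IsScalarTower ℂ F V]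
  [FiniteDimensional F V]

theorem stepB1 (C : Ctx R K) {E : Lat V} {s : ℤ} (B : Bad R E s) (hN : NoLine F E) :
    ∃ (P : Submodule F V) (φ : V →ₗ[F] F) (D : Lat F) (u : ℤ), finrank F P = 2 ∧
      Function.Surjective φ ∧ LinearMap.ker φ = P ∧ IsBdl R D ∧ 1 ≤ u ∧
      (h0 (cm P.subtype E) : ℤ) = 2 + u ∧ deg R D = deg R (cm P.subtype E) ∧
      2 * u + 1 ≤ (h0 D : ℤ) ∧ deg R (mp φ E) = 2 * s + 8 - deg R D ∧
      1 + s - u ≤ (h0 (mp φ E) : ℤ) ∧ 3 * deg R D ≤ 2 * (2 * s + 8) := by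
  have g9 := C.g9
  have hrk := B.rank
  have hsec := B.sec
  have hs3 := B.s3
  have hdg := B.dg
  have h1 := pr3 C.good hrk B.bdl (H0 E) le_rfl (by
    have h : finrank ℂ (H0 E) = h0 E := rfl
    omega)
  rcases h1 with ⟨w, hw, h1⟩ | ⟨P, hP, h1⟩ | ⟨D, hD, hDd, h1⟩
  · exfalso
    rw [← h0_ln E hw] at h1
    have h2 := hN w hw
    omega
  · rw [← h0_cm_sub E P] at h1
    have hPne : P ≠ ⊥ := by
      rintro rfl
      rw [finrank_bot] at hP
      omega
    have hNb : IsBdl R (cm P.subtype E) := bdl_cm C.good B.bdl P.subtype P.subtype_injective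
    have h2 := pr2 C.good hP hNb (H0 (cm P.subtype E)) le_rfl (by
      have h : finrank ℂ (H0 (cm P.subtype E)) = h0 (cm P.subtype E) := rfl
      omega)
    obtain ⟨φ, hφs, hφk⟩ := plane_quot P (by omega)
    have h3 := deg_add C.good B.bdl P.subtype φ P.subtype_injective hφs
      (by rw [Submodule.range_subtype, hφk])
    have h4 := h0_le_add C.good B.bdl P.subtype φ P.subtype_injective hφs
      (by rw [Submodule.range_subtype, hφk])
    have h5 := B.ss P hPne
    rw [hrk, hP] at h5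
    rcases h2 with ⟨w, hw, h2⟩ | ⟨D, hD, hDd, h2⟩
    · exfalso
      rw [← h0_ln (cm P.subtype E) hw, ln_cm] at h2
      have hw' : P.subtype w ≠ 0 := by
        intro h
        exact hw (P.subtype_injective (by rw [h, map_zero]))
      have h6 := hN (P.subtype w) hw'
      omega
    · refine ⟨P, φ, D, (h0 (cm P.subtype E) : ℤ) - 2, hP, hφs, hφk, hD, ?_, ?_, hDd, ?_, ?_, ?_,
        ?_⟩
      · omega
      · omega
      · have h : finrank ℂ (H0 (cm P.subtype E)) = h0 (cm P.subtype E) := rfl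
        omega
      · omega
      · omega
      · push_cast at h5
        omega
  · exfalso
    have h : finrank ℂ (H0 E) = h0 E := rfl
    have h2 := C.L2 D hD (3 * s + 1) (by omega) (by omega)
    omega

end CLF
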