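import Pool.Agent.CLF.Ctx
import Pool.Agent.CLF.Pow
import Pool.Agent.CLF.Bin

/-!
# Module StepQ1: products of linear forms

Hypotheses: no line bundle of degree 5 with two sections, `deg L = 7`, `v ∈ H0 L`, `l k ∈ H0 L`
(`k : Fin j`, `1 ≤ j ≤ 6`) with `v, l k` ℂ-independent for every `k`.  Then `∏ l k ≠ v * z` for all
`z ∈ H0 (pw R L (j-1))`.
PROOF. By `L2` (`h = 2`: degree ≥ 5) and `¬ Has5`, each line bundle `N_k := gn R (span ℂ {v, l k})` has
degree `≥ 6` (`v, l k ∈ H0 N_k` independent; `bdl_gn`).  Let `Π_j` be the product (iterated `tw`, starting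
from `Oo R`) of `N_k`, `k < j`; `deg Π_j ≥ 6 j`.
By induction on `j`: `Π_j i ≤ v • (pw R L (j-1)) i + Oo R i * span {∏_{k<j} l k}` for `j ≥ 1`
(use `N_k i ≤ L i`, `pw (j-1) * L = pw j`, and for the step:
`(v pw(j-1) + O p) (O v + O l) ≤ v pw(j) + v O p + O p l`, with `p = ∏ l k ∈ pw j`).
If `∏ l k = v z`, `z ∈ pw (j-1)`, then `Π_j ≤ v • pw (j-1)` (the lattice `fun i => (pw R L (j-1) i).map (v * ·)`),
which has degree `7 (j-1)`; `deg_mono`: `6 j ≤ 7 (j-1)`, so `j ≥ 7`: contradiction.
-/

open Module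

namespace CLF

universe u

variable {F : Type u} [Field F] [Algebra ℂ F] {R : Fin 2 → Subalgebra ℂ F} {K : Lat F}
variable {V : Type u} [AddCommGroup V] [Module ℂ V] [Module F V] [IsScalarTower ℂ F V]
  [FiniteDimensional F V]

private theorem q1_pair (C : Ctx R K) (h5 : ¬ Has5 R) {L : Lat F} (hL : IsBdl R L) {v a : F}
    (hv : v ∈ H0 L) (ha : a ∈ H0 L) (hi : LinearIndependent ℂ ![v, a]) :
    ∃ N : Lat F, IsBdl R N ∧ 6 ≤ deg R N ∧ (∀ i, N i ≤ L i) ∧
      ∀ i, N i = Oo R i * Submodule.span ℂ {v} ⊔ Oo R i * Submodule.span ℂ {a} := by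
  have hi' := LinearIndependent.pair_iff.1 hi
  have hv0 : v ≠ 0 := by
    intro h0
    have := hi' 1 0 (by simp [h0])
    exact one_ne_zero this.1
  have hfd : FiniteDimensional ℂ (Submodule.span ℂ {v, a}) :=
    FiniteDimensional.span_of_finite ℂ (Set.toFinite _)
  have hsp : Submodule.span F ((Submodule.span ℂ {v, a} : Submodule ℂ F) : Set F) = ⊤ := by
    rw [eq_top_iff]
    intro x _
    have hvm : v ∈ Submodule.span F ((Submodule.span ℂ {v, a} : Submodule ℂ F) : Set F) :=
      Submodule.subset_span (Submodule.subset_span (by simp))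
    have := Submodule.smul_mem _ (x * v⁻¹) hvm
    rwa [smul_eq_mul, mul_assoc, inv_mul_cancel₀ hv0, mul_one] at this
  have hN : IsBdl R (gn R (Submodule.span ℂ {v, a})) := bdl_gn _ hfd hsp
  have hNi : ∀ i, gn R (Submodule.span ℂ {v, a}) i =
      Oo R i * Submodule.span ℂ {v} ⊔ Oo R i * Submodule.span ℂ {a} := by
    intro i
    rw [← Submodule.mul_sup, ← Submodule.span_union]
    rfl
  have hSle : Submodule.span ℂ {v, a} ≤ H0 (gn R (Submodule.span ℂ {v, a})) := by
    intro x hx
    refine ⟨?_, ?_⟩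
    · have := Submodule.mul_mem_mul (show (1 : F) ∈ Oo R 0 from (R 0).one_mem) hx
      rwa [one_mul] at this
    · have := Submodule.mul_mem_mul (show (1 : F) ∈ Oo R 1 from (R 1).one_mem) hx
      rwa [one_mul] at this
  have h2 : 2 ≤ h0 (gn R (Submodule.span ℂ {v, a})) := by
    have hf := (C.good.fin F _ hN).1
    have h3 : finrank ℂ (Submodule.span ℂ {v, a}) = 2 := by
      have := finrank_span_eq_card hi
      rw [Matrix.range_cons_cons_empty] at this
      simpa using this
    rw [← h3]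
    exact Submodule.finrank_mono hSle
  refine ⟨_, hN, ?_, ?_, hNi⟩
  · have h4 := C.L2 _ hN 2 le_rfl (by exact_mod_cast h2)
    have h9 := C.g9
    have h7 : deg R (gn R (Submodule.span ℂ {v, a})) ≠ 5 := fun h => h5 ⟨_, hN, h, h2⟩
    rcases min_le_iff.1 h4 with h | h <;> omega
  · intro i
    have hlm : ∀ b ∈ H0 L, Oo R i * Submodule.span ℂ {b} ≤ L i := by
      intro b hb
      have hbi : b ∈ L i := by
        fin_cases i
        · exact hb.1
        · exact hb.2
      refine Submodule.mul_le.2 fun r hr x hx => ?_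
      obtain ⟨c, rfl⟩ := Submodule.mem_span_singleton.1 hx
      exact smul_stable hL i hr (Submodule.smul_mem _ c hbi)
    rw [hNi i]
    exact sup_le (hlm v hv) (hlm a ha)

private theorem q1_aux (C : Ctx R K) (h5 : ¬ Has5 R) {L : Lat F} (hL : IsBdl R L) {v : F}
    (hv : v ∈ H0 L) (j : ℕ) : ∀ l : Fin (j + 1) → F, (∀ k, l k ∈ H0 L) →
    (∀ k, LinearIndependent ℂ ![v, l k]) →
    ∃ P : Lat F, IsBdl R P ∧ 6 * ((j : ℤ) + 1) ≤ deg R P ∧
      ∀ i, P i ≤ Submodule.span ℂ {v} * pw R L j i ⊔ Oo R i * Submodule.span ℂ {∏ k, l k} := by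
  induction j with
  | zero =>
    intro l hl hi
    obtain ⟨N, hN, hd, -, hNi⟩ := q1_pair C h5 hL hv (hl 0) (hi 0)
    refine ⟨N, hN, by simpa using hd, ?_⟩
    intro i
    rw [hNi i, Fin.prod_univ_one, pw, mul_comm (Oo R i) (Submodule.span ℂ {v})]
  | succ j ih =>
    intro l hl hi
    obtain ⟨P, hP, hdP, hPi⟩ := ih (fun k => l k.castSucc) (fun k => hl _) (fun k => hi _)
    obtain ⟨N, hN, hd, hNL, hNi⟩ := q1_pair C h5 hL hv (hl (Fin.last _)) (hi (Fin.last _))
    refine ⟨tw P N, bdl_tw hP hN, ?_, ?_⟩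
    · rw [deg_tw1 C.good hP hN]
      push_cast; linarith
    · intro i
      set p := ∏ k : Fin (j + 1), l k.castSucc with hp
      have hprod : ∏ k, l k = p * l (Fin.last _) := Fin.prod_univ_castSucc l
      have hpm : p ∈ pw R L (j + 1) i := by
        have h1 : p ∈ (H0 L) ^ (j + 1) := by
          have h2 : ∀ (n : ℕ) (f : Fin n → F), (∀ k, f k ∈ H0 L) → ∏ k, f k ∈ (H0 L) ^ n := by
            intro n
            induction n with
            | zero => intro f _; simp
            | succ n ihn =>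
              intro f hf
              rw [Fin.prod_univ_castSucc, pow_succ]
              exact Submodule.mul_mem_mul (ihn _ fun k => hf _) (hf _)
          exact h2 _ _ fun k => hl _
        have h3 := pow_le (R := R) L (j + 1) h1
        fin_cases i
        · exact h3.1
        · exact h3.2
      have hOp : Oo R i * Submodule.span ℂ {p} ≤ pw R L (j + 1) i := by
        refine Submodule.mul_le.2 fun r hr x hx => ?_
        obtain ⟨c, rfl⟩ := Submodule.mem_span_singleton.1 hx
        exact smul_stable (bdl_pw hL _) i hr (Submodule.smul_mem _ c hpm)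
      have e0 : tw P N i = P i * N i := rfl
      rw [e0]
      refine (mul_le_mul' (hPi i) le_rfl).trans ?_
      rw [Submodule.sup_mul]
      refine sup_le ?_ ?_
      · refine le_trans ?_ le_sup_left
        rw [mul_assoc]
        exact mul_le_mul' le_rfl (mul_le_mul' le_rfl (hNL i))
      · rw [hNi i, Submodule.mul_sup]
        refine sup_le_sup ?_ ?_
        · have e1 : Oo R i * Submodule.span ℂ {p} * (Oo R i * Submodule.span ℂ {v})
              = Submodule.span ℂ {v} * ((Oo R i * Oo R i) * Submodule.span ℂ {p}) := by ring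
          rw [e1, O_mul_O]
          exact mul_le_mul' le_rfl hOp
        · have e1 : Oo R i * Submodule.span ℂ {p} * (Oo R i * Submodule.span ℂ {l (Fin.last _)})
              = (Oo R i * Oo R i) * (Submodule.span ℂ {p} * Submodule.span ℂ {l (Fin.last _)}) := by
            ring
          rw [e1, O_mul_O, Submodule.span_mul_span, Set.singleton_mul_singleton, hprod]

theorem stepQ1 (C : Ctx R K) (h5 : ¬ Has5 R) {L : Lat F} (hL : IsBdl R L) (hd : deg R L = 7)
    (j : ℕ) (hj : 1 ≤ j) (hj6 : j ≤ 6) (v : F) (l : Fin j → F) (hv : v ∈ H0 L)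
    (hl : ∀ k, l k ∈ H0 L) (hi : ∀ k, LinearIndependent ℂ ![v, l k]) (z : F)
    (hz : z ∈ H0 (pw R L (j - 1))) : ∏ k, l k ≠ v * z := by
  intro heq
  obtain ⟨j, rfl⟩ : ∃ m, j = m + 1 := ⟨j - 1, by omega⟩
  rw [Nat.add_sub_cancel] at hz
  have hv0 : v ≠ 0 := by
    intro h0
    have := LinearIndependent.pair_iff.1 (hi 0) 1 0 (by simp [h0])
    exact one_ne_zero this.1
  obtain ⟨P, hP, hdP, hPi⟩ := q1_aux C h5 hL hv j l hl hi
  have hPi' : ∀ i, ∀ a ∈ P i, v⁻¹ * a ∈ pw R L j i := by
    intro i a ha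
    have h1 := hPi i ha
    have hzi : z ∈ pw R L j i := by
      fin_cases i
      · exact hz.1
      · exact hz.2
    have h2 : Submodule.span ℂ {v} * pw R L j i ⊔ Oo R i * Submodule.span ℂ {∏ k, l k}
        ≤ (pw R L j i).map (LinearMap.mulLeft ℂ v) := by
      refine sup_le ?_ ?_
      · refine Submodule.mul_le.2 fun x hx y hy => ?_
        obtain ⟨c, rfl⟩ := Submodule.mem_span_singleton.1 hx
        refine ⟨c • y, Submodule.smul_mem _ c hy, ?_⟩
        simp
      · refine Submodule.mul_le.2 fun r hr x hx => ?_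
        obtain ⟨c, rfl⟩ := Submodule.mem_span_singleton.1 hx
        refine ⟨r * (c • z), smul_stable (bdl_pw hL j) i hr (Submodule.smul_mem _ c hzi), ?_⟩
        rw [heq, LinearMap.mulLeft_apply]
        simp only [Algebra.smul_def]
        ring
    obtain ⟨y, hy, hya⟩ := h2 h1
    rw [← hya, LinearMap.mulLeft_apply, ← mul_assoc, inv_mul_cancel₀ hv0, one_mul]
    exact hy
  obtain ⟨A', hA', hle, hdA, -⟩ := scale C.good hP (inv_ne_zero hv0) hPi'
  have h1 := deg_mono C.good hA' (bdl_pw hL j) hle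
  rw [hdA, deg_pw C.good hL j, hd] at h1
  omega

end CLF
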