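import Pool.Agent.CLF.StepQ1

/-!
# Module StepQ2: the dimensions of the powers of `H0 L`

Hypotheses as in StepQ1; `v, w, w'` independent in `H0 L`, `S = span ℂ {w, w'}`.
PROOFS.
`inter_zero`: `x ∈ S^j`, `x = v z`, `z ∈ H0 (pw (j-1))`, `1 ≤ j ≤ 6`.  `bin_factor`: `x = c ∏ l k`, `l k ∈ S`.  If `x ≠ 0` then
`c ≠ 0` and all `l k ≠ 0`, so `v, l k` are independent, and `∏ l k = v * (c⁻¹ z)`: contradiction to `stepQ1`.
`power_split`: `(H0 L)^j = span {v} * (H0 L)^(j-1) ⊔ S^j` when `H0 L = span {v, w, w'}`, by induction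
(`H0 L = span {v} ⊔ S`).
`power_finrank`: by `power_split` and `inter_zero` (`(H0 L)^(j-1) ≤ H0 (pw (j-1))`) the sum is direct:
`finrank (H0 L)^j = finrank (H0 L)^(j-1) + (j+1)` (`bin_finrank`), so
`2 * finrank ((H0 L)^j) = (j+1)(j+2)` for `j ≤ 6`; `(H0 L)^0 = ℂ` has dimension 1.
-/

open Module

namespace CLF

universe u

variable {F : Type u} [Field F] [Algebra ℂ F] {R : Fin 2 → Subalgebra ℂ F} {K : Lat F}
variable {V : Type u} [AddCommGroup V] [Module ℂ V] [Module F V] [IsScalarTower ℂ F V]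
  [FiniteDimensional F V]

theorem inter_zero (C : Ctx R K) (h5 : ¬ Has5 R) {L : Lat F} (hL : IsBdl R L)
    (hd : deg R L = 7) (v w w' : F) (hv : v ∈ H0 L) (hw : w ∈ H0 L) (hw' : w' ∈ H0 L)
    (hi : LinearIndependent ℂ ![v, w, w']) (j : ℕ) (hj : 1 ≤ j) (hj6 : j ≤ 6) (z : F)
    (hz : z ∈ H0 (pw R L (j - 1)))
    (hx : v * z ∈ (Submodule.span ℂ {w, w'}) ^ j) : v * z = 0 := by
  by_contra hne
  have hi3 : ∀ a b c : ℂ, a • v + b • w + c • w' = 0 → a = 0 ∧ b = 0 ∧ c = 0 := by
    intro a b c habc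
    have h1 := Fintype.linearIndependent_iff.1 hi ![a, b, c]
      (by simpa [Fin.sum_univ_three] using habc)
    exact ⟨h1 0, h1 1, h1 2⟩
  have hww : LinearIndependent ℂ ![w, w'] := by
    rw [LinearIndependent.pair_iff]
    intro b c hbc
    have := hi3 0 b c (by simpa using hbc)
    exact this.2
  obtain ⟨c, l, hl, he⟩ := bin_factor w w' hww j (v * z) hx
  have hc : c ≠ 0 := by
    rintro rfl
    exact hne (by rw [he]; simp)
  have hl0 : ∀ k, l k ≠ 0 := by
    intro k hk
    apply hne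
    rw [he, Finset.prod_eq_zero (Finset.mem_univ k) hk, mul_zero]
  have hlL : ∀ k, l k ∈ H0 L := by
    intro k
    have h1 : Submodule.span ℂ {w, w'} ≤ H0 L := by
      rw [Submodule.span_le]
      intro x hx
      rcases hx with rfl | rfl
      · exact hw
      · exact hw'
    exact h1 (hl k)
  have hil : ∀ k, LinearIndependent ℂ ![v, l k] := by
    intro k
    obtain ⟨a, b, hab⟩ := Submodule.mem_span_pair.1 (hl k)
    rw [LinearIndependent.pair_iff]
    intro s t hst
    rw [← hab] at hst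
    have h1 := hi3 s (t * a) (t * b) (by
      rw [← hst, smul_add, smul_smul, smul_smul, add_assoc])
    refine ⟨h1.1, ?_⟩
    by_contra ht
    have ha : a = 0 := (mul_eq_zero.1 h1.2.1).resolve_left ht
    have hb : b = 0 := (mul_eq_zero.1 h1.2.2).resolve_left ht
    exact hl0 k (by rw [← hab, ha, hb]; simp)
  refine stepQ1 C h5 hL hd j hj hj6 v l hv hlL hil (c⁻¹ • z) (Submodule.smul_mem _ _ hz) ?_
  have h2 : v * (c⁻¹ • z) = algebraMap ℂ F c⁻¹ * (v * z) := by
    rw [Algebra.smul_def]; ring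
  rw [h2, he, ← mul_assoc, ← map_mul, inv_mul_cancel₀ hc, map_one, one_mul]

theorem power_split (S T : Submodule ℂ F) (v w w' : F)
    (hT : T = Submodule.span ℂ {v, w, w'}) (hS : S = Submodule.span ℂ {w, w'}) (j : ℕ) :
    T ^ (j + 1) = Submodule.span ℂ {v} * T ^ j ⊔ S ^ (j + 1) := by
  have hTS : T = Submodule.span ℂ {v} ⊔ S := by
    rw [hT, hS, ← Submodule.span_union]; rfl
  have hvT : Submodule.span ℂ {v} ≤ T := by rw [hTS]; exact le_sup_left
  have hST : S ≤ T := by rw [hTS]; exact le_sup_right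
  apply le_antisymm
  · induction j with
    | zero =>
      rw [zero_add, pow_one, pow_one, pow_zero, mul_one, ← hTS]
    | succ j ih =>
      rw [pow_succ' T (j + 1)]
      nth_rewrite 1 [hTS]
      rw [Submodule.sup_mul]
      refine sup_le le_sup_left ?_
      refine (mul_le_mul' le_rfl ih).trans ?_
      rw [Submodule.mul_sup]
      refine sup_le_sup ?_ ?_
      · rw [mul_left_comm, pow_succ' T j]
        exact mul_le_mul' le_rfl (mul_le_mul' hST le_rfl)
      · rw [← pow_succ']
  · refine sup_le ?_ (pow_le_pow_left' hST _)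
    rw [pow_succ']
    exact mul_le_mul' hvT le_rfl

theorem power_finrank (C : Ctx R K) (h5 : ¬ Has5 R) {L : Lat F} (hL : IsBdl R L)
    (hd : deg R L = 7) (h3 : h0 L = 3) (j : ℕ) (hj : j ≤ 6) :
    2 * finrank ℂ ((H0 L) ^ j : Submodule ℂ F) = (j + 1) * (j + 2) := by
  have hfd := (C.good.fin F L hL).1
  let b : Basis (Fin 3) ℂ (H0 L) := finBasisOfFinrankEq ℂ (H0 L) h3
  have hfun : (fun k => ((b k : H0 L) : F)) = ![(b 0 : F), (b 1 : F), (b 2 : F)] := by
    funext k
    fin_cases k <;> rfl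
  have hi : LinearIndependent ℂ ![(b 0 : F), (b 1 : F), (b 2 : F)] := by
    rw [← hfun]
    exact b.linearIndependent.map' (H0 L).subtype (Submodule.ker_subtype _)
  have hT : H0 L = Submodule.span ℂ {(b 0 : F), (b 1 : F), (b 2 : F)} := by
    have h1 := congrArg (Submodule.map (H0 L).subtype) b.span_eq
    rw [Submodule.map_span, Submodule.map_top, Submodule.range_subtype, ← Set.range_comp] at h1
    refine h1.symm.trans ?_
    congr 1
    ext x
    simp only [Set.mem_range, Function.comp_apply, Set.mem_insert_iff, Set.mem_singleton_iff]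
    constructor
    · rintro ⟨k, rfl⟩
      fin_cases k
      · left; rfl
      · right; left; rfl
      · right; right; rfl
    · rintro (rfl | rfl | rfl)
      · exact ⟨0, rfl⟩
      · exact ⟨1, rfl⟩
      · exact ⟨2, rfl⟩
  have hww : LinearIndependent ℂ ![(b 1 : F), (b 2 : F)] := by
    rw [LinearIndependent.pair_iff]
    intro s t hst
    have h1 := Fintype.linearIndependent_iff.1 hi ![0, s, t]
      (by simpa [Fin.sum_univ_three] using hst)
    exact ⟨h1 1, h1 2⟩
  have hv0 : (b 0 : F) ≠ 0 := by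
    have := hi.ne_zero 0
    simpa using this
  have hfdj : ∀ n, FiniteDimensional ℂ ((H0 L) ^ n : Submodule ℂ F) := by
    intro n
    exact Module.Finite.iff_fg.2 ((Module.Finite.iff_fg.1 hfd).pow n)
  induction j with
  | zero =>
    rw [pow_zero, Submodule.one_eq_span, finrank_span_singleton one_ne_zero]
  | succ j ih =>
    have ih' := ih (by omega)
    have hsplit := power_split _ _ _ _ _ hT rfl j
    have hmul : Submodule.span ℂ {(b 0 : F)} * (H0 L) ^ j
        = ((H0 L) ^ j).map (LinearMap.mulLeft ℂ (b 0 : F)) := by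
      apply le_antisymm
      · refine Submodule.mul_le.2 fun x hx y hy => ?_
        obtain ⟨c, rfl⟩ := Submodule.mem_span_singleton.1 hx
        exact ⟨c • y, Submodule.smul_mem _ c hy, by simp⟩
      · rintro _ ⟨y, hy, rfl⟩
        exact Submodule.mul_mem_mul (Submodule.mem_span_singleton_self _) hy
    have hinj : Function.Injective (LinearMap.mulLeft ℂ (b 0 : F)) := by
      intro x y hxy
      exact mul_left_cancel₀ hv0 hxy
    have hr1 : finrank ℂ (Submodule.span ℂ {(b 0 : F)} * (H0 L) ^ j : Submodule ℂ F)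
        = finrank ℂ ((H0 L) ^ j : Submodule ℂ F) := by
      rw [hmul]
      exact (Submodule.equivMapOfInjective _ hinj ((H0 L) ^ j)).finrank_eq.symm
    have hr2 := bin_finrank (b 1 : F) (b 2 : F) hww (j + 1)
    have hf1 : FiniteDimensional ℂ
        (Submodule.span ℂ {(b 0 : F)} * (H0 L) ^ j : Submodule ℂ F) := by
      rw [hmul]
      have := hfdj j
      infer_instance
    have hf2 : FiniteDimensional ℂ
        ((Submodule.span ℂ {(b 1 : F), (b 2 : F)}) ^ (j + 1) : Submodule ℂ F) := by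
      refine Module.Finite.iff_fg.2 (Submodule.FG.pow ?_ _)
      exact Submodule.fg_span (Set.toFinite _)
    have hinf : (Submodule.span ℂ {(b 0 : F)} * (H0 L) ^ j : Submodule ℂ F) ⊓
        (Submodule.span ℂ {(b 1 : F), (b 2 : F)}) ^ (j + 1) = ⊥ := by
      rw [eq_bot_iff]
      rintro x ⟨hx1, hx2⟩
      rw [hmul] at hx1
      obtain ⟨z, hz, rfl⟩ := hx1
      have hz' : z ∈ H0 (pw R L (j + 1 - 1)) := by
        rw [Nat.add_sub_cancel]
        exact pow_le L j hz
      exact inter_zero C h5 hL hd _ _ _ (b 0).2 (b 1).2 (b 2).2 hi (j + 1) (by omega) (by omega)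
        z hz' hx2
    have hsum := Submodule.finrank_sup_add_finrank_inf_eq
      (Submodule.span ℂ {(b 0 : F)} * (H0 L) ^ j : Submodule ℂ F)
      ((Submodule.span ℂ {(b 1 : F), (b 2 : F)}) ^ (j + 1))
    rw [hinf, finrank_bot, hr1, hr2] at hsum
    rw [hsplit]
    have : finrank ℂ (Submodule.span ℂ {(b 0 : F)} * (H0 L) ^ j ⊔
        (Submodule.span ℂ {(b 1 : F), (b 2 : F)}) ^ (j + 1) : Submodule ℂ F)
        = finrank ℂ ((H0 L) ^ j : Submodule ℂ F) + (j + 1 + 1) := by omega
    rw [this, mul_add, ih']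
    ring

end CLF
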