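import Pool.Agent.CLF.YC
import Pool.Agent.CLF.Scl

/-!
# Module Y5: `h0 (L ⊗ L ⊗ A⁻¹) ≤ 3`

Let `D = tw (inv A) L`, `M' := tw L D` (degree 9).  CLAIM `h0 M' ≤ 3`.
PROOF. `h0 M' ≤ 4` (L2, h = 5: 11).  Suppose `h0 M' = 4`.
(1) `pencil_line` for `M'`: `dim (H0 A * H0 M') = 8 - h0 (tw (inv A) M')`; `tw (inv A) M' = tw D D` (degree 4) so its
`h0 ≤ 1` (L2).  `tw A M' = tw L L` (degree 14): `H0 A * H0 M' ≤ H0 (tw L L)`; `h0 (tw L L) ≤ 7` (L2, h=8: ≥ 15).
So `dim (H0 A * H0 M') ≥ 7`, hence `= 7 = h0 (tw L L)` and `H0 (tw L L) = H0 A * H0 M'`.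
(Note: L2 with `h = 7` forces `g = 9`, not needed.)
(2) `H0 L ≤ H0 M'` (`Oo ≤ D`), dimension 3 < 4: choose `τ ∈ H0 M'`, `H0 M' = H0 L + ℂ τ`.
`H0 L = span {a0, a1, v2}` for some `v2 ∈ H0 L` (`H0 A = span {a0,a1} ≤ H0 L`), and `L i = A i + Oo R i v2` (genL).
`v2^2 ∈ H0 (tw L L) = H0 A * H0 L + H0 A * τ`: `v2^2 = η + a' τ`, `η ∈ H0 A * H0 L`, `a' ∈ H0 A`.
(3) `a' ≠ 0`: otherwise `v2^2 ∈ H0 A * H0 L ≤ (tw A L) i`, and
`L i * L i = (A i + Oo v2) (A i + Oo v2) ≤ A i * L i + Oo v2^2 ≤ A i * L i`, so `tw L L ≤ tw A L`; degrees `14 ≤ 12`: no.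
(4) choose `a''` with `H0 A = span {a', a''}` (so `a', a''` independent).  `η ∈ H0 A * H0 L`, `H0 L = span {a', a'', v2}`: so
`η = a' * v' + c a''^2 + e a'' v2` with `v' ∈ H0 L`, `c, e ∈ ℂ`.  Hence
`v2^2 - e a'' v2 - c a''^2 = a' (τ + v')`.  Factor over ℂ: `X^2 - e X - c = (X - μ)(X - ν)`, so with
`l1 = v2 - μ a''`, `l2 = v2 - ν a''`: `l1 l2 = a' (τ + v') =: a' m`, `m ∈ H0 M'`.
`a', l1` are ℂ-independent, and `a', l2` too.  `N_k := gn R (span {a', l_k})` has two sections: degree ≥ 5 (L2).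
`tw N_1 N_2 ≤ a' M'` (`sc a' M'` or `fun i => (M' i).map (a' * ·)`): generators `a'^2, a' l1, a' l2, l1 l2 = a' m`, with
`a', l_k ∈ L i ≤ M' i`.  `deg_mono`: `10 ≤ deg (tw N_1 N_2) ≤ deg M' = 9`: contradiction.
-/

open Module

namespace CLF

universe u

variable {F : Type u} [Field F] [Algebra ℂ F] {R : Fin 2 → Subalgebra ℂ F} {K : Lat F}
variable {V : Type u} [AddCommGroup V] [Module ℂ V] [Module F V] [IsScalarTower ℂ F V]
  [FiniteDimensional F V]

private theorem Y5_H0_le {V : Type u} [AddCommGroup V] [Module ℂ V] (E : Lat V) (i : Fin 2) :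
    H0 E ≤ E i := by
  intro x hx
  fin_cases i
  · exact hx.1
  · exact hx.2

/-- the third section of a generated net through a pencil -/
theorem Y5_third (C : Ctx R K) {A L : Lat F} {a0 a1 : F} (Y : YC R A L a0 a1) :
    ∃ v2 ∈ H0 L, v2 ∉ H0 A ∧ H0 L = H0 A ⊔ Submodule.span ℂ {v2} ∧
      ∀ i, L i = A i ⊔ Oo R i * Submodule.span ℂ {v2} := by
  obtain ⟨h1, h2⟩ := pencil_line C Y.pen Y.secA Y.bdlL
  have hle : H0 A ≤ H0 L := fun x hx => ⟨Y.le 0 hx.1, Y.le 1 hx.2⟩
  haveI : FiniteDimensional ℂ (H0 L) := (C.good.fin F L Y.bdlL).1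
  haveI : FiniteDimensional ℂ (H0 A) := (C.good.fin F A Y.pen.bdl).1
  have e1 : finrank ℂ (H0 A) = 2 := Y.secA
  have e2 : finrank ℂ (H0 L) = 3 := Y.secL
  have hlt : H0 A < H0 L := by
    refine lt_of_le_of_ne hle (fun h => ?_)
    rw [h] at e1
    omega
  obtain ⟨v2, hv2, hv2'⟩ := Set.exists_of_ssubset hlt
  have hv2A : v2 ∉ H0 A := hv2'
  have hsup : H0 L = H0 A ⊔ Submodule.span ℂ {v2} := by
    symm
    apply Submodule.eq_of_le_of_finrank_le
    · exact sup_le hle ((Submodule.span_singleton_le_iff_mem _ _).mpr hv2)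
    · haveI : FiniteDimensional ℂ (Submodule.span ℂ ({v2} : Set F)) := inferInstance
      have hlt2 : H0 A < H0 A ⊔ Submodule.span ℂ {v2} := by
        refine lt_of_le_of_ne le_sup_left (fun h => hv2A ?_)
        rw [h]
        exact Submodule.mem_sup_right (Submodule.mem_span_singleton_self v2)
      have := Submodule.finrank_lt_finrank_of_lt hlt2
      omega
  refine ⟨v2, hv2, hv2A, hsup, fun i => ?_⟩
  rw [Y.genL i, hsup, Submodule.mul_sup, h2, ← Y.pen.gen i]

private theorem Y5_sub (C : Ctx R K) {A L : Lat F} {a0 a1 : F} (Y : YC R A L a0 a1)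
    {v2 : F} (hv2 : v2 ∈ H0 L) (hL : ∀ i, L i = A i ⊔ Oo R i * Submodule.span ℂ {v2})
    (hsq : v2 * v2 ∈ H0 A * H0 L) : ∀ i, tw L L i ≤ tw A L i := by
  have G := C.good
  have bL := Y.bdlL
  have bA := Y.pen.bdl
  intro i
  have bAL := bdl_tw bA bL
  change L i • L i ≤ A i • L i
  rw [smul_eq_mul, smul_eq_mul, Submodule.mul_le]
  intro x hx y hy
  have hx0 := hx
  have hy0 := hy
  rw [hL i] at hx hy
  obtain ⟨a, ha, b, hb, rfl⟩ := Submodule.mem_sup.mp hx
  obtain ⟨r, hr, rfl⟩ := Submodule.mem_mul_span_singleton.mp hb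
  obtain ⟨a', ha', b', hb', rfl⟩ := Submodule.mem_sup.mp hy
  obtain ⟨s, hs, rfl⟩ := Submodule.mem_mul_span_singleton.mp hb'
  have hrv : r * v2 ∈ L i := by
    rw [hL i]
    exact Submodule.mem_sup_right hb
  have h1 : a * (a' + s * v2) ∈ A i * L i := Submodule.mul_mem_mul ha hy0
  have h2 : a' * (r * v2) ∈ A i * L i := Submodule.mul_mem_mul ha' hrv
  have h3 : v2 * v2 ∈ A i * L i :=
    Submodule.mul_le.mpr (fun p hp q hq =>
      Submodule.mul_mem_mul (Y5_H0_le A i hp) (Y5_H0_le L i hq)) hsq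
  have h4 : (r * s) • (v2 * v2) ∈ tw A L i :=
    smul_stable bAL i ((R i).mul_mem hr hs) (by
      change v2 * v2 ∈ A i • L i
      rwa [smul_eq_mul])
  have h4' : (r * s) • (v2 * v2) ∈ A i * L i := by
    change _ ∈ A i • L i at h4
    rwa [smul_eq_mul] at h4
  have e : (a + r * v2) * (a' + s * v2) =
      a * (a' + s * v2) + a' * (r * v2) + (r * s) • (v2 * v2) := by
    rw [smul_eq_mul]; ring
  rw [e]
  exact Submodule.add_mem _ (Submodule.add_mem _ h1 h2) h4'

/-- decomposition of a product of a pencil and a net -/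
private theorem Y5_dec {P Q : Submodule ℂ F} {a b v : F}
    (hP : P = Submodule.span ℂ {a} ⊔ Submodule.span ℂ {b})
    (hQ : Q = P ⊔ Submodule.span ℂ {v}) {x : F} (hx : x ∈ P * Q) :
    ∃ v' ∈ Q, ∃ c e : ℂ, x = a * v' + c • (b * b) + e • (b * v) := by
  have haP : a ∈ P := by
    rw [hP]; exact Submodule.mem_sup_left (Submodule.mem_span_singleton_self a)
  have hbP : b ∈ P := by
    rw [hP]; exact Submodule.mem_sup_right (Submodule.mem_span_singleton_self b)
  have hPQ : P ≤ Q := by rw [hQ]; exact le_sup_left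
  refine Submodule.mul_induction_on hx ?_ ?_
  · intro p hp q hq
    have hq0 := hq
    rw [hP] at hp
    obtain ⟨p1, hp1, p2, hp2, rfl⟩ := Submodule.mem_sup.mp hp
    obtain ⟨α, rfl⟩ := Submodule.mem_span_singleton.mp hp1
    obtain ⟨β, rfl⟩ := Submodule.mem_span_singleton.mp hp2
    rw [hQ, hP] at hq
    obtain ⟨q1, hq1, q2, hq2, rfl⟩ := Submodule.mem_sup.mp hq
    obtain ⟨γ, rfl⟩ := Submodule.mem_span_singleton.mp hq2
    obtain ⟨q3, hq3, q4, hq4, rfl⟩ := Submodule.mem_sup.mp hq1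
    obtain ⟨δ, rfl⟩ := Submodule.mem_span_singleton.mp hq3
    obtain ⟨ε, rfl⟩ := Submodule.mem_span_singleton.mp hq4
    refine ⟨α • (δ • a + ε • b + γ • v) + (β * δ) • b, ?_, β * ε, β * γ, ?_⟩
    · exact Q.add_mem (Q.smul_mem _ hq0) (Q.smul_mem _ (hPQ hbP))
    · simp only [Algebra.smul_def, map_mul]
      ring
  · rintro x y ⟨v1, h1, c1, e1, rfl⟩ ⟨v2, h2, c2, e2, rfl⟩
    refine ⟨v1 + v2, Q.add_mem h1 h2, c1 + c2, e1 + e2, ?_⟩
    simp only [Algebra.smul_def, map_add]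
    ring

private theorem Y5_gn (C : Ctx R K) {a l : F} (hli : LinearIndependent ℂ ![a, l]) :
    IsBdl R (gn R (Submodule.span ℂ {a, l}) : Lat F) ∧
      5 ≤ deg R (gn R (Submodule.span ℂ {a, l}) : Lat F) := by
  have G := C.good
  have ha : a ≠ 0 := by
    have := hli.ne_zero 0
    simpa using this
  haveI hfd : FiniteDimensional ℂ (Submodule.span ℂ ({a, l} : Set F)) :=
    FiniteDimensional.span_of_finite ℂ (Set.toFinite _)
  have hb : IsBdl R (gn R (Submodule.span ℂ {a, l}) : Lat F) := by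
    apply bdl_gn _ hfd
    rw [eq_top_iff]
    rintro x -
    have h1 : a ∈ Submodule.span F ((Submodule.span ℂ ({a, l} : Set F) : Submodule ℂ F) : Set F) :=
      Submodule.subset_span (Submodule.subset_span (by simp))
    have := Submodule.smul_mem _ (x * a⁻¹) h1
    rwa [smul_eq_mul, inv_mul_cancel_right₀ ha] at this
  refine ⟨hb, ?_⟩
  have hle : Submodule.span ℂ {a, l} ≤ H0 (gn R (Submodule.span ℂ {a, l}) : Lat F) := by
    have : ∀ i, Submodule.span ℂ ({a, l} : Set F) ≤ gn R (Submodule.span ℂ {a, l}) i := by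
      intro i x hx
      have h1 : (1 : F) ∈ Oo R i := (R i).one_mem
      have := Submodule.smul_mem_smul h1 hx
      rwa [one_smul] at this
    exact le_inf (this 0) (this 1)
  haveI : FiniteDimensional ℂ (H0 (gn R (Submodule.span ℂ {a, l}) : Lat F)) := (G.fin F _ hb).1
  have h2 : 2 ≤ h0 (gn R (Submodule.span ℂ {a, l}) : Lat F) := by
    have h3 := Submodule.finrank_mono hle
    have h4 : finrank ℂ (Submodule.span ℂ ({a, l} : Set F)) = 2 := by
      have h6 := finrank_span_eq_card hli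
      have hr : Set.range ![a, l] = {a, l} := by
        ext x
        constructor
        · rintro ⟨i, rfl⟩
          fin_cases i <;> simp
        · rintro (h | h)
          · exact ⟨0, h.symm⟩
          · exact ⟨1, (Set.mem_singleton_iff.mp h).symm⟩
      rw [hr] at h6
      simpa using h6
    have h5 : h0 (gn R (Submodule.span ℂ {a, l}) : Lat F) =
      finrank ℂ (H0 (gn R (Submodule.span ℂ {a, l}) : Lat F)) := rfl
    omega
  have := C.L2 _ hb 2 (by norm_num) (by exact_mod_cast h2)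
  have g9 := C.g9
  omega

theorem y5 (C : Ctx R K) {A L : Lat F} {a0 a1 : F} (Y : YC R A L a0 a1) :
    h0 (tw L (tw (inv R A) L)) ≤ 3 := by
  have G := C.good
  obtain ⟨bD, OD, hD, dD, hAL, hkL, hkAL, hkD, hkA⟩ := yc_basic C Y
  obtain ⟨v2, hv2, hv2A, hHL, hL⟩ := Y5_third C Y
  have bL := Y.bdlL
  have bA := Y.pen.bdl
  have g9 := C.g9
  set D := tw (inv R A) L with hDdef
  have bM : IsBdl R (tw L D) := bdl_tw bL bD
  have dM : deg R (tw L D) = 9 := by rw [deg_tw1 G bL bD, Y.degL, dD]; norm_num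
  by_contra hcon
  have hM5 : h0 (tw L D) ≤ 4 := by
    by_contra h5
    have := C.L2 _ bM 5 (by norm_num) (by omega)
    rw [dM] at this
    omega
  have hM4 : h0 (tw L D) = 4 := by omega
  -- step 1
  obtain ⟨hp, hHA⟩ := pencil_line C Y.pen Y.secA bM
  have bIM : IsBdl R (tw (inv R A) (tw L D)) := bdl_tw (bdl_inv G bA) bM
  have dIM : deg R (tw (inv R A) (tw L D)) = 4 := by
    rw [deg_tw1 G (bdl_inv G bA) bM, deg_inv G bA, Y.degA, dM]; norm_num
  have hIM : h0 (tw (inv R A) (tw L D)) ≤ 1 := by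
    by_contra h5
    have := C.L2 _ bIM 2 (by norm_num) (by omega)
    rw [dIM] at this
    omega
  have hAM : tw A (tw L D) = tw L L := by
    rw [tw_tw, tw_comm A L, ← tw_tw, hDdef, tw_inv_tw G bA bL]
  have bLL : IsBdl R (tw L L) := bdl_tw bL bL
  have dLL : deg R (tw L L) = 14 := by rw [deg_tw1 G bL bL, Y.degL]; norm_num
  have hLL : h0 (tw L L) ≤ 7 := by
    by_contra h5
    have := C.L2 _ bLL 8 (by norm_num) (by omega)
    rw [dLL] at this
    omega
  have hle1 : H0 A * H0 (tw L D) ≤ H0 (tw L L) := by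
    rw [← hAM]
    exact mul_H0_le _ _
  haveI : FiniteDimensional ℂ (H0 (tw L L)) := (G.fin F _ bLL).1
  haveI : FiniteDimensional ℂ (H0 (tw L D)) := (G.fin F _ bM).1
  haveI : FiniteDimensional ℂ (H0 L) := (G.fin F _ bL).1
  haveI : FiniteDimensional ℂ (H0 A) := (G.fin F _ bA).1
  have heq : H0 A * H0 (tw L D) = H0 (tw L L) := by
    apply Submodule.eq_of_le_of_finrank_le hle1
    have : h0 (tw L L) = finrank ℂ (H0 (tw L L)) := rfl
    omega
  -- step 2
  have hLM : H0 L ≤ H0 (tw L D) := by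
    have : ∀ i, L i ≤ tw L D i := by
      intro i x hx
      have h1 : (1 : F) ∈ D i := OD i (R i).one_mem
      have h2 : x * 1 ∈ L i * D i := Submodule.mul_mem_mul hx h1
      rw [mul_one] at h2
      exact h2
    exact fun x hx => ⟨this 0 hx.1, this 1 hx.2⟩
  have hlt : H0 L < H0 (tw L D) := by
    refine lt_of_le_of_ne hLM (fun h => ?_)
    have e1 : finrank ℂ (H0 L) = 3 := Y.secL
    have e2 : finrank ℂ (H0 (tw L D)) = 4 := hM4
    rw [h] at e1
    omega
  obtain ⟨τ, hτ, hτ'⟩ := Set.exists_of_ssubset hlt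
  have hτL : τ ∉ H0 L := hτ'
  have hHM : H0 (tw L D) = H0 L ⊔ Submodule.span ℂ {τ} := by
    symm
    apply Submodule.eq_of_le_of_finrank_le
    · exact sup_le hLM ((Submodule.span_singleton_le_iff_mem _ _).mpr hτ)
    · haveI : FiniteDimensional ℂ (Submodule.span ℂ ({τ} : Set F)) := inferInstance
      have hlt2 : H0 L < H0 L ⊔ Submodule.span ℂ {τ} := by
        refine lt_of_le_of_ne le_sup_left (fun h => hτL ?_)
        rw [h]
        exact Submodule.mem_sup_right (Submodule.mem_span_singleton_self τ)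
      have := Submodule.finrank_lt_finrank_of_lt hlt2
      have e1 : finrank ℂ (H0 L) = 3 := Y.secL
      have e2 : finrank ℂ (H0 (tw L D)) = 4 := hM4
      omega
  have hsq : v2 * v2 ∈ H0 (tw L L) := mul_H0_le _ _ (Submodule.mul_mem_mul hv2 hv2)
  rw [← heq, hHM, Submodule.mul_sup] at hsq
  obtain ⟨η, hη, y, hy, hηy⟩ := Submodule.mem_sup.mp hsq
  obtain ⟨a', ha', rfl⟩ := Submodule.mem_mul_span_singleton.mp hy
  -- step 3
  have ha'0 : a' ≠ 0 := by
    rintro rfl
    rw [zero_mul, add_zero] at hηy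
    rw [hηy] at hη
    have h1 := Y5_sub C Y hv2 hL hη
    have h2 := deg_mono G bLL (bdl_tw bA bL) h1
    rw [dLL, deg_tw1 G bA bL, Y.degA, Y.degL] at h2
    omega
  -- step 4
  have hsp : Submodule.span ℂ {a'} < H0 A := by
    refine lt_of_le_of_ne ((Submodule.span_singleton_le_iff_mem _ _).mpr ha') (fun h => ?_)
    have e1 : finrank ℂ (H0 A) = 2 := Y.secA
    rw [← h, finrank_span_singleton ha'0] at e1
    omega
  obtain ⟨a'', ha'', ha3⟩ := Set.exists_of_ssubset hsp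
  have ha3' : a'' ∉ Submodule.span ℂ {a'} := ha3
  have hHA2 : H0 A = Submodule.span ℂ {a'} ⊔ Submodule.span ℂ {a''} := by
    symm
    apply Submodule.eq_of_le_of_finrank_le
    · exact sup_le hsp.le ((Submodule.span_singleton_le_iff_mem _ _).mpr ha'')
    · haveI : FiniteDimensional ℂ (Submodule.span ℂ ({a'} : Set F)) := inferInstance
      haveI : FiniteDimensional ℂ (Submodule.span ℂ ({a''} : Set F)) := inferInstance
      have hlt2 : Submodule.span ℂ {a'} < Submodule.span ℂ {a'} ⊔ Submodule.span ℂ {a''} := by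
        refine lt_of_le_of_ne le_sup_left (fun h => ha3' ?_)
        rw [h]
        exact Submodule.mem_sup_right (Submodule.mem_span_singleton_self a'')
      have := Submodule.finrank_lt_finrank_of_lt hlt2
      have e1 : finrank ℂ (H0 A) = 2 := Y.secA
      rw [finrank_span_singleton ha'0] at this
      omega
  obtain ⟨v', hv', c, e, hdec⟩ := Y5_dec hHA2 hHL hη
  obtain ⟨s, hs⟩ : ∃ s : ℂ, s ^ 2 = e ^ 2 + 4 * c :=
    IsAlgClosed.exists_pow_nat_eq _ (by norm_num)
  set μ := (e + s) / 2 with hμ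
  set ν := (e - s) / 2 with hν
  have hsum : μ + ν = e := by rw [hμ, hν]; ring
  have hprod : μ * ν = -c := by
    rw [hμ, hν]
    linear_combination (-1/4 : ℂ) * hs
  have hlne : ∀ t : ℂ, LinearIndependent ℂ ![a', v2 - t • a''] := by
    intro t
    rw [LinearIndependent.pair_iff]
    intro p q hpq
    have hq : q = 0 := by
      by_contra hq
      apply hv2A
      have h1 : q • v2 = (q * t) • a'' - p • a' := by
        rw [smul_sub, smul_smul] at hpq
        rw [← sub_eq_zero, ← hpq]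
        abel
      have h2 : v2 = q⁻¹ • ((q * t) • a'' - p • a') := by
        rw [← h1, smul_smul, inv_mul_cancel₀ hq, one_smul]
      rw [h2]
      exact (H0 A).smul_mem _ ((H0 A).sub_mem ((H0 A).smul_mem _ ha'') ((H0 A).smul_mem _ ha'))
    subst hq
    rw [zero_smul, add_zero] at hpq
    exact ⟨(smul_eq_zero.mp hpq).resolve_right ha'0, rfl⟩
  obtain ⟨b1, d1⟩ := Y5_gn C (hlne μ)
  obtain ⟨b2, d2⟩ := Y5_gn C (hlne ν)
  set m := τ + v' with hm
  have hmM : m ∈ H0 (tw L D) := (H0 (tw L D)).add_mem hτ (hLM hv')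
  have hll : (v2 - μ • a'') * (v2 - ν • a'') = a' * m := by
    have h1 : v2 * v2 = a' * v' + c • (a'' * a'') + e • (a'' * v2) + a' * τ := by
      rw [← hηy, hdec]
    have h2 : (v2 - μ • a'') * (v2 - ν • a'') =
        v2 * v2 - (μ + ν) • (a'' * v2) + (μ * ν) • (a'' * a'') := by
      simp only [Algebra.smul_def, map_mul, map_add]
      ring
    rw [h2, hsum, hprod, h1, hm, neg_smul]
    ring
  have hA_M : ∀ x ∈ H0 A, x ∈ H0 (tw L D) := fun x hx => hLM ⟨Y.le 0 hx.1, Y.le 1 hx.2⟩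
  have hlM : ∀ t : ℂ, v2 - t • a'' ∈ H0 (tw L D) := fun t =>
    (H0 (tw L D)).sub_mem (hLM hv2) ((H0 (tw L D)).smul_mem _ (hA_M _ ha''))
  have bsc : IsBdl R (sc a' (tw L D)) := bdl_sc bM ha'0
  have hfin : ∀ i, tw (gn R (Submodule.span ℂ {a', v2 - μ • a''}))
      (gn R (Submodule.span ℂ {a', v2 - ν • a''})) i ≤ sc a' (tw L D) i := by
    intro i
    have hmem : ∀ x ∈ H0 (tw L D), a' * x ∈ sc a' (tw L D) i := fun x hx =>
      ⟨x, Y5_H0_le _ i hx, rfl⟩
    change (Oo R i • Submodule.span ℂ {a', v2 - μ • a''}) •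
      (Oo R i • Submodule.span ℂ {a', v2 - ν • a''}) ≤ _
    simp only [smul_eq_mul]
    rw [mul_mul_mul_comm, O_mul_O, Submodule.span_mul_span, Submodule.mul_le]
    intro r hr x hx
    have : r • x ∈ sc a' (tw L D) i := by
      apply smul_stable bsc i hr
      refine Submodule.span_le.mpr ?_ hx
      rintro _ ⟨p, hp, q, hq, rfl⟩
      simp only [Set.mem_insert_iff, Set.mem_singleton_iff] at hp hq
      change p * q ∈ sc a' (tw L D) i
      rcases hp with rfl | rfl <;> rcases hq with rfl | rfl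
      · exact hmem _ (hA_M _ ha')
      · exact hmem _ (hlM ν)
      · rw [mul_comm]; exact hmem _ (hlM μ)
      · rw [hll]; exact hmem _ hmM
    simpa [smul_eq_mul] using this
  have h10 := deg_mono G (bdl_tw b1 b2) bsc hfin
  rw [deg_tw1 G b1 b2, deg_sc _ ha'0, dM] at h10
  omega

end CLF
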