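import Pool.Agent.CLF.Y5

/-!
# Module Y6: `H0 L * H0 (K L⁻¹) = H0 K`

`D = tw (inv A) L`.  PROOF. `H0 L * H0 (kd K L) ≤ H0 (tw L (kd K L)) = H0 K`.
`H0 L = span {a0,a1,v2}`, `L i = A i + Oo R i v2` (`genL`, `H0 A = span {a0, a1}`).
`H0 A * H0 (kd K L) = H0 (kd K D)` (`y2`), of dimension `g - 2`, and `kd K D ≤ K` (as `Oo ≤ D`).
The map `h ↦ v2 h`, `H0 (kd K L) → F / H0 (kd K D)` has kernel `H0 (kd K (tw L D))`:
if `v2 h ∈ kd K D i` and `h ∈ kd K L i` then `h A i ≤ kd K D i` (as `tw A (kd K L) = kd K D`), so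
`h L i ≤ kd K D i`, i.e. `h ∈ kd (kd K D) L i = kd K (tw L D) i`; the other inclusion is clear.
`h0 (kd K (tw L D)) = h0 (tw L D) - (9 + 1 - g) ≤ 3 - 10 + g = g - 7` (`rr1`, `y5`), `h0 (kd K L) = g - 5`.
So the image has dimension `≥ 2`, and `dim (H0 L * H0 (kd K L)) ≥ (g-2) + 2 = g = h0 K` (`h0_K`).
-/

open Module

namespace CLF

universe u

variable {F : Type u} [Field F] [Algebra ℂ F] {R : Fin 2 → Subalgebra ℂ F} {K : Lat F}
variable {V : Type u} [AddCommGroup V] [Module ℂ V] [Module F V] [IsScalarTower ℂ F V]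
  [FiniteDimensional F V]

private theorem Y6_fin (P Q : Submodule ℂ F) (h : Q ≤ P) [FiniteDimensional ℂ P] :
    finrank ℂ (P.map Q.mkQ) + finrank ℂ Q = finrank ℂ P := by
  have h1 := LinearMap.finrank_range_add_finrank_ker (Q.mkQ.comp P.subtype)
  have h2 : LinearMap.range (Q.mkQ.comp P.subtype) = P.map Q.mkQ := by
    rw [LinearMap.range_comp, Submodule.range_subtype]
  have h3 : LinearMap.ker (Q.mkQ.comp P.subtype) = Q.comap P.subtype := by
    rw [LinearMap.ker_comp, Submodule.ker_mkQ]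
  rw [h2, h3] at h1
  have h4 : finrank ℂ (Q.comap P.subtype) = finrank ℂ Q :=
    (Submodule.comapSubtypeEquivOfLe h).finrank_eq
  rw [h4] at h1
  exact h1

theorem y6 (C : Ctx R K) {A L : Lat F} {a0 a1 : F} (Y : YC R A L a0 a1) :
    H0 L * H0 (kd K L) = H0 K := by
  have G := C.good
  obtain ⟨bD, OD, hD, dD, hAL, hkL, hkAL, hkD, hkA⟩ := yc_basic C Y
  have hy2 := y2 C Y
  have hy5 := y5 C Y
  obtain ⟨v2, hv2, -, hHL, hL⟩ := Y5_third C Y
  obtain ⟨-, hHA⟩ := pencil_line C Y.pen Y.secA Y.bdlL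
  set D := tw (inv R A) L with hDdef
  have bL := Y.bdlL
  have bA := Y.pen.bdl
  have bK := G.Kb
  have bkL : IsBdl R (kd K L) := bdl_kd G bL
  have bkD : IsBdl R (kd K D) := bdl_kd G bD
  have hle1 : H0 L * H0 (kd K L) ≤ H0 K := by
    rw [Submodule.mul_le]
    intro x hx y hy
    refine ⟨?_, ?_⟩
    · have := Submodule.mem_div_iff_forall_mul_mem.mp hy.1 x hx.1
      rwa [mul_comm] at this
    · have := Submodule.mem_div_iff_forall_mul_mem.mp hy.2 x hx.2
      rwa [mul_comm] at this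
  haveI : FiniteDimensional ℂ (H0 K) := (G.fin F K bK).1
  haveI : FiniteDimensional ℂ (H0 (kd K L)) := (G.fin F _ bkL).1
  haveI : FiniteDimensional ℂ (H0 (kd K D)) := (G.fin F _ bkD).1
  apply Submodule.eq_of_le_of_finrank_le hle1
  have hK : finrank ℂ (H0 K) = genus R := h0_K G
  rw [hK]
  -- the map
  let m : H0 (kd K L) →ₗ[ℂ] F ⧸ H0 (kd K D) :=
    (H0 (kd K D)).mkQ.comp ((LinearMap.mulLeft ℂ v2).comp (H0 (kd K L)).subtype)
  have hker : finrank ℂ (LinearMap.ker m) ≤ h0 (kd K (tw L D)) := by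
    haveI : FiniteDimensional ℂ (H0 (kd K (tw L D))) := (G.fin F _ (bdl_kd G (bdl_tw bL bD))).1
    have hsub : (LinearMap.ker m).map (H0 (kd K L)).subtype ≤ H0 (kd K (tw L D)) := by
      rintro x ⟨⟨h, hh⟩, hx, rfl⟩
      have hx' : v2 * h ∈ H0 (kd K D) := by
        have : (H0 (kd K D)).mkQ (v2 * h) = 0 := hx
        rwa [Submodule.mkQ_apply, Submodule.Quotient.mk_eq_zero] at this
      have key : ∀ i, h ∈ kd K L i → v2 * h ∈ kd K D i → h ∈ kd K (tw L D) i := by
        intro i h1 h2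
        rw [kd, Submodule.mem_div_iff_forall_mul_mem]
        intro y hy
        change y ∈ L i • D i at hy
        rw [smul_eq_mul] at hy
        refine Submodule.mul_induction_on hy ?_ ?_
        · intro l hl d hd
          rw [hL i] at hl
          obtain ⟨a, ha, b, hb, rfl⟩ := Submodule.mem_sup.mp hl
          have e1 : h * (a * d) ∈ K i := by
            -- a * d ∈ L i
            have had : a • d ∈ L i := (mem_inv_tw G bA bL i d).mp hd a ha
            have := Submodule.mem_div_iff_forall_mul_mem.mp h1 _ had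
            simpa [smul_eq_mul] using this
          have e2 : h * (b * d) ∈ K i := by
            obtain ⟨r, hr, rfl⟩ := Submodule.mem_mul_span_singleton.mp hb
            have h3 := Submodule.mem_div_iff_forall_mul_mem.mp h2 (r * d) (by
              have := smul_stable bD i (r := r) hr hd
              simpa [smul_eq_mul] using this)
            have : h * (r * v2 * d) = v2 * h * (r * d) := by ring
            rw [this]
            exact h3
          have : h * ((a + b) * d) = h * (a * d) + h * (b * d) := by ring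
          rw [this]
          exact (K i).add_mem e1 e2
        · intro x y hx hy
          rw [mul_add]
          exact (K i).add_mem hx hy
      exact ⟨key 0 hh.1 hx'.1, key 1 hh.2 hx'.2⟩
    have h1 : finrank ℂ ((LinearMap.ker m).map (H0 (kd K L)).subtype) =
        finrank ℂ (LinearMap.ker m) :=
      (Submodule.equivMapOfInjective _ (Submodule.subtype_injective _) _).finrank_eq.symm
    rw [← h1]
    exact Submodule.finrank_mono hsub
  have hrn := LinearMap.finrank_range_add_finrank_ker m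
  have hkLr : finrank ℂ (H0 (kd K L)) = h0 (kd K L) := rfl
  have hdLD : deg R (tw L D) = 9 := by
    rw [deg_tw1 G bL bD, Y.degL, dD]; norm_num
  have hrr := rr1 G (bdl_tw bL bD)
  rw [hdLD] at hrr
  -- range of m is contained in the image of H0 L * H0 (kd K L)
  have hrange : LinearMap.range m ≤ (H0 L * H0 (kd K L)).map (H0 (kd K D)).mkQ := by
    rintro _ ⟨⟨h, hh⟩, rfl⟩
    exact ⟨v2 * h, Submodule.mul_mem_mul hv2 hh, rfl⟩
  have hkDle : H0 (kd K D) ≤ H0 L * H0 (kd K L) := by
    rw [← hy2]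
    exact Submodule.mul_le.mpr (fun p hp q hq =>
      Submodule.mul_mem_mul ⟨Y.le 0 hp.1, Y.le 1 hp.2⟩ hq)
  haveI : FiniteDimensional ℂ (H0 L * H0 (kd K L) : Submodule ℂ F) :=
    Submodule.finiteDimensional_of_le hle1
  have h4 := Y6_fin (H0 L * H0 (kd K L)) (H0 (kd K D)) hkDle
  have h5 : finrank ℂ (LinearMap.range m) ≤
      finrank ℂ ((H0 L * H0 (kd K L)).map (H0 (kd K D)).mkQ) := Submodule.finrank_mono hrange
  have h6 : finrank ℂ (H0 (kd K D)) = h0 (kd K D) := rfl
  omega

end CLF
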