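import Pool.Agent.CLF.Y6

/-!
# Module Y7: the multiplication map of `L` and `K A⁻¹`

PROOF. `A ≤ L` so `kd K L ≤ kd K A` (`kd_mono`) and `H0 L * H0 (kd K A) ≥ H0 L * H0 (kd K L) = H0 K` (`y6`).
`h0 (kd K A) = g - 4 > g - 5 = h0 (kd K L)`: choose `h ∈ H0 (kd K A)`, `h ∉ H0 (kd K L)`.
With `H0 L = span {a0,a1,v2}`, `L i = A i + Oo R i v2`: if `v2 h ∈ K i` for both `i` then (as `h A i ≤ K i`)
`h L i ≤ K i`, i.e. `h ∈ H0 (kd K L)`: no.  So `v2 h ∈ H0 L * H0 (kd K A)` is not in `H0 K` and the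
dimension is at least `g + 1` (finite dimensional: products of finite dimensional spaces).
-/

open Module

namespace CLF

universe u

variable {F : Type u} [Field F] [Algebra ℂ F] {R : Fin 2 → Subalgebra ℂ F} {K : Lat F}
variable {V : Type u} [AddCommGroup V] [Module ℂ V] [Module F V] [IsScalarTower ℂ F V]
  [FiniteDimensional F V]

theorem y7 (C : Ctx R K) {A L : Lat F} {a0 a1 : F} (Y : YC R A L a0 a1) :
    genus R + 1 ≤ finrank ℂ (H0 L * H0 (kd K A) : Submodule ℂ F) := by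
  have G := C.good
  obtain ⟨bD, OD, hD, dD, hAL, hkL, hkAL, hkD, hkA⟩ := yc_basic C Y
  obtain ⟨v2, hv2, -, hHL, hL⟩ := Y5_third C Y
  have bL := Y.bdlL
  have bA := Y.pen.bdl
  have bK := G.Kb
  have bkL : IsBdl R (kd K L) := bdl_kd G bL
  have bkA : IsBdl R (kd K A) := bdl_kd G bA
  have hmono := kd_mono (K := K) Y.le
  have hle : H0 (kd K L) ≤ H0 (kd K A) := fun x hx => ⟨hmono 0 hx.1, hmono 1 hx.2⟩
  haveI : FiniteDimensional ℂ (H0 K) := (G.fin F K bK).1
  haveI : FiniteDimensional ℂ (H0 (kd K L)) := (G.fin F _ bkL).1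
  haveI : FiniteDimensional ℂ (H0 (kd K A)) := (G.fin F _ bkA).1
  haveI : FiniteDimensional ℂ (H0 L) := (G.fin F _ bL).1
  have hlt : H0 (kd K L) < H0 (kd K A) := by
    refine lt_of_le_of_ne hle (fun h => ?_)
    have e1 : finrank ℂ (H0 (kd K L)) = h0 (kd K L) := rfl
    have e2 : finrank ℂ (H0 (kd K A)) = h0 (kd K A) := rfl
    rw [h] at e1
    omega
  obtain ⟨h, hh, hh'⟩ := Set.exists_of_ssubset hlt
  have hh'' : h ∉ H0 (kd K L) := hh'
  have hKle : H0 K ≤ H0 L * H0 (kd K A) := by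
    rw [← y6 C Y]
    exact Submodule.mul_le.mpr (fun p hp q hq => Submodule.mul_mem_mul hp (hle hq))
  have hnot : v2 * h ∉ H0 K := by
    intro hv
    apply hh''
    have key : ∀ i, h ∈ kd K A i → v2 * h ∈ K i → h ∈ kd K L i := by
      intro i h1 h2
      rw [kd, Submodule.mem_div_iff_forall_mul_mem]
      intro y hy
      rw [hL i] at hy
      obtain ⟨a, ha, b, hb, rfl⟩ := Submodule.mem_sup.mp hy
      obtain ⟨r, hr, rfl⟩ := Submodule.mem_mul_span_singleton.mp hb
      have h3 := Submodule.mem_div_iff_forall_mul_mem.mp h1 a ha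
      have h4 := smul_stable bK i (r := r) hr h2
      have : h * (a + r * v2) = h * a + r • (v2 * h) := by
        rw [smul_eq_mul]; ring
      rw [this]
      exact (K i).add_mem h3 h4
    exact ⟨key 0 hh.1 hv.1, key 1 hh.2 hv.2⟩
  haveI : FiniteDimensional ℂ (H0 L * H0 (kd K A) : Submodule ℂ F) :=
    Submodule.fg_iff_finiteDimensional _ |>.mp
      (Submodule.FG.mul ((Submodule.fg_iff_finiteDimensional _).mpr inferInstance)
        ((Submodule.fg_iff_finiteDimensional _).mpr inferInstance))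
  have hlt2 : H0 K < H0 L * H0 (kd K A) := by
    refine lt_of_le_of_ne hKle (fun he => hnot ?_)
    rw [he]
    exact Submodule.mul_mem_mul hv2 hh
  have h5 := Submodule.finrank_lt_finrank_of_lt hlt2
  have h6 : finrank ℂ (H0 K) = genus R := h0_K G
  omega

end CLF
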