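import Pool.Agent.CLF.Num
import Pool.Agent.CLF.SpanPen
import Pool.Agent.CLF.Inv2

/-!
# Module YC: a degree five pencil inside a degree seven net (first facts)

Notation: `D := tw (inv R A) L` (degree 2), `A ≤ L`.
PROOFS.
`yc_basic`: `inv A ≤`... since `A ≤ L`, `1 ∈ D i` (for `a ∈ A i`, `1 * a ∈ L i`, `mem_inv_tw`), so `Oo R ≤ D`, `h0 D ≥ 1`,
`deg D = 2` so `h0 D ≤ 1` (L2).  `tw A D = L` (`tw_inv_tw`), `deg (tw L D) = 9`.
`tw A L`: degree 12, `h0 ≤ 5` (L2, `h = 6`: 13); `pencil_le`/`pencil_line` (for `L`): `2*3 ≤ h0 (tw A L) + h0 D`, so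
`h0 (tw A L) = 5`.
`rr1`: `h0 (kd K L) = 3 - (7+1-g) = g - 5`; `h0 (kd K (tw A L)) = 5 - (13 - g) = g - 8`;
`h0 (kd K D) = 1 - (3 - g) = g - 2`; `h0 (kd K A) = 2 - (6-g) = g - 4`.
`y2`: `H0 A * H0 (kd K L) ≤ H0 (tw A (kd K L))` and `tw A (kd K L) = kd K D` (`kd_eq`, `kd_tw`, `tw_comm`, `inv_tw`, ...:
both are `K L⁻¹ A`).  Dimension: `pencil_line` for `kd K L`: `2 (g-5) - h0 (tw (inv A) (kd K L))`, and
`tw (inv A) (kd K L) = kd K (tw A L)` (up to `tw_comm`, `kd_tw`), `h0 = g - 8`.  So `dim = g - 2 = h0 (kd K D)`: equality.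
-/

open Module

namespace CLF

universe u

variable {F : Type u} [Field F] [Algebra ℂ F] {R : Fin 2 → Subalgebra ℂ F} {K : Lat F}
variable {V : Type u} [AddCommGroup V] [Module ℂ V] [Module F V] [IsScalarTower ℂ F V]
  [FiniteDimensional F V]

/-- a degree five pencil inside a generated degree seven net -/
structure YC (R : Fin 2 → Subalgebra ℂ F) (A L : Lat F) (a0 a1 : F) : Prop where
  pen : IsPencil R A a0 a1
  degA : deg R A = 5
  secA : h0 A = 2
  bdlL : IsBdl R L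
  degL : deg R L = 7
  secL : h0 L = 3
  genL : ∀ i, L i = Oo R i * H0 L
  le : ∀ i, A i ≤ L i

theorem yc_basic (C : Ctx R K) {A L : Lat F} {a0 a1 : F} (Y : YC R A L a0 a1) :
    IsBdl R (tw (inv R A) L) ∧ (∀ i, Oo R i ≤ tw (inv R A) L i) ∧
    h0 (tw (inv R A) L) = 1 ∧ deg R (tw (inv R A) L) = 2 ∧ h0 (tw A L) = 5 ∧
    (h0 (kd K L) : ℤ) = (genus R : ℤ) - 5 ∧ (h0 (kd K (tw A L)) : ℤ) = (genus R : ℤ) - 8 ∧
    (h0 (kd K (tw (inv R A) L)) : ℤ) = (genus R : ℤ) - 2 ∧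
    (h0 (kd K A) : ℤ) = (genus R : ℤ) - 4 := by
  have G := C.good
  have g9 := C.g9
  have g9' : (9 : ℤ) ≤ (genus R : ℤ) := by exact_mod_cast g9
  have hA : IsBdl R A := Y.pen.bdl
  have hL : IsBdl R L := Y.bdlL
  have hD : IsBdl R (tw (inv R A) L) := bdl_tw (bdl_inv G hA) hL
  have hAL : IsBdl R (tw A L) := bdl_tw hA hL
  have hO : ∀ i, Oo R i ≤ tw (inv R A) L i := by
    intro i x hx
    rw [mem_inv_tw G hA hL]
    intro a ha
    apply Y.le i
    have h1 : x • a ∈ A i := smul_stable hA i hx ha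
    rw [smul_eq_mul, mul_comm] at h1
    rwa [smul_eq_mul]
  have hdD : deg R (tw (inv R A) L) = 2 := by
    rw [deg_tw1 G (bdl_inv G hA) hL, deg_inv G hA, Y.degA, Y.degL]
    norm_num
  have hD1 : h0 (tw (inv R A) L) = 1 := by
    have h1 : 1 ≤ h0 (tw (inv R A) L) := by
      rw [← h0_O G]
      exact h0_mono G hD hO
    by_contra hne
    have h5 : 2 ≤ h0 (tw (inv R A) L) := by omega
    have h6 := C.L2 _ hD 2 (by norm_num) (by exact_mod_cast h5)
    rw [hdD] at h6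
    rcases min_le_iff.1 h6 with h | h <;> linarith
  have hdAL : deg R (tw A L) = 12 := by
    rw [deg_tw1 G hA hL, Y.degA, Y.degL]
    norm_num
  have hAL5 : h0 (tw A L) = 5 := by
    have h1 : a0 ≠ 0 := by
      have := Y.pen.ind.ne_zero 0
      simpa using this
    have h2 := pencil_le G hA h1 Y.pen.gen hL
    rw [Y.secL, hD1] at h2
    by_contra hne
    have h5 : 6 ≤ h0 (tw A L) := by omega
    have h6 := C.L2 _ hAL 6 (by norm_num) (by exact_mod_cast h5)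
    rw [hdAL] at h6
    rcases min_le_iff.1 h6 with h | h <;> linarith
  refine ⟨hD, hO, hD1, hdD, hAL5, ?_, ?_, ?_, ?_⟩
  · have h1 := rr1 G hL
    rw [Y.secL, Y.degL] at h1
    push_cast at h1
    linarith
  · have h1 := rr1 G hAL
    rw [hAL5, hdAL] at h1
    push_cast at h1
    linarith
  · have h1 := rr1 G hD
    rw [hD1, hdD] at h1
    push_cast at h1
    linarith
  · have h1 := rr1 G hA
    rw [Y.secA, Y.degA] at h1
    push_cast at h1
    linarith

theorem y2 (C : Ctx R K) {A L : Lat F} {a0 a1 : F} (Y : YC R A L a0 a1) :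
    H0 A * H0 (kd K L) = H0 (kd K (tw (inv R A) L)) := by
  have G := C.good
  have hA : IsBdl R A := Y.pen.bdl
  have hL : IsBdl R L := Y.bdlL
  obtain ⟨hD, -, -, -, -, hkL, hkAL, hkD, -⟩ := yc_basic C Y
  have hkLb : IsBdl R (kd K L) := bdl_kd G hL
  have h1 : kd K (tw (inv R A) L) = tw A (kd K L) := by
    rw [kd_tw G (bdl_inv G hA) hL, kd_inv G hA, kd_eq G hL, tw_tw, tw_tw, tw_comm A]
  have hle : H0 A * H0 (kd K L) ≤ H0 (kd K (tw (inv R A) L)) := by
    rw [h1]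
    exact mul_H0_le A (kd K L)
  have : FiniteDimensional ℂ (H0 (kd K (tw (inv R A) L))) :=
    (G.fin F _ (bdl_kd G hD)).1
  refine Submodule.eq_of_le_of_finrank_eq hle ?_
  have h2 := (pencil_line C Y.pen Y.secA hkLb).1
  have h3 : tw (inv R A) (kd K L) = kd K (tw A L) := by
    rw [tw_comm A L, kd_tw G hL hA]
  rw [h3] at h2
  have h4 : (finrank ℂ (H0 A * H0 (kd K L) : Submodule ℂ F) : ℤ) + (h0 (kd K (tw A L)) : ℤ)
      = 2 * (h0 (kd K L) : ℤ) := by exact_mod_cast h2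
  have h5 : (finrank ℂ (H0 A * H0 (kd K L) : Submodule ℂ F) : ℤ) =
      (h0 (kd K (tw (inv R A) L)) : ℤ) := by
    rw [hkL, hkAL] at h4
    rw [hkD]
    linarith
  exact_mod_cast h5

end CLF
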